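import Mathlib

set_option autoImplicit false

open Polynomial Filter Topology

namespace H26E

/-- `P = ℘`, `Q = ℘'` for the hexagonal lattice `Λ = ℤ + ℤ ζ` -/
structure Kit (P Q : ℂ → ℂ) (Λ : AddSubgroup ℂ) (ζ g : ℂ) : Prop where
  hζ : ζ ^ 2 + ζ + 1 = 0
  mem : ∀ z, z ∈ Λ ↔ ∃ m n : ℤ, z = (m : ℂ) + (n : ℂ) * ζ
  closed : IsClosed (Λ : Set ℂ)
  disc : ∀ z₀ : ℂ, ∀ᶠ z in 𝓝[≠] z₀, z ∉ Λ
  dP : ∀ z, z ∉ Λ → HasDerivAt P (Q z) z
  dQ : ∀ z, z ∉ Λ → HasDerivAt Q (6 * P z ^ 2) z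
  perP : ∀ z, ∀ l ∈ Λ, P (z + l) = P z
  perQ : ∀ z, ∀ l ∈ Λ, Q (z + l) = Q z
  evenP : ∀ z, P (-z) = P z
  oddQ : ∀ z, Q (-z) = -Q z
  ode : ∀ z, z ∉ Λ → Q z ^ 2 = 4 * P z ^ 3 - g
  zP : ∀ z, P (ζ * z) = ζ * P z
  zQ : ∀ z, Q (ζ * z) = Q z
  surj : ∀ x, ∃ z, z ∉ Λ ∧ P z = x
  inj : ∀ a b, a ∉ Λ → b ∉ Λ → P a = P b → a - b ∈ Λ ∨ a + b ∈ Λ
  Qne : ∀ z, 2 * z ∉ Λ → Q z ≠ 0
  poleP : Tendsto (fun z => z ^ 2 * P z) (𝓝[≠] 0) (𝓝 1)
  poleQ : Tendsto (fun z => z ^ 3 * Q z) (𝓝[≠] 0) (𝓝 (-2))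
  add : ∀ z w, z ∉ Λ → w ∉ Λ → P z ≠ P w →
    P (z + w) = -P z - P w + ((Q z - Q w) / (2 * (P z - P w))) ^ 2 ∧
    Q (z + w) = -Q w - (Q z - Q w) / (P z - P w) * (P (z + w) - P w)
  dup : ∀ z, z ∉ Λ → 2 * z ∉ Λ →
    P (2 * z) = -2 * P z + 9 * P z ^ 4 / Q z ^ 2 ∧
    Q (2 * z) = -Q z - 6 * P z ^ 2 / Q z * (P (2 * z) - P z)

/-- holds on a punctured neighbourhood of every point -/
def AE (p : ℂ → Prop) : Prop := ∀ z₀ : ℂ, ∀ᶠ z in 𝓝[≠] z₀, p z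

/-- the meromorphic function `g` is the rational function `A / B` of `P` -/
def Rep (P g : ℂ → ℂ) (A B : ℂ[X]) : Prop :=
  AE (fun z => B.eval (P z) ≠ 0 ∧ g z = A.eval (P z) / B.eval (P z))

def IsRat (P g : ℂ → ℂ) : Prop := ∃ A B : ℂ[X], Rep P g A B

/-- the odd elliptic function `U_N` -/
noncomputable def Uf (Q : ℂ → ℂ) (c : ℂ) (N : ℕ) (z : ℂ) : ℂ :=
  c * (Q (N * z) - Q z) / (c ^ 2 - Q (N * z) * Q z)

theorem AE.and {p q : ℂ → Prop} (hp : AE p) (hq : AE q) : AE (fun z => p z ∧ q z) :=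
  fun z₀ => (hp z₀).and (hq z₀)

theorem AE.mono {p q : ℂ → Prop} (hp : AE p) (h : ∀ z, p z → q z) : AE q :=
  fun z₀ => (hp z₀).mono h

theorem AE.of_forall {p : ℂ → Prop} (h : ∀ z, p z) : AE p := fun _ => Eventually.of_forall h

theorem Rep.congr {P g h : ℂ → ℂ} {A B : ℂ[X]} (hg : Rep P g A B) (e : AE (fun z => h z = g z)) :
    Rep P h A B :=
  (AE.and hg e).mono fun z hz => ⟨hz.1.1, by rw [hz.2]; exact hz.1.2⟩

theorem IsRat.congr {P g h : ℂ → ℂ} (hg : IsRat P g) (e : AE (fun z => h z = g z)) : IsRat P h := by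
  obtain ⟨A, B, hAB⟩ := hg
  exact ⟨A, B, hAB.congr e⟩

theorem IsRat.const (P : ℂ → ℂ) (a : ℂ) : IsRat P (fun _ => a) :=
  ⟨C a, 1, AE.of_forall fun z => by simp⟩

theorem IsRat.self (P : ℂ → ℂ) : IsRat P (fun z => P z) :=
  ⟨X, 1, AE.of_forall fun z => by simp⟩

theorem IsRat.add {P g h : ℂ → ℂ} (hg : IsRat P g) (hh : IsRat P h) :
    IsRat P (fun z => g z + h z) := by
  obtain ⟨A, B, h1⟩ := hg
  obtain ⟨C, D, h2⟩ := hh
  refine ⟨A * D + C * B, B * D, (h1.and h2).mono fun z hz => ?_⟩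
  obtain ⟨⟨a, b⟩, c, d⟩ := hz
  refine ⟨by simp [a, c], ?_⟩
  beta_reduce
  rw [b, d]
  simp only [eval_add, eval_mul]
  field_simp

theorem IsRat.mul {P g h : ℂ → ℂ} (hg : IsRat P g) (hh : IsRat P h) :
    IsRat P (fun z => g z * h z) := by
  obtain ⟨A, B, h1⟩ := hg
  obtain ⟨C, D, h2⟩ := hh
  refine ⟨A * C, B * D, (h1.and h2).mono fun z hz => ?_⟩
  obtain ⟨⟨a, b⟩, c, d⟩ := hz
  refine ⟨by simp [a, c], ?_⟩
  beta_reduce
  rw [b, d]
  simp only [eval_mul]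
  field_simp

theorem IsRat.neg {P g : ℂ → ℂ} (hg : IsRat P g) : IsRat P (fun z => - g z) := by
  have := (IsRat.const P (-1)).mul hg
  simpa using this

theorem IsRat.sub {P g h : ℂ → ℂ} (hg : IsRat P g) (hh : IsRat P h) :
    IsRat P (fun z => g z - h z) := by
  have := hg.add hh.neg
  simpa [sub_eq_add_neg] using this

theorem IsRat.pow {P g : ℂ → ℂ} (hg : IsRat P g) (n : ℕ) : IsRat P (fun z => g z ^ n) := by
  induction n with
  | zero => simpa using IsRat.const P 1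
  | succ n ih => simpa [pow_succ] using ih.mul hg

variable {P Q : ℂ → ℂ} {Λ : AddSubgroup ℂ} {ζ g : ℂ}

/-- a nonzero polynomial in `P` vanishes only at isolated points -/
theorem Kit.ae_poly (K : Kit P Q Λ ζ g) {A : ℂ[X]} (hA : A ≠ 0) : AE (fun z => A.eval (P z) ≠ 0) := by
  have key : ∀ x : ℂ, AE (fun z => P z ≠ x) := by
    intro x z₀
    obtain ⟨w, hw, hwx⟩ := K.surj x
    have h1 : ∀ᶠ z in 𝓝[≠] z₀, z - w ∉ Λ := by
      have h := K.disc (z₀ - w)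
      have ht : Tendsto (fun z => z - w) (𝓝[≠] z₀) (𝓝[≠] (z₀ - w)) := by
        refine tendsto_nhdsWithin_of_tendsto_nhds_of_eventually_within _ ?_ ?_
        · exact ((continuous_id.sub continuous_const).tendsto z₀).mono_left nhdsWithin_le_nhds
        · filter_upwards [self_mem_nhdsWithin] with z hz h
          exact hz (sub_left_injective h)
      exact ht.eventually h
    have h2 : ∀ᶠ z in 𝓝[≠] z₀, z + w ∉ Λ := by
      have h := K.disc (z₀ + w)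
      have ht : Tendsto (fun z => z + w) (𝓝[≠] z₀) (𝓝[≠] (z₀ + w)) := by
        refine tendsto_nhdsWithin_of_tendsto_nhds_of_eventually_within _ ?_ ?_
        · exact ((continuous_id.add continuous_const).tendsto z₀).mono_left nhdsWithin_le_nhds
        · filter_upwards [self_mem_nhdsWithin] with z hz h
          exact hz (add_left_injective w h)
      exact ht.eventually h
    filter_upwards [h1, h2, K.disc z₀] with z a b c hz
    rcases K.inj z w c hw (by rw [hz, hwx]) with h | h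
    · exact a h
    · exact b h
  intro z₀
  have : ∀ᶠ z in 𝓝[≠] z₀, ∀ x ∈ A.roots.toFinset, P z ≠ x := by
    rw [Filter.eventually_all_finset]
    exact fun x _ => key x z₀
  filter_upwards [this] with z hz h
  exact hz (P z) (by rw [Multiset.mem_toFinset, mem_roots hA]; exact h) rfl

theorem Rep.ne_zero {P g : ℂ → ℂ} {A B : ℂ[X]} (h : Rep P g A B) : B ≠ 0 := by
  rintro rfl
  obtain ⟨z, hz⟩ := (h 0).exists
  exact hz.1 (by simp)

theorem Kit.rat_inv (K : Kit P Q Λ ζ g) {h : ℂ → ℂ} (hh : IsRat P h) : IsRat P (fun z => (h z)⁻¹) := by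
  obtain ⟨A, B, h1⟩ := hh
  by_cases hA : A = 0
  · refine ⟨0, 1, h1.mono fun z hz => ?_⟩
    beta_reduce
    rw [hz.2, hA]
    simp
  · refine ⟨B, A, (h1.and (K.ae_poly hA)).mono fun z hz => ?_⟩
    obtain ⟨⟨a, b⟩, c⟩ := hz
    refine ⟨c, ?_⟩
    beta_reduce
    rw [b, inv_div]

theorem Kit.rat_div (K : Kit P Q Λ ζ g) {h k : ℂ → ℂ} (hh : IsRat P h) (hk : IsRat P k) :
    IsRat P (fun z => h z / k z) := by
  simpa [div_eq_mul_inv] using hh.mul (K.rat_inv hk)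

theorem Kit.ae_notMem (K : Kit P Q Λ ζ g) {n : ℕ} (hn : 1 ≤ n) : AE (fun z => (n : ℂ) * z ∉ Λ) := by
  intro z₀
  have hn0 : (n : ℂ) ≠ 0 := by exact_mod_cast (by omega : n ≠ 0)
  have h := K.disc ((n : ℂ) * z₀)
  have ht : Tendsto (fun z => (n : ℂ) * z) (𝓝[≠] z₀) (𝓝[≠] ((n : ℂ) * z₀)) := by
    refine tendsto_nhdsWithin_of_tendsto_nhds_of_eventually_within _ ?_ ?_
    · exact ((continuous_const.mul continuous_id).tendsto z₀).mono_left nhdsWithin_le_nhds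
    · filter_upwards [self_mem_nhdsWithin] with z hz h
      exact hz (mul_left_cancel₀ hn0 h)
  exact ht.eventually h

end H26E
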