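import Mathlib

set_option autoImplicit false

namespace H26E

/-- the hexagonal root of unity -/
noncomputable def zt : ℂ := ⟨-1 / 2, Real.sqrt 3 / 2⟩

end H26E
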