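import Mathlib
import Pool.Agent.Helper26.EC.XDefs0

set_option autoImplicit false

open Polynomial Filter Topology

namespace H26E


namespace J_zt_indep

theorem main : LinearIndependent ℝ ![(1 : ℂ), zt] := by
  rw [LinearIndependent.pair_iff]
  intro s t h
  have him := congrArg Complex.im h
  have hre := congrArg Complex.re h
  simp [zt] at him hre
  subst him
  simp at hre
  exact ⟨hre, rfl⟩

end J_zt_indep

alias zt_indep := J_zt_indep.main

end H26E
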