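import Mathlib
import Pool.Agent.Helper26.EC.J_zt_indep

set_option autoImplicit false

namespace H26E

/-- the hexagonal lattice -/
noncomputable def LH : PeriodPair := ⟨1, zt, zt_indep⟩

end H26E
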