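import Mathlib
import Pool.Agent.Helper26.EC.XDefs

set_option autoImplicit false

open Polynomial Filter Topology

namespace H26E


namespace J_mem_LH

theorem main (z : ℂ) : z ∈ LH.lattice ↔ ∃ m n : ℤ, z = (m : ℂ) + (n : ℂ) * zt := by
  rw [PeriodPair.mem_lattice]
  constructor
  · rintro ⟨m, n, h⟩
    refine ⟨m, n, ?_⟩
    rw [← h]
    simp [LH]
  · rintro ⟨m, n, h⟩
    refine ⟨m, n, ?_⟩
    rw [h]
    simp [LH]

end J_mem_LH

alias mem_LH := J_mem_LH.main

end H26E
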