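import Mathlib
import Pool.Agent.Helper26.EC.XDefs0

set_option autoImplicit false

open Polynomial Filter Topology

namespace H26E


namespace J_zt_eq

theorem main : zt ^ 2 + zt + 1 = 0 := by
  have h3 : Real.sqrt 3 * Real.sqrt 3 = 3 := Real.mul_self_sqrt (by norm_num)
  rw [sq]
  apply Complex.ext
  · simp only [zt, Complex.add_re, Complex.mul_re, Complex.one_re, Complex.zero_re]
    nlinarith
  · simp only [zt, Complex.add_im, Complex.mul_im, Complex.one_im, Complex.zero_im]
    ring

end J_zt_eq

alias zt_eq := J_zt_eq.main

end H26E
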