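import Mathlib
import Pool.Agent.Helper26.EC.XDefs
import Pool.Agent.Helper26.EC.J_zt_eq
import Pool.Agent.Helper26.EC.J_mem_LH

set_option autoImplicit false

open Polynomial Filter Topology

namespace H26E


namespace J_wp_zt

theorem main (z : ℂ) : LH.weierstrassP (zt * z) = zt * LH.weierstrassP z := by
  have h3 : zt * (zt * zt) = 1 := by linear_combination (zt - 1) * zt_eq
  have hI : ∀ l : ℂ, l ∈ LH.lattice → zt * l ∈ LH.lattice := by
    intro l hl
    rw [mem_LH] at hl ⊢
    obtain ⟨m, n, rfl⟩ := hl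
    refine ⟨-n, m - n, ?_⟩
    push_cast
    linear_combination (n : ℂ) * zt_eq
  have hz3 : ∀ l : ℂ, zt * (zt * (zt * l)) = l := by
    intro l
    linear_combination l * h3
  let e : LH.lattice ≃ LH.lattice :=
    { toFun := fun l => ⟨zt * l.1, hI _ l.2⟩
      invFun := fun l => ⟨zt * (zt * l.1), hI _ (hI _ l.2)⟩
      left_inv := fun l => by
        apply Subtype.ext
        show zt * (zt * (zt * l.1)) = l.1
        exact hz3 _
      right_inv := fun l => by
        apply Subtype.ext
        show zt * (zt * (zt * l.1)) = l.1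
        exact hz3 _ }
  have hinv : zt = (zt ^ 2)⁻¹ := eq_inv_of_mul_eq_one_left (by rw [pow_two]; exact h3)
  have hw : ∀ w : ℂ, 1 / (zt * w) ^ 2 = zt * (1 / w ^ 2) := by
    intro w
    rw [mul_pow, one_div, mul_inv, ← hinv, one_div]
  simp only [PeriodPair.weierstrassP]
  rw [← e.tsum_eq, ← tsum_mul_left]
  congr 1
  ext l
  show 1 / (zt * z - zt * l.1) ^ 2 - 1 / (zt * l.1) ^ 2 = zt * (1 / (z - l.1) ^ 2 - 1 / l.1 ^ 2)
  rw [← mul_sub, hw, hw, mul_sub]

end J_wp_zt

alias wp_zt := J_wp_zt.main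

end H26E
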