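import Mathlib
import Pool.Agent.Helper26.EC.XDefs
import Pool.Agent.Helper26.EC.J_zt_eq
import Pool.Agent.Helper26.EC.J_mem_LH

set_option autoImplicit false

open Polynomial Filter Topology

namespace H26E


namespace J_wpd_zt

theorem zt_cube : zt ^ 3 = 1 := by
  have h := zt_eq
  linear_combination (zt - 1) * h

theorem mul_mem' (l : ℂ) (hl : l ∈ LH.lattice) : zt * l ∈ LH.lattice := by
  rw [mem_LH] at hl ⊢
  obtain ⟨m, n, rfl⟩ := hl
  refine ⟨-n, m - n, ?_⟩
  push_cast
  linear_combination (n : ℂ) * zt_eq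

noncomputable def eLH : LH.lattice ≃ LH.lattice where
  toFun l := ⟨zt * l, mul_mem' l l.2⟩
  invFun l := ⟨zt * (zt * l), mul_mem' _ (mul_mem' l l.2)⟩
  left_inv l := by
    apply Subtype.ext
    show zt * (zt * (zt * (l : ℂ))) = l
    linear_combination (l : ℂ) * zt_cube
  right_inv l := by
    apply Subtype.ext
    show zt * (zt * (zt * (l : ℂ))) = l
    linear_combination (l : ℂ) * zt_cube

theorem main (z : ℂ) : LH.derivWeierstrassP (zt * z) = LH.derivWeierstrassP z := by
  unfold PeriodPair.derivWeierstrassP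
  rw [← eLH.tsum_eq (fun l : LH.lattice => 2 / (zt * z - (l : ℂ)) ^ 3)]
  congr 1
  refine tsum_congr (fun l => ?_)
  show 2 / (zt * z - zt * (l : ℂ)) ^ 3 = _
  rw [← mul_sub, mul_pow, zt_cube, one_mul]

end J_wpd_zt

alias wpd_zt := J_wpd_zt.main

end H26E
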