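import Mathlib
import Pool.Agent.Helper26.EC.XDefs
import Pool.Agent.Helper26.EC.J_zt_eq
import Pool.Agent.Helper26.EC.J_mem_LH
import Pool.Agent.Helper26.EC.J_wp_zt
import Pool.Agent.Helper26.EC.J_wpd_zt

set_option autoImplicit false

open Polynomial Filter Topology

namespace H26E


namespace J_g2_LH

theorem zt_mem (z : ℂ) (hz : z ∈ LH.lattice) : zt * z ∈ LH.lattice := by
  rw [mem_LH] at hz ⊢
  obtain ⟨m, n, rfl⟩ := hz
  refine ⟨-n, m - n, ?_⟩
  push_cast
  linear_combination (n : ℂ) * zt_eq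

theorem zt3 : zt ^ 3 = 1 := by
  linear_combination (zt - 1) * zt_eq

theorem main : LH.g₂ = 0 := by
  have h3 := zt3
  have hz0 : zt ≠ 0 := by
    intro h
    rw [h] at h3
    norm_num at h3
  have hz1 : zt - 1 ≠ 0 := by
    intro h
    have h1 : zt = 1 := sub_eq_zero.1 h
    have h2 := zt_eq
    rw [h1] at h2
    norm_num at h2
  have key : ∀ z : ℂ, zt * (zt * (zt * z)) = z := by
    intro z
    linear_combination z * h3
  obtain ⟨e, he⟩ : ∃ e : LH.lattice ≃ LH.lattice, ∀ l, ((e l : LH.lattice) : ℂ) = zt * l :=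
    ⟨{ toFun := fun l => ⟨zt * l, zt_mem _ l.2⟩
       invFun := fun l => ⟨zt * (zt * l), zt_mem _ (zt_mem _ l.2)⟩
       left_inv := fun l => Subtype.ext (key l)
       right_inv := fun l => Subtype.ext (key l) }, fun l => rfl⟩
  have hG : LH.G 4 = (zt ^ 4)⁻¹ * LH.G 4 := by
    unfold PeriodPair.G
    rw [← tsum_mul_left, ← e.tsum_eq]
    refine tsum_congr fun l => ?_
    rw [he, mul_pow, mul_inv]
  have h4 : zt ^ 4 = zt := by linear_combination zt * h3
  rw [h4] at hG
  have h5 : (zt - 1) * LH.G 4 = 0 := by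
    have h6 : zt * LH.G 4 = LH.G 4 := by
      conv_lhs => rw [hG]
      rw [← mul_assoc, mul_inv_cancel₀ hz0, one_mul]
    rw [sub_mul, one_mul, h6, sub_self]
  have h7 := (mul_eq_zero.1 h5).resolve_left hz1
  unfold PeriodPair.g₂
  rw [h7, mul_zero]

end J_g2_LH

alias g2_LH := J_g2_LH.main

end H26E
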