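import Mathlib
import Pool.Agent.Helper26.EC.XDefs

set_option autoImplicit false

open Polynomial Filter Topology

namespace H26E


namespace J_wp_dup2

/-- second duplication formula from the first -/
theorem main (L : PeriodPair) (hg : L.g₂ = 0)
    (hQ : ∀ z, z ∉ L.lattice → HasDerivAt L.derivWeierstrassP (6 * L.weierstrassP z ^ 2) z)
    (h1 : ∀ z, z ∉ L.lattice → 2 * z ∉ L.lattice → L.derivWeierstrassP z ≠ 0 ∧
      L.weierstrassP (2 * z) = -2 * L.weierstrassP z + 9 * L.weierstrassP z ^ 4 / L.derivWeierstrassP z ^ 2)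
    (z : ℂ) (hz : z ∉ L.lattice) (h2 : 2 * z ∉ L.lattice) :
    L.derivWeierstrassP (2 * z) = -L.derivWeierstrassP z -
      6 * L.weierstrassP z ^ 2 / L.derivWeierstrassP z * (L.weierstrassP (2 * z) - L.weierstrassP z) := by
  have hP : ∀ w, w ∉ L.lattice → HasDerivAt L.weierstrassP (L.derivWeierstrassP w) w := by
    intro w hw
    have h := (L.analyticOnNhd_weierstrassP w hw).differentiableAt.hasDerivAt
    rwa [L.deriv_weierstrassP] at h
  obtain ⟨hne, hdup⟩ := h1 z hz h2
  have hL : HasDerivAt (fun w => L.weierstrassP (2 * w)) (L.derivWeierstrassP (2 * z) * 2) z := by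
    have h0 : HasDerivAt (fun w : ℂ => 2 * w) 2 z := by
      simpa using (hasDerivAt_id z).const_mul (2 : ℂ)
    exact (hP (2 * z) h2).comp z h0
  have hR : HasDerivAt (fun w => -2 * L.weierstrassP w +
      9 * L.weierstrassP w ^ 4 / L.derivWeierstrassP w ^ 2)
      (-2 * L.derivWeierstrassP z +
        (9 * (4 * L.weierstrassP z ^ 3 * L.derivWeierstrassP z) * L.derivWeierstrassP z ^ 2 -
          9 * L.weierstrassP z ^ 4 *
            (2 * L.derivWeierstrassP z * (6 * L.weierstrassP z ^ 2))) /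
          (L.derivWeierstrassP z ^ 2) ^ 2) z := by
    have ha := (hP z hz).const_mul (-2)
    have hb := ((hP z hz).pow 4).const_mul 9
    have hc := (hQ z hz).pow 2
    have hd := hb.div hc (pow_ne_zero 2 hne)
    have he := ha.add hd
    have hf : HasDerivAt (fun w => -2 * L.weierstrassP w +
        9 * L.weierstrassP w ^ 4 / L.derivWeierstrassP w ^ 2)
        (-2 * L.derivWeierstrassP z +
        (9 * (((4 : ℕ) : ℂ) * L.weierstrassP z ^ (4 - 1) * L.derivWeierstrassP z) *
            L.derivWeierstrassP z ^ 2 -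
          9 * L.weierstrassP z ^ 4 * (((2 : ℕ) : ℂ) * L.derivWeierstrassP z ^ (2 - 1) *
            (6 * L.weierstrassP z ^ 2))) / (L.derivWeierstrassP z ^ 2) ^ 2) z := he
    refine hf.congr_deriv ?_
    norm_num
  have hopen : IsOpen {w : ℂ | w ∉ L.lattice ∧ 2 * w ∉ L.lattice} := by
    have ho : IsOpen ((L.lattice : Set ℂ)ᶜ) := L.isClosed_lattice.isOpen_compl
    exact ho.inter (ho.preimage (continuous_const.mul continuous_id))
  have hev : (fun w => L.weierstrassP (2 * w)) =ᶠ[𝓝 z] fun w => -2 * L.weierstrassP w +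
      9 * L.weierstrassP w ^ 4 / L.derivWeierstrassP w ^ 2 := by
    filter_upwards [hopen.mem_nhds (show z ∈ {w : ℂ | w ∉ L.lattice ∧ 2 * w ∉ L.lattice} from
      ⟨hz, h2⟩)] with w hw
    exact (h1 w hw.1 hw.2).2
  have huniq := hL.unique (hR.congr_of_eventuallyEq hev)
  rw [hdup]
  have hD : L.derivWeierstrassP (2 * z) = (-2 * L.derivWeierstrassP z +
        (9 * (4 * L.weierstrassP z ^ 3 * L.derivWeierstrassP z) * L.derivWeierstrassP z ^ 2 -
          9 * L.weierstrassP z ^ 4 *
            (2 * L.derivWeierstrassP z * (6 * L.weierstrassP z ^ 2))) /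
          (L.derivWeierstrassP z ^ 2) ^ 2) / 2 := by
    rw [← huniq]; ring
  rw [hD]
  field_simp
  ring

end J_wp_dup2

alias wp_dup2 := J_wp_dup2.main

end H26E
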