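import Mathlib
import Pool.Agent.Helper26.EC.XDefs

set_option autoImplicit false

open Polynomial Filter Topology

namespace H26E


namespace J_wp_poleP

theorem main (L : PeriodPair) : Tendsto (fun z => z ^ 2 * L.weierstrassP z) (𝓝[≠] 0) (𝓝 1) := by
  have h0 : ∀ z : ℂ, z ≠ 0 → z ^ 2 * L.weierstrassP z = z ^ 2 * L.weierstrassPExcept 0 z + 1 := by
    intro z hz
    have h := L.weierstrassPExcept_add 0 z
    simp only [ZeroMemClass.coe_zero, sub_zero] at h
    rw [← h]
    field_simp
    simp
  have h1 : Tendsto (fun z : ℂ => z ^ 2 * L.weierstrassPExcept 0 z + 1) (𝓝 0) (𝓝 1) := by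
    have hc : ContinuousAt (fun z : ℂ => z ^ 2 * L.weierstrassPExcept 0 z + 1) 0 := by
      have h2 := (L.analyticAt_weierstrassPExcept 0).continuousAt
      exact ((continuousAt_id.pow 2).mul h2).add continuousAt_const
    have h3 := hc.tendsto
    simpa using h3
  refine (h1.mono_left nhdsWithin_le_nhds).congr' ?_
  filter_upwards [self_mem_nhdsWithin] with z hz
  exact (h0 z hz).symm

end J_wp_poleP

alias wp_poleP := J_wp_poleP.main

end H26E
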