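import Mathlib
import Pool.Agent.Helper26.EC.Base
import Pool.Agent.Helper26.EC.XDefs
import Pool.Agent.Helper26.EC.J_zt_eq
import Pool.Agent.Helper26.EC.J_mem_LH
import Pool.Agent.Helper26.EC.J_g2_LH
import Pool.Agent.Helper26.EC.J_wp_zt
import Pool.Agent.Helper26.EC.J_wpd_zt
import Pool.Agent.Helper26.EC.J_wp_dup2
import Pool.Agent.Helper26.EC.J_wp_poleP
import Pool.Agent.Helper26.EC.J_wp_poleQ
import Pool.Agent.Helper620.Wg.KS
import Pool.Agent.Helper620.Wg.KI
import Pool.Agent.Helper487.ECM.Weier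
import Pool.Agent.Helper487.ECM.Addition

set_option autoImplicit false

open Set Filter Topology

namespace H26E

open Pool.Agent.Helper487.ECM in
theorem ev_ne (L : PeriodPair) {z : ℂ} (hz : z ∈ Dom L) (h1 : wp L 1 z ≠ 0) :
    ∀ᶠ w in 𝓝[≠] z, wp L 0 z ≠ wp L 0 w := by
  filter_upwards [(hasDerivAt_wp L 0 hz).eventually_ne h1 (c := wp L 0 z)] with w hw
  exact fun h => hw h.symm

open Pool.Agent.Helper487.ECM in
/-- the duplication formula -/
theorem dup_aux (L : PeriodPair) {z : ℂ} (hz : z ∈ Dom L) (h2 : z + z ∈ Dom L) (h1 : wp L 1 z ≠ 0) :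
    wp L 0 (z + z) = (wp L 2 z / (2 * wp L 1 z)) ^ 2 - 2 * wp L 0 z := by
  have hnz : -z ∈ Dom L := Dom_neg L hz
  have h1' : wp L 1 (-z) ≠ 0 := by rw [wp_one_neg]; exact neg_ne_zero.mpr h1
  have w2 : wp L 2 (-z) = wp L 2 z := by rw [wp_two L hnz, wp_two L hz, wp_neg]
  have s1 := hasDerivAt_iff_tendsto_slope.mp (hasDerivAt_wp L 0 hnz)
  have s2 := hasDerivAt_iff_tendsto_slope.mp (hasDerivAt_wp L 1 hnz)
  simp only [zero_add, one_add_one_eq_two] at s1 s2
  have hQ : Tendsto (fun w => Pool.Agent.Helper487.ECM.Q L z w) (𝓝[≠] (-z)) (𝓝 (wp L 2 z / (2 * wp L 1 z))) := by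
    have h3 := (s2.div s1 h1').const_mul (-(1 / 2 : ℂ))
    have e : -(1 / 2 : ℂ) * (wp L 2 (-z) / wp L 1 (-z)) = wp L 2 z / (2 * wp L 1 z) := by
      rw [w2, wp_one_neg]; field_simp
    rw [e] at h3
    refine h3.congr' ?_
    filter_upwards [ev_ne L hnz h1', self_mem_nhdsWithin] with w hw hwz
    have hwz' : w - (-z) ≠ 0 := sub_ne_zero.mpr hwz
    have hw1 : wp L 0 w - wp L 0 (-z) ≠ 0 := sub_ne_zero.mpr hw.symm
    have hw2 : wp L 0 z - wp L 0 w ≠ 0 := by
      rw [← wp_neg L z]; exact sub_ne_zero.mpr hw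
    simp only [slope_def_field, Pi.div_apply]
    unfold Pool.Agent.Helper487.ECM.Q
    rw [wp_one_neg L z]
    have e2 : wp L 0 w - wp L 0 (-z) = -(wp L 0 z - wp L 0 w) := by rw [wp_neg]; ring
    rw [e2]
    field_simp
    ring
  have hL : Tendsto (fun w => wp L 0 (z - w)) (𝓝[≠] (-z)) (𝓝 (wp L 0 (z + z))) := by
    have hc : ContinuousAt (fun w => wp L 0 (z - w)) (-z) := by
      have h3 : ContinuousAt (wp L 0) (z - (-z)) := by
        rw [sub_neg_eq_add]; exact (analyticAt_wp L 0 h2).continuousAt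
      exact ContinuousAt.comp (f := fun w => z - w) h3 (by fun_prop)
    have := hc.tendsto.mono_left (nhdsWithin_le_nhds (s := {-z}ᶜ))
    rwa [sub_neg_eq_add] at this
  have hR : Tendsto (fun w => Pool.Agent.Helper487.ECM.Q L z w ^ 2 - wp L 0 z - wp L 0 w) (𝓝[≠] (-z))
      (𝓝 ((wp L 2 z / (2 * wp L 1 z)) ^ 2 - wp L 0 z - wp L 0 (-z))) :=
    ((hQ.pow 2).sub tendsto_const_nhds).sub
      ((analyticAt_wp L 0 hnz).continuousAt.tendsto.mono_left nhdsWithin_le_nhds)
  have heq : (fun w => wp L 0 (z - w)) =ᶠ[𝓝[≠] (-z)]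
      fun w => Pool.Agent.Helper487.ECM.Q L z w ^ 2 - wp L 0 z - wp L 0 w := by
    filter_upwards [ev_ne L hnz h1',
      mem_nhdsWithin_of_mem_nhds ((isOpen_Dom L).mem_nhds hnz)] with w hw hwD
    have hne : wp L 0 z ≠ wp L 0 w := by rw [← wp_neg L z]; exact hw
    exact wp_sub L hz hwD (sub_mem_Dom L hne) hne
  have := tendsto_nhds_unique (hL.congr' heq) hR
  rw [this, wp_neg]; ring

open Pool.Agent.Helper487.ECM in
theorem exists_kit : Kit LH.weierstrassP LH.derivWeierstrassP LH.lattice.toAddSubgroup zt LH.g₃ := by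
  have hdP : ∀ z, z ∉ LH.lattice → HasDerivAt LH.weierstrassP (LH.derivWeierstrassP z) z := by
    intro z hz
    have := hasDerivAt_wp LH 0 (z := z) hz
    rwa [wp_zero_eq, zero_add, wp_one_eq] at this
  have hdQ : ∀ z, z ∉ LH.lattice → HasDerivAt LH.derivWeierstrassP (6 * LH.weierstrassP z ^ 2) z := by
    intro z hz
    have := hasDerivAt_wp LH 1 (z := z) hz
    rw [show (1 : ℕ) + 1 = 2 from rfl, wp_two LH hz, wp_one_eq, wp_zero_eq, g2_LH] at this
    simpa using this
  have h1 : ∀ z, z ∉ LH.lattice → 2 * z ∉ LH.lattice → LH.derivWeierstrassP z ≠ 0 ∧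
      LH.weierstrassP (2 * z) = -2 * LH.weierstrassP z +
        9 * LH.weierstrassP z ^ 4 / LH.derivWeierstrassP z ^ 2 := by
    intro z hz h2
    have hne := Wg.wpd_ne LH z h2
    refine ⟨hne, ?_⟩
    have h3 := dup_aux LH (z := z) hz (by rw [← two_mul]; exact h2) (by rw [wp_one_eq]; exact hne)
    rw [wp_two LH hz, wp_zero_eq, wp_one_eq, g2_LH, ← two_mul] at h3
    rw [h3]
    field_simp
    ring
  exact
  { hζ := zt_eq
    mem := fun z => mem_LH z
    closed := LH.isClosed_lattice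
    disc := by
      intro z₀
      have h := LH.compl_lattice_sdiff_singleton_mem_nhds z₀
      filter_upwards [mem_nhdsWithin_of_mem_nhds h, self_mem_nhdsWithin] with z hz hz0 hL
      exact hz ⟨hL, hz0⟩
    dP := hdP
    dQ := hdQ
    perP := fun z l hl => LH.weierstrassP_add_coe z ⟨l, hl⟩
    perQ := fun z l hl => LH.derivWeierstrassP_add_coe z ⟨l, hl⟩
    evenP := fun z => LH.weierstrassP_neg z
    oddQ := fun z => LH.derivWeierstrassP_neg z
    ode := by
      intro z hz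
      rw [LH.derivWeierstrassP_sq z hz, g2_LH]
      ring
    zP := wp_zt
    zQ := wpd_zt
    surj := fun x => by
      obtain ⟨z, hz, hx⟩ := Wg.wp_surj LH x
      exact ⟨z, hz, hx⟩
    inj := fun a b ha hb h => Wg.wp_inj LH a b ha hb h
    Qne := fun z hz => Wg.wpd_ne LH z hz
    poleP := wp_poleP LH
    poleQ := wp_poleQ LH
    add := by
      intro z w hz hw hne
      have hne0 : wp LH 0 z ≠ wp LH 0 (-w) := by
        rw [wp_neg, wp_zero_eq]; exact hne
      have hw' : -w ∈ Dom LH := Dom_neg LH hw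
      have e1 := wp_sub LH (z := z) (w := -w) hz hw' (sub_mem_Dom LH hne0) hne0
      have e2 := wp_one_sub LH (t := z) (w := -w) hz hw' hne0
      rw [sub_neg_eq_add] at e1 e2
      rw [wp_neg] at e1
      unfold Pool.Agent.Helper487.ECM.Q at e1 e2
      rw [wp_one_neg, wp_neg] at e1 e2
      rw [wp_zero_eq, wp_one_eq] at e1 e2
      have hne' := sub_ne_zero.mpr hne
      constructor
      · rw [e1]
        ring
      · rw [e2]
        field_simp
        ring
    dup := by
      intro z hz h2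
      exact ⟨(h1 z hz h2).2, wp_dup2 LH g2_LH hdQ h1 z hz h2⟩ }

end H26E
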