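import Mathlib
import Pool.Agent.Helper26.EC.Base

set_option autoImplicit false

open Polynomial Filter Topology

namespace H26E

variable {P Q : ℂ → ℂ} {Λ : AddSubgroup ℂ} {ζ g : ℂ}

namespace J_cont_U

theorem main (K : Kit P Q Λ ζ g) (c : ℂ) (N : ℕ) {z₀ : ℂ} (hz : z₀ ∉ Λ) (h : (N : ℂ) * z₀ ∉ Λ)
    (hd : c ^ 2 - Q (N * z₀) * Q z₀ ≠ 0) :
    Tendsto (fun z => Uf Q c N z) (𝓝[≠] z₀) (𝓝 (Uf Q c N z₀)) := by
  have h1 : ContinuousAt Q z₀ := (K.dQ z₀ hz).continuousAt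
  have h2 : ContinuousAt Q ((N : ℂ) * z₀) := (K.dQ _ h).continuousAt
  have h3 : ContinuousAt (fun z : ℂ => (N : ℂ) * z) z₀ := (continuous_const.mul continuous_id).continuousAt
  have h4 : ContinuousAt (fun z : ℂ => Q ((N : ℂ) * z)) z₀ :=
    ContinuousAt.comp (f := fun z : ℂ => (N : ℂ) * z) (g := Q) h2 h3
  have h5 : ContinuousAt (fun z => Uf Q c N z) z₀ := by
    unfold Uf
    exact (continuousAt_const.mul (h4.sub h1)).div (continuousAt_const.sub (h4.mul h1)) hd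
  exact h5.tendsto.mono_left nhdsWithin_le_nhds

end J_cont_U

alias Kit.cont_U := J_cont_U.main

end H26E
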