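import Mathlib
import Pool.Agent.Helper26.EC.Base

set_option autoImplicit false

open Polynomial Filter Topology

namespace H26E

variable {P Q : ℂ → ℂ} {Λ : AddSubgroup ℂ} {ζ g : ℂ}

namespace J_cont_X

theorem main (K : Kit P Q Λ ζ g) (m : ℕ) {z₀ : ℂ} (h : (m : ℂ) * z₀ ∉ Λ) :
    Tendsto (fun z => P (m * z)) (𝓝[≠] z₀) (𝓝 (P (m * z₀))) := by
  have h1 : ContinuousAt P ((m : ℂ) * z₀) := (K.dP _ h).continuousAt
  have h2 : Tendsto (fun z : ℂ => (m : ℂ) * z) (𝓝 z₀) (𝓝 ((m : ℂ) * z₀)) :=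
    (continuous_const.mul continuous_id).tendsto z₀
  exact (h1.tendsto.comp h2).mono_left nhdsWithin_le_nhds

end J_cont_X

alias Kit.cont_X := J_cont_X.main

end H26E
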