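import Mathlib
import Pool.Agent.Helper26.EC.Base
import Pool.Agent.Helper26.EC.J_cont_X
import Pool.Agent.Helper26.EC.J_cont_U

set_option autoImplicit false

open Polynomial Filter Topology

namespace H26E

variable {P Q : ℂ → ℂ} {Λ : AddSubgroup ℂ} {ζ g : ℂ}

namespace J_cont_R

theorem main (K : Kit P Q Λ ζ g) (c e : ℂ) (N m : ℕ) {z₀ : ℂ} (hz : z₀ ∉ Λ) (h : (N : ℂ) * z₀ ∉ Λ)
    (hm : (m : ℂ) * z₀ ∉ Λ) (hd : c ^ 2 - Q (N * z₀) * Q z₀ ≠ 0) (he : P (m * z₀) ≠ e) :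
    Tendsto (fun z => Uf Q c N z * (Q (m * z) / (2 * (P (m * z) - e)))) (𝓝[≠] z₀)
      (𝓝 (Uf Q c N z₀ * (Q (m * z₀) / (2 * (P (m * z₀) - e))))) := by
  have hU := K.cont_U c N hz h hd
  have hP : Tendsto (fun z => P (m * z)) (𝓝[≠] z₀) (𝓝 (P (m * z₀))) := K.cont_X m hm
  have hQ : Tendsto (fun z => Q (m * z)) (𝓝[≠] z₀) (𝓝 (Q (m * z₀))) := by
    have h1 : ContinuousAt Q ((m : ℂ) * z₀) := (K.dQ _ hm).continuousAt
    have h2 : Tendsto (fun z => (m : ℂ) * z) (𝓝[≠] z₀) (𝓝 ((m : ℂ) * z₀)) :=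
      ((continuous_const.mul continuous_id).tendsto z₀).mono_left nhdsWithin_le_nhds
    exact h1.tendsto.comp h2
  refine hU.mul (hQ.div ((hP.sub_const e).const_mul 2) ?_)
  exact mul_ne_zero two_ne_zero (sub_ne_zero.mpr he)

end J_cont_R

alias Kit.cont_R := J_cont_R.main

end H26E
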