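import Mathlib
import Pool.Agent.Helper26.EC.Base

set_option autoImplicit false

open Polynomial Filter Topology

namespace H26E

variable {P Q : ℂ → ℂ} {Λ : AddSubgroup ℂ} {ζ g : ℂ}

namespace J_U_zero

theorem main (K : Kit P Q Λ ζ g) (c : ℂ) {N : ℕ} (hN : 1 ≤ N) :
    Tendsto (fun z => Uf Q c N z ^ 2) (𝓝[≠] 0) (𝓝 0) := by
  have hN0 : (N : ℂ) ≠ 0 := by exact_mod_cast (by omega : N ≠ 0)
  have hb : Tendsto (fun z => z ^ 3 * Q z) (𝓝[≠] 0) (𝓝 (-2)) := K.poleQ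
  have ht : Tendsto (fun z : ℂ => (N : ℂ) * z) (𝓝[≠] 0) (𝓝[≠] 0) := by
    refine tendsto_nhdsWithin_of_tendsto_nhds_of_eventually_within _ ?_ ?_
    · have h1 : Tendsto (fun z : ℂ => (N : ℂ) * z) (𝓝 0) (𝓝 ((N : ℂ) * 0)) :=
        (continuous_const.mul continuous_id).tendsto 0
      rw [mul_zero] at h1
      exact h1.mono_left nhdsWithin_le_nhds
    · filter_upwards [self_mem_nhdsWithin] with z hz
      exact mul_ne_zero hN0 hz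
  have ha : Tendsto (fun z => z ^ 3 * Q ((N : ℂ) * z)) (𝓝[≠] 0) (𝓝 (-2 / (N : ℂ) ^ 3)) := by
    have h1 := (hb.comp ht).div_const ((N : ℂ) ^ 3)
    refine h1.congr (fun z => ?_)
    simp only [Function.comp]
    field_simp
  have hz : Tendsto (fun z : ℂ => z) (𝓝[≠] 0) (𝓝 0) := tendsto_id.mono_left nhdsWithin_le_nhds
  have hden : Tendsto (fun z => c ^ 2 * z ^ 6 - (z ^ 3 * Q ((N : ℂ) * z)) * (z ^ 3 * Q z))
      (𝓝[≠] 0) (𝓝 (c ^ 2 * 0 ^ 6 - (-2 / (N : ℂ) ^ 3) * (-2))) :=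
    ((hz.pow 6).const_mul _).sub (ha.mul hb)
  have hnum : Tendsto (fun z => z ^ 3 * c * (z ^ 3 * Q ((N : ℂ) * z) - z ^ 3 * Q z))
      (𝓝[≠] 0) (𝓝 (0 ^ 3 * c * (-2 / (N : ℂ) ^ 3 - -2))) :=
    ((hz.pow 3).mul_const c).mul (ha.sub hb)
  have hne : c ^ 2 * 0 ^ 6 - (-2 / (N : ℂ) ^ 3) * (-2) ≠ 0 := by
    have e : c ^ 2 * 0 ^ 6 - (-2 / (N : ℂ) ^ 3) * (-2) = -4 / (N : ℂ) ^ 3 := by ring
    rw [e]
    exact div_ne_zero (by norm_num) (pow_ne_zero 3 hN0)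
  have hdiv := hnum.div hden hne
  have hU : Tendsto (Uf Q c N) (𝓝[≠] 0) (𝓝 0) := by
    have e : (0 ^ 3 * c * (-2 / (N : ℂ) ^ 3 - -2)) /
        (c ^ 2 * 0 ^ 6 - (-2 / (N : ℂ) ^ 3) * (-2)) = 0 := by simp
    rw [e] at hdiv
    refine hdiv.congr' ?_
    filter_upwards [self_mem_nhdsWithin] with z hz0
    have hz1 : z ≠ 0 := hz0
    have e1 : z ^ 3 * c * (z ^ 3 * Q ((N : ℂ) * z) - z ^ 3 * Q z) =
      z ^ 6 * (c * (Q ((N : ℂ) * z) - Q z)) := by ring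
    have e2 : c ^ 2 * z ^ 6 - z ^ 3 * Q ((N : ℂ) * z) * (z ^ 3 * Q z) =
      z ^ 6 * (c ^ 2 - Q ((N : ℂ) * z) * Q z) := by ring
    show (z ^ 3 * c * (z ^ 3 * Q ((N : ℂ) * z) - z ^ 3 * Q z)) /
      (c ^ 2 * z ^ 6 - z ^ 3 * Q ((N : ℂ) * z) * (z ^ 3 * Q z)) = Uf Q c N z
    rw [e1, e2, mul_div_mul_left _ _ (pow_ne_zero 6 hz1)]
    rfl
  have h2 := hU.pow 2
  simpa using h2

end J_U_zero

alias Kit.U_zero := J_U_zero.main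

end H26E
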