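import Mathlib
import Pool.Agent.Helper26.EC.Base

set_option autoImplicit false

open Polynomial Filter Topology

namespace H26E

variable {P Q : ℂ → ℂ} {Λ : AddSubgroup ℂ} {ζ g : ℂ}

namespace J_indep

theorem main (K : Kit P Q Λ ζ g) (m n : ℤ) (h : (m : ℂ) + n * ζ = 0) : m = 0 ∧ n = 0 := by
  have h1 := K.hζ
  have h2 : ((m ^ 2 - m * n + n ^ 2 : ℤ) : ℂ) = 0 := by
    push_cast
    linear_combination ((m : ℂ) + n * (-1 - ζ)) * h + (n : ℂ) ^ 2 * h1
  have h3 : m ^ 2 - m * n + n ^ 2 = 0 := by exact_mod_cast h2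
  have h4 : n = 0 := by
    by_contra hn
    have : 0 < n ^ 2 := by positivity
    nlinarith [sq_nonneg (2 * m - n)]
  subst h4
  refine ⟨?_, rfl⟩
  simpa using h3

end J_indep

alias Kit.indep := J_indep.main

end H26E
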