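import Mathlib
import Pool.Agent.Helper26.EC.Base
import Pool.Agent.Helper26.EC.J_indep

set_option autoImplicit false

open Polynomial Filter Topology

namespace H26E

variable {P Q : ℂ → ℂ} {Λ : AddSubgroup ℂ} {ζ g : ℂ}

namespace J_int_div

theorem main (K : Kit P Q Λ ζ g) (k m n : ℤ) (hk : k ≠ 0)
    (h : ((m : ℂ) + n * ζ) / k ∈ Λ) : k ∣ m ∧ k ∣ n := by
  have hk' : (k : ℂ) ≠ 0 := by exact_mod_cast hk
  obtain ⟨a, b, hab⟩ := (K.mem _).mp h
  rw [div_eq_iff hk'] at hab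
  have h0 : (((m - k * a : ℤ) : ℂ)) + ((n - k * b : ℤ) : ℂ) * ζ = 0 := by
    push_cast
    linear_combination hab
  obtain ⟨h1, h2⟩ := K.indep _ _ h0
  exact ⟨⟨a, by omega⟩, ⟨b, by omega⟩⟩

end J_int_div

alias Kit.int_div := J_int_div.main

end H26E
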