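import Mathlib
import Pool.Agent.Helper26.EC.Base

set_option autoImplicit false

open Polynomial Filter Topology

namespace H26E

variable {P Q : ℂ → ℂ} {Λ : AddSubgroup ℂ} {ζ g : ℂ}

namespace J_zeta_pow_mem

theorem main (K : Kit P Q Λ ζ g) (j : ℕ) (z : ℂ) (hz : z ∈ Λ) : ζ ^ j * z ∈ Λ := by
  induction j with
  | zero => simpa using hz
  | succ j ih =>
    obtain ⟨m, n, h⟩ := (K.mem _).1 ih
    rw [K.mem]
    refine ⟨-n, m - n, ?_⟩
    have h1 : ζ ^ (j + 1) * z = ζ * (ζ ^ j * z) := by ring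
    rw [h1, h]
    push_cast
    linear_combination (n : ℂ) * K.hζ

end J_zeta_pow_mem

alias Kit.zeta_pow_mem := J_zeta_pow_mem.main

end H26E
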