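import Mathlib
import Pool.Agent.Helper26.EC.Base
import Pool.Agent.Helper26.EC.J_zeta_pow_mem
import Pool.Agent.Helper26.EC.J_int_div

set_option autoImplicit false

open Polynomial Filter Topology

namespace H26E

variable {P Q : ℂ → ℂ} {Λ : AddSubgroup ℂ} {ζ g : ℂ}

namespace J_fifth

lemma aux_key (K : Kit P Q Λ ζ g) {z : ℂ} (hz : z ∉ Λ) (h3 : ζ ^ 3 = 1) (h5 : (1 / 5 : ℂ) ∉ Λ)
    (j : ℕ) (hj : j < 3) (hP : P z = ζ ^ j * P (1 / 5)) :
    ∃ s : ℤ, (s = 1 ∨ s = -1) ∧ z - s * ζ ^ j / 5 ∈ Λ := by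
  have hpow : ∀ i : ℕ, P (ζ ^ i * (1 / 5)) = ζ ^ i * P (1 / 5) := by
    intro i
    induction i with
    | zero => simp
    | succ i ih =>
      have e : ζ ^ (i + 1) * (1 / 5 : ℂ) = ζ * (ζ ^ i * (1 / 5)) := by ring
      rw [e, K.zP, ih]
      ring
  have hn : ζ ^ j * (1 / 5 : ℂ) ∉ Λ := by
    intro hmem
    have h1 := K.zeta_pow_mem (3 - j) _ hmem
    rw [← mul_assoc, ← pow_add] at h1
    have e : 3 - j + j = 3 := by omega
    rw [e, h3, one_mul] at h1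
    exact h5 h1
  rcases K.inj z (ζ ^ j * (1 / 5)) hz hn (by rw [hP, hpow]) with h | h
  · refine ⟨1, Or.inl rfl, ?_⟩
    have e : z - ((1 : ℤ) : ℂ) * ζ ^ j / 5 = z - ζ ^ j * (1 / 5) := by
      push_cast
      ring
    rw [e]
    exact h
  · refine ⟨-1, Or.inr rfl, ?_⟩
    have e : z - ((-1 : ℤ) : ℂ) * ζ ^ j / 5 = z + ζ ^ j * (1 / 5) := by
      push_cast
      ring
    rw [e]
    exact h

/-- `Q z ^ 2 = Q (1/5) ^ 2` only at the points `± ζ ^ j / 5` -/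
theorem main (K : Kit P Q Λ ζ g) {z : ℂ} (hz : z ∉ Λ) (h : Q z ^ 2 = Q (1 / 5) ^ 2) :
    ∃ j : ℕ, j < 3 ∧ ∃ s : ℤ, (s = 1 ∨ s = -1) ∧ z - s * ζ ^ j / 5 ∈ Λ := by
  have h3 : ζ ^ 3 = 1 := by linear_combination (ζ - 1) * K.hζ
  have h5 : (1 / 5 : ℂ) ∉ Λ := by
    intro hmem
    have h1 := K.int_div 5 1 0 (by norm_num) (by
      push_cast
      simpa using hmem)
    have h2 := h1.1
    norm_num at h2
  have hc : (P z - P (1 / 5)) * (P z - ζ * P (1 / 5)) * (P z - ζ ^ 2 * P (1 / 5)) = 0 := by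
    have a := K.ode z hz
    have b := K.ode (1 / 5) h5
    have hz2 := K.hζ
    have c : P z ^ 3 = P (1 / 5) ^ 3 := by
      linear_combination (-1 / 4 : ℂ) * a + (1 / 4 : ℂ) * b + (1 / 4 : ℂ) * h
    linear_combination c + (-P z ^ 2 * P (1 / 5) + ζ * P z * P (1 / 5) ^ 2 - (ζ - 1) * P (1 / 5) ^ 3) * hz2
  rcases mul_eq_zero.1 hc with hc1 | hc1
  · rcases mul_eq_zero.1 hc1 with hc2 | hc2
    · obtain ⟨s, hs⟩ := aux_key K hz h3 h5 0 (by norm_num) (by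
        rw [pow_zero, one_mul]
        exact sub_eq_zero.1 hc2)
      exact ⟨0, by norm_num, s, hs⟩
    · obtain ⟨s, hs⟩ := aux_key K hz h3 h5 1 (by norm_num) (by
        rw [pow_one]
        exact sub_eq_zero.1 hc2)
      exact ⟨1, by norm_num, s, hs⟩
  · obtain ⟨s, hs⟩ := aux_key K hz h3 h5 2 (by norm_num) (sub_eq_zero.1 hc1)
    exact ⟨2, by norm_num, s, hs⟩

end J_fifth

alias Kit.fifth := J_fifth.main

end H26E
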