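import Mathlib
import Pool.Agent.Helper26.EC.Base
import Pool.Agent.Helper26.EC.J_zeta_pow_mem
import Pool.Agent.Helper26.EC.J_int_div

set_option autoImplicit false

open Polynomial Filter Topology

namespace H26E

variable {P Q : ℂ → ℂ} {Λ : AddSubgroup ℂ} {ζ g : ℂ}

namespace J_fifth_mul

theorem main (K : Kit P Q Λ ζ g) {z : ℂ} {j : ℕ} (hj : j < 3) {s : ℤ} (hs : s = 1 ∨ s = -1)
    (h : z - s * ζ ^ j / 5 ∈ Λ) {k : ℤ} (hk : ¬ (5 : ℤ) ∣ k) :
    (k : ℂ) * z ∉ Λ ∧ 2 * ((k : ℂ) * z) ∉ Λ := by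
  have hζ3 : ζ ^ 3 = 1 := by
    linear_combination (ζ - 1) * K.hζ
  have key : ∀ k' : ℤ, (k' : ℂ) * z ∈ Λ → (5 : ℤ) ∣ k' := by
    intro k' hk'
    have h1 : (k' : ℂ) * (z - s * ζ ^ j / 5) ∈ Λ := by
      rw [← zsmul_eq_mul]
      exact Λ.zsmul_mem h k'
    have h2 : (k' : ℂ) * s * ζ ^ j / 5 ∈ Λ := by
      have := Λ.sub_mem hk' h1
      convert this using 1
      ring
    have h3 := K.zeta_pow_mem (3 - j) _ h2
    have h4 : ζ ^ (3 - j) * ((k' : ℂ) * s * ζ ^ j / 5) = (k' : ℂ) * s / 5 := by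
      have e : ζ ^ (3 - j) * ζ ^ j = 1 := by
        rw [← pow_add, Nat.sub_add_cancel hj.le, hζ3]
      linear_combination ((k' : ℂ) * s / 5) * e
    rw [h4] at h3
    have h5 : (((k' * s : ℤ) : ℂ) + ((0 : ℤ) : ℂ) * ζ) / ((5 : ℤ) : ℂ) ∈ Λ := by
      convert h3 using 1
      push_cast
      ring
    have h6 := (K.int_div 5 (k' * s) 0 (by norm_num) h5).1
    rcases hs with h | h
    · rw [h, mul_one] at h6
      exact h6
    · rw [h] at h6
      omega
  constructor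
  · intro hc
    exact hk (key k hc)
  · intro hc
    have h1 : ((2 * k : ℤ) : ℂ) * z ∈ Λ := by
      convert hc using 1
      push_cast
      ring
    have h2 := key _ h1
    apply hk
    omega

end J_fifth_mul

alias Kit.fifth_mul := J_fifth_mul.main

end H26E
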