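import Mathlib
import Pool.Agent.Helper26.EC.Base
import Pool.Agent.Helper26.EC.J_zeta_pow_mem
import Pool.Agent.Helper26.EC.J_int_div
import Pool.Agent.Helper26.EC.J_fifth
import Pool.Agent.Helper26.EC.J_fifth_mul

set_option autoImplicit false

open Polynomial Filter Topology

namespace H26E

variable {P Q : ℂ → ℂ} {Λ : AddSubgroup ℂ} {ζ g : ℂ}

namespace J_nondeg

theorem main (K : Kit P Q Λ ζ g) {z : ℂ} (hz : z ∉ Λ) (h : Q z ^ 2 = Q (1 / 5) ^ 2) {N : ℕ}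
    (hN : N % 5 = 2) : (N : ℂ) * z ∉ Λ ∧ Q (N * z) ^ 2 ≠ Q (1 / 5) ^ 2 := by
  obtain ⟨j, hj, s, hs, hmem⟩ := K.fifth hz h
  have h5N : ¬ (5 : ℤ) ∣ (N : ℤ) := by omega
  have h1 := K.fifth_mul hj hs hmem h5N
  rw [Int.cast_natCast] at h1
  refine ⟨h1.1, fun h' => ?_⟩
  obtain ⟨j1, hj1, s1, hs1, hmem1⟩ := K.fifth h1.1 h'
  have hζ := K.hζ
  have hζ3 : ζ ^ 3 = 1 := by linear_combination (ζ - 1) * hζ
  have h2 : (N : ℂ) * (z - s * ζ ^ j / 5) ∈ Λ := by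
    have h3 := AddSubgroup.nsmul_mem Λ hmem N
    rwa [nsmul_eq_mul] at h3
  have h4 : ((N : ℂ) * s * ζ ^ j - s1 * ζ ^ j1) / 5 ∈ Λ := by
    have h3 := AddSubgroup.sub_mem Λ hmem1 h2
    have h5 : (N : ℂ) * z - s1 * ζ ^ j1 / 5 - (N : ℂ) * (z - s * ζ ^ j / 5) =
        ((N : ℂ) * s * ζ ^ j - s1 * ζ ^ j1) / 5 := by ring
    rwa [h5] at h3
  have h6 := K.zeta_pow_mem (3 - j) _ h4
  have key : ∀ m n : ℤ, ζ ^ (3 - j) * (((N : ℂ) * s * ζ ^ j - s1 * ζ ^ j1) / 5) =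
      ((m : ℂ) + n * ζ) / 5 → (5 : ℤ) ∣ m ∧ (5 : ℤ) ∣ n := by
    intro m n hmn
    refine K.int_div 5 m n (by norm_num) ?_
    have h7 : (((5 : ℤ) : ℂ)) = 5 := by norm_num
    rw [h7, ← hmn]
    exact h6
  have hA : ∀ (_ : ζ ^ (3 - j) * (((N : ℂ) * s * ζ ^ j - s1 * ζ ^ j1) / 5) =
      ((((N : ℤ) * s - s1 : ℤ) : ℂ) + (0 : ℤ) * ζ) / 5), False := by
    intro hh
    have h8 := (key _ _ hh).1
    rcases hs with rfl | rfl <;> rcases hs1 with rfl | rfl <;> omega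
  have hB : ∀ (_ : ζ ^ (3 - j) * (((N : ℂ) * s * ζ ^ j - s1 * ζ ^ j1) / 5) =
      ((((N : ℤ) * s : ℤ) : ℂ) + ((-s1 : ℤ) : ℂ) * ζ) / 5), False := by
    intro hh
    have h8 := (key _ _ hh).2
    rcases hs1 with rfl | rfl <;> omega
  have hC : ∀ (_ : ζ ^ (3 - j) * (((N : ℂ) * s * ζ ^ j - s1 * ζ ^ j1) / 5) =
      ((((N : ℤ) * s + s1 : ℤ) : ℂ) + ((s1 : ℤ) : ℂ) * ζ) / 5), False := by
    intro hh
    have h8 := (key _ _ hh).2
    rcases hs1 with rfl | rfl <;> omega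
  have hj' : j = 0 ∨ j = 1 ∨ j = 2 := by omega
  have hj1' : j1 = 0 ∨ j1 = 1 ∨ j1 = 2 := by omega
  rcases hj' with rfl | rfl | rfl <;> rcases hj1' with rfl | rfl | rfl
  · apply hA; push_cast; linear_combination ((N : ℂ) * s - s1) / 5 * hζ3
  · apply hB; push_cast; linear_combination ((N : ℂ) * s - s1 * ζ) / 5 * hζ3
  · apply hC; push_cast; linear_combination ((N : ℂ) * s - s1 * ζ ^ 2) / 5 * hζ3 - s1 / 5 * hζ
  · apply hC; push_cast; linear_combination (N : ℂ) * s / 5 * hζ3 - s1 / 5 * hζ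
  · apply hA; push_cast; linear_combination ((N : ℂ) * s - s1) / 5 * hζ3
  · apply hB; push_cast; linear_combination ((N : ℂ) * s - s1 * ζ) / 5 * hζ3
  · apply hB; push_cast; linear_combination (N : ℂ) * s / 5 * hζ3
  · apply hC; push_cast; linear_combination (N : ℂ) * s / 5 * hζ3 - s1 / 5 * hζ
  · apply hA; push_cast; linear_combination ((N : ℂ) * s - s1) / 5 * hζ3

end J_nondeg

alias Kit.nondeg := J_nondeg.main

end H26E
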