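import Mathlib
import Pool.Agent.Helper26.EC.Base
import Pool.Agent.Helper26.EC.J_int_div
import Pool.Agent.Helper26.EC.J_fifth
import Pool.Agent.Helper26.EC.J_fifth_mul
import Pool.Agent.Helper26.EC.J_nondeg
import Pool.Agent.Helper26.EC.J_cont_U

set_option autoImplicit false

open Polynomial Filter Topology

namespace H26E

variable {P Q : ℂ → ℂ} {Λ : AddSubgroup ℂ} {ζ g : ℂ}

namespace J_class_U

theorem c_ne (K : Kit P Q Λ ζ g) : Q (1 / 5) ≠ 0 := by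
  apply K.Qne
  intro h
  have h2 : (((2 : ℤ) : ℂ) + ((0 : ℤ) : ℂ) * ζ) / ((5 : ℤ) : ℂ) ∈ Λ := by
    have e : (((2 : ℤ) : ℂ) + ((0 : ℤ) : ℂ) * ζ) / ((5 : ℤ) : ℂ) = 2 * (1 / 5) := by
      push_cast
      ring
    rw [e]
    exact h
  have h3 := (K.int_div 5 2 0 (by norm_num) h2).1
  norm_num at h3

theorem ev_eq (c : ℂ) (N : ℕ) {z₀ : ℂ}
    (ht : Tendsto (fun z => Uf Q c N z ^ 2) (𝓝[≠] z₀) (𝓝 1)) :
    ∀ᶠ z in 𝓝[≠] z₀, Uf Q c N z ^ 2 * (c ^ 2 - Q (N * z) * Q z) ^ 2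
      = c ^ 2 * (Q (N * z) - Q z) ^ 2 := by
  have h1 : ∀ᶠ z in 𝓝[≠] z₀, Uf Q c N z ^ 2 ≠ 0 :=
    ht.eventually (isOpen_ne.mem_nhds one_ne_zero)
  filter_upwards [h1] with z hz
  have hd : c ^ 2 - Q (N * z) * Q z ≠ 0 := by
    intro h0
    apply hz
    unfold Uf
    rw [h0]
    simp
  unfold Uf
  field_simp

theorem lim_eq (K : Kit P Q Λ ζ g) (c : ℂ) (N : ℕ) {z₀ : ℂ} (hz : z₀ ∉ Λ)
    (hNz : (N : ℂ) * z₀ ∉ Λ)
    (ht : Tendsto (fun z => Uf Q c N z ^ 2) (𝓝[≠] z₀) (𝓝 1)) :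
    (c ^ 2 - Q (N * z₀) * Q z₀) ^ 2 = c ^ 2 * (Q (N * z₀) - Q z₀) ^ 2 := by
  have hQ : Tendsto Q (𝓝[≠] z₀) (𝓝 (Q z₀)) :=
    (K.dQ z₀ hz).continuousAt.tendsto.mono_left nhdsWithin_le_nhds
  have hk : Tendsto (fun z => Q ((N : ℂ) * z)) (𝓝[≠] z₀) (𝓝 (Q ((N : ℂ) * z₀))) := by
    have h1 : ContinuousAt (fun z => Q ((N : ℂ) * z)) z₀ :=
      ContinuousAt.comp (f := fun z => (N : ℂ) * z) (g := Q) (K.dQ _ hNz).continuousAt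
        (by fun_prop)
    exact h1.tendsto.mono_left nhdsWithin_le_nhds
  have t1 := ht.mul ((tendsto_const_nhds (x := c ^ 2)).sub (hk.mul hQ) |>.pow 2)
  have t2 := (tendsto_const_nhds (x := c ^ 2) (f := 𝓝[≠] z₀)).mul ((hk.sub hQ).pow 2)
  have h3 := tendsto_nhds_unique (t1.congr' (ev_eq c N ht)) t2
  rw [one_mul] at h3
  exact h3

theorem pole_case (K : Kit P Q Λ ζ g) (c : ℂ) (N : ℕ) (hN : (N : ℂ) ≠ 0) {z₀ : ℂ} (hz : z₀ ∉ Λ)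
    (hNz : (N : ℂ) * z₀ ∈ Λ)
    (ht : Tendsto (fun z => Uf Q c N z ^ 2) (𝓝[≠] z₀) (𝓝 1)) :
    Q z₀ ^ 2 = c ^ 2 := by
  have hQ : Tendsto Q (𝓝[≠] z₀) (𝓝 (Q z₀)) :=
    (K.dQ z₀ hz).continuousAt.tendsto.mono_left nhdsWithin_le_nhds
  have hw0 : Tendsto (fun z => (N : ℂ) * (z - z₀)) (𝓝[≠] z₀) (𝓝 0) := by
    have h1 : ContinuousAt (fun z => (N : ℂ) * (z - z₀)) z₀ := by fun_prop
    have h2 := h1.tendsto
    rw [sub_self, mul_zero] at h2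
    exact h2.mono_left nhdsWithin_le_nhds
  have hw : Tendsto (fun z => (N : ℂ) * (z - z₀)) (𝓝[≠] z₀) (𝓝[≠] 0) := by
    refine tendsto_nhdsWithin_of_tendsto_nhds_of_eventually_within _ hw0 ?_
    filter_upwards [self_mem_nhdsWithin] with z hz'
    exact mul_ne_zero hN (sub_ne_zero.mpr hz')
  have hp := K.poleQ.comp hw
  have hQw : ∀ z, Q ((N : ℂ) * z) = Q ((N : ℂ) * (z - z₀)) := by
    intro z
    have := K.perQ ((N : ℂ) * (z - z₀)) _ hNz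
    rw [← this]
    congr 1
    ring
  have hk : Tendsto (fun z => ((N : ℂ) * (z - z₀)) ^ 3 * Q ((N : ℂ) * z)) (𝓝[≠] z₀) (𝓝 (-2)) := by
    refine hp.congr fun z => ?_
    show ((N : ℂ) * (z - z₀)) ^ 3 * Q ((N : ℂ) * (z - z₀)) = _
    rw [hQw z]
  have hw3 : Tendsto (fun z => ((N : ℂ) * (z - z₀)) ^ 3) (𝓝[≠] z₀) (𝓝 0) := by
    have := hw0.pow 3
    simpa using this
  have t1 := ht.mul (((tendsto_const_nhds (x := c ^ 2)).mul hw3).sub (hk.mul hQ) |>.pow 2)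
  have t2 := (tendsto_const_nhds (x := c ^ 2) (f := 𝓝[≠] z₀)).mul
    ((hk.sub (hw3.mul hQ)).pow 2)
  have he : (fun z => Uf Q c N z ^ 2 * (c ^ 2 * ((N : ℂ) * (z - z₀)) ^ 3 -
      ((N : ℂ) * (z - z₀)) ^ 3 * Q ((N : ℂ) * z) * Q z) ^ 2) =ᶠ[𝓝[≠] z₀]
      fun z => c ^ 2 * (((N : ℂ) * (z - z₀)) ^ 3 * Q ((N : ℂ) * z) -
        ((N : ℂ) * (z - z₀)) ^ 3 * Q z) ^ 2 := by
    filter_upwards [ev_eq c N ht] with z hz'
    linear_combination (((N : ℂ) * (z - z₀)) ^ 3) ^ 2 * hz'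
  have h3 := tendsto_nhds_unique (t1.congr' he) t2
  linear_combination (1 / 4 : ℂ) * h3

theorem main (K : Kit P Q Λ ζ g) {N : ℕ} (hN : N % 5 = 2) {z₀ : ℂ} (hz : z₀ ∉ Λ)
    (ht : Tendsto (fun z => Uf Q (Q (1 / 5)) N z ^ 2) (𝓝[≠] z₀) (𝓝 1)) :
    (N : ℂ) * z₀ ∉ Λ ∧ Q (1 / 5) ^ 2 - Q (N * z₀) * Q z₀ ≠ 0 ∧ Uf Q (Q (1 / 5)) N z₀ ^ 2 = 1 ∧
      (Q (N * z₀) ^ 2 = Q (1 / 5) ^ 2 ∨ Q z₀ ^ 2 = Q (1 / 5) ^ 2) := by
  have hc := c_ne K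
  have hN0 : (N : ℂ) ≠ 0 := by
    have : N ≠ 0 := by
      rintro rfl
      norm_num at hN
    exact_mod_cast this
  have hNz : (N : ℂ) * z₀ ∉ Λ := by
    intro hNz
    have h1 := pole_case K (Q (1 / 5)) N hN0 hz hNz ht
    exact (K.nondeg hz h1 hN).1 hNz
  have hl := lim_eq K (Q (1 / 5)) N hz hNz ht
  have hprod : (Q (N * z₀) ^ 2 - Q (1 / 5) ^ 2) * (Q z₀ ^ 2 - Q (1 / 5) ^ 2) = 0 := by
    linear_combination hl
  have hor : Q (N * z₀) ^ 2 = Q (1 / 5) ^ 2 ∨ Q z₀ ^ 2 = Q (1 / 5) ^ 2 := by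
    rcases mul_eq_zero.mp hprod with h | h
    · left; exact sub_eq_zero.mp h
    · right; exact sub_eq_zero.mp h
  have hd : Q (1 / 5) ^ 2 - Q (N * z₀) * Q z₀ ≠ 0 := by
    intro h0
    rw [h0] at hl
    have h1 : (Q (N * z₀) - Q z₀) ^ 2 = 0 := by
      have h2 : Q (1 / 5) ^ 2 * (Q (N * z₀) - Q z₀) ^ 2 = 0 := by
        rw [← hl]; ring
      exact (mul_eq_zero.mp h2).resolve_left (pow_ne_zero 2 hc)
    have h3 : Q (N * z₀) = Q z₀ := sub_eq_zero.mp (pow_eq_zero_iff (two_ne_zero) |>.mp h1)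
    have h4 : Q z₀ ^ 2 = Q (1 / 5) ^ 2 := by
      rw [h3] at h0
      linear_combination -h0
    apply (K.nondeg hz h4 hN).2
    rw [h3]
    exact h4
  refine ⟨hNz, hd, ?_, hor⟩
  unfold Uf
  rw [div_pow, mul_pow, ← hl]
  exact div_self (pow_ne_zero 2 hd)

end J_class_U

alias Kit.class_U := J_class_U.main

end H26E
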