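import Mathlib
import Pool.Agent.Helper26.EC.Base

set_option autoImplicit false

open Polynomial Filter Topology

namespace H26E

variable {P Q : ℂ → ℂ} {Λ : AddSubgroup ℂ} {ζ g : ℂ}

namespace J_deg_zero

theorem lead (K : Kit P Q Λ ζ g) (A : ℂ[X]) :
    Tendsto (fun z => z ^ (2 * A.natDegree) * A.eval (P z)) (𝓝[≠] 0) (𝓝 A.leadingCoeff) := by
  have hz : Tendsto (fun z : ℂ => z) (𝓝[≠] 0) (𝓝 0) := tendsto_id.mono_left nhdsWithin_le_nhds
  have h1 : ∀ z : ℂ, z ^ (2 * A.natDegree) * A.eval (P z)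
      = ∑ i ∈ Finset.range (A.natDegree + 1),
        A.coeff i * ((z ^ 2 * P z) ^ i * z ^ (2 * (A.natDegree - i))) := by
    intro z
    rw [eval_eq_sum_range, Finset.mul_sum]
    refine Finset.sum_congr rfl fun i hi => ?_
    rw [Finset.mem_range] at hi
    have h2 : 2 * A.natDegree = 2 * i + 2 * (A.natDegree - i) := by omega
    rw [h2, pow_add, mul_pow, ← pow_mul]
    have h3 : 2 * i + 2 * (A.natDegree - i) - 2 * i = 2 * (A.natDegree - i) := by omega
    ring_nf
  simp only [h1]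
  have h2 : Tendsto (fun z => ∑ i ∈ Finset.range (A.natDegree + 1),
        A.coeff i * ((z ^ 2 * P z) ^ i * z ^ (2 * (A.natDegree - i)))) (𝓝[≠] 0)
      (𝓝 (∑ i ∈ Finset.range (A.natDegree + 1),
        A.coeff i * (1 ^ i * 0 ^ (2 * (A.natDegree - i))))) :=
    tendsto_finset_sum _ fun i _ => ((K.poleP.pow i).mul (hz.pow _)).const_mul _
  have h3 : (∑ i ∈ Finset.range (A.natDegree + 1),
        A.coeff i * (1 ^ i * 0 ^ (2 * (A.natDegree - i)))) = A.leadingCoeff := by
    rw [Finset.sum_range_succ, Finset.sum_eq_zero]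
    · simp
    · intro i hi
      rw [Finset.mem_range] at hi
      have : (0:ℂ) ^ (2 * (A.natDegree - i)) = 0 := zero_pow (by omega)
      rw [this]; simp
  rwa [h3] at h2

theorem main (K : Kit P Q Λ ζ g) {f : ℂ → ℂ} {A B : ℂ[X]} (hr : Rep P f A B)
    (ht : Tendsto f (𝓝[≠] 0) (𝓝 0)) : A.degree < B.degree := by
  by_contra hcon
  rw [not_lt] at hcon
  have hB := hr.ne_zero
  have hba : B.natDegree ≤ A.natDegree := natDegree_le_natDegree hcon
  have hz : Tendsto (fun z : ℂ => z) (𝓝[≠] 0) (𝓝 0) := tendsto_id.mono_left nhdsWithin_le_nhds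
  have h1 := lead K A
  have h2 := lead K B
  have h3 : Tendsto (fun z => z ^ (2 * (A.natDegree - B.natDegree)) *
      (z ^ (2 * B.natDegree) * B.eval (P z)) * f z) (𝓝[≠] 0)
      (𝓝 (0 ^ (2 * (A.natDegree - B.natDegree)) * B.leadingCoeff * 0)) :=
    ((hz.pow _).mul h2).mul ht
  rw [mul_zero] at h3
  have h4 : (fun z => z ^ (2 * (A.natDegree - B.natDegree)) *
      (z ^ (2 * B.natDegree) * B.eval (P z)) * f z) =ᶠ[𝓝[≠] 0]
      (fun z => z ^ (2 * A.natDegree) * A.eval (P z)) := by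
    filter_upwards [hr 0] with z hz'
    rw [hz'.2]
    have h5 : 2 * A.natDegree = 2 * (A.natDegree - B.natDegree) + 2 * B.natDegree := by omega
    rw [h5, pow_add]
    have h6 := hz'.1
    have h7 : 2 * (A.natDegree - B.natDegree) + 2 * B.natDegree - 2 * B.natDegree
      = 2 * (A.natDegree - B.natDegree) := by omega
    field_simp
  have h5 := tendsto_nhds_unique (h3.congr' h4) h1
  have hA : A = 0 := leadingCoeff_eq_zero.1 h5.symm
  rw [hA, degree_zero, le_bot_iff, degree_eq_bot] at hcon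
  exact hB hcon

end J_deg_zero

alias Kit.deg_zero := J_deg_zero.main

end H26E
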