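import Mathlib
import Pool.Agent.Helper26.EC.Base

set_option autoImplicit false

open Polynomial Filter Topology

namespace H26E

variable {P Q : ℂ → ℂ} {Λ : AddSubgroup ℂ} {ζ g : ℂ}

namespace J_tendsto_rep

theorem main (K : Kit P Q Λ ζ g) {f : ℂ → ℂ} {A B : ℂ[X]} (hr : Rep P f A B)
    {z₀ : ℂ} (hz : z₀ ∉ Λ) (hB : B.eval (P z₀) ≠ 0) :
    Tendsto f (𝓝[≠] z₀) (𝓝 (A.eval (P z₀) / B.eval (P z₀))) := by
  have hP : Tendsto P (𝓝[≠] z₀) (𝓝 (P z₀)) :=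
    ((K.dP z₀ hz).continuousAt.tendsto).mono_left nhdsWithin_le_nhds
  have hA' : Tendsto (fun z => A.eval (P z)) (𝓝[≠] z₀) (𝓝 (A.eval (P z₀))) :=
    (A.continuous.tendsto (P z₀)).comp hP
  have hB' : Tendsto (fun z => B.eval (P z)) (𝓝[≠] z₀) (𝓝 (B.eval (P z₀))) :=
    (B.continuous.tendsto (P z₀)).comp hP
  refine (hA'.div hB' hB).congr' ?_
  filter_upwards [hr z₀] with z h
  exact h.2.symm

end J_tendsto_rep

alias Kit.tendsto_rep := J_tendsto_rep.main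

end H26E
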