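import Mathlib
import Pool.Agent.Helper26.EC.Base
import Pool.Agent.Helper26.EC.J_tendsto_rep

set_option autoImplicit false

open Polynomial Filter Topology

namespace H26E

variable {P Q : ℂ → ℂ} {Λ : AddSubgroup ℂ} {ζ g : ℂ}

namespace J_lim

theorem main (K : Kit P Q Λ ζ g) {f : ℂ → ℂ} {A B : ℂ[X]} (hr : Rep P f A B) (hc : IsCoprime A B)
    {z₀ ℓ : ℂ} (hz : z₀ ∉ Λ) (ht : Tendsto f (𝓝[≠] z₀) (𝓝 ℓ)) :
    B.eval (P z₀) ≠ 0 ∧ A.eval (P z₀) / B.eval (P z₀) = ℓ := by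
  have hPc : Tendsto P (𝓝[≠] z₀) (𝓝 (P z₀)) :=
    ((K.dP z₀ hz).continuousAt.tendsto).mono_left nhdsWithin_le_nhds
  have hA : Tendsto (fun z => A.eval (P z)) (𝓝[≠] z₀) (𝓝 (A.eval (P z₀))) :=
    (A.continuous.tendsto (P z₀)).comp hPc
  have hB : Tendsto (fun z => B.eval (P z)) (𝓝[≠] z₀) (𝓝 (B.eval (P z₀))) :=
    (B.continuous.tendsto (P z₀)).comp hPc
  have hfB : Tendsto (fun z => f z * B.eval (P z)) (𝓝[≠] z₀) (𝓝 (ℓ * B.eval (P z₀))) :=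
    ht.mul hB
  have hev : (fun z => f z * B.eval (P z)) =ᶠ[𝓝[≠] z₀] (fun z => A.eval (P z)) := by
    filter_upwards [hr z₀] with z hz
    rw [hz.2, div_mul_cancel₀ _ hz.1]
  have heq : ℓ * B.eval (P z₀) = A.eval (P z₀) :=
    tendsto_nhds_unique (hfB.congr' hev) hA
  have hne : B.eval (P z₀) ≠ 0 := by
    intro h0
    have hA0 : A.eval (P z₀) = 0 := by rw [← heq, h0, mul_zero]
    obtain ⟨u, v, huv⟩ := hc
    have h1 := congrArg (Polynomial.eval (P z₀)) huv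
    simp [hA0, h0] at h1
  exact ⟨hne, by rw [← heq, mul_div_cancel_right₀ _ hne]⟩

end J_lim

alias Kit.lim := J_lim.main

end H26E
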