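import Mathlib
import Pool.Agent.Helper26.EC.Base
import Pool.Agent.Helper26.EC.J_int_div
import Pool.Agent.Helper26.EC.J_zeta_pow_mem
import Pool.Agent.Helper26.EC.J_fifth_mul

set_option autoImplicit false

open Polynomial Filter Topology

namespace H26E

variable {P Q : ℂ → ℂ} {Λ : AddSubgroup ℂ} {ζ g : ℂ}

namespace J_fifth_P

theorem main (K : Kit P Q Λ ζ g) {z : ℂ} {j : ℕ} (hj : j < 3) {s : ℤ} (hs : s = 1 ∨ s = -1)
    (h : z - s * ζ ^ j / 5 ∈ Λ) : P z ≠ 0 := by
  intro h0
  have h1 : z ∉ Λ := by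
    have := (K.fifth_mul hj hs h (k := 1) (by norm_num)).1
    simpa using this
  have h3 : (3 : ℂ) * z ∉ Λ := by
    have := (K.fifth_mul hj hs h (k := 3) (by norm_num)).1
    simpa using this
  have hζ := K.hζ
  have hz3 : ζ ^ 3 = 1 := by linear_combination (ζ - 1) * hζ
  have h2 : ζ * z ∉ Λ := by
    intro hm
    have := K.zeta_pow_mem 2 _ hm
    apply h1
    convert this using 1
    linear_combination (-z) * hz3
  have hP : P (ζ * z) = P z := by rw [K.zP, h0, mul_zero]
  rcases K.inj _ _ h2 h1 hP with hm | hm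
  · -- (ζ - 1) z
    apply h3
    have a1 := K.zeta_pow_mem 2 _ hm
    have : (3 : ℂ) * z = -(ζ * z - z) + ζ ^ 2 * (ζ * z - z) := by
      linear_combination (-z) * hz3 + z * hζ
    rw [this]
    exact Λ.add_mem (Λ.neg_mem hm) a1
  · apply h1
    have a1 := K.zeta_pow_mem 1 _ hm
    have : z = -(ζ ^ 1 * (ζ * z + z)) := by
      linear_combination z * hζ
    rw [this]
    exact Λ.neg_mem a1

end J_fifth_P

alias Kit.fifth_P := J_fifth_P.main

end H26E
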