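import Mathlib
import Pool.Agent.Helper26.EC.Base
import Pool.Agent.Helper26.EC.J_int_div
import Pool.Agent.Helper26.EC.J_zeta_pow_mem
import Pool.Agent.Helper26.EC.J_fifth
import Pool.Agent.Helper26.EC.J_fifth_mul
import Pool.Agent.Helper26.EC.J_fifth_P
import Pool.Agent.Helper26.EC.J_nondeg
import Pool.Agent.Helper26.EC.J_cont_U

set_option autoImplicit false

open Polynomial Filter Topology

namespace H26E

variable {P Q : ℂ → ℂ} {Λ : AddSubgroup ℂ} {ζ g : ℂ}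

namespace J_simple_U

theorem main (K : Kit P Q Λ ζ g) {N : ℕ} (hN : N % 5 = 2) {z₀ : ℂ} (hz : z₀ ∉ Λ)
    (h1 : (N : ℂ) * z₀ ∉ Λ) (h2 : Q (1 / 5) ^ 2 - Q (N * z₀) * Q z₀ ≠ 0)
    (h3 : Q (N * z₀) ^ 2 = Q (1 / 5) ^ 2 ∨ Q z₀ ^ 2 = Q (1 / 5) ^ 2) :
    ∃ κ : ℂ, κ ≠ 0 ∧
      Tendsto (fun z => (Uf Q (Q (1 / 5)) N z ^ 2 - 1) / (z - z₀)) (𝓝[≠] z₀) (𝓝 κ) := by
  have hc : Q (1 / 5) ≠ 0 := by
    have h := K.fifth_mul (z := 1 / 5) (j := 0) (by norm_num) (s := 1) (Or.inl rfl) (by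
      have : (1 / 5 : ℂ) - ((1 : ℤ) : ℂ) * ζ ^ 0 / 5 = 0 := by push_cast; ring
      rw [this]; exact Λ.zero_mem) (k := 1) (by decide)
    refine K.Qne _ ?_
    have h' := h.2
    rwa [Int.cast_one, one_mul] at h'
  set c := Q (1 / 5) with hcdef
  have dh : HasDerivAt Q (6 * P z₀ ^ 2) z₀ := K.dQ z₀ hz
  have dk : HasDerivAt (fun z => Q (N * z)) (6 * P (N * z₀) ^ 2 * N) z₀ := by
    have e1 : HasDerivAt (fun z : ℂ => (N : ℂ) * z) N z₀ := by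
      simpa using (hasDerivAt_id z₀).const_mul (N : ℂ)
    exact HasDerivAt.comp z₀ (K.dQ _ h1) e1
  have dF : HasDerivAt (fun z => (Q (N * z) ^ 2 - c ^ 2) * (Q z ^ 2 - c ^ 2))
      (2 * Q (N * z₀) * (6 * P (N * z₀) ^ 2 * N) * (Q z₀ ^ 2 - c ^ 2) +
        (Q (N * z₀) ^ 2 - c ^ 2) * (2 * Q z₀ * (6 * P z₀ ^ 2))) z₀ := by
    have e1 := ((dk.pow 2).sub_const (c ^ 2)).mul ((dh.pow 2).sub_const (c ^ 2))
    refine e1.congr_deriv ?_
    simp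
  have dD : HasDerivAt (fun z => (c ^ 2 - Q (N * z) * Q z) ^ 2)
      (2 * (c ^ 2 - Q (N * z₀) * Q z₀) * (-((6 * P (N * z₀) ^ 2 * N) * Q z₀ +
        Q (N * z₀) * (6 * P z₀ ^ 2)))) z₀ := by
    have e1 := ((dk.mul dh).const_sub (c ^ 2)).pow 2
    refine e1.congr_deriv ?_
    simp
  have hF0 : (Q (N * z₀) ^ 2 - c ^ 2) * (Q z₀ ^ 2 - c ^ 2) = 0 := by
    rcases h3 with h | h
    · rw [h, sub_self, zero_mul]
    · rw [h, sub_self, mul_zero]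
  have hD0 : (c ^ 2 - Q (N * z₀) * Q z₀) ^ 2 ≠ 0 := pow_ne_zero 2 h2
  set F' := 2 * Q (N * z₀) * (6 * P (N * z₀) ^ 2 * N) * (Q z₀ ^ 2 - c ^ 2) +
        (Q (N * z₀) ^ 2 - c ^ 2) * (2 * Q z₀ * (6 * P z₀ ^ 2)) with hF'
  have hNne : (N : ℂ) ≠ 0 := by
    have : N ≠ 0 := by omega
    exact_mod_cast this
  have hF'0 : F' ≠ 0 := by
    by_cases hA : Q z₀ ^ 2 = c ^ 2
    · have hnd := (K.nondeg hz hA hN).2
      obtain ⟨j, hj, s, hs, hmem⟩ := K.fifth hz hA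
      have hP := K.fifth_P hj hs hmem
      have hQ : Q z₀ ≠ 0 := by
        intro h
        rw [h] at hA
        apply hc
        have : c ^ 2 = 0 := by rw [← hA]; ring
        exact pow_eq_zero_iff (two_ne_zero) |>.1 this
      rw [hF', hA, sub_self, mul_zero, zero_add]
      exact mul_ne_zero (sub_ne_zero.2 hnd) (mul_ne_zero (mul_ne_zero two_ne_zero hQ)
        (mul_ne_zero (by norm_num) (pow_ne_zero 2 hP)))
    · have hB : Q (N * z₀) ^ 2 = c ^ 2 := h3.resolve_right hA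
      obtain ⟨j, hj, s, hs, hmem⟩ := K.fifth h1 hB
      have hP := K.fifth_P hj hs hmem
      have hQ : Q (N * z₀) ≠ 0 := by
        intro h
        rw [h] at hB
        apply hc
        have : c ^ 2 = 0 := by rw [← hB]; ring
        exact pow_eq_zero_iff (two_ne_zero) |>.1 this
      rw [hF', hB, sub_self, zero_mul, add_zero]
      exact mul_ne_zero (mul_ne_zero (mul_ne_zero two_ne_zero hQ)
        (mul_ne_zero (mul_ne_zero (by norm_num) (pow_ne_zero 2 hP)) hNne)) (sub_ne_zero.2 hA)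
  refine ⟨-(F' / (c ^ 2 - Q (N * z₀) * Q z₀) ^ 2), neg_ne_zero.2 (div_ne_zero hF'0 hD0), ?_⟩
  have dΦ := (dF.div dD hD0).neg
  have hval : -((F' * (c ^ 2 - Q (N * z₀) * Q z₀) ^ 2 -
      (Q (N * z₀) ^ 2 - c ^ 2) * (Q z₀ ^ 2 - c ^ 2) *
      (2 * (c ^ 2 - Q (N * z₀) * Q z₀) * (-((6 * P (N * z₀) ^ 2 * N) * Q z₀ +
        Q (N * z₀) * (6 * P z₀ ^ 2))))) / ((c ^ 2 - Q (N * z₀) * Q z₀) ^ 2) ^ 2) =
      -(F' / (c ^ 2 - Q (N * z₀) * Q z₀) ^ 2) := by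
    rw [hF0, zero_mul, sub_zero]
    congr 1
    rw [div_eq_div_iff (pow_ne_zero 2 hD0) hD0]
    ring
  have dΦ' := dΦ.congr_deriv hval
  rw [hasDerivAt_iff_tendsto_slope] at dΦ'
  refine dΦ'.congr' ?_
  have hcont : ContinuousAt (fun z => c ^ 2 - Q (N * z) * Q z) z₀ :=
    ((dk.mul dh).const_sub (c ^ 2)).continuousAt
  have hev : ∀ᶠ z in 𝓝[≠] z₀, c ^ 2 - Q (N * z) * Q z ≠ 0 :=
    (hcont.eventually_ne h2).filter_mono nhdsWithin_le_nhds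
  filter_upwards [hev, self_mem_nhdsWithin] with z hz1 hz2
  have hz3 : z - z₀ ≠ 0 := sub_ne_zero.2 hz2
  rw [slope_def_field]
  simp only [Pi.neg_apply, Pi.div_apply]
  rw [hF0, zero_div, neg_zero, sub_zero]
  unfold Uf
  rw [← hcdef] at *
  congr 1
  rw [div_pow, eq_sub_iff_add_eq, neg_div', div_add_one (pow_ne_zero 2 hz1)]
  congr 1
  ring

end J_simple_U

alias Kit.simple_U := J_simple_U.main

end H26E
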