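import Mathlib
import Pool.Agent.Helper26.EC.Base
import Pool.Agent.Helper26.EC.J_lim

set_option autoImplicit false

open Polynomial Filter Topology

namespace H26E

variable {P Q : ℂ → ℂ} {Λ : AddSubgroup ℂ} {ζ g : ℂ}

namespace J_simple_root

theorem main (K : Kit P Q Λ ζ g) {f : ℂ → ℂ} {A B : ℂ[X]} (hr : Rep P f A B)
    (hc : IsCoprime A B) {z₀ κ : ℂ} (hz : z₀ ∉ Λ) (hκ : κ ≠ 0)
    (ht : Tendsto (fun z => (f z - 1) / (z - z₀)) (𝓝[≠] z₀) (𝓝 κ)) :
    (B - A).rootMultiplicity (P z₀) = 1 := by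
  have hf : Tendsto f (𝓝[≠] z₀) (𝓝 1) := by
    have h1 : Tendsto (fun z => (f z - 1) / (z - z₀) * (z - z₀) + 1) (𝓝[≠] z₀)
        (𝓝 (κ * 0 + 1)) := by
      refine (ht.mul ?_).add tendsto_const_nhds
      have h2 : Tendsto (fun z : ℂ => z - z₀) (𝓝 z₀) (𝓝 (z₀ - z₀)) :=
        (continuous_id.sub continuous_const).tendsto z₀
      rw [sub_self] at h2
      exact h2.mono_left nhdsWithin_le_nhds
    rw [mul_zero, zero_add] at h1
    refine h1.congr' ?_
    filter_upwards [self_mem_nhdsWithin] with z hzz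
    have : z - z₀ ≠ 0 := sub_ne_zero.2 hzz
    field_simp
    ring
  obtain ⟨hB, hAB⟩ := K.lim hr hc hz hf
  have hAB' : A.eval (P z₀) = B.eval (P z₀) := by
    rw [div_eq_one_iff_eq hB] at hAB; exact hAB
  have hD : B - A ≠ 0 := by
    intro h0
    have hBA : B = A := sub_eq_zero.1 h0
    apply hκ
    have h1 : Tendsto (fun z => (f z - 1) / (z - z₀)) (𝓝[≠] z₀) (𝓝 0) := by
      refine tendsto_const_nhds.congr' ?_
      filter_upwards [hr z₀] with z hzz
      rw [hzz.2, hBA, div_self (by rw [← hBA]; exact hzz.1)]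
      simp
    exact tendsto_nhds_unique ht h1
  have hroot : (B - A).IsRoot (P z₀) := by
    rw [IsRoot, eval_sub, hAB', sub_self]
  have h1 : 0 < (B - A).rootMultiplicity (P z₀) := (rootMultiplicity_pos hD).2 hroot
  by_contra hne
  have h2 : 2 ≤ (B - A).rootMultiplicity (P z₀) := by omega
  obtain ⟨E, hE⟩ := (le_rootMultiplicity_iff hD).1 h2
  have hPc : Tendsto P (𝓝[≠] z₀) (𝓝 (P z₀)) :=
    (K.dP z₀ hz).continuousAt.tendsto.mono_left nhdsWithin_le_nhds
  have hsl := hasDerivAt_iff_tendsto_slope.1 (K.dP z₀ hz)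
  have hEc : Tendsto (fun z => E.eval (P z)) (𝓝[≠] z₀) (𝓝 (E.eval (P z₀))) :=
    (E.continuous.tendsto (P z₀)).comp hPc
  have hBc : Tendsto (fun z => B.eval (P z)) (𝓝[≠] z₀) (𝓝 (B.eval (P z₀))) :=
    (B.continuous.tendsto (P z₀)).comp hPc
  have h3 : Tendsto (fun z => -(slope P z₀ z * (P z - P z₀) * (E.eval (P z) / B.eval (P z))))
      (𝓝[≠] z₀) (𝓝 (-(Q z₀ * (P z₀ - P z₀) * (E.eval (P z₀) / B.eval (P z₀))))) :=
    ((hsl.mul (hPc.sub tendsto_const_nhds)).mul (hEc.div hBc hB)).neg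
  rw [sub_self, mul_zero, zero_mul, neg_zero] at h3
  apply hκ
  refine tendsto_nhds_unique ht (h3.congr' ?_)
  filter_upwards [hr z₀, self_mem_nhdsWithin] with z hzz hzn
  have hzn' : z - z₀ ≠ 0 := sub_ne_zero.2 hzn
  have hev : B.eval (P z) - A.eval (P z) = (P z - P z₀) ^ 2 * E.eval (P z) := by
    rw [← eval_sub, hE]
    simp
  have hAe : A.eval (P z) = B.eval (P z) - (P z - P z₀) ^ 2 * E.eval (P z) := by
    rw [← hev]; ring
  rw [hzz.2, slope_def_field, hAe]
  have := hzz.1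
  field_simp
  ring

end J_simple_root

alias Kit.simple_root := J_simple_root.main

end H26E
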