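import Mathlib
import Pool.Agent.Helper26.EC.Base
import Pool.Agent.Helper26.EC.J_lim
import Pool.Agent.Helper26.EC.J_tendsto_rep
import Pool.Agent.Helper26.EC.J_deg_zero
import Pool.Agent.Helper26.EC.J_simple_root
import Pool.Agent.Helper26.EC.J_class_U
import Pool.Agent.Helper26.EC.J_simple_U
import Pool.Agent.Helper26.EC.J_U_zero

set_option autoImplicit false

open Polynomial Filter Topology

namespace H26E

variable {P Q : ℂ → ℂ} {Λ : AddSubgroup ℂ} {ζ g : ℂ}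

namespace J_count

/-- the solutions of `U ^ 2 = 1` -/
theorem main (K : Kit P Q Λ ζ g) {N : ℕ} (hN : N % 5 = 2) {M W : ℂ[X]} (hc : IsCoprime M W)
    (hr : Rep P (fun z => Uf Q (Q (1 / 5)) N z ^ 2) M W) :
    (W - M).roots.toFinset.card = W.natDegree ∧ ∀ t ∈ (W - M).roots.toFinset, ∃ z₀, z₀ ∉ Λ ∧ P z₀ = t ∧
      (N : ℂ) * z₀ ∉ Λ ∧ Q (1 / 5) ^ 2 - Q (N * z₀) * Q z₀ ≠ 0 ∧ Uf Q (Q (1 / 5)) N z₀ ^ 2 = 1 ∧
      (Q (N * z₀) ^ 2 = Q (1 / 5) ^ 2 ∨ Q z₀ ^ 2 = Q (1 / 5) ^ 2) := by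
  have hW0 : W ≠ 0 := hr.ne_zero
  have hdlt : M.degree < W.degree := K.deg_zero hr (K.U_zero _ (by omega))
  have hdeg : (W - M).degree = W.degree := Polynomial.degree_sub_eq_left_of_degree_lt hdlt
  have hnd : (W - M).natDegree = W.natDegree := Polynomial.natDegree_eq_of_degree_eq hdeg
  have hne : W - M ≠ 0 := by
    intro h
    rw [h, Polynomial.degree_zero] at hdeg
    exact hW0 (Polynomial.degree_eq_bot.1 hdeg.symm)
  have key : ∀ t ∈ (W - M).roots, (∃ z₀, z₀ ∉ Λ ∧ P z₀ = t ∧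
      (N : ℂ) * z₀ ∉ Λ ∧ Q (1 / 5) ^ 2 - Q (N * z₀) * Q z₀ ≠ 0 ∧ Uf Q (Q (1 / 5)) N z₀ ^ 2 = 1 ∧
      (Q (N * z₀) ^ 2 = Q (1 / 5) ^ 2 ∨ Q z₀ ^ 2 = Q (1 / 5) ^ 2)) ∧
      (W - M).rootMultiplicity t = 1 := by
    intro t ht
    have hev : (W - M).eval t = 0 := (Polynomial.mem_roots hne).1 ht
    rw [Polynomial.eval_sub, sub_eq_zero] at hev
    have hWt : W.eval t ≠ 0 := by
      intro h0
      obtain ⟨a, b, hab⟩ := hc
      have h1 := congrArg (Polynomial.eval t) hab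
      rw [Polynomial.eval_add, Polynomial.eval_mul, Polynomial.eval_mul, ← hev, h0,
        Polynomial.eval_one, mul_zero, mul_zero, add_zero] at h1
      exact zero_ne_one h1
    obtain ⟨z₀, hz, hzt⟩ := K.surj t
    have hlim := K.tendsto_rep hr hz (by rw [hzt]; exact hWt)
    rw [hzt, ← hev, div_self hWt] at hlim
    obtain ⟨c1, c2, c3, c4⟩ := K.class_U hN hz hlim
    refine ⟨⟨z₀, hz, hzt, c1, c2, c3, c4⟩, ?_⟩
    obtain ⟨κ, hκ, hκt⟩ := K.simple_U hN hz c1 c2 c4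
    have := K.simple_root hr hc hz hκ hκt
    rwa [hzt] at this
  have hnodup : (W - M).roots.Nodup := by
    rw [Multiset.nodup_iff_count_le_one]
    intro a
    by_cases ha : a ∈ (W - M).roots
    · rw [Polynomial.count_roots, (key a ha).2]
    · rw [Multiset.count_eq_zero_of_notMem ha]
      exact Nat.zero_le _
  refine ⟨?_, fun t ht => (key t (Multiset.mem_toFinset.1 ht)).1⟩
  rw [Multiset.toFinset_card_of_nodup hnodup, ← hnd]
  exact (IsAlgClosed.splits (W - M)).natDegree_eq_card_roots.symm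

end J_count

alias Kit.count := J_count.main

end H26E
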