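import Mathlib
import Pool.Agent.Helper26.EC.Base

set_option autoImplicit false

open Polynomial Filter Topology

namespace H26E

variable {P Q : ℂ → ℂ} {Λ : AddSubgroup ℂ} {ζ g : ℂ}

namespace J_finite_bad

/-- finitely many exceptions modulo periods -/
theorem main (K : Kit P Q Λ ζ g) {p : ℂ → Prop} (hp : AE p)
    (hper : ∀ z, ∀ l ∈ Λ, p z → p (z + l)) : ∃ T : Finset ℂ, ∀ z, z ∉ Λ → P z ∉ T → p z := by
  classical
  set D : Set ℂ := (fun q : ℝ × ℝ => (q.1 : ℂ) + (q.2 : ℂ) * ζ) '' (Set.Icc (0 : ℝ) 1 ×ˢ Set.Icc (0 : ℝ) 1)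
    with hD
  have hDc : IsCompact D := by
    apply (isCompact_Icc.prod isCompact_Icc).image
    exact (Complex.continuous_ofReal.comp continuous_fst).add
      ((Complex.continuous_ofReal.comp continuous_snd).mul continuous_const)
  obtain ⟨t, _, ht⟩ := hDc.elim_nhds_subcover (fun z₀ => {z | z ≠ z₀ → p z}) (by
    intro z₀ _
    have := eventually_nhdsWithin_iff.mp (hp z₀)
    exact this)
  have him : ζ.im ≠ 0 := by
    intro h0
    have h1 := congrArg Complex.re K.hζ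
    simp only [sq, Complex.add_re, Complex.mul_re, Complex.one_re, Complex.zero_re, h0] at h1
    nlinarith [sq_nonneg (ζ.re + 1 / 2)]
  refine ⟨t.image P, ?_⟩
  intro z _ hzT
  by_contra hpz
  set y : ℝ := z.im / ζ.im with hy
  set x : ℝ := z.re - y * ζ.re with hx
  have hz : z = (x : ℂ) + (y : ℂ) * ζ := by
    apply Complex.ext
    · simp [hx]
    · simp [hy, div_mul_cancel₀ _ him]
  set l : ℂ := ((⌊x⌋ : ℤ) : ℂ) + ((⌊y⌋ : ℤ) : ℂ) * ζ with hl
  have hlΛ : l ∈ Λ := (K.mem l).mpr ⟨⌊x⌋, ⌊y⌋, rfl⟩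
  have hzl : z + -l = ((Int.fract x : ℝ) : ℂ) + ((Int.fract y : ℝ) : ℂ) * ζ := by
    rw [hl, hz]
    have e1 : ((Int.fract x : ℝ) : ℂ) = (x : ℂ) - ((⌊x⌋ : ℤ) : ℂ) := by
      rw [Int.fract]; push_cast; ring
    have e2 : ((Int.fract y : ℝ) : ℂ) = (y : ℂ) - ((⌊y⌋ : ℤ) : ℂ) := by
      rw [Int.fract]; push_cast; ring
    rw [e1, e2]
    ring
  have hmem : z + -l ∈ D := by
    rw [hzl]
    exact ⟨(Int.fract x, Int.fract y),
      ⟨⟨Int.fract_nonneg _, (Int.fract_lt_one _).le⟩, ⟨Int.fract_nonneg _, (Int.fract_lt_one _).le⟩⟩, rfl⟩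
  have hbad : ¬ p (z + -l) := by
    intro h
    apply hpz
    have := hper _ l hlΛ h
    rwa [neg_add_cancel_right] at this
  obtain ⟨w, hwt, hw⟩ := Set.mem_iUnion₂.mp (ht hmem)
  have hwz : z + -l = w := by
    by_contra hne
    exact hbad (hw hne)
  apply hzT
  rw [Finset.mem_image]
  refine ⟨w, hwt, ?_⟩
  rw [← hwz]
  exact K.perP z (-l) (Λ.neg_mem hlΛ)

end J_finite_bad

alias Kit.finite_bad := J_finite_bad.main

end H26E
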