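import Mathlib
import Pool.Agent.Helper26.EC.Base
import Pool.Agent.Helper26.EC.J_indep
import Pool.Agent.Helper26.EC.J_int_div
import Pool.Agent.Helper26.EC.J_zeta_pow_mem
import Pool.Agent.Helper26.EC.J_fifth
import Pool.Agent.Helper26.EC.J_fifth_mul
import Pool.Agent.Helper26.EC.J_nondeg
import Pool.Agent.Helper26.EC.J_cont_U
import Pool.Agent.Helper26.EC.J_class_U

set_option autoImplicit false

open Polynomial Filter Topology

namespace H26E

variable {P Q : ℂ → ℂ} {Λ : AddSubgroup ℂ} {ζ g : ℂ}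

namespace J_noperiod

theorem analQ (K : Kit P Q Λ ζ g) {z : ℂ} (hz : z ∉ Λ) : AnalyticAt ℂ Q z := by
  have ho : IsOpen ((Λ : Set ℂ)ᶜ) := K.closed.isOpen_compl
  have hd : DifferentiableOn ℂ Q ((Λ : Set ℂ)ᶜ) := fun w hw =>
    (K.dQ w hw).differentiableAt.differentiableWithinAt
  exact hd.analyticAt (ho.mem_nhds hz)

theorem meroQ0 (K : Kit P Q Λ ζ g) : MeromorphicAt Q 0 := by
  set F : ℂ → ℂ := Function.update (fun z => z ^ 3 * Q z) 0 (-2) with hF
  have hFa : AnalyticAt ℂ F 0 := by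
    apply Complex.analyticAt_of_differentiable_on_punctured_nhds_of_continuousAt
    · filter_upwards [K.disc 0, self_mem_nhdsWithin] with z h1 h2
      have he : F =ᶠ[𝓝 z] fun z => z ^ 3 * Q z := by
        filter_upwards [isOpen_ne.mem_nhds h2] with w hw
        exact Function.update_of_ne hw _ _
      refine DifferentiableAt.congr_of_eventuallyEq ?_ he
      exact (differentiableAt_pow 3).mul (K.dQ z h1).differentiableAt
    · rw [hF, continuousAt_update_same]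
      exact K.poleQ
  have he : (fun z => F z * (z ^ 3)⁻¹) =ᶠ[𝓝[≠] 0] Q := by
    filter_upwards [self_mem_nhdsWithin] with z hz
    have h1 : F z = z ^ 3 * Q z := Function.update_of_ne hz _ _
    have h2 : z ≠ 0 := hz
    rw [h1]
    field_simp
  have hm : MeromorphicAt (fun z : ℂ => F z * (z ^ 3)⁻¹) 0 :=
    hFa.meromorphicAt.mul (((MeromorphicAt.id 0).pow 3).inv)
  exact hm.congr he

theorem meroQ (K : Kit P Q Λ ζ g) (z₀ : ℂ) : MeromorphicAt Q z₀ := by
  by_cases hz : z₀ ∈ Λ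
  · have h := (meroQ0 K)
    have h1 : MeromorphicAt (Q ∘ fun z : ℂ => z - z₀) z₀ := by
      apply MeromorphicAt.comp_analyticAt
      · simpa using h
      · fun_prop
    have h2 : (Q ∘ fun z : ℂ => z - z₀) = Q := by
      funext z
      have := K.perQ (z - z₀) z₀ hz
      simp only [Function.comp]
      rw [← this]
      congr 1
      ring
    rwa [h2] at h1
  · exact (analQ K hz).meromorphicAt

theorem meroU (K : Kit P Q Λ ζ g) (c : ℂ) (N : ℕ) (z₀ : ℂ) : MeromorphicAt (Uf Q c N) z₀ := by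
  have h1 : MeromorphicAt (fun z : ℂ => Q ((N : ℂ) * z)) z₀ := by
    have := MeromorphicAt.comp_analyticAt (f := Q) (g := fun z : ℂ => (N : ℂ) * z) (x := z₀)
      (meroQ K _) (by fun_prop)
    exact this
  have h2 := meroQ K z₀
  unfold Uf
  exact ((MeromorphicAt.const c z₀).mul (h1.sub h2)).div
    ((MeromorphicAt.const (c ^ 2) z₀).sub (h1.mul h2))

theorem meroV (K : Kit P Q Λ ζ g) (c : ℂ) (N : ℕ) (τ : ℂ) (z₀ : ℂ) :
    MeromorphicAt (fun z => Uf Q c N (z + τ) - Uf Q c N z) z₀ := by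
  have h1 : MeromorphicAt (fun z : ℂ => Uf Q c N (z + τ)) z₀ := by
    have := MeromorphicAt.comp_analyticAt (f := Uf Q c N) (g := fun z : ℂ => z + τ) (x := z₀)
      (meroU K c N _) (by fun_prop)
    exact this
  exact h1.sub (meroU K c N z₀)

theorem Qzpow (K : Kit P Q Λ ζ g) (j : ℕ) (z : ℂ) : Q (ζ ^ j * z) = Q z := by
  induction j with
  | zero => simp
  | succ j ih => rw [pow_succ', mul_assoc, K.zQ, ih]

theorem Qpt (K : Kit P Q Λ ζ g) {w : ℂ} {j : ℕ} {s : ℤ} (hs : s = 1 ∨ s = -1)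
    (h : w - s * ζ ^ j / 5 ∈ Λ) : Q w = s * Q (1 / 5) := by
  have h1 : Q w = Q (s * ζ ^ j / 5) := by
    have := K.perQ (s * ζ ^ j / 5) _ h
    rw [← this]
    congr 1
    ring
  rw [h1]
  rcases hs with rfl | rfl
  · have : (((1 : ℤ) : ℂ) * ζ ^ j / 5) = ζ ^ j * (1 / 5) := by push_cast; ring
    rw [this, Qzpow K]
    simp
  · have : (((-1 : ℤ) : ℂ) * ζ ^ j / 5) = -(ζ ^ j * (1 / 5)) := by push_cast; ring
    rw [this, K.oddQ, Qzpow K]
    simp

theorem Qpt_one (K : Kit P Q Λ ζ g) (hc : Q (1 / 5) ≠ 0) {w : ℂ} (hw : w ∉ Λ)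
    (h : Q w = Q (1 / 5)) : ∃ j : ℕ, j < 3 ∧ w - ζ ^ j / 5 ∈ Λ := by
  obtain ⟨j, hj, s, hs, hm⟩ := K.fifth hw (by rw [h])
  have h1 := Qpt K hs hm
  rcases hs with rfl | rfl
  · exact ⟨j, hj, by simpa using hm⟩
  · exfalso
    rw [h] at h1
    push_cast at h1
    have : 2 * Q (1 / 5) = 0 := by linear_combination h1
    rcases mul_eq_zero.mp this with h2 | h2
    · norm_num at h2
    · exact hc h2

theorem natmul_mem (n : ℕ) {z : ℂ} (hz : z ∈ Λ) : (n : ℂ) * z ∈ Λ := by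
  have := Λ.nsmul_mem hz n
  simpa [nsmul_eq_mul] using this

theorem main (K : Kit P Q Λ ζ g) {N m' : ℕ} (hm : m' % 5 = 2) (hN : N = 3 * m' + 1) {τ : ℂ}
    (h1 : ((N * m' : ℕ) : ℂ) * τ ∈ Λ) (h2 : τ ∉ Λ) :
    AE (fun z => Uf Q (Q (1 / 5)) N (z + τ) ≠ Uf Q (Q (1 / 5)) N z) := by
  have hN5 : N % 5 = 2 := by omega
  have hNm : (N * m') % 5 = 4 := by rw [Nat.mul_mod, hN5, hm]
  have hNm' : ¬ (5 : ℤ) ∣ ((N * m' : ℕ) : ℤ) := by
    intro h
    have h' : 5 ∣ N * m' := by exact_mod_cast h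
    omega
  have hm5 : ¬ (5 : ℤ) ∣ ((m' : ℕ) : ℤ) := by
    intro h
    have h' : 5 ∣ m' := by exact_mod_cast h
    omega
  have h15 : (1 / 5 : ℂ) ∉ Λ := by
    intro h
    have := (K.int_div 5 1 0 (by norm_num) (by push_cast; simpa using h)).1
    norm_num at this
  have h25 : 2 * (1 / 5 : ℂ) ∉ Λ := by
    intro h
    have := (K.int_div 5 2 0 (by norm_num) (by
      have e : (((2 : ℤ) : ℂ) + ((0 : ℤ) : ℂ) * ζ) / ((5 : ℤ) : ℂ) = 2 * (1 / 5) := by
        push_cast; ring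
      rw [e]; exact h)).1
    norm_num at this
  set c := Q (1 / 5) with hcdef
  have hc : c ≠ 0 := K.Qne _ h25
  obtain ⟨hn1, hn2⟩ := K.nondeg h15 rfl hN5
  have hcQ : c - Q ((N : ℂ) * (1 / 5)) ≠ 0 := by
    intro h
    apply hn2
    have : Q ((N : ℂ) * (1 / 5)) = c := by linear_combination -h
    rw [this]
  -- values at -1/5
  have hneg : (-(1 / 5) : ℂ) ∉ Λ := fun h => h15 (by simpa using Λ.neg_mem h)
  have hnegN : (N : ℂ) * (-(1 / 5)) ∉ Λ := fun h => hn1 (by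
    have := Λ.neg_mem h
    simpa [mul_neg] using this)
  have hQ1 : Q (-(1 / 5)) = -c := K.oddQ _
  have hQ2 : Q ((N : ℂ) * (-(1 / 5))) = - Q ((N : ℂ) * (1 / 5)) := by
    rw [mul_neg, K.oddQ]
  have hden : c ^ 2 - Q ((N : ℂ) * (-(1 / 5))) * Q (-(1 / 5)) ≠ 0 := by
    rw [hQ1, hQ2]
    have : c ^ 2 - -Q ((N : ℂ) * (1 / 5)) * -c = c * (c - Q ((N : ℂ) * (1 / 5))) := by ring
    rw [this]
    exact mul_ne_zero hc hcQ
  have hU1 : Uf Q c N (-(1 / 5)) = 1 := by
    unfold Uf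
    rw [div_eq_one_iff_eq hden, hQ1, hQ2]
    ring
  have hT1 : Tendsto (fun z => Uf Q c N z) (𝓝[≠] (-(1 / 5))) (𝓝 1) := by
    have := K.cont_U c N hneg hnegN hden
    rwa [hU1] at this
  by_contra hAE
  unfold AE at hAE
  push Not at hAE
  obtain ⟨z₀, hz₀⟩ := hAE
  have hV := meroV K c N τ
  have hord : meromorphicOrderAt (fun z => Uf Q c N (z + τ) - Uf Q c N z) z₀ = ⊤ := by
    rw [meromorphicOrderAt_eq_top_iff]
    rcases (hV z₀).eventually_eq_zero_or_eventually_ne_zero with h | h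
    · exact h
    · exfalso
      apply hz₀
      filter_upwards [h] with z hz
      exact fun e => hz (sub_eq_zero.mpr e)
  have hord' : meromorphicOrderAt (fun z => Uf Q c N (z + τ) - Uf Q c N z) (-(1 / 5)) = ⊤ := by
    by_contra hne
    exact (MeromorphicOn.meromorphicOrderAt_ne_top_of_isPreconnected (U := Set.univ)
      (x := -(1 / 5)) (y := z₀) (fun z _ => hV z) isPreconnected_univ (Set.mem_univ _)
      (Set.mem_univ _) hne) hord
  rw [meromorphicOrderAt_eq_top_iff] at hord'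
  have hT2 : Tendsto (fun z => Uf Q c N (z + τ)) (𝓝[≠] (-(1 / 5))) (𝓝 1) := by
    refine hT1.congr' ?_
    filter_upwards [hord'] with z hz
    exact (sub_eq_zero.mp hz).symm
  set w₀ : ℂ := -(1 / 5) + τ with hw₀
  have hT3 : Tendsto (fun w => Uf Q c N w) (𝓝[≠] w₀) (𝓝 1) := by
    have ht : Tendsto (fun w => w - τ) (𝓝[≠] w₀) (𝓝[≠] (-(1 / 5))) := by
      refine tendsto_nhdsWithin_of_tendsto_nhds_of_eventually_within _ ?_ ?_
      · have h3 : Tendsto (fun w : ℂ => w - τ) (𝓝 w₀) (𝓝 (w₀ - τ)) :=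
          (continuous_id.sub continuous_const).tendsto w₀
        have h4 : w₀ - τ = -(1 / 5) := by rw [hw₀]; ring
        rw [h4] at h3
        exact h3.mono_left nhdsWithin_le_nhds
      · filter_upwards [self_mem_nhdsWithin] with w hw
        intro h
        apply hw
        have h' : w - τ = -(1 / 5) := h
        show w = w₀
        rw [hw₀, ← h']
        ring
    have := hT2.comp ht
    refine this.congr fun w => ?_
    simp
  have hw₀L : w₀ ∉ Λ := by
    intro h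
    have h3 := natmul_mem (N * m') h
    have h4 := Λ.sub_mem h1 h3
    have h5 := (K.int_div 5 ((N * m' : ℕ) : ℤ) 0 (by norm_num) (by
      have e : ((((N * m' : ℕ) : ℤ) : ℂ) + ((0 : ℤ) : ℂ) * ζ) / ((5 : ℤ) : ℂ)
          = ((N * m' : ℕ) : ℂ) * τ - ((N * m' : ℕ) : ℂ) * w₀ := by
        rw [hw₀]; push_cast; ring
      rw [e]; exact h4)).1
    exact hNm' h5
  obtain ⟨ha, hb, _, _⟩ := K.class_U hN5 hw₀L (by
    have h9 := hT3.pow 2
    rw [one_pow] at h9
    exact h9)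
  have hU2 : Uf Q c N w₀ = 1 := by
    have := K.cont_U c N hw₀L ha hb
    exact tendsto_nhds_unique this hT3
  have hfac : (Q ((N : ℂ) * w₀) - c) * (Q w₀ + c) = 0 := by
    unfold Uf at hU2
    rw [div_eq_one_iff_eq hb] at hU2
    linear_combination hU2
  have hζ2 : ζ ^ 2 = -1 - ζ := by linear_combination K.hζ
  rcases mul_eq_zero.mp hfac with hk | hh
  · -- case k = c
    obtain ⟨j, hj, hmem⟩ := Qpt_one K hc ha (sub_eq_zero.mp hk)
    have h3 := natmul_mem m' hmem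
    have h4 := Λ.sub_mem h1 h3
    -- m' (N + ζ^j) / 5 ∈ Λ
    have h5 : (m' : ℂ) * ((N : ℂ) + ζ ^ j) / 5 ∈ Λ := by
      have e : (m' : ℂ) * ((N : ℂ) + ζ ^ j) / 5
          = ((N * m' : ℕ) : ℂ) * τ - (m' : ℂ) * ((N : ℂ) * w₀ - ζ ^ j / 5) := by
        rw [hw₀]; push_cast; ring
      rw [e]; exact h4
    interval_cases j
    · have h6 := (K.int_div 5 ((m' : ℤ) * (N + 1)) 0 (by norm_num) (by
        have e : ((((m' : ℤ) * (N + 1) : ℤ) : ℂ) + ((0 : ℤ) : ℂ) * ζ) / ((5 : ℤ) : ℂ)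
            = (m' : ℂ) * ((N : ℂ) + ζ ^ 0) / 5 := by
          push_cast; ring
        rw [e]; exact h5)).1
      have h7 : 5 ∣ m' * (N + 1) := by exact_mod_cast h6
      have h8 : (m' * (N + 1)) % 5 = 1 := by
        rw [Nat.mul_mod, hm]
        have : (N + 1) % 5 = 3 := by omega
        rw [this]
      omega
    · have h6 := (K.int_div 5 ((m' : ℤ) * N) (m' : ℤ) (by norm_num) (by
        have e : ((((m' : ℤ) * N : ℤ) : ℂ) + (((m' : ℤ)) : ℂ) * ζ) / ((5 : ℤ) : ℂ)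
            = (m' : ℂ) * ((N : ℂ) + ζ ^ 1) / 5 := by
          push_cast; ring
        rw [e]; exact h5)).2
      exact hm5 h6
    · have h6 := (K.int_div 5 ((m' : ℤ) * (N - 1)) (-(m' : ℤ)) (by norm_num) (by
        have e : ((((m' : ℤ) * (N - 1) : ℤ) : ℂ) + ((-(m' : ℤ) : ℤ) : ℂ) * ζ) / ((5 : ℤ) : ℂ)
            = (m' : ℂ) * ((N : ℂ) + ζ ^ 2) / 5 := by
          rw [hζ2]; push_cast; ring
        rw [e]; exact h5)).2
      exact hm5 ((dvd_neg).mp h6)
  · -- case h = -c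
    have hQn : Q (-w₀) = c := by
      rw [K.oddQ]
      linear_combination -hh
    have hwn : -w₀ ∉ Λ := fun h => hw₀L (by simpa using Λ.neg_mem h)
    obtain ⟨j, hj, hmem⟩ := Qpt_one K hc hwn hQn
    have h3 := natmul_mem (N * m') hmem
    have h4 := Λ.add_mem h1 h3
    have h5 : ((N * m' : ℕ) : ℂ) * (1 - ζ ^ j) / 5 ∈ Λ := by
      have e : ((N * m' : ℕ) : ℂ) * (1 - ζ ^ j) / 5
          = ((N * m' : ℕ) : ℂ) * τ + ((N * m' : ℕ) : ℂ) * (-w₀ - ζ ^ j / 5) := by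
        rw [hw₀]; ring
      rw [e]; exact h4
    interval_cases j
    · apply h2
      have := Λ.neg_mem hmem
      have e : -(-w₀ - ζ ^ 0 / 5) = τ := by rw [hw₀]; ring
      rwa [e] at this
    · have h6 := (K.int_div 5 ((N * m' : ℕ) : ℤ) (-((N * m' : ℕ) : ℤ)) (by norm_num) (by
        have e : ((((N * m' : ℕ) : ℤ) : ℂ) + ((-((N * m' : ℕ) : ℤ) : ℤ) : ℂ) * ζ) / ((5 : ℤ) : ℂ)
            = ((N * m' : ℕ) : ℂ) * (1 - ζ ^ 1) / 5 := by
          push_cast; ring
        rw [e]; exact h5)).1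
      exact hNm' h6
    · have h6 := (K.int_div 5 (2 * ((N * m' : ℕ) : ℤ)) (((N * m' : ℕ) : ℤ)) (by norm_num) (by
        have e : (((2 * ((N * m' : ℕ) : ℤ) : ℤ) : ℂ) + ((((N * m' : ℕ) : ℤ) : ℤ) : ℂ) * ζ) / ((5 : ℤ) : ℂ)
            = ((N * m' : ℕ) : ℂ) * (1 - ζ ^ 2) / 5 := by
          rw [hζ2]; push_cast; ring
        rw [e]; exact h5)).2
      exact hNm' h6

end J_noperiod

alias Kit.noperiod := J_noperiod.main

end H26E
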