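import Mathlib

set_option autoImplicit false

open Polynomial

namespace H26E

/-- the polynomial whose roots are the parameters `t` with `A t / B t = a` -/
noncomputable def fib (A B : ℂ[X]) : OnePoint ℂ → ℂ[X]
  | none => B
  | some a => A - C a * B

/-- degree of the map `t ↦ A t / B t` from the projective line to itself (`A`, `B` coprime) -/
noncomputable def dg (A B : ℂ[X]) : ℕ := max A.natDegree B.natDegree

/-- number of the parameters `t ∈ ℂ` mapped to `p` by `t ↦ (A t / B t, A' t / B' t)`, each counted with
the multiplicity of the branch (the smaller of the two orders of vanishing) -/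
noncomputable def mlt (A B A' B' : ℂ[X]) (p : OnePoint ℂ × OnePoint ℂ) : ℕ :=
  (EuclideanDomain.gcd (fib A B p.1) (fib A' B' p.2)).natDegree

/-- `t ↦ (A/B, G/H)(t)` is injective outside a finite set -/
def GenInj (A B G H : ℂ[X]) : Prop :=
  ∃ T : Finset ℂ, ∀ t, t ∉ T → ∀ t', t' ∉ T → A.eval t * B.eval t' = A.eval t' * B.eval t →
    G.eval t * H.eval t' = G.eval t' * H.eval t → t = t'

end H26E
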