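import Mathlib
import Pool.Agent.Helper26.EC.KDefs

set_option autoImplicit false

open Polynomial

namespace H26E

/-- the parameters of the Cremona transformation -/
structure Par (e₁ e₂ e₃ : ℂ) (S : Finset (ℂ × ℂ)) (x₁ x₂ r₁ r₂ : ℂ) (ρ₁ ρ₂ ρ₃ ρ₄ : ℂ) : Prop where
  he12 : e₁ ≠ e₂
  he13 : e₁ ≠ e₃
  he23 : e₂ ≠ e₃
  hx : x₁ ≠ x₂
  hr : r₁ ≠ r₂
  hr1 : r₁ ≠ 0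
  hr2 : r₂ ≠ 0
  hx1 : x₁ ≠ e₁ ∧ x₁ ≠ e₂ ∧ x₁ ≠ e₃
  hx2 : x₂ ≠ e₁ ∧ x₂ ≠ e₂ ∧ x₂ ≠ e₃
  e1 : ρ₁ = (e₂ - x₁) / (e₂ - x₂) * (r₂ / r₁)
  e2 : ρ₂ = (e₃ - x₁) / (e₃ - x₂) * (r₂ / r₁)
  e3 : ρ₃ = (e₁ - x₁) / (e₁ - x₂)
  e4 : ρ₄ = 1
  h12 : ρ₁ ≠ ρ₂
  h13 : ρ₁ ≠ ρ₃
  h14 : ρ₁ ≠ ρ₄
  h23 : ρ₂ ≠ ρ₃
  h24 : ρ₂ ≠ ρ₄
  h34 : ρ₃ ≠ ρ₄
  h0 : ρ₁ ≠ 0 ∧ ρ₂ ≠ 0 ∧ ρ₃ ≠ 0 ∧ ρ₄ ≠ 0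
  hφ : ρ₁ ≠ r₂ / r₁ ∧ ρ₂ ≠ r₂ / r₁ ∧ ρ₃ ≠ r₂ / r₁ ∧ ρ₄ ≠ r₂ / r₁
  hS : ∀ p ∈ S, p.1 ≠ e₁ ∧ p.1 ≠ e₂ ∧ p.1 ≠ e₃ ∧ p.1 ≠ x₁ ∧ p.1 ≠ x₂ ∧ p.2 ≠ r₁ ∧ p.2 ≠ r₂ ∧
    (p.1 - x₁) / (p.1 - x₂) * ((p.2 - r₂) / (p.2 - r₁)) ≠ ρ₁ ∧
    (p.1 - x₁) / (p.1 - x₂) * ((p.2 - r₂) / (p.2 - r₁)) ≠ ρ₂ ∧
    (p.1 - x₁) / (p.1 - x₂) * ((p.2 - r₂) / (p.2 - r₁)) ≠ ρ₃ ∧
    (p.1 - x₁) / (p.1 - x₂) * ((p.2 - r₂) / (p.2 - r₁)) ≠ ρ₄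

/-- the curve -/
structure Cur (A B G H : ℂ[X]) : Prop where
  hAB : IsCoprime A B
  hGH : IsCoprime G H
  hB : B ≠ 0
  hG : G ≠ 0
  dAB : B.natDegree < A.natDegree
  dGH : G.natDegree < H.natDegree

/-- the transformed curve -/
structure Tra (A B G H : ℂ[X]) (x₁ x₂ r₁ r₂ ρ₁ ρ₂ ρ₃ ρ₄ : ℂ)
    (g₁ g₂ u₀ u₁ v₀ v₁ L₁ L₂ L₃ L₄ l₁ l₂ l₃ l₄ G' H' : ℂ[X]) : Prop where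
  a0 : A - C x₁ * B = g₁ * u₀
  a1 : G - C r₁ * H = g₁ * v₁
  a2 : A - C x₂ * B = g₂ * u₁
  a3 : G - C r₂ * H = g₂ * v₀
  cop1 : IsCoprime (u₀ * v₀) (u₁ * v₁)
  l1 : L₁ = u₀ * v₀ - C ρ₁ * (u₁ * v₁)
  l2 : L₂ = u₀ * v₀ - C ρ₂ * (u₁ * v₁)
  l3 : L₃ = u₀ * v₀ - C ρ₃ * (u₁ * v₁)
  l4 : L₄ = u₀ * v₀ - C ρ₄ * (u₁ * v₁)
  c12 : IsCoprime L₁ L₂
  c13 : IsCoprime L₁ L₃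
  c14 : IsCoprime L₁ L₄
  c23 : IsCoprime L₂ L₃
  c24 : IsCoprime L₂ L₄
  c34 : IsCoprime L₃ L₄
  m1 : L₁ = EuclideanDomain.gcd G L₁ * l₁
  m2 : L₂ = EuclideanDomain.gcd G L₂ * l₂
  m3 : L₃ = EuclideanDomain.gcd H L₃ * l₃
  m4 : L₄ = EuclideanDomain.gcd H L₄ * l₄
  mG : G = EuclideanDomain.gcd G L₁ * EuclideanDomain.gcd G L₂ * G'
  mH : H = EuclideanDomain.gcd H L₃ * EuclideanDomain.gcd H L₄ * H'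
  cop2 : IsCoprime (G' * l₃ * l₄) (H' * l₁ * l₂)
  dg1 : (u₀ * v₀).natDegree + g₁.natDegree + g₂.natDegree = A.natDegree + H.natDegree
  dg1' : (u₁ * v₁).natDegree = (u₀ * v₀).natDegree
  dL1 : L₁.natDegree = (u₀ * v₀).natDegree
  dL2 : L₂.natDegree = (u₀ * v₀).natDegree
  dL3 : L₃.natDegree = (u₀ * v₀).natDegree
  dL4 : L₄.natDegree = (u₀ * v₀).natDegree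
  hL : L₁ ≠ 0 ∧ L₂ ≠ 0 ∧ L₃ ≠ 0 ∧ L₄ ≠ 0
  dN : (G' * l₃ * l₄).natDegree < (H' * l₁ * l₂).natDegree
  dD : (H' * l₁ * l₂).natDegree + (EuclideanDomain.gcd G L₁).natDegree + (EuclideanDomain.gcd G L₂).natDegree +
    (EuclideanDomain.gcd H L₃).natDegree + (EuclideanDomain.gcd H L₄).natDegree =
    H.natDegree + 2 * (u₀ * v₀).natDegree
  dv1 : v₁.natDegree + g₁.natDegree = H.natDegree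
  dv0 : v₀.natDegree + g₂.natDegree = H.natDegree

/-- the image of a point of the plane -/
noncomputable def im (x₁ x₂ r₁ r₂ ρ₁ ρ₂ ρ₃ ρ₄ : ℂ) (p : ℂ × ℂ) : OnePoint ℂ × OnePoint ℂ :=
  (some ((p.1 - x₁) / (p.1 - x₂) * ((p.2 - r₂) / (p.2 - r₁))),
   some (p.2 * (((p.1 - x₁) / (p.1 - x₂) * ((p.2 - r₂) / (p.2 - r₁))) - ρ₃) *
      (((p.1 - x₁) / (p.1 - x₂) * ((p.2 - r₂) / (p.2 - r₁))) - ρ₄) /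
     ((((p.1 - x₁) / (p.1 - x₂) * ((p.2 - r₂) / (p.2 - r₁))) - ρ₁) *
      (((p.1 - x₁) / (p.1 - x₂) * ((p.2 - r₂) / (p.2 - r₁))) - ρ₂))))

end H26E
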