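import Mathlib
import Pool.Agent.Helper26.EC.Base
import Pool.Agent.Helper26.EC.KDefs
import Pool.Agent.Helper26.EC.KPar
import Pool.Agent.Helper26.EC.J_indep
import Pool.Agent.Helper26.EC.J_int_div
import Pool.Agent.Helper26.EC.J_finite_bad
import Pool.Agent.Helper26.EC.J_noperiod

set_option autoImplicit false

open Polynomial Filter Topology

namespace H26E

variable {P Q : ℂ → ℂ} {Λ : AddSubgroup ℂ} {ζ g : ℂ}

namespace J_genInj

theorem mul_mem' {Λ : AddSubgroup ℂ} (n : ℕ) {l : ℂ} (hl : l ∈ Λ) : (n : ℂ) * l ∈ Λ := by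
  rw [← nsmul_eq_mul]; exact Λ.nsmul_mem hl n

theorem U_per (K : Kit P Q Λ ζ g) (c : ℂ) (N : ℕ) (z : ℂ) {l : ℂ} (hl : l ∈ Λ) : Uf Q c N (z + l) = Uf Q c N z := by
  unfold Uf
  have h1 : Q ((N : ℂ) * (z + l)) = Q ((N : ℂ) * z) := by
    rw [mul_add]; exact K.perQ _ _ (mul_mem' N hl)
  rw [h1, K.perQ z l hl]

theorem U_neg (K : Kit P Q Λ ζ g) (c : ℂ) (N : ℕ) (z : ℂ) : Uf Q c N (-z) = -Uf Q c N z := by
  unfold Uf
  have h1 : Q ((N : ℂ) * (-z)) = -Q ((N : ℂ) * z) := by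
    rw [mul_neg]; exact K.oddQ _
  rw [h1, K.oddQ z]
  rw [neg_mul_neg, ← neg_div]
  congr 1
  ring

theorem notMem_add {Λ : AddSubgroup ℂ} {z l : ℂ} (hz : z ∉ Λ) (hl : l ∈ Λ) : z + l ∉ Λ := by
  intro h
  exact hz ((AddSubgroup.add_mem_cancel_right Λ hl).1 h)

/-- the key property -/
def pp (P Q : ℂ → ℂ) (Λ : AddSubgroup ℂ) (ζ : ℂ) (N m : ℕ) (e : ℂ) (A B G H : ℂ[X]) (z : ℂ) : Prop :=
  z ∉ Λ ∧ (m : ℂ) * z ∉ Λ ∧ 2 * ((m : ℂ) * z) ∉ Λ ∧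
  (B.eval (P z) ≠ 0 ∧ P ((m : ℂ) * z) = A.eval (P z) / B.eval (P z)) ∧
  (H.eval (P z) ≠ 0 ∧ Uf Q (Q (1 / 5)) N z * (Q ((m : ℂ) * z) / (2 * (P ((m : ℂ) * z) - e))) = G.eval (P z) / H.eval (P z)) ∧
  ∀ i ∈ Finset.range m, ∀ j ∈ Finset.range m, ¬ (i = 0 ∧ j = 0) →
    Uf Q (Q (1 / 5)) N (z + ((i : ℂ) + (j : ℂ) * ζ) / (m : ℂ)) ≠ Uf Q (Q (1 / 5)) N z

theorem pp_per (K : Kit P Q Λ ζ g) (N m : ℕ) (e : ℂ) (A B G H : ℂ[X]) (z l : ℂ) (hl : l ∈ Λ)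
    (h : pp P Q Λ ζ N m e A B G H z) : pp P Q Λ ζ N m e A B G H (z + l) := by
  obtain ⟨a1, a2, a3, a4, a5, a6⟩ := h
  have hPm : P ((m : ℂ) * (z + l)) = P ((m : ℂ) * z) := by
    rw [mul_add]; exact K.perP _ _ (mul_mem' m hl)
  have hQm : Q ((m : ℂ) * (z + l)) = Q ((m : ℂ) * z) := by
    rw [mul_add]; exact K.perQ _ _ (mul_mem' m hl)
  refine ⟨notMem_add a1 hl, ?_, ?_, ?_, ?_, ?_⟩
  · rw [mul_add]; exact notMem_add a2 (mul_mem' m hl)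
  · rw [mul_add, mul_add]
    refine notMem_add a3 ?_
    have := mul_mem' 2 (mul_mem' m hl)
    exact_mod_cast this
  · rw [hPm, K.perP z l hl]; exact a4
  · rw [hPm, hQm, K.perP z l hl, U_per K _ _ _ hl]; exact a5
  · intro i hi j hj hij
    have := a6 i hi j hj hij
    rw [U_per K _ _ z hl]
    have e1 : z + l + ((i : ℂ) + (j : ℂ) * ζ) / (m : ℂ) = z + ((i : ℂ) + (j : ℂ) * ζ) / (m : ℂ) + l := by ring
    rw [e1, U_per K _ _ _ hl]
    exact this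

theorem pp_ae (K : Kit P Q Λ ζ g) {N m' : ℕ} (hm : m' % 5 = 2) (hN : N = 3 * m' + 1) {e : ℂ}
    {A B G H : ℂ[X]}
    (h1 : Rep P (fun z => P ((N * m' : ℕ) * z)) A B)
    (h2 : Rep P (fun z => Uf Q (Q (1 / 5)) N z *
      (Q ((N * m' : ℕ) * z) / (2 * (P ((N * m' : ℕ) * z) - e)))) G H) :
    AE (pp P Q Λ ζ N (N * m') e A B G H) := by
  have hm0 : 1 ≤ N * m' := by
    have : 1 ≤ m' := by omega
    have : 1 ≤ N := by omega
    exact Nat.mul_pos (by omega) (by omega)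
  have hmC : ((N * m' : ℕ) : ℂ) ≠ 0 := by exact_mod_cast (by omega : N * m' ≠ 0)
  have c3 : AE (fun z => 2 * (((N * m' : ℕ) : ℂ) * z) ∉ Λ) := by
    refine (K.ae_notMem (n := 2 * (N * m')) (by omega)).mono fun z hz h => hz ?_
    have e1 : ((2 * (N * m') : ℕ) : ℂ) * z = 2 * (((N * m' : ℕ) : ℂ) * z) := by push_cast; ring
    rw [e1]; exact h
  have c6 : AE (fun z => ∀ i ∈ Finset.range (N * m'), ∀ j ∈ Finset.range (N * m'), ¬ (i = 0 ∧ j = 0) →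
    Uf Q (Q (1 / 5)) N (z + ((i : ℂ) + (j : ℂ) * ζ) / ((N * m' : ℕ) : ℂ)) ≠ Uf Q (Q (1 / 5)) N z) := by
    intro z₀
    rw [Filter.eventually_all_finset]
    intro i hi
    rw [Filter.eventually_all_finset]
    intro j hj
    by_cases hij : i = 0 ∧ j = 0
    · exact Eventually.of_forall fun z h => absurd hij h
    · have hτ := K.noperiod hm hN (τ := ((i : ℂ) + (j : ℂ) * ζ) / ((N * m' : ℕ) : ℂ)) (by
        rw [mul_div_cancel₀ _ hmC, K.mem]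
        exact ⟨i, j, by push_cast; rfl⟩) (by
        intro hmem
        have hk : ((N * m' : ℕ) : ℤ) ≠ 0 := by exact_mod_cast (by omega : N * m' ≠ 0)
        have := K.int_div ((N * m' : ℕ) : ℤ) (i : ℤ) (j : ℤ) hk (by exact_mod_cast hmem)
        rw [Finset.mem_range] at hi hj
        have hi' : N * m' ∣ i := by exact_mod_cast this.1
        have hj' : N * m' ∣ j := by exact_mod_cast this.2
        exact hij ⟨Nat.eq_zero_of_dvd_of_lt hi' hi, Nat.eq_zero_of_dvd_of_lt hj' hj⟩)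
      exact (hτ z₀).mono fun z hz _ => hz
  have := (AE.and (fun z₀ => K.disc z₀) (AE.and (K.ae_notMem hm0) (AE.and c3 (AE.and h1 (AE.and h2 c6)))))
  exact this.mono fun z hz => hz

theorem int_split (m : ℕ) (hm : 0 < m) (a : ℤ) : ∃ i : ℕ, i < m ∧ ∃ q : ℤ, a = i + m * q := by
  have hm' : (0 : ℤ) < m := by exact_mod_cast hm
  refine ⟨(a % m).toNat, ?_, a / m, ?_⟩
  · have h1 := Int.emod_lt_of_pos a hm'
    have h2 := Int.emod_nonneg a hm'.ne'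
    omega
  · have h2 := Int.emod_nonneg a hm'.ne'
    rw [Int.toNat_of_nonneg h2]
    exact (Int.emod_add_mul_ediv a m).symm

theorem finish (K : Kit P Q Λ ζ g) (N m : ℕ) (hm : 0 < m) (e : ℂ) (A B G H : ℂ[X]) (z w : ℂ)
    (h : pp P Q Λ ζ N m e A B G H z) (hU : Uf Q (Q (1 / 5)) N w = Uf Q (Q (1 / 5)) N z)
    (hτ : (m : ℂ) * (w - z) ∈ Λ) : P w = P z := by
  obtain ⟨_, _, _, _, _, a6⟩ := h
  have hmC : (m : ℂ) ≠ 0 := by exact_mod_cast hm.ne'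
  obtain ⟨a, b, hab⟩ := (K.mem _).1 hτ
  obtain ⟨i, hi, q, hq⟩ := int_split m hm a
  obtain ⟨j, hj, r, hr⟩ := int_split m hm b
  have hl : (q : ℂ) + (r : ℂ) * ζ ∈ Λ := (K.mem _).2 ⟨q, r, rfl⟩
  have hw : w = z + ((i : ℂ) + (j : ℂ) * ζ) / (m : ℂ) + ((q : ℂ) + (r : ℂ) * ζ) := by
    have h1 : w - z = ((a : ℂ) + (b : ℂ) * ζ) / (m : ℂ) := by
      rw [← hab, mul_div_assoc]
      field_simp
    have h2 : (a : ℂ) = (i : ℂ) + (m : ℂ) * (q : ℂ) := by rw [hq]; push_cast; ring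
    have h3 : (b : ℂ) = (j : ℂ) + (m : ℂ) * (r : ℂ) := by rw [hr]; push_cast; ring
    have h4 : w = z + (w - z) := by ring
    rw [h4, h1, h2, h3]
    field_simp
    ring
  have hU2 : Uf Q (Q (1 / 5)) N (z + ((i : ℂ) + (j : ℂ) * ζ) / (m : ℂ)) = Uf Q (Q (1 / 5)) N z := by
    rw [← hU, hw, U_per K _ _ _ hl]
  by_cases hij : i = 0 ∧ j = 0
  · obtain ⟨rfl, rfl⟩ := hij
    have : w = z + ((q : ℂ) + (r : ℂ) * ζ) := by
      rw [hw]; simp
    rw [this, K.perP _ _ hl]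
  · exact absurd hU2 (a6 i (Finset.mem_range.2 hi) j (Finset.mem_range.2 hj) hij)

theorem main (K : Kit P Q Λ ζ g) {N m' : ℕ} (hm : m' % 5 = 2) (hN : N = 3 * m' + 1) {e : ℂ}
    (he : ∀ z, 2 * z ∉ Λ → P z ≠ e) {A B G H : ℂ[X]}
    (h1 : Rep P (fun z => P ((N * m' : ℕ) * z)) A B)
    (h2 : Rep P (fun z => Uf Q (Q (1 / 5)) N z *
      (Q ((N * m' : ℕ) * z) / (2 * (P ((N * m' : ℕ) * z) - e)))) G H) : GenInj A B G H := by
  have hm0 : 0 < N * m' := Nat.mul_pos (by omega) (by omega)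
  have hae := pp_ae K hm hN h1 h2
  obtain ⟨T, hT⟩ := K.finite_bad hae (fun z l hl h => pp_per K _ _ _ _ _ _ _ z l hl h)
  refine ⟨T, ?_⟩
  intro t ht t' ht' e1 e2
  obtain ⟨z, hz, rfl⟩ := K.surj t
  obtain ⟨z', hz', rfl⟩ := K.surj t'
  have pz := hT z hz ht
  have pz' := hT z' hz' ht'
  have pz0 := pz
  obtain ⟨a1, a2, a3, ⟨a4, a4'⟩, ⟨a5, a5'⟩, _⟩ := pz
  obtain ⟨b1, b2, b3, ⟨b4, b4'⟩, ⟨b5, b5'⟩, _⟩ := pz'
  set m := N * m' with hmdef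
  have hP : P ((m : ℂ) * z) = P ((m : ℂ) * z') := by
    rw [a4', b4', div_eq_div_iff a4 b4]
    exact e1
  have hR : G.eval (P z) / H.eval (P z) = G.eval (P z') / H.eval (P z') := by
    rw [div_eq_div_iff a5 b5]
    exact e2
  have hX : Q ((m : ℂ) * z) / (2 * (P ((m : ℂ) * z) - e)) ≠ 0 := by
    refine div_ne_zero (K.Qne _ a3) ?_
    refine mul_ne_zero two_ne_zero ?_
    exact sub_ne_zero.2 (he _ a3)
  rcases K.inj _ _ a2 b2 hP with h | h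
  · -- same sign
    have hQ : Q ((m : ℂ) * z') = Q ((m : ℂ) * z) := by
      have e3 : (m : ℂ) * z = (m : ℂ) * z' + ((m : ℂ) * z - (m : ℂ) * z') := by ring
      rw [e3, K.perQ _ _ h]
    have hU : Uf Q (Q (1 / 5)) N z' = Uf Q (Q (1 / 5)) N z := by
      rw [← a5', ← b5', hQ, ← hP] at hR
      exact (mul_right_cancel₀ hX hR).symm
    refine (finish K N m hm0 e A B G H z z' pz0 hU ?_).symm
    have e3 : (m : ℂ) * (z' - z) = -((m : ℂ) * z - (m : ℂ) * z') := by ring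
    rw [e3]; exact Λ.neg_mem h
  · have hQ : Q ((m : ℂ) * z') = -Q ((m : ℂ) * z) := by
      have e3 : (m : ℂ) * z' = -((m : ℂ) * z) + ((m : ℂ) * z + (m : ℂ) * z') := by ring
      rw [e3, K.perQ _ _ h, K.oddQ]
    have hU : Uf Q (Q (1 / 5)) N (-z') = Uf Q (Q (1 / 5)) N z := by
      rw [U_neg K]
      rw [← a5', ← b5', hQ, ← hP, neg_div, mul_neg, ← neg_mul] at hR
      exact (mul_right_cancel₀ hX hR).symm
    have := finish K N m hm0 e A B G H z (-z') pz0 hU (by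
      have e3 : (m : ℂ) * (-z' - z) = -((m : ℂ) * z + (m : ℂ) * z') := by ring
      rw [e3]; exact Λ.neg_mem h)
    rw [K.evenP] at this
    exact this.symm

end J_genInj

alias Kit.genInj := J_genInj.main

end H26E
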