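import Mathlib
import Pool.Agent.Helper26.EC.Base
import Pool.Agent.Helper26.EC.J_int_div
import Pool.Agent.Helper26.EC.J_indep

set_option autoImplicit false

open Polynomial Filter Topology

namespace H26E

variable {P Q : ℂ → ℂ} {Λ : AddSubgroup ℂ} {ζ g : ℂ}

namespace J_half

/-- the half periods -/
theorem main (K : Kit P Q Λ ζ g) : g = 4 * P (1 / 2) ^ 3 ∧ P (1 / 2) ≠ 0 ∧
    ∀ z, 2 * z ∉ Λ → P z ≠ P (1 / 2) ∧ P z ≠ ζ * P (1 / 2) ∧ P z ≠ ζ ^ 2 * P (1 / 2) := by
  
  have hζ := K.hζ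
  have hζ3 : ζ ^ 3 = 1 := by linear_combination (ζ - 1) * hζ
  have n1 : (1 / 2 : ℂ) ∉ Λ := by
    intro h
    have := K.int_div 2 1 0 (by norm_num) (by push_cast; simpa using h)
    omega
  have n2 : ζ * (1 / 2) ∉ Λ := by
    intro h
    have := K.int_div 2 0 1 (by norm_num) (by
      push_cast
      rw [show ((0:ℂ) + 1 * ζ) / 2 = ζ * (1 / 2) by ring]; exact h)
    omega
  have h1 : (1 : ℂ) ∈ Λ := (K.mem 1).2 ⟨1, 0, by simp⟩
  have hQ : Q (1 / 2) = 0 := by
    have e1 := K.oddQ (1 / 2)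
    have e2 := K.perQ (-(1 / 2)) 1 h1
    rw [show (-(1 / 2) + 1 : ℂ) = 1 / 2 by norm_num, e1] at e2
    have e3 : 2 * Q (1 / 2) = 0 := by linear_combination e2
    simpa using e3
  have hg : g = 4 * P (1 / 2) ^ 3 := by
    have := K.ode (1 / 2) n1
    rw [hQ] at this
    linear_combination this
  refine ⟨hg, ?_, ?_⟩
  · intro hP
    have e1 := K.zP (1 / 2)
    rw [hP, mul_zero] at e1
    rcases K.inj (ζ * (1 / 2)) (1 / 2) n2 n1 (by rw [e1, hP]) with h | h
    · have := K.int_div 2 (-1) 1 (by norm_num) (by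
        push_cast
        rw [show ((-1:ℂ) + 1 * ζ) / 2 = ζ * (1 / 2) - 1 / 2 by ring]; exact h)
      omega
    · have := K.int_div 2 1 1 (by norm_num) (by
        push_cast
        rw [show ((1:ℂ) + 1 * ζ) / 2 = ζ * (1 / 2) + 1 / 2 by ring]; exact h)
      omega
  · intro z hz
    have hz' : z ∉ Λ := by
      intro h
      apply hz
      rw [two_mul]
      exact Λ.add_mem h h
    have hq := K.Qne z hz
    have ho := K.ode z hz'
    rw [hg] at ho
    have key : P z ^ 3 ≠ P (1 / 2) ^ 3 := by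
      intro h
      rw [h] at ho
      apply hq
      have : Q z ^ 2 = 0 := by linear_combination ho
      simpa using this
    refine ⟨?_, ?_, ?_⟩
    · intro h; exact key (by rw [h])
    · intro h; exact key (by rw [h, mul_pow, hζ3, one_mul])
    · intro h; exact key (by rw [h, mul_pow, ← pow_mul, mul_comm 2 3, pow_mul, hζ3, one_pow, one_mul])


end J_half

alias Kit.half := J_half.main

end H26E
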