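import Mathlib
import Pool.Agent.Helper26.EC.Base

set_option autoImplicit false

open Polynomial Filter Topology

namespace H26E

variable {P Q : ℂ → ℂ} {Λ : AddSubgroup ℂ} {ζ g : ℂ}

namespace J_R_zero

theorem main (K : Kit P Q Λ ζ g) (c e : ℂ) {N m : ℕ} (hN : 1 ≤ N) (hm : 1 ≤ m) :
    Tendsto (fun z => Uf Q c N z * (Q (m * z) / (2 * (P (m * z) - e)))) (𝓝[≠] 0) (𝓝 0) := by
  have hN0 : (N : ℂ) ≠ 0 := by exact_mod_cast (by omega : N ≠ 0)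
  have hm0 : (m : ℂ) ≠ 0 := by exact_mod_cast (by omega : m ≠ 0)
  have hmul : ∀ k : ℂ, k ≠ 0 → Tendsto (fun z : ℂ => k * z) (𝓝[≠] 0) (𝓝[≠] 0) := by
    intro k hk
    refine tendsto_nhdsWithin_of_tendsto_nhds_of_eventually_within _ ?_ ?_
    · have h1 : Tendsto (fun z : ℂ => k * z) (𝓝 0) (𝓝 (k * 0)) :=
        (continuous_const.mul continuous_id).tendsto 0
      rw [mul_zero] at h1
      exact h1.mono_left nhdsWithin_le_nhds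
    · filter_upwards [self_mem_nhdsWithin] with z hz
      exact mul_ne_zero hk hz
  have hQk : ∀ k : ℂ, k ≠ 0 → Tendsto (fun z : ℂ => z ^ 3 * Q (k * z)) (𝓝[≠] 0)
      (𝓝 (-2 / k ^ 3)) := by
    intro k hk
    have h1 := (K.poleQ.comp (hmul k hk)).div_const (k ^ 3)
    refine h1.congr (fun z => ?_)
    show (k * z) ^ 3 * Q (k * z) / k ^ 3 = z ^ 3 * Q (k * z)
    field_simp
  have hPk : ∀ k : ℂ, k ≠ 0 → Tendsto (fun z : ℂ => z ^ 2 * P (k * z)) (𝓝[≠] 0)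
      (𝓝 (1 / k ^ 2)) := by
    intro k hk
    have h1 := (K.poleP.comp (hmul k hk)).div_const (k ^ 2)
    refine h1.congr (fun z => ?_)
    show (k * z) ^ 2 * P (k * z) / k ^ 2 = z ^ 2 * P (k * z)
    field_simp
  have hz0 : Tendsto (fun z : ℂ => z) (𝓝[≠] 0) (𝓝 0) := tendsto_id.mono_left nhdsWithin_le_nhds
  have ha := hQk N hN0
  have hb := K.poleQ
  have hD1 : Tendsto (fun z : ℂ => c ^ 2 * z ^ 6 - (z ^ 3 * Q (N * z)) * (z ^ 3 * Q z)) (𝓝[≠] 0)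
      (𝓝 (c ^ 2 * 0 ^ 6 - (-2 / (N : ℂ) ^ 3) * (-2))) :=
    ((hz0.pow 6).const_mul (c ^ 2)).sub (ha.mul hb)
  have hD1n : c ^ 2 * 0 ^ 6 - (-2 / (N : ℂ) ^ 3) * (-2) ≠ 0 := by
    have : c ^ 2 * 0 ^ 6 - (-2 / (N : ℂ) ^ 3) * (-2) = -(4 / (N : ℂ) ^ 3) := by ring
    rw [this]
    exact neg_ne_zero.mpr (div_ne_zero (by norm_num) (pow_ne_zero 3 hN0))
  have hF1 : Tendsto (fun z : ℂ => c * z ^ 2 * (z ^ 3 * Q (N * z) - z ^ 3 * Q z) /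
      (c ^ 2 * z ^ 6 - (z ^ 3 * Q (N * z)) * (z ^ 3 * Q z))) (𝓝[≠] 0) (𝓝 0) := by
    have h1 : Tendsto (fun z : ℂ => c * z ^ 2 * (z ^ 3 * Q (N * z) - z ^ 3 * Q z)) (𝓝[≠] 0)
        (𝓝 (c * 0 ^ 2 * ((-2 / (N : ℂ) ^ 3) - (-2)))) :=
      ((hz0.pow 2).const_mul c).mul (ha.sub hb)
    have h2 := h1.div hD1 hD1n
    have h3 : c * 0 ^ 2 * ((-2 / (N : ℂ) ^ 3) - (-2)) /
      (c ^ 2 * 0 ^ 6 - (-2 / (N : ℂ) ^ 3) * (-2)) = 0 := by simp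
    rw [h3] at h2
    exact h2
  have hD2 : Tendsto (fun z : ℂ => 2 * (z ^ 2 * P (m * z) - e * z ^ 2)) (𝓝[≠] 0)
      (𝓝 (2 * (1 / (m : ℂ) ^ 2 - e * 0 ^ 2))) :=
    ((hPk m hm0).sub ((hz0.pow 2).const_mul e)).const_mul 2
  have hD2n : 2 * (1 / (m : ℂ) ^ 2 - e * 0 ^ 2) ≠ 0 := by
    have : 2 * (1 / (m : ℂ) ^ 2 - e * 0 ^ 2) = 2 / (m : ℂ) ^ 2 := by ring
    rw [this]
    exact div_ne_zero (by norm_num) (pow_ne_zero 2 hm0)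
  have hF2 := (hQk m hm0).div hD2 hD2n
  have hF := hF1.mul hF2
  rw [zero_mul] at hF
  refine hF.congr' ?_
  filter_upwards [self_mem_nhdsWithin] with z hz
  have hz' : z ≠ 0 := hz
  show _ = Uf Q c N z * (Q (m * z) / (2 * (P (m * z) - e)))
  unfold Uf
  rw [← mul_div_mul_right (c * (Q (N * z) - Q z)) (c ^ 2 - Q (N * z) * Q z) (pow_ne_zero 6 hz'),
    ← mul_div_mul_right (Q (m * z)) (2 * (P (m * z) - e)) (pow_ne_zero 2 hz')]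
  have e1 : c ^ 2 * z ^ 6 - z ^ 3 * Q (N * z) * (z ^ 3 * Q z) =
      (c ^ 2 - Q (N * z) * Q z) * z ^ 6 := by ring
  have e2 : 2 * (z ^ 2 * P (m * z) - e * z ^ 2) = 2 * (P (m * z) - e) * z ^ 2 := by ring
  show c * z ^ 2 * (z ^ 3 * Q (N * z) - z ^ 3 * Q z) /
      (c ^ 2 * z ^ 6 - z ^ 3 * Q (N * z) * (z ^ 3 * Q z)) *
      (z ^ 3 * Q (m * z) / (2 * (z ^ 2 * P (m * z) - e * z ^ 2))) = _
  rw [e1, e2]
  simp only [div_eq_mul_inv]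
  ring

end J_R_zero

alias Kit.R_zero := J_R_zero.main

end H26E
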