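import Mathlib
import Pool.Agent.Helper26.EC.Base

set_option autoImplicit false

open Polynomial Filter Topology

namespace H26E

variable {P Q : ℂ → ℂ} {Λ : AddSubgroup ℂ} {ζ g : ℂ}

namespace J_coprime

theorem main {f : ℂ → ℂ} (hf : IsRat P f) : ∃ A B : ℂ[X], IsCoprime A B ∧ Rep P f A B := by
  obtain ⟨A, B, h⟩ := hf
  have hB : B ≠ 0 := h.ne_zero
  obtain ⟨A1, hA1⟩ := EuclideanDomain.gcd_dvd_left A B
  obtain ⟨B1, hB1⟩ := EuclideanDomain.gcd_dvd_right A B
  have hbez := EuclideanDomain.gcd_eq_gcd_ab A B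
  obtain ⟨d, hd⟩ : ∃ d, d = EuclideanDomain.gcd A B := ⟨_, rfl⟩
  rw [← hd] at hA1 hB1 hbez
  have hd0 : d ≠ 0 := by
    rintro rfl
    rw [zero_mul] at hB1
    exact hB hB1
  have hcop : IsCoprime A1 B1 := by
    refine ⟨EuclideanDomain.gcdA A B, EuclideanDomain.gcdB A B, ?_⟩
    apply mul_left_cancel₀ hd0
    rw [mul_one]
    calc d * (EuclideanDomain.gcdA A B * A1 + EuclideanDomain.gcdB A B * B1)
        = (d * A1) * EuclideanDomain.gcdA A B + (d * B1) * EuclideanDomain.gcdB A B := by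
          ring
      _ = d := by rw [← hA1, ← hB1, ← hbez]
  refine ⟨A1, B1, hcop, h.mono fun z hz => ?_⟩
  obtain ⟨h1, h2⟩ := hz
  have hBz : B.eval (P z) = d.eval (P z) * B1.eval (P z) := by
    rw [← eval_mul, ← hB1]
  have hAz : A.eval (P z) = d.eval (P z) * A1.eval (P z) := by
    rw [← eval_mul, ← hA1]
  rw [hBz] at h1
  have hdz : d.eval (P z) ≠ 0 := left_ne_zero_of_mul h1
  have hB1z : B1.eval (P z) ≠ 0 := right_ne_zero_of_mul h1
  refine ⟨hB1z, ?_⟩
  rw [h2, hAz, hBz, mul_div_mul_left _ _ hdz]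

end J_coprime

alias IsRat.coprime := J_coprime.main

end H26E
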