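import Mathlib
import Pool.Agent.Helper26.EC.Base

set_option autoImplicit false

open Polynomial Filter Topology

namespace H26E

variable {P Q : ℂ → ℂ} {Λ : AddSubgroup ℂ} {ζ g : ℂ}

namespace J_deg_top

theorem lim_poly (A : ℂ[X]) (n : ℕ) (hA : A.natDegree ≤ n) :
    Tendsto (fun t => A.eval t / t ^ n) (Bornology.cobounded ℂ) (𝓝 (A.coeff n)) := by
  have h1 : Tendsto (fun t : ℂ => ∑ i ∈ Finset.range (n + 1), A.coeff i * (t⁻¹) ^ (n - i))
      (Bornology.cobounded ℂ) (𝓝 (∑ i ∈ Finset.range (n + 1), A.coeff i * (0 : ℂ) ^ (n - i))) := by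
    refine tendsto_finset_sum _ (fun i _ => ?_)
    exact (Filter.tendsto_inv₀_cobounded.pow (n - i)).const_mul _
  have h2 : ∑ i ∈ Finset.range (n + 1), A.coeff i * (0 : ℂ) ^ (n - i) = A.coeff n := by
    rw [Finset.sum_range_succ]
    have : ∑ i ∈ Finset.range n, A.coeff i * (0 : ℂ) ^ (n - i) = 0 := by
      refine Finset.sum_eq_zero (fun i hi => ?_)
      have : n - i ≠ 0 := by have := Finset.mem_range.1 hi; omega
      rw [zero_pow this, mul_zero]
    rw [this]; simp
  rw [h2] at h1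
  refine h1.congr' ?_
  filter_upwards [Bornology.eventually_ne_cobounded (0 : ℂ)] with t ht
  rw [Polynomial.eval_eq_sum_range' (Nat.lt_succ_of_le hA) t, Finset.sum_div]
  refine Finset.sum_congr rfl (fun i hi => ?_)
  have hin : i ≤ n := by have := Finset.mem_range.1 hi; omega
  rw [mul_div_assoc, inv_pow]
  congr 1
  rw [eq_div_iff (pow_ne_zero _ ht)]
  have : t ^ n = t ^ (n - i) * t ^ i := by rw [← pow_add]; congr 1; omega
  rw [this, ← mul_assoc, inv_mul_cancel₀ (pow_ne_zero _ ht), one_mul]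

theorem P_top (K : Kit P Q Λ ζ g) : Tendsto P (𝓝[≠] 0) (Bornology.cobounded ℂ) := by
  have h1 : Tendsto (fun z : ℂ => (z ^ 2)⁻¹) (𝓝[≠] 0) (Bornology.cobounded ℂ) := by
    refine Filter.tendsto_inv₀_nhdsNE_zero.comp ?_
    refine tendsto_nhdsWithin_of_tendsto_nhds_of_eventually_within _ ?_ ?_
    · have : Tendsto (fun z : ℂ => z ^ 2) (𝓝 0) (𝓝 (0 ^ 2)) := (continuous_pow 2).tendsto 0
      rw [zero_pow two_ne_zero] at this
      exact this.mono_left nhdsWithin_le_nhds
    · filter_upwards [self_mem_nhdsWithin] with z hz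
      exact pow_ne_zero _ hz
  rw [← tendsto_norm_atTop_iff_cobounded] at h1 ⊢
  have h2 := K.poleP.norm
  rw [norm_one] at h2
  have h3 := h1.atTop_mul_pos one_pos h2
  refine h3.congr' ?_
  filter_upwards [self_mem_nhdsWithin] with z hz
  have hz0 : z ≠ 0 := hz
  rw [← norm_mul]
  congr 1
  field_simp

theorem main (K : Kit P Q Λ ζ g) {f : ℂ → ℂ} {A B : ℂ[X]} (hr : Rep P f A B)
    (ht : Tendsto f (𝓝[≠] 0) (Bornology.cobounded ℂ)) : B.degree < A.degree := by
  by_contra hcon
  rw [not_lt] at hcon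
  have hB : B ≠ 0 := hr.ne_zero
  have hdeg : A.natDegree ≤ B.natDegree := natDegree_le_natDegree hcon
  have h1 := (lim_poly A B.natDegree hdeg).comp (P_top K)
  have h2 := (lim_poly B B.natDegree le_rfl).comp (P_top K)
  have hb : B.coeff B.natDegree ≠ 0 := by
    rw [Polynomial.coeff_natDegree]; exact leadingCoeff_ne_zero.2 hB
  have h3 := h1.div h2 hb
  have hP : ∀ᶠ z in 𝓝[≠] (0 : ℂ), P z ≠ 0 := (P_top K).eventually (Bornology.eventually_ne_cobounded 0)
  have h4 : Tendsto f (𝓝[≠] 0) (𝓝 (A.coeff B.natDegree / B.coeff B.natDegree)) := by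
    refine h3.congr' ?_
    filter_upwards [hr 0, hP] with z hz hPz
    simp only [Function.comp, Pi.div_apply]
    rw [hz.2]
    have : P z ^ B.natDegree ≠ 0 := pow_ne_zero _ hPz
    rw [div_div_div_cancel_right₀ this]
  exact h4.not_tendsto (Metric.disjoint_nhds_cobounded _) ht

end J_deg_top

alias Kit.deg_top := J_deg_top.main

end H26E
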