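import Mathlib
import Pool.Agent.Helper26.EC.Base

set_option autoImplicit false

open Polynomial Filter Topology

namespace H26E

variable {P Q : ℂ → ℂ} {Λ : AddSubgroup ℂ} {ζ g : ℂ}

namespace J_rat_nP

theorem aux_Qsq (K : Kit P Q Λ ζ g) : IsRat P (fun z => Q z ^ 2) := by
  have h1 : IsRat P (fun z => 4 * P z ^ 3 - g) :=
    ((IsRat.const P 4).mul ((IsRat.self P).pow 3)).sub (IsRat.const P g)
  refine h1.congr ((K.ae_notMem (n := 1) le_rfl).mono fun z hz => ?_)
  exact K.ode z (by simpa using hz)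

theorem main (K : Kit P Q Λ ζ g) (n : ℕ) (hn : 1 ≤ n) :
    IsRat P (fun z => P (n * z)) ∧ IsRat P (fun z => Q (n * z) / Q z) := by
  have hself := IsRat.self P
  have hQ2 := aux_Qsq K
  have h1 := K.ae_notMem (n := 1) le_rfl
  have h2 := K.ae_notMem (n := 2) (by norm_num)
  induction n, hn using Nat.le_induction with
  | base =>
    constructor
    · exact hself.congr (AE.of_forall fun z => by simp)
    · refine (IsRat.const P 1).congr (h2.mono fun z hz => ?_)
      have hz' : Q z ≠ 0 := K.Qne z (by simpa using hz)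
      simp [hz']
  | succ n hn ih =>
    obtain ⟨ihP, ihQ⟩ := ih
    rcases Nat.lt_or_ge n 2 with hn2 | hn2
    · obtain rfl : n = 1 := by omega
      have e2 : ∀ z : ℂ, ((1 + 1 : ℕ) : ℂ) * z = 2 * z := fun z => by norm_num
      have hP2 : IsRat P (fun z => P (((1 + 1 : ℕ) : ℂ) * z)) := by
        have h3 : IsRat P (fun z => -2 * P z + 9 * P z ^ 4 / Q z ^ 2) :=
          ((IsRat.const P (-2)).mul hself).add
            (K.rat_div ((IsRat.const P 9).mul (hself.pow 4)) hQ2)
        refine h3.congr ((h1.and h2).mono fun z hz => ?_)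
        have a1 : z ∉ Λ := by simpa using hz.1
        have a2 : 2 * z ∉ Λ := by simpa using hz.2
        show P (((1 + 1 : ℕ) : ℂ) * z) = _
        rw [e2, (K.dup z a1 a2).1]
      refine ⟨hP2, ?_⟩
      have h4 : IsRat P (fun z => -1 - 6 * P z ^ 2 / Q z ^ 2 * (P (((1 + 1 : ℕ) : ℂ) * z) - P z)) :=
        (IsRat.const P (-1)).sub
          ((K.rat_div ((IsRat.const P 6).mul (hself.pow 2)) hQ2).mul (hP2.sub hself))
      refine h4.congr ((h1.and h2).mono fun z hz => ?_)
      have a1 : z ∉ Λ := by simpa using hz.1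
      have a2 : 2 * z ∉ Λ := by simpa using hz.2
      have a3 : Q z ≠ 0 := K.Qne z a2
      show Q (((1 + 1 : ℕ) : ℂ) * z) / Q z = -1 - 6 * P z ^ 2 / Q z ^ 2 * (P (((1 + 1 : ℕ) : ℂ) * z) - P z)
      rw [e2, (K.dup z a1 a2).2]
      field_simp
    · have e1 : ∀ z : ℂ, ((n + 1 : ℕ) : ℂ) * z = n * z + z := fun z => by push_cast; ring
      have h3 := K.ae_notMem (n := n) hn
      have h4 := K.ae_notMem (n := n + 1) (by omega)
      have h5 := K.ae_notMem (n := n - 1) (by omega)
      have hae : AE (fun z => (z ∉ Λ ∧ (n : ℂ) * z ∉ Λ) ∧ (Q z ≠ 0 ∧ P (n * z) ≠ P z)) := by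
        refine ((h1.and h2).and (h3.and (h4.and h5))).mono fun z hz => ?_
        obtain ⟨⟨a1, a2⟩, a3, a4, a5⟩ := hz
        refine ⟨⟨by simpa using a1, a3⟩, K.Qne z (by simpa using a2), ?_⟩
        intro h
        rcases K.inj _ _ a3 (by simpa using a1) h with h' | h'
        · apply a5
          have : ((n - 1 : ℕ) : ℂ) * z = n * z - z := by
            rw [Nat.cast_sub (by omega)]; push_cast; ring
          rw [this]; exact h'
        · apply a4
          rw [e1]; exact h'
      have hPn : IsRat P (fun z => P (((n + 1 : ℕ) : ℂ) * z)) := by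
        have h6 : IsRat P (fun z => -P (n * z) - P z +
            ((Q (n * z) / Q z - 1) ^ 2 * Q z ^ 2) / (4 * (P (n * z) - P z) ^ 2)) :=
          (ihP.neg.sub hself).add (K.rat_div (((ihQ.sub (IsRat.const P 1)).pow 2).mul hQ2)
            ((IsRat.const P 4).mul ((ihP.sub hself).pow 2)))
        refine h6.congr (hae.mono fun z hz => ?_)
        obtain ⟨⟨a1, a2⟩, a3, a4⟩ := hz
        show P (((n + 1 : ℕ) : ℂ) * z) = _
        rw [e1, (K.add _ _ a2 a1 a4).1]
        have a5 : P (n * z) - P z ≠ 0 := sub_ne_zero.2 a4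
        field_simp
        ring
      refine ⟨hPn, ?_⟩
      have h7 : IsRat P (fun z => -1 - (Q (n * z) / Q z - 1) / (P (n * z) - P z) *
          (P (((n + 1 : ℕ) : ℂ) * z) - P z)) :=
        (IsRat.const P (-1)).sub ((K.rat_div (ihQ.sub (IsRat.const P 1)) (ihP.sub hself)).mul
          (hPn.sub hself))
      refine h7.congr (hae.mono fun z hz => ?_)
      obtain ⟨⟨a1, a2⟩, a3, a4⟩ := hz
      show Q (((n + 1 : ℕ) : ℂ) * z) / Q z = _
      have a5 : P (n * z) - P z ≠ 0 := sub_ne_zero.2 a4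
      rw [e1, (K.add _ _ a2 a1 a4).2]
      field_simp

end J_rat_nP

alias Kit.rat_nP := J_rat_nP.main

end H26E
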