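import Mathlib
import Pool.Agent.Helper26.EC.Base
import Pool.Agent.Helper26.EC.J_rat_nP

set_option autoImplicit false

open Polynomial Filter Topology

namespace H26E

variable {P Q : ℂ → ℂ} {Λ : AddSubgroup ℂ} {ζ g : ℂ}

namespace J_rat_R

theorem main (K : Kit P Q Λ ζ g) (c e : ℂ) (N m : ℕ) (hN : 1 ≤ N) (hm : 1 ≤ m) :
    IsRat P (fun z => Uf Q c N z * (Q (m * z) / (2 * (P (m * z) - e)))) := by
  obtain ⟨_, hY⟩ := K.rat_nP N hN
  obtain ⟨hPm, hYm⟩ := K.rat_nP m hm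
  have hq : IsRat P (fun z => 4 * P z ^ 3 - g) :=
    ((IsRat.const P 4).mul ((IsRat.self P).pow 3)).sub (IsRat.const P g)
  have hmain := K.rat_div (((IsRat.const P c).mul (hY.sub (IsRat.const P 1))).mul (hq.mul hYm))
    (((IsRat.const P (c ^ 2)).sub (hY.mul hq)).mul ((IsRat.const P 2).mul
      (hPm.sub (IsRat.const P e))))
  refine hmain.congr ?_
  have h2 : AE (fun z => ((2 : ℕ) : ℂ) * z ∉ Λ) := K.ae_notMem (by norm_num)
  have h0 : AE (fun z => z ∉ Λ) := fun z₀ => K.disc z₀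
  refine (h0.and h2).mono ?_
  rintro z ⟨hz, hz2⟩
  have hQ : Q z ≠ 0 := K.Qne z (by simpa using hz2)
  beta_reduce
  unfold Uf
  rw [← K.ode z hz]
  have e1 : Q ((N : ℂ) * z) / Q z * Q z ^ 2 = Q ((N : ℂ) * z) * Q z := by
    field_simp
  have e2 : c * (Q ((N : ℂ) * z) / Q z - 1) * (Q z ^ 2 * (Q ((m : ℂ) * z) / Q z)) =
      c * (Q ((N : ℂ) * z) - Q z) * Q ((m : ℂ) * z) := by
    field_simp
  rw [e1, e2, div_mul_div_comm]

end J_rat_R

alias Kit.rat_R := J_rat_R.main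

end H26E
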