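import Mathlib
import Pool.Agent.Helper26.EC.Base
import Pool.Agent.Helper26.EC.J_rat_nP

set_option autoImplicit false

open Polynomial Filter Topology

namespace H26E

variable {P Q : ℂ → ℂ} {Λ : AddSubgroup ℂ} {ζ g : ℂ}

namespace J_rat_U2

theorem main (K : Kit P Q Λ ζ g) (c : ℂ) (N : ℕ) (hN : 1 ≤ N) :
    IsRat P (fun z => Uf Q c N z ^ 2) := by
  have hY : IsRat P (fun z => Q (N * z) / Q z) := (K.rat_nP N hN).2
  have hq0 : IsRat P (fun z => 4 * P z ^ 3 - g) :=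
    ((IsRat.const P 4).mul ((IsRat.self P).pow 3)).sub (IsRat.const P g)
  have hdisc : AE (fun z => z ∉ Λ) := K.disc
  have hq : IsRat P (fun z => Q z ^ 2) :=
    hq0.congr (hdisc.mono fun z hz => K.ode z hz)
  have hnum : IsRat P (fun z => c ^ 2 * (Q (N * z) / Q z - 1) ^ 2 * Q z ^ 2) :=
    ((IsRat.const P (c ^ 2)).mul ((hY.sub (IsRat.const P 1)).pow 2)).mul hq
  have hden : IsRat P (fun z => (c ^ 2 - Q (N * z) / Q z * Q z ^ 2) ^ 2) :=
    ((IsRat.const P (c ^ 2)).sub (hY.mul hq)).pow 2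
  refine (K.rat_div hnum hden).congr ?_
  have h2 : AE (fun z => Q z ≠ 0) := by
    have h3 := K.ae_notMem (n := 2) (by norm_num)
    refine h3.mono fun z hz => K.Qne z ?_
    simpa using hz
  refine h2.mono fun z hz => ?_
  unfold Uf
  have e1 : Q (N * z) / Q z * Q z ^ 2 = Q (N * z) * Q z := by
    field_simp
  have e2 : c ^ 2 * (Q (N * z) / Q z - 1) ^ 2 * Q z ^ 2 = (c * (Q (N * z) - Q z)) ^ 2 := by
    field_simp
  rw [e1, e2, div_pow]

end J_rat_U2

alias Kit.rat_U2 := J_rat_U2.main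

end H26E
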