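import Mathlib
import Pool.Agent.Helper26.EC.Base
import Pool.Agent.Helper26.EC.KDefs
import Pool.Agent.Helper26.EC.KPar
import Pool.Agent.Helper26.EC.J_rat_nP
import Pool.Agent.Helper26.EC.J_coprime
import Pool.Agent.Helper26.EC.J_deg_zero
import Pool.Agent.Helper26.EC.J_deg_top
import Pool.Agent.Helper26.EC.J_rat_U2
import Pool.Agent.Helper26.EC.J_rat_R
import Pool.Agent.Helper26.EC.J_nondeg
import Pool.Agent.Helper26.EC.J_R_zero
import Pool.Agent.Helper26.EC.J_X_top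
import Pool.Agent.Helper26.EC.J_half
import Pool.Agent.Helper26.EC.J_int_div
import Pool.Agent.Helper26.EC.J_cont_U

set_option autoImplicit false

open Polynomial Filter Topology

namespace H26E

variable {P Q : ℂ → ℂ} {Λ : AddSubgroup ℂ} {ζ g : ℂ}

namespace J_reps

theorem Gne (K : Kit P Q Λ ζ g) {N m : ℕ} (hN : N % 5 = 2) (hm : 1 ≤ m) {G H : ℂ[X]}
    (hr : Rep P (fun z => Uf Q (Q (1 / 5)) N z * (Q (m * z) / (2 * (P (m * z) - P (1 / 2))))) G H) :
    G ≠ 0 := by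
  intro hG
  have hae : AE (fun z => 2 * ((m : ℂ) * z) ∉ Λ) := by
    refine (K.ae_notMem (n := 2 * m) (by omega)).mono fun z hz => ?_
    have e : 2 * ((m : ℂ) * z) = ((2 * m : ℕ) : ℂ) * z := by push_cast; ring
    rw [e]; exact hz
  have hU : AE (fun z => Uf Q (Q (1 / 5)) N z = 0) := by
    refine (hr.and hae).mono fun z hz => ?_
    obtain ⟨⟨h1, h2⟩, h3⟩ := hz
    beta_reduce at h2
    have h4 : Uf Q (Q (1 / 5)) N z * (Q (m * z) / (2 * (P (m * z) - P (1 / 2)))) = 0 := by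
      rw [h2, hG]; simp
    have h5 : Q (m * z) ≠ 0 := K.Qne _ h3
    have h6 : P (m * z) - P (1 / 2) ≠ 0 := sub_ne_zero.mpr (K.half.2.2 _ h3).1
    have h7 : Q (m * z) / (2 * (P (m * z) - P (1 / 2))) ≠ 0 :=
      div_ne_zero h5 (mul_ne_zero two_ne_zero h6)
    exact (mul_eq_zero.mp h4).resolve_right h7
  have h15 : (1 / 5 : ℂ) ∉ Λ := by
    intro h
    have h1 := K.int_div 5 1 0 (by norm_num) (by
      have e : (((1 : ℤ) : ℂ) + ((0 : ℤ) : ℂ) * ζ) / ((5 : ℤ) : ℂ) = 1 / 5 := by push_cast; ring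
      rw [e]; exact h)
    exact absurd h1.1 (by norm_num)
  have h25 : (2 * (1 / 5) : ℂ) ∉ Λ := by
    intro h
    have h1 := K.int_div 5 2 0 (by norm_num) (by
      have e : (((2 : ℤ) : ℂ) + ((0 : ℤ) : ℂ) * ζ) / ((5 : ℤ) : ℂ) = 2 * (1 / 5) := by
        push_cast; ring
      rw [e]; exact h)
    exact absurd h1.1 (by norm_num)
  have hc : Q (1 / 5) ≠ 0 := K.Qne _ h25
  obtain ⟨hn1, hn2⟩ := K.nondeg h15 rfl hN
  have hne : Q (N * (1 / 5)) ≠ Q (1 / 5) := fun h => hn2 (by rw [h])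
  have hden : Q (1 / 5) ^ 2 - Q (N * (1 / 5)) * Q (1 / 5) ≠ 0 := by
    have e : Q (1 / 5) ^ 2 - Q (N * (1 / 5)) * Q (1 / 5)
        = Q (1 / 5) * (Q (1 / 5) - Q (N * (1 / 5))) := by ring
    rw [e]
    exact mul_ne_zero hc (sub_ne_zero.mpr hne.symm)
  have ht := K.cont_U (Q (1 / 5)) N h15 hn1 hden
  have ht0 : Tendsto (fun z => Uf Q (Q (1 / 5)) N z) (𝓝[≠] (1 / 5 : ℂ)) (𝓝 0) :=
    tendsto_const_nhds.congr' ((hU (1 / 5)).mono fun z hz => hz.symm)
  have hval := tendsto_nhds_unique ht ht0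
  rw [Uf, div_eq_zero_iff] at hval
  rcases hval with h | h
  · rcases mul_eq_zero.mp h with h' | h'
    · exact hc h'
    · exact hne (sub_eq_zero.mp h')
  · exact hden h

theorem main (K : Kit P Q Λ ζ g) {N m' : ℕ} (hm : m' % 5 = 2) (hN : N = 3 * m' + 1) :
    ∃ A B G H M W : ℂ[X], Cur A B G H ∧ IsCoprime M W ∧
      M * (H ^ 2 * (A - C (ζ * P (1 / 2)) * B) * (A - C (ζ ^ 2 * P (1 / 2)) * B)) =
        W * (G ^ 2 * (A - C (P (1 / 2)) * B) * B) ∧
      Rep P (fun z => P ((N * m' : ℕ) * z)) A B ∧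
      Rep P (fun z => Uf Q (Q (1 / 5)) N z *
        (Q ((N * m' : ℕ) * z) / (2 * (P ((N * m' : ℕ) * z) - P (1 / 2))))) G H ∧
      Rep P (fun z => Uf Q (Q (1 / 5)) N z ^ 2) M W := by
  have hm1 : 1 ≤ m' := by omega
  have hN1 : 1 ≤ N := by omega
  have hN5 : N % 5 = 2 := by omega
  have hNm : 1 ≤ N * m' := Nat.mul_pos (by omega) (by omega)
  obtain ⟨A, B, hAB, hrAB⟩ := IsRat.coprime (K.rat_nP (N * m') hNm).1
  obtain ⟨G, H, hGH, hrGH⟩ := IsRat.coprime
    (K.rat_R (Q (1 / 5)) (P (1 / 2)) N (N * m') hN1 hNm)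
  obtain ⟨M, W, hMW, hrMW⟩ := IsRat.coprime (K.rat_U2 (Q (1 / 5)) N hN1)
  have hG : G ≠ 0 := Gne K hN5 hNm hrGH
  have hB : B ≠ 0 := hrAB.ne_zero
  refine ⟨A, B, G, H, M, W, ⟨hAB, hGH, hB, hG, ?_, ?_⟩, hMW, ?_, hrAB, hrGH, hrMW⟩
  · exact natDegree_lt_natDegree hB (K.deg_top hrAB (K.X_top hNm))
  · exact natDegree_lt_natDegree hG
      (K.deg_zero hrGH (K.R_zero (Q (1 / 5)) (P (1 / 2)) hN1 hNm))
  · have hae : AE (fun z => 2 * (((N * m' : ℕ) : ℂ) * z) ∉ Λ) := by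
      refine (K.ae_notMem (n := 2 * (N * m')) (by omega)).mono fun z hz => ?_
      have e : 2 * (((N * m' : ℕ) : ℂ) * z) = ((2 * (N * m') : ℕ) : ℂ) * z := by
        push_cast; ring
      rw [e]; exact hz
    have heq : AE (fun z => (M * (H ^ 2 * (A - C (ζ * P (1 / 2)) * B)
        * (A - C (ζ ^ 2 * P (1 / 2)) * B)) - W * (G ^ 2 * (A - C (P (1 / 2)) * B) * B)).eval (P z)
        = 0) := by
      refine (((hrAB.and hrGH).and hrMW).and hae).mono fun z hz => ?_
      obtain ⟨⟨⟨⟨b0, hX⟩, h0, hR⟩, w0, hU⟩, h2⟩ := hz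
      beta_reduce at hX hR hU
      have hmz : ((N * m' : ℕ) : ℂ) * z ∉ Λ := by
        intro h
        apply h2
        rw [two_mul]
        exact Λ.add_mem h h
      have hode := K.ode _ hmz
      have hXe := (K.half.2.2 _ h2).1
      rw [K.half.1] at hode
      generalize ((N * m' : ℕ) : ℂ) * z = y at *
      generalize Uf Q (Q (1 / 5)) N z = U at *
      generalize P z = t at *
      generalize P (1 / 2) = e at *
      simp only [eval_sub, eval_mul, eval_pow, eval_C]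
      generalize A.eval t = a at *
      generalize B.eval t = b at *
      generalize G.eval t = gg at *
      generalize H.eval t = h at *
      generalize M.eval t = mm at *
      generalize W.eval t = w at *
      have hXe' : P y - e ≠ 0 := sub_ne_zero.mpr hXe
      have hz3 : ζ ^ 3 = 1 := by linear_combination (ζ - 1) * K.hζ
      have hfac : P y ^ 3 - e ^ 3 = (P y - e) * ((P y - ζ * e) * (P y - ζ ^ 2 * e)) := by
        linear_combination ((P y) ^ 2 * e - P y * e ^ 2) * K.hζ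
          + (-(P y) * e ^ 2 + e ^ 3) * hz3
      have h3 : (gg / h) ^ 2 * (P y - e) = mm / w * ((P y - ζ * e) * (P y - ζ ^ 2 * e)) := by
        rw [← hR, ← hU]
        have h4 : (U * (Q y / (2 * (P y - e)))) ^ 2 * (P y - e) * (4 * (P y - e))
            = U ^ 2 * Q y ^ 2 := by
          field_simp
          ring
        have h5 : U ^ 2 * ((P y - ζ * e) * (P y - ζ ^ 2 * e)) * (4 * (P y - e))
            = U ^ 2 * Q y ^ 2 := by
          rw [hode]
          linear_combination (-4 * U ^ 2) * hfac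
        have h6 : (4 * (P y - e)) ≠ 0 := mul_ne_zero (by norm_num) hXe'
        exact mul_right_cancel₀ h6 (h4.trans h5.symm)
      rw [hX] at h3
      field_simp at h3
      linear_combination (-1 : ℂ) * h3
    by_contra hne
    have hD : M * (H ^ 2 * (A - C (ζ * P (1 / 2)) * B) * (A - C (ζ ^ 2 * P (1 / 2)) * B))
        - W * (G ^ 2 * (A - C (P (1 / 2)) * B) * B) ≠ 0 := sub_ne_zero.mpr hne
    obtain ⟨z, hz1, hz2⟩ := ((heq.and (K.ae_poly hD)) 0).exists
    exact hz2 hz1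

end J_reps

alias Kit.reps := J_reps.main

end H26E
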