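import Mathlib
import Pool.Agent.Helper26.EC.Base
import Pool.Agent.Helper26.EC.J_int_div
import Pool.Agent.Helper26.EC.J_zeta_pow_mem
import Pool.Agent.Helper26.EC.J_fifth
import Pool.Agent.Helper26.EC.J_fifth_mul

set_option autoImplicit false

open Polynomial Filter Topology

namespace H26E

variable {P Q : ℂ → ℂ} {Λ : AddSubgroup ℂ} {ζ g : ℂ}

namespace J_tors

theorem zint_mul (K : Kit P Q Λ ζ g) (k : ℤ) {z : ℂ} (hz : z ∈ Λ) : (k : ℂ) * z ∈ Λ := by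
  have := Λ.zsmul_mem hz k
  rwa [zsmul_eq_mul] at this

theorem third (K : Kit P Q Λ ζ g) {u : ℂ} {j : ℕ} (hj : j < 3) {s : ℤ}
    (h : u - s * ζ ^ j / 5 ∈ Λ) (k : ℤ) :
    ∃ i j : Fin 5, (k : ℂ) * u - ((i : ℕ) + (j : ℕ) * ζ) / 5 ∈ Λ := by
  obtain ⟨c, d, hcd⟩ : ∃ c d : ℤ, ζ ^ j = (c : ℂ) + d * ζ := by
    have hζ := K.hζ
    interval_cases j
    · exact ⟨1, 0, by push_cast; ring⟩
    · exact ⟨0, 1, by push_cast; ring⟩
    · exact ⟨-1, -1, by push_cast; linear_combination hζ⟩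
  have h1 := zint_mul K k h
  set a : ℤ := k * s * c with ha
  set b : ℤ := k * s * d with hb
  have h5 : (0 : ℤ) < 5 := by norm_num
  have hi : ∀ n : ℤ, ∃ (q : ℤ) (i : Fin 5), (n : ℂ) = 5 * (q : ℂ) + ((i : ℕ) : ℂ) := by
    intro n
    have e1 : 0 ≤ n % 5 := Int.emod_nonneg _ (by norm_num)
    have e2 : n % 5 < 5 := Int.emod_lt_of_pos _ h5
    refine ⟨n / 5, ⟨(n % 5).toNat, by omega⟩, ?_⟩
    have e3 : ((n % 5).toNat : ℤ) = n % 5 := Int.toNat_of_nonneg e1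
    have e4 : n = 5 * (n / 5) + ((n % 5).toNat : ℤ) := by omega
    exact_mod_cast e4
  obtain ⟨q, i, hq⟩ := hi a
  obtain ⟨q', i', hq'⟩ := hi b
  refine ⟨i, i', ?_⟩
  have h2 : (q : ℂ) + (q' : ℂ) * ζ ∈ Λ := (K.mem _).2 ⟨q, q', rfl⟩
  have h3 := Λ.add_mem h1 h2
  have e : (k : ℂ) * u - (((i : ℕ) : ℂ) + ((i' : ℕ) : ℂ) * ζ) / 5 =
      (k : ℂ) * (u - s * ζ ^ j / 5) + ((q : ℂ) + (q' : ℂ) * ζ) := by
    rw [hcd]
    have hq1 : ((i : ℕ) : ℂ) = (k : ℂ) * s * c - 5 * q := by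
      rw [ha] at hq
      push_cast at hq
      linear_combination -hq
    have hq2 : ((i' : ℕ) : ℂ) = (k : ℂ) * s * d - 5 * q' := by
      rw [hb] at hq'
      push_cast at hq'
      linear_combination -hq'
    rw [hq1, hq2]
    ring
  rw [e]
  exact h3

/-- the images of the solutions of `U ^ 2 = 1` under multiplication by `N m'` are 5-torsion points -/
theorem main (K : Kit P Q Λ ζ g) {N m' : ℕ} (hm : m' % 5 = 2) (hN : N = 3 * m' + 1) {z₀ : ℂ}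
    (hz : z₀ ∉ Λ) (h1 : (N : ℂ) * z₀ ∉ Λ)
    (h3 : Q (N * z₀) ^ 2 = Q (1 / 5) ^ 2 ∨ Q z₀ ^ 2 = Q (1 / 5) ^ 2) :
    ((N * m' : ℕ) : ℂ) * z₀ ∉ Λ ∧ 2 * (((N * m' : ℕ) : ℂ) * z₀) ∉ Λ ∧
    ∃ i j : Fin 5, ((N * m' : ℕ) : ℂ) * z₀ - ((i : ℕ) + (j : ℕ) * ζ) / 5 ∈ Λ := by
  rcases h3 with h3 | h3
  · obtain ⟨j, hj, s, hs, h⟩ := K.fifth h1 h3
    have hk : ¬ (5 : ℤ) ∣ (m' : ℤ) := by omega
    have e : ((N * m' : ℕ) : ℂ) * z₀ = ((m' : ℤ) : ℂ) * ((N : ℂ) * z₀) := by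
      push_cast
      ring
    rw [e]
    obtain ⟨a, b⟩ := K.fifth_mul hj hs h hk
    exact ⟨a, b, third K hj h _⟩
  · obtain ⟨j, hj, s, hs, h⟩ := K.fifth hz h3
    have hN5 : N % 5 = 2 := by omega
    have hk : ¬ (5 : ℤ) ∣ ((N * m' : ℕ) : ℤ) := by
      intro hd
      have hd2 : 5 ∣ N * m' := by exact_mod_cast hd
      have := (Nat.Prime.dvd_mul (by norm_num : Nat.Prime 5)).1 hd2
      omega
    have e : ((N * m' : ℕ) : ℂ) * z₀ = (((N * m' : ℕ) : ℤ) : ℂ) * z₀ := by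
      push_cast
      ring
    rw [e]
    obtain ⟨a, b⟩ := K.fifth_mul hj hs h hk
    exact ⟨a, b, third K hj h _⟩

end J_tors

alias Kit.tors := J_tors.main

end H26E
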