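import Mathlib
import Pool.Agent.Helper26.EC.Base
import Pool.Agent.Helper26.EC.KDefs
import Pool.Agent.Helper26.EC.KPar
import Pool.Agent.Helper26.EC.J_int_div
import Pool.Agent.Helper26.EC.J_lim
import Pool.Agent.Helper26.EC.J_half
import Pool.Agent.Helper26.EC.J_cont_X
import Pool.Agent.Helper26.EC.J_cont_U
import Pool.Agent.Helper26.EC.J_cont_R
import Pool.Agent.Helper26.EC.J_count
import Pool.Agent.Helper26.EC.J_tors
import Pool.Agent.Helper26.EC.J_zeros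
import Pool.Agent.Helper26.EC.J_genInj
import Pool.Agent.Helper26.EC.J_reps

set_option autoImplicit false

open Polynomial Filter Topology

namespace H26E

variable {P Q : ℂ → ℂ} {Λ : AddSubgroup ℂ} {ζ g : ℂ}

namespace J_core

theorem third (K : Kit P Q Λ ζ g) : (1 / 3 : ℂ) ∉ Λ ∧ 2 * (1 / 3 : ℂ) ∉ Λ := by
  constructor
  · intro h
    have h1 := (K.int_div 3 1 0 (by norm_num) (by push_cast; simpa using h)).1
    omega
  · intro h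
    have h1 := (K.int_div 3 2 0 (by norm_num) (by
      push_cast
      have e : ((2 : ℂ) + 0 * ζ) / 3 = 2 * (1 / 3) := by ring
      rw [e]
      exact h)).1
    omega

theorem per_eq (K : Kit P Q Λ ζ g) {a b : ℂ} (h : a - b ∈ Λ) : P a = P b ∧ Q a = Q b := by
  have e : a = b + (a - b) := by ring
  constructor
  · rw [e, K.perP b _ h]
  · rw [e, K.perQ b _ h]

/-- the torsion points -/
noncomputable def tb (ζ : ℂ) (p : Fin 5 × Fin 5) : ℂ := ((p.1 : ℕ) + (p.2 : ℕ) * ζ) / 5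

open Classical in
/-- the set S -/
noncomputable def SS (P Q : ℂ → ℂ) (Λ : AddSubgroup ℂ) (ζ : ℂ) : Finset (ℂ × ℂ) :=
  insert (P (1 / 3), 0) (((Finset.univ : Finset ((Fin 5 × Fin 5) × Bool)).filter
    (fun p => 2 * tb ζ p.1 ∉ Λ)).image
    (fun p => (P (tb ζ p.1), (if p.2 then 1 else -1) * (Q (tb ζ p.1) / (2 * (P (tb ζ p.1) - P (1 / 2)))))))

theorem SS_fst (K : Kit P Q Λ ζ g) : ∀ p ∈ SS P Q Λ ζ, ∃ z, 2 * z ∉ Λ ∧ p.1 = P z := by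
  intro p hp
  simp only [SS, Finset.mem_insert, Finset.mem_image, Finset.mem_filter, Finset.mem_univ, true_and] at hp
  rcases hp with rfl | ⟨q, hq, rfl⟩
  · exact ⟨1 / 3, (third K).2, rfl⟩
  · exact ⟨_, hq, rfl⟩

theorem step1 (K : Kit P Q Λ ζ g) {N m' : ℕ} (hm : m' % 5 = 2) (hN : N = 3 * m' + 1)
    {A B G H : ℂ[X]} (c1 : IsCoprime A B) (c2 : IsCoprime G H)
    (r1 : Rep P (fun z => P ((N * m' : ℕ) * z)) A B)
    (r2 : Rep P (fun z => Uf Q (Q (1 / 5)) N z *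
        (Q ((N * m' : ℕ) * z) / (2 * (P ((N * m' : ℕ) * z) - P (1 / 2))))) G H)
    {z₀ : ℂ} (hz : z₀ ∉ Λ) (h1 : (N : ℂ) * z₀ ∉ Λ)
    (hd : Q (1 / 5) ^ 2 - Q (N * z₀) * Q z₀ ≠ 0) (hU : Uf Q (Q (1 / 5)) N z₀ ^ 2 = 1)
    (h3 : Q (N * z₀) ^ 2 = Q (1 / 5) ^ 2 ∨ Q z₀ ^ 2 = Q (1 / 5) ^ 2) :
    B.eval (P z₀) ≠ 0 ∧ H.eval (P z₀) ≠ 0 ∧
      (A.eval (P z₀) / B.eval (P z₀), G.eval (P z₀) / H.eval (P z₀)) ∈ SS P Q Λ ζ := by
  obtain ⟨hg, he0, hhalf⟩ := K.half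
  obtain ⟨t1, t2, i, j, t3⟩ := K.tors hm hN hz h1 h3
  have e1 := per_eq K t3
  have t4 : 2 * tb ζ (i, j) ∉ Λ := by
    intro h
    apply t2
    have h5 := Λ.add_mem h (Λ.add_mem t3 t3)
    have e : 2 * (((N * m' : ℕ) : ℂ) * z₀) = 2 * tb ζ (i, j) + ((((N * m' : ℕ) : ℂ) * z₀ -
        ((i : ℕ) + (j : ℕ) * ζ) / 5) + (((N * m' : ℕ) : ℂ) * z₀ - ((i : ℕ) + (j : ℕ) * ζ) / 5)) := by
      unfold tb
      ring
    rw [e]
    exact h5
  obtain ⟨l1, l2⟩ := K.lim r1 c1 hz (K.cont_X (N * m') t1)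
  obtain ⟨l3, l4⟩ := K.lim r2 c2 hz (K.cont_R (Q (1 / 5)) (P (1 / 2)) N (N * m') hz h1 t1 hd (hhalf _ t2).1)
  refine ⟨l1, l3, ?_⟩
  rw [l2, l4]
  simp only [SS, Finset.mem_insert, Finset.mem_image, Finset.mem_filter, Finset.mem_univ, true_and]
  right
  have hU' : Uf Q (Q (1 / 5)) N z₀ = 1 ∨ Uf Q (Q (1 / 5)) N z₀ = -1 := by
    have h : (Uf Q (Q (1 / 5)) N z₀ - 1) * (Uf Q (Q (1 / 5)) N z₀ + 1) = 0 := by linear_combination hU
    rcases mul_eq_zero.1 h with h | h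
    · left; linear_combination h
    · right; linear_combination h
  rcases hU' with h | h
  · refine ⟨((i, j), true), t4, ?_⟩
    rw [h, e1.1, e1.2]
    simp [tb]
  · refine ⟨((i, j), false), t4, ?_⟩
    rw [h, e1.1, e1.2]
    simp [tb]

theorem step0 (K : Kit P Q Λ ζ g) {N m' : ℕ} 
    {A B G H M W : ℂ[X]} (c1 : IsCoprime A B) (c2 : IsCoprime G H) (c3 : IsCoprime M W)
    (r1 : Rep P (fun z => P ((N * m' : ℕ) * z)) A B)
    (r2 : Rep P (fun z => Uf Q (Q (1 / 5)) N z *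
        (Q ((N * m' : ℕ) * z) / (2 * (P ((N * m' : ℕ) * z) - P (1 / 2))))) G H)
    (r3 : Rep P (fun z => Uf Q (Q (1 / 5)) N z ^ 2) M W)
    {z₀ : ℂ} (hz : z₀ ∉ Λ) (h1 : (N : ℂ) * z₀ ∉ Λ)
    (hd : Q (1 / 5) ^ 2 - Q (N * z₀) * Q z₀ ≠ 0) (hU : Uf Q (Q (1 / 5)) N z₀ = 0)
    (h3 : ((N * m' : ℕ) : ℂ) * z₀ - 1 / 3 ∈ Λ) :
    (B.eval (P z₀) ≠ 0 ∧ H.eval (P z₀) ≠ 0 ∧
      (A.eval (P z₀) / B.eval (P z₀), G.eval (P z₀) / H.eval (P z₀)) ∈ SS P Q Λ ζ) ∧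
      (W - M).eval (P z₀) ≠ 0 := by
  obtain ⟨hg, he0, hhalf⟩ := K.half
  obtain ⟨th1, th2⟩ := third K
  have e1 := per_eq K h3
  have t1 : ((N * m' : ℕ) : ℂ) * z₀ ∉ Λ := by
    intro h
    apply th1
    have h5 := Λ.sub_mem h h3
    have e : (1 / 3 : ℂ) = ((N * m' : ℕ) : ℂ) * z₀ - (((N * m' : ℕ) : ℂ) * z₀ - 1 / 3) := by ring
    rw [e]
    exact h5
  have he : P (((N * m' : ℕ) : ℂ) * z₀) ≠ P (1 / 2) := by
    rw [e1.1]
    exact (hhalf _ th2).1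
  obtain ⟨l1, l2⟩ := K.lim r1 c1 hz (K.cont_X (N * m') t1)
  obtain ⟨l3, l4⟩ := K.lim r2 c2 hz (K.cont_R (Q (1 / 5)) (P (1 / 2)) N (N * m') hz h1 t1 hd he)
  obtain ⟨l5, l6⟩ := K.lim r3 c3 hz ((K.cont_U (Q (1 / 5)) N hz h1 hd).pow 2)
  refine ⟨⟨l1, l3, ?_⟩, ?_⟩
  · rw [l2, l4, hU, e1.1, zero_mul]
    simp [SS]
  · rw [hU] at l6
    have h7 : M.eval (P z₀) = 0 := by
      have h8 : M.eval (P z₀) / W.eval (P z₀) = 0 := by rw [l6]; norm_num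
      exact (div_eq_zero_iff.1 h8).resolve_right l5
    rw [eval_sub, h7, sub_zero]
    exact l5

/-- the core theorem -/
theorem main (K : Kit P Q Λ ζ g) : ∃ (e₁ e₂ e₃ : ℂ) (S : Finset (ℂ × ℂ)), e₁ ≠ e₂ ∧ e₁ ≠ e₃ ∧ e₂ ≠ e₃ ∧
    (∀ p ∈ S, p.1 ≠ e₁ ∧ p.1 ≠ e₂ ∧ p.1 ≠ e₃) ∧
    ∀ n : ℕ, ∃ (A B G H M W : ℂ[X]) (T : Finset ℂ), Cur A B G H ∧ IsCoprime M W ∧
      M * (H ^ 2 * (A - C e₂ * B) * (A - C e₃ * B)) = W * (G ^ 2 * (A - C e₁ * B) * B) ∧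
      GenInj A B G H ∧
      (∀ t ∈ T, B.eval t ≠ 0 ∧ H.eval t ≠ 0 ∧ (A.eval t / B.eval t, G.eval t / H.eval t) ∈ S) ∧
      W.natDegree + n ≤ T.card := by
  classical
  obtain ⟨hg, he0, hhalf⟩ := K.half
  have hζ := K.hζ
  have hζ1 : ζ ≠ 1 := by
    rintro rfl
    norm_num at hζ
  have hζ0 : ζ ≠ 0 := by
    rintro rfl
    norm_num at hζ
  have hζ2 : ζ ^ 2 ≠ 1 := by
    intro h
    rw [h] at hζ
    have h2 : ζ = -2 := by linear_combination hζ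
    rw [h2] at h
    norm_num at h
  refine ⟨P (1 / 2), ζ * P (1 / 2), ζ ^ 2 * P (1 / 2), SS P Q Λ ζ, ?_, ?_, ?_, ?_, ?_⟩
  · intro h
    apply hζ1
    have : (ζ - 1) * P (1 / 2) = 0 := by linear_combination -h
    exact sub_eq_zero.1 ((mul_eq_zero.1 this).resolve_right he0)
  · intro h
    apply hζ2
    have : (ζ ^ 2 - 1) * P (1 / 2) = 0 := by linear_combination -h
    exact sub_eq_zero.1 ((mul_eq_zero.1 this).resolve_right he0)
  · intro h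
    apply hζ1
    have : ζ * ((ζ - 1) * P (1 / 2)) = 0 := by linear_combination -h
    exact sub_eq_zero.1 ((mul_eq_zero.1 ((mul_eq_zero.1 this).resolve_left hζ0)).resolve_right he0)
  · intro p hp
    obtain ⟨z, hz, hpz⟩ := SS_fst K p hp
    rw [hpz]
    exact hhalf z hz
  · intro n
    have hm : (5 * n + 2) % 5 = 2 := by omega
    have hN : 3 * (5 * n + 2) + 1 = 3 * (5 * n + 2) + 1 := rfl
    have hN5 : (3 * (5 * n + 2) + 1) % 5 = 2 := by omega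
    obtain ⟨A, B, G, H, M, W, hcur, hMW, hid, r1, r2, r3⟩ := K.reps hm hN
    obtain ⟨k1, k2⟩ := K.count hN5 hMW r3
    obtain ⟨z1, z2⟩ := K.zeros hm hN
    refine ⟨A, B, G, H, M, W, (W - M).roots.toFinset ∪ (Finset.range (5 * n + 2)).image
      (fun i => P (((3 * i + 1 : ℕ) : ℂ) / ((3 * (5 * n + 2) : ℕ) : ℂ))), hcur, hMW, hid,
      K.genInj hm hN (fun z hz => (hhalf z hz).1) r1 r2, ?_, ?_⟩
    · intro t ht
      rw [Finset.mem_union] at ht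
      rcases ht with ht | ht
      · obtain ⟨z₀, a1, a2, a3, a4, a5, a6⟩ := k2 t ht
        rw [← a2]
        exact step1 K hm hN hcur.hAB hcur.hGH r1 r2 a1 a3 a4 a5 a6
      · obtain ⟨i, hi, rfl⟩ := Finset.mem_image.1 ht
        obtain ⟨a1, a2, a3, a4, a5⟩ := z1 i (Finset.mem_range.1 hi)
        exact (step0 K hcur.hAB hcur.hGH hMW r1 r2 r3 a1 a2 a3 a4 a5).1
    · rw [Finset.card_union_of_disjoint, k1, Finset.card_image_of_injOn, Finset.card_range]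
      · omega
      · intro i hi j hj hij
        exact z2 i (Finset.mem_range.1 hi) j (Finset.mem_range.1 hj) hij
      · rw [Finset.disjoint_right]
        intro t ht ht'
        obtain ⟨i, hi, rfl⟩ := Finset.mem_image.1 ht
        obtain ⟨a1, a2, a3, a4, a5⟩ := z1 i (Finset.mem_range.1 hi)
        have h7 := (step0 K hcur.hAB hcur.hGH hMW r1 r2 r3 a1 a2 a3 a4 a5).2
        rw [Multiset.mem_toFinset] at ht'
        exact h7 (isRoot_of_mem_roots ht')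

end J_core

alias Kit.core := J_core.main

end H26E
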