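import Mathlib
import Pool.Agent.Helper26.EC.KDefs
import Pool.Agent.Helper26.EC.KPar

set_option autoImplicit false

open Polynomial

namespace H26E


namespace J_natDegree_gcd

theorem main (p q : ℂ[X]) (hp : p ≠ 0) (hq : q ≠ 0) :
    (EuclideanDomain.gcd p q).natDegree =
      ∑ t ∈ p.roots.toFinset, min (p.rootMultiplicity t) (q.rootMultiplicity t) := by
  obtain ⟨g, hg⟩ : ∃ g, g = EuclideanDomain.gcd p q := ⟨_, rfl⟩
  have hgp : g ∣ p := by
    rw [hg]
    exact EuclideanDomain.gcd_dvd_left p q
  have hgq : g ∣ q := by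
    rw [hg]
    exact EuclideanDomain.gcd_dvd_right p q
  have hg0 : g ≠ 0 := ne_zero_of_dvd_ne_zero hp hgp
  have hm : ∀ t, g.rootMultiplicity t = min (p.rootMultiplicity t) (q.rootMultiplicity t) := by
    intro t
    apply le_antisymm
    · exact le_min (rootMultiplicity_le_rootMultiplicity_of_dvd hp hgp t)
        (rootMultiplicity_le_rootMultiplicity_of_dvd hq hgq t)
    · rw [le_rootMultiplicity_iff hg0, hg]
      apply EuclideanDomain.dvd_gcd
      · rw [← le_rootMultiplicity_iff hp]
        exact min_le_left _ _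
      · rw [← le_rootMultiplicity_iff hq]
        exact min_le_right _ _
  rw [← hg]
  have h1 : g.natDegree = g.roots.card :=
    (splits_iff_card_roots.1 (IsAlgClosed.splits g)).symm
  rw [h1, ← Multiset.toFinset_sum_count_eq]
  have h2 : g.roots.toFinset ⊆ p.roots.toFinset := by
    intro t ht
    rw [Multiset.mem_toFinset, mem_roots hg0] at ht
    rw [Multiset.mem_toFinset, mem_roots hp]
    exact ht.dvd hgp
  rw [Finset.sum_subset h2 (fun t _ ht => by
    rw [Multiset.mem_toFinset] at ht
    exact Multiset.count_eq_zero.2 ht)]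
  refine Finset.sum_congr rfl fun t _ => ?_
  rw [count_roots, hm t]

end J_natDegree_gcd

alias natDegree_gcd := J_natDegree_gcd.main

end H26E
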