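import Mathlib
import Pool.Agent.Helper26.EC.KDefs
import Pool.Agent.Helper26.EC.KPar

set_option autoImplicit false

open Polynomial

namespace H26E


namespace J_rootMultiplicity_gcd

theorem main (p q : ℂ[X]) (hp : p ≠ 0) (hq : q ≠ 0) (t : ℂ) :
    (EuclideanDomain.gcd p q).rootMultiplicity t = min (p.rootMultiplicity t) (q.rootMultiplicity t) := by
  have hg : EuclideanDomain.gcd p q ≠ 0 := by
    intro h
    exact hp (EuclideanDomain.gcd_eq_zero_iff.1 h).1
  refine le_antisymm (le_min ?_ ?_) ?_
  · exact Polynomial.rootMultiplicity_le_rootMultiplicity_of_dvd hp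
      (EuclideanDomain.gcd_dvd_left p q) t
  · exact Polynomial.rootMultiplicity_le_rootMultiplicity_of_dvd hq
      (EuclideanDomain.gcd_dvd_right p q) t
  · rw [Polynomial.le_rootMultiplicity_iff hg]
    exact EuclideanDomain.dvd_gcd
      ((pow_dvd_pow _ (min_le_left _ _)).trans (Polynomial.pow_rootMultiplicity_dvd p t))
      ((pow_dvd_pow _ (min_le_right _ _)).trans (Polynomial.pow_rootMultiplicity_dvd q t))

end J_rootMultiplicity_gcd

alias rootMultiplicity_gcd := J_rootMultiplicity_gcd.main

end H26E
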