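import Mathlib
import Pool.Agent.Helper26.EC.KDefs
import Pool.Agent.Helper26.EC.KPar
import Pool.Agent.Helper26.EC.J_natDegree_gcd
import Pool.Agent.Helper26.EC.J_rootMultiplicity_gcd

set_option autoImplicit false

open Polynomial

namespace H26E


namespace J_deg_s

/-- lower bound for the degree of `s` -/
theorem main {A B G H M W : ℂ[X]} {e₁ e₂ e₃ : ℂ} (he12 : e₁ ≠ e₂) (he13 : e₁ ≠ e₃) (he23 : e₂ ≠ e₃)
    (hAB : IsCoprime A B) (hGH : IsCoprime G H) (hMW : IsCoprime M W) (hB : B ≠ 0) (hG : G ≠ 0)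
    (hdAB : B.natDegree < A.natDegree) (hdGH : G.natDegree < H.natDegree)
    (hs : M * (H ^ 2 * (A - C e₂ * B) * (A - C e₃ * B)) = W * (G ^ 2 * (A - C e₁ * B) * B)) :
    2 * A.natDegree + 2 * H.natDegree ≤ W.natDegree +
      ((EuclideanDomain.gcd (A - C e₂ * B) (G ^ 2)).natDegree +
       (EuclideanDomain.gcd (A - C e₃ * B) (G ^ 2)).natDegree +
       (EuclideanDomain.gcd (A - C e₁ * B) (H ^ 2)).natDegree +
       (EuclideanDomain.gcd B (H ^ 2)).natDegree) := by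
  have hA : A ≠ 0 := by
    rintro rfl
    simp at hdAB
  have hH : H ≠ 0 := by
    rintro rfl
    simp at hdGH
  have hEdeg : ∀ e : ℂ, (A - C e * B).natDegree = A.natDegree := by
    intro e
    apply natDegree_sub_eq_left_of_natDegree_lt
    exact lt_of_le_of_lt (natDegree_C_mul_le e B) hdAB
  have hE0 : ∀ e : ℂ, A - C e * B ≠ 0 := by
    intro e h0
    have h1 := hEdeg e
    rw [h0, natDegree_zero] at h1
    omega
  set E₁ := A - C e₁ * B with hE₁
  set E₂ := A - C e₂ * B with hE₂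
  set E₃ := A - C e₃ * B with hE₃
  have h10 : E₁ ≠ 0 := hE0 e₁
  have h20 : E₂ ≠ 0 := hE0 e₂
  have h30 : E₃ ≠ 0 := hE0 e₃
  have hN0 : H ^ 2 * E₂ * E₃ ≠ 0 := mul_ne_zero (mul_ne_zero (pow_ne_zero 2 hH) h20) h30
  have hD0 : G ^ 2 * E₁ * B ≠ 0 := mul_ne_zero (mul_ne_zero (pow_ne_zero 2 hG) h10) hB
  have hW0 : W ≠ 0 := by
    rintro rfl
    rw [zero_mul] at hs
    have hM : M = 0 := (mul_eq_zero.mp hs).resolve_right hN0
    rw [hM] at hMW
    exact not_isCoprime_zero_zero hMW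
  have hWN : W ∣ H ^ 2 * E₂ * E₃ := by
    apply hMW.symm.dvd_of_dvd_mul_left
    exact ⟨G ^ 2 * E₁ * B, hs⟩
  obtain ⟨Γ, hΓ⟩ := hWN
  have hΓ0 : Γ ≠ 0 := by
    rintro rfl
    rw [mul_zero] at hΓ
    exact hN0 hΓ
  have hΓD : M * Γ = G ^ 2 * E₁ * B := by
    apply mul_left_cancel₀ hW0
    rw [← hs, hΓ]
    ring
  have hdegN : 2 * A.natDegree + 2 * H.natDegree = W.natDegree + Γ.natDegree := by
    have h1 := congrArg natDegree hΓ
    rw [natDegree_mul (mul_ne_zero (pow_ne_zero 2 hH) h20) h30,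
      natDegree_mul (pow_ne_zero 2 hH) h20, natDegree_pow, hEdeg e₂, hEdeg e₃,
      natDegree_mul hW0 hΓ0] at h1
    omega
  have hg2 : EuclideanDomain.gcd E₂ (G ^ 2) ≠ 0 := fun h => h20 (EuclideanDomain.gcd_eq_zero_iff.mp h).1
  have hg3 : EuclideanDomain.gcd E₃ (G ^ 2) ≠ 0 := fun h => h30 (EuclideanDomain.gcd_eq_zero_iff.mp h).1
  have hg1 : EuclideanDomain.gcd E₁ (H ^ 2) ≠ 0 := fun h => h10 (EuclideanDomain.gcd_eq_zero_iff.mp h).1
  have hgB : EuclideanDomain.gcd B (H ^ 2) ≠ 0 := fun h => hB (EuclideanDomain.gcd_eq_zero_iff.mp h).1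
  set P := EuclideanDomain.gcd E₂ (G ^ 2) * EuclideanDomain.gcd E₃ (G ^ 2) *
    EuclideanDomain.gcd E₁ (H ^ 2) * EuclideanDomain.gcd B (H ^ 2) with hP
  have hP0 : P ≠ 0 := mul_ne_zero (mul_ne_zero (mul_ne_zero hg2 hg3) hg1) hgB
  have hPdeg : P.natDegree = (EuclideanDomain.gcd E₂ (G ^ 2)).natDegree +
       (EuclideanDomain.gcd E₃ (G ^ 2)).natDegree +
       (EuclideanDomain.gcd E₁ (H ^ 2)).natDegree +
       (EuclideanDomain.gcd B (H ^ 2)).natDegree := by
    rw [hP, natDegree_mul (mul_ne_zero (mul_ne_zero hg2 hg3) hg1) hgB,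
      natDegree_mul (mul_ne_zero hg2 hg3) hg1, natDegree_mul hg2 hg3]
  have hABt : ∀ t : ℂ, ¬ (A.eval t = 0 ∧ B.eval t = 0) := by
    rintro t ⟨h1, h2⟩
    obtain ⟨u, v, huv⟩ := hAB
    have h3 := congrArg (eval t) huv
    simp [h1, h2] at h3
  have hGHt : ∀ t : ℂ, ¬ (G.eval t = 0 ∧ H.eval t = 0) := by
    rintro t ⟨h1, h2⟩
    obtain ⟨u, v, huv⟩ := hGH
    have h3 := congrArg (eval t) huv
    simp [h1, h2] at h3
  have hEe : ∀ (e t : ℂ), (A - C e * B).IsRoot t → A.eval t = e * B.eval t := by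
    intro e t h
    have h1 : (A - C e * B).eval t = 0 := h
    simp only [eval_sub, eval_mul, eval_C] at h1
    exact sub_eq_zero.mp h1
  have hEB : ∀ (e t : ℂ), ¬ ((A - C e * B).IsRoot t ∧ B.IsRoot t) := by
    rintro e t ⟨h1, h2⟩
    have h3 := hEe e t h1
    have h4 : B.eval t = 0 := h2
    rw [h4, mul_zero] at h3
    exact hABt t ⟨h3, h4⟩
  have hEE : ∀ (e e' t : ℂ), e ≠ e' → ¬ ((A - C e * B).IsRoot t ∧ (A - C e' * B).IsRoot t) := by
    rintro e e' t hne ⟨h1, h2⟩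
    have h3 := hEe e t h1
    have h4 := hEe e' t h2
    have h5 : (e - e') * B.eval t = 0 := by linear_combination h4 - h3
    rcases mul_eq_zero.mp h5 with h6 | h6
    · exact hne (sub_eq_zero.mp h6)
    · rw [h6, mul_zero] at h3
      exact hABt t ⟨h3, h6⟩
  have rsq : ∀ (p : ℂ[X]), p ≠ 0 → ∀ t : ℂ,
      (p ^ 2).rootMultiplicity t = 2 * p.rootMultiplicity t := by
    intro p hp t
    rw [pow_two, rootMultiplicity_mul (mul_ne_zero hp hp), two_mul]
  have hrm : ∀ t : ℂ, Γ.rootMultiplicity t ≤ P.rootMultiplicity t := by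
    intro t
    have hN1 : Γ.rootMultiplicity t ≤ 2 * H.rootMultiplicity t + E₂.rootMultiplicity t +
        E₃.rootMultiplicity t := by
      have h1 := rootMultiplicity_le_rootMultiplicity_of_dvd hN0 (⟨W, by rw [hΓ]; ring⟩ : Γ ∣ H ^ 2 * E₂ * E₃) t
      rw [rootMultiplicity_mul hN0, rootMultiplicity_mul (mul_ne_zero (pow_ne_zero 2 hH) h20),
        rsq H hH t] at h1
      exact h1
    have hD1 : Γ.rootMultiplicity t ≤ 2 * G.rootMultiplicity t + E₁.rootMultiplicity t +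
        B.rootMultiplicity t := by
      have h1 := rootMultiplicity_le_rootMultiplicity_of_dvd hD0 (⟨M, by rw [← hΓD]; ring⟩ : Γ ∣ G ^ 2 * E₁ * B) t
      rw [rootMultiplicity_mul hD0, rootMultiplicity_mul (mul_ne_zero (pow_ne_zero 2 hG) h10),
        rsq G hG t] at h1
      exact h1
    have hP1 : P.rootMultiplicity t =
        min (E₂.rootMultiplicity t) (2 * G.rootMultiplicity t) +
        min (E₃.rootMultiplicity t) (2 * G.rootMultiplicity t) +
        min (E₁.rootMultiplicity t) (2 * H.rootMultiplicity t) +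
        min (B.rootMultiplicity t) (2 * H.rootMultiplicity t) := by
      rw [hP, rootMultiplicity_mul hP0,
        rootMultiplicity_mul (mul_ne_zero (mul_ne_zero hg2 hg3) hg1),
        rootMultiplicity_mul (mul_ne_zero hg2 hg3),
        rootMultiplicity_gcd _ _ h20 (pow_ne_zero 2 hG),
        rootMultiplicity_gcd _ _ h30 (pow_ne_zero 2 hG),
        rootMultiplicity_gcd _ _ h10 (pow_ne_zero 2 hH),
        rootMultiplicity_gcd _ _ hB (pow_ne_zero 2 hH),
        rsq G hG t, rsq H hH t]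
    have z : ∀ p q : ℂ[X], p ≠ 0 → q ≠ 0 → ¬ (p.IsRoot t ∧ q.IsRoot t) →
        p.rootMultiplicity t = 0 ∨ q.rootMultiplicity t = 0 := by
      intro p q hp hq h
      by_contra hc
      push Not at hc
      exact h ⟨(rootMultiplicity_pos hp).mp (Nat.pos_of_ne_zero hc.1),
        (rootMultiplicity_pos hq).mp (Nat.pos_of_ne_zero hc.2)⟩
    have z12 := z E₁ E₂ h10 h20 (hEE e₁ e₂ t he12)
    have z13 := z E₁ E₃ h10 h30 (hEE e₁ e₃ t he13)
    have z23 := z E₂ E₃ h20 h30 (hEE e₂ e₃ t he23)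
    have z1B := z E₁ B h10 hB (hEB e₁ t)
    have z2B := z E₂ B h20 hB (hEB e₂ t)
    have z3B := z E₃ B h30 hB (hEB e₃ t)
    have zGH := z G H hG hH (hGHt t)
    rw [hP1]
    omega
  have hroots : Γ.roots ≤ P.roots := by
    rw [Multiset.le_iff_count]
    intro t
    rw [count_roots, count_roots]
    exact hrm t
  have hcard : Γ.natDegree ≤ P.natDegree := by
    calc Γ.natDegree = Multiset.card Γ.roots := (IsAlgClosed.splits Γ).natDegree_eq_card_roots
      _ ≤ Multiset.card P.roots := Multiset.card_le_card hroots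
      _ ≤ P.natDegree := card_roots' P
  omega

end J_deg_s

alias deg_s := J_deg_s.main

end H26E
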