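import Mathlib
import Pool.Agent.Helper26.EC.KDefs
import Pool.Agent.Helper26.EC.KPar

set_option autoImplicit false

open Polynomial

namespace H26E


namespace J_exists_par

open Filter in
theorem ev_const (a x₂ s c : ℂ) (ha : a ≠ x₂) (hs : s ≠ 0) :
    ∀ᶠ x₁ in cofinite, (a - x₁) / (a - x₂) * s ≠ c := by
  rw [eventually_cofinite]
  apply Set.Subsingleton.finite
  intro x hx y hy
  have hx' : (a - x) / (a - x₂) * s = c := not_not.1 hx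
  have hy' : (a - y) / (a - x₂) * s = c := not_not.1 hy
  have hd : a - x₂ ≠ 0 := sub_ne_zero.2 ha
  rw [← hy'] at hx'
  have h1 := mul_right_cancel₀ hs hx'
  rw [div_left_inj' hd] at h1
  linear_combination -h1

open Filter in
theorem ev_two (a b x₂ s φ : ℂ) (ha : a ≠ x₂) (hab : a ≠ b) (hs : s ≠ 0) :
    ∀ᶠ x₁ in cofinite, (a - x₁) / (a - x₂) * s ≠ (b - x₁) / (b - x₂) * φ := by
  rw [eventually_cofinite]
  apply Set.Subsingleton.finite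
  intro x hx y hy
  have hx' : (a - x) / (a - x₂) * s = (b - x) / (b - x₂) * φ := not_not.1 hx
  have hy' : (a - y) / (a - x₂) * s = (b - y) / (b - x₂) * φ := not_not.1 hy
  have hd : a - x₂ ≠ 0 := sub_ne_zero.2 ha
  by_contra hne
  obtain ⟨A, hA⟩ : ∃ A, A = s / (a - x₂) := ⟨_, rfl⟩
  obtain ⟨B, hB⟩ : ∃ B, B = φ / (b - x₂) := ⟨_, rfl⟩
  have hx2 : (a - x) * A = (b - x) * B := by
    rw [hA, hB]
    linear_combination hx'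
  have hy2 : (a - y) * A = (b - y) * B := by
    rw [hA, hB]
    linear_combination hy'
  have h1 : (y - x) * (A - B) = 0 := by linear_combination hx2 - hy2
  have hyx : y - x ≠ 0 := sub_ne_zero.2 (Ne.symm hne)
  have h2 : A - B = 0 := (mul_eq_zero.1 h1).resolve_left hyx
  have h3 : (a - b) * A = 0 := by linear_combination hx2 - (b - x) * h2
  have h4 : A = 0 := (mul_eq_zero.1 h3).resolve_left (sub_ne_zero.2 hab)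
  rw [hA, div_eq_zero_iff] at h4
  exact h4.elim hs hd

open Filter in
theorem main {e₁ e₂ e₃ : ℂ} (he12 : e₁ ≠ e₂) (he13 : e₁ ≠ e₃) (he23 : e₂ ≠ e₃) (S : Finset (ℂ × ℂ))
    (hS : ∀ p ∈ S, p.1 ≠ e₁ ∧ p.1 ≠ e₂ ∧ p.1 ≠ e₃) :
    ∃ x₁ x₂ r₁ r₂ ρ₁ ρ₂ ρ₃ ρ₄ : ℂ, Par e₁ e₂ e₃ S x₁ x₂ r₁ r₂ ρ₁ ρ₂ ρ₃ ρ₄ := by
  obtain ⟨r₁, hr1, hr1S⟩ : ∃ r₁ : ℂ, r₁ ≠ 0 ∧ ∀ p ∈ S, r₁ ≠ p.2 :=
    ((eventually_cofinite_ne (0 : ℂ)).and ((eventually_all_finset S).2 fun p _ =>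
      eventually_cofinite_ne p.2)).exists
  obtain ⟨r₂, ⟨hr2, hr12⟩, hr2S⟩ : ∃ r₂ : ℂ, (r₂ ≠ 0 ∧ r₂ ≠ r₁) ∧ ∀ p ∈ S, r₂ ≠ p.2 :=
    (((eventually_cofinite_ne (0 : ℂ)).and (eventually_cofinite_ne r₁)).and
      ((eventually_all_finset S).2 fun p _ => eventually_cofinite_ne p.2)).exists
  obtain ⟨x₂, ⟨hx2e1, hx2e2, hx2e3⟩, hx2S⟩ :
      ∃ x₂ : ℂ, (x₂ ≠ e₁ ∧ x₂ ≠ e₂ ∧ x₂ ≠ e₃) ∧ ∀ p ∈ S, x₂ ≠ p.1 :=
    (((eventually_cofinite_ne e₁).and ((eventually_cofinite_ne e₂).and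
      (eventually_cofinite_ne e₃))).and
      ((eventually_all_finset S).2 fun p _ => eventually_cofinite_ne p.1)).exists
  have hφ0 : r₂ / r₁ ≠ 0 := div_ne_zero hr2 hr1
  have hφ1 : (1 : ℂ) ≠ r₂ / r₁ := by
    intro h
    rw [eq_div_iff hr1, one_mul] at h
    exact hr12 h.symm
  have hs : ∀ p ∈ S, (p.2 - r₂) / (p.2 - r₁) ≠ 0 := fun p hp =>
    div_ne_zero (sub_ne_zero.2 (hr2S p hp).symm) (sub_ne_zero.2 (hr1S p hp).symm)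
  have hEv : ∀ᶠ x₁ in cofinite, (x₁ ≠ x₂ ∧ (x₁ ≠ e₁ ∧ x₁ ≠ e₂ ∧ x₁ ≠ e₃)) ∧
      ((e₂ - x₁) / (e₂ - x₂) * (r₂ / r₁) ≠ (e₃ - x₁) / (e₃ - x₂) * (r₂ / r₁) ∧
       (e₂ - x₁) / (e₂ - x₂) * (r₂ / r₁) ≠ (e₁ - x₁) / (e₁ - x₂) * 1 ∧
       (e₂ - x₁) / (e₂ - x₂) * (r₂ / r₁) ≠ 1 ∧
       (e₃ - x₁) / (e₃ - x₂) * (r₂ / r₁) ≠ (e₁ - x₁) / (e₁ - x₂) * 1 ∧
       (e₃ - x₁) / (e₃ - x₂) * (r₂ / r₁) ≠ 1 ∧
       (e₁ - x₁) / (e₁ - x₂) * 1 ≠ 1) ∧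
      ((e₂ - x₁) / (e₂ - x₂) * (r₂ / r₁) ≠ 0 ∧
       (e₃ - x₁) / (e₃ - x₂) * (r₂ / r₁) ≠ 0 ∧
       (e₁ - x₁) / (e₁ - x₂) * 1 ≠ 0) ∧
      ((e₂ - x₁) / (e₂ - x₂) * (r₂ / r₁) ≠ r₂ / r₁ ∧
       (e₃ - x₁) / (e₃ - x₂) * (r₂ / r₁) ≠ r₂ / r₁ ∧
       (e₁ - x₁) / (e₁ - x₂) * 1 ≠ r₂ / r₁) ∧
      (∀ p ∈ S, x₁ ≠ p.1 ∧
        (p.1 - x₁) / (p.1 - x₂) * ((p.2 - r₂) / (p.2 - r₁)) ≠
          (e₂ - x₁) / (e₂ - x₂) * (r₂ / r₁) ∧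
        (p.1 - x₁) / (p.1 - x₂) * ((p.2 - r₂) / (p.2 - r₁)) ≠
          (e₃ - x₁) / (e₃ - x₂) * (r₂ / r₁) ∧
        (p.1 - x₁) / (p.1 - x₂) * ((p.2 - r₂) / (p.2 - r₁)) ≠
          (e₁ - x₁) / (e₁ - x₂) * 1 ∧
        (p.1 - x₁) / (p.1 - x₂) * ((p.2 - r₂) / (p.2 - r₁)) ≠ 1) := by
    refine ((eventually_cofinite_ne x₂).and ((eventually_cofinite_ne e₁).and
      ((eventually_cofinite_ne e₂).and (eventually_cofinite_ne e₃)))).and ?_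
    refine ((ev_two e₂ e₃ x₂ _ _ hx2e2.symm he23 hφ0).and
      ((ev_two e₂ e₁ x₂ _ _ hx2e2.symm he12.symm hφ0).and
      ((ev_const e₂ x₂ _ _ hx2e2.symm hφ0).and
      ((ev_two e₃ e₁ x₂ _ _ hx2e3.symm he13.symm hφ0).and
      ((ev_const e₃ x₂ _ _ hx2e3.symm hφ0).and
      (ev_const e₁ x₂ _ _ hx2e1.symm one_ne_zero)))))).and ?_
    refine ((ev_const e₂ x₂ _ _ hx2e2.symm hφ0).and
      ((ev_const e₃ x₂ _ _ hx2e3.symm hφ0).and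
      (ev_const e₁ x₂ _ _ hx2e1.symm one_ne_zero))).and ?_
    refine ((ev_const e₂ x₂ _ _ hx2e2.symm hφ0).and
      ((ev_const e₃ x₂ _ _ hx2e3.symm hφ0).and
      (ev_const e₁ x₂ _ _ hx2e1.symm one_ne_zero))).and ?_
    refine (eventually_all_finset S).2 fun p hp => ?_
    refine (eventually_cofinite_ne p.1).and ?_
    refine (ev_two p.1 e₂ x₂ _ _ (hx2S p hp).symm (hS p hp).2.1 (hs p hp)).and ?_
    refine (ev_two p.1 e₃ x₂ _ _ (hx2S p hp).symm (hS p hp).2.2 (hs p hp)).and ?_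
    refine (ev_two p.1 e₁ x₂ _ _ (hx2S p hp).symm (hS p hp).1 (hs p hp)).and ?_
    exact ev_const p.1 x₂ _ _ (hx2S p hp).symm (hs p hp)
  obtain ⟨x₁, ⟨hx, hx1⟩, ⟨h12, h13, h14, h23, h24, h34⟩, ⟨h01, h02, h03⟩,
    ⟨hp1, hp2, hp3⟩, hSS⟩ := hEv.exists
  simp only [mul_one] at h13 h23 h34 h03 hp3 hSS
  refine ⟨x₁, x₂, r₁, r₂, (e₂ - x₁) / (e₂ - x₂) * (r₂ / r₁), (e₃ - x₁) / (e₃ - x₂) * (r₂ / r₁),
    (e₁ - x₁) / (e₁ - x₂), 1, ?_⟩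
  exact
    { he12 := he12
      he13 := he13
      he23 := he23
      hx := hx
      hr := hr12.symm
      hr1 := hr1
      hr2 := hr2
      hx1 := hx1
      hx2 := ⟨hx2e1, hx2e2, hx2e3⟩
      e1 := rfl
      e2 := rfl
      e3 := rfl
      e4 := rfl
      h12 := h12
      h13 := h13
      h14 := h14
      h23 := h23
      h24 := h24
      h34 := h34
      h0 := ⟨h01, h02, h03, one_ne_zero⟩
      hφ := ⟨hp1, hp2, hp3, hφ1⟩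
      hS := fun p hp => ⟨(hS p hp).1, (hS p hp).2.1, (hS p hp).2.2, (hSS p hp).1.symm,
        (hx2S p hp).symm, (hr1S p hp).symm, (hr2S p hp).symm, (hSS p hp).2.1, (hSS p hp).2.2.1,
        (hSS p hp).2.2.2.1, (hSS p hp).2.2.2.2⟩ }

end J_exists_par

alias exists_par := J_exists_par.main

end H26E
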