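import Mathlib
import Pool.Agent.Helper26.EC.KDefs
import Pool.Agent.Helper26.EC.KPar

set_option autoImplicit false

open Polynomial

namespace H26E


namespace J_split1

theorem aux_split (a b : ℂ[X]) (ha : a ≠ 0) :
    ∃ g u v : ℂ[X], a = g * u ∧ b = g * v ∧ IsCoprime u v := by
  classical
  obtain ⟨u, hu⟩ := EuclideanDomain.gcd_dvd_left a b
  obtain ⟨v, hv⟩ := EuclideanDomain.gcd_dvd_right a b
  refine ⟨EuclideanDomain.gcd a b, u, v, hu, hv, ?_⟩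
  have hg : EuclideanDomain.gcd a b ≠ 0 := by
    intro h
    rw [h, zero_mul] at hu
    exact ha hu
  have hb := EuclideanDomain.gcd_eq_gcd_ab a b
  refine ⟨EuclideanDomain.gcdA a b, EuclideanDomain.gcdB a b, ?_⟩
  apply mul_left_cancel₀ hg
  calc EuclideanDomain.gcd a b * (EuclideanDomain.gcdA a b * u + EuclideanDomain.gcdB a b * v)
      = (EuclideanDomain.gcd a b * u) * EuclideanDomain.gcdA a b
        + (EuclideanDomain.gcd a b * v) * EuclideanDomain.gcdB a b := by ring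
    _ = a * EuclideanDomain.gcdA a b + b * EuclideanDomain.gcdB a b := by rw [← hu, ← hv]
    _ = EuclideanDomain.gcd a b * 1 := by rw [← hb, mul_one]

theorem main {X₀ X₁ R₀ R₁ : ℂ[X]} (hX : IsCoprime X₀ X₁) (hR : IsCoprime R₀ R₁)
    (h0 : X₀ ≠ 0) (h1 : X₁ ≠ 0) (h2 : R₀ ≠ 0) (h3 : R₁ ≠ 0) :
    ∃ g₁ g₂ u₀ u₁ v₀ v₁ : ℂ[X], X₀ = g₁ * u₀ ∧ R₁ = g₁ * v₁ ∧ X₁ = g₂ * u₁ ∧ R₀ = g₂ * v₀ ∧
      IsCoprime (u₀ * v₀) (u₁ * v₁) := by
  obtain ⟨g₁, u₀, v₁, e1, e2, c1⟩ := aux_split X₀ R₁ h0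
  obtain ⟨g₂, u₁, v₀, e3, e4, c2⟩ := aux_split X₁ R₀ h1
  refine ⟨g₁, g₂, u₀, u₁, v₀, v₁, e1, e2, e3, e4, ?_⟩
  have c3 : IsCoprime u₀ u₁ :=
    (hX.of_isCoprime_of_dvd_left ⟨g₁, by rw [e1]; ring⟩).of_isCoprime_of_dvd_right
      ⟨g₂, by rw [e3]; ring⟩
  have c4 : IsCoprime v₀ v₁ :=
    (hR.of_isCoprime_of_dvd_left ⟨g₂, by rw [e4]; ring⟩).of_isCoprime_of_dvd_right
      ⟨g₁, by rw [e2]; ring⟩
  exact IsCoprime.mul_left (IsCoprime.mul_right c3 c1) (IsCoprime.mul_right c2.symm c4)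

end J_split1

alias split1 := J_split1.main

end H26E
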