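import Mathlib
import Pool.Agent.Helper26.EC.KDefs
import Pool.Agent.Helper26.EC.KPar

set_option autoImplicit false

open Polynomial

namespace H26E


namespace J_split2

theorem aux {G L γ a l : ℂ[X]} (hγ : γ = EuclideanDomain.gcd G L) (hG : G ≠ 0)
    (ha : G = γ * a) (hl : L = γ * l) : IsCoprime a l := by
  have hγ0 : γ ≠ 0 := by
    rintro h
    rw [h, zero_mul] at ha
    exact hG ha
  have h := EuclideanDomain.gcd_eq_gcd_ab G L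
  rw [← hγ] at h
  refine ⟨EuclideanDomain.gcdA G L, EuclideanDomain.gcdB G L, ?_⟩
  apply mul_left_cancel₀ hγ0
  rw [mul_one]
  conv_rhs => rw [h]
  nth_rewrite 3 [ha]
  nth_rewrite 4 [hl]
  ring

theorem half {G L₁ L₂ : ℂ[X]} (hG : G ≠ 0) (h12 : IsCoprime L₁ L₂) :
    ∃ l₁ l₂ G' : ℂ[X], L₁ = EuclideanDomain.gcd G L₁ * l₁ ∧ L₂ = EuclideanDomain.gcd G L₂ * l₂ ∧
      G = EuclideanDomain.gcd G L₁ * EuclideanDomain.gcd G L₂ * G' ∧
      IsCoprime G' l₁ ∧ IsCoprime G' l₂ := by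
  obtain ⟨l₁, hl₁⟩ := EuclideanDomain.gcd_dvd_right G L₁
  obtain ⟨l₂, hl₂⟩ := EuclideanDomain.gcd_dvd_right G L₂
  have hc : IsCoprime (EuclideanDomain.gcd G L₁) (EuclideanDomain.gcd G L₂) :=
    IsCoprime.of_isCoprime_of_dvd_left (IsCoprime.of_isCoprime_of_dvd_right h12
      (EuclideanDomain.gcd_dvd_right G L₂)) (EuclideanDomain.gcd_dvd_right G L₁)
  obtain ⟨G', hG'⟩ := hc.mul_dvd (EuclideanDomain.gcd_dvd_left G L₁)
    (EuclideanDomain.gcd_dvd_left G L₂)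
  refine ⟨l₁, l₂, G', hl₁, hl₂, hG', ?_, ?_⟩
  · have h := aux (G := G) (L := L₁) rfl hG
      (a := EuclideanDomain.gcd G L₂ * G') (by rw [← mul_assoc]; exact hG') hl₁
    exact h.of_mul_left_right
  · have h := aux (G := G) (L := L₂) rfl hG
      (a := EuclideanDomain.gcd G L₁ * G') (by
        refine hG'.trans ?_
        ring) hl₂
    exact h.of_mul_left_right

theorem main {G H L₁ L₂ L₃ L₄ : ℂ[X]} (hGH : IsCoprime G H) (hG : G ≠ 0) (hH : H ≠ 0)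
    (hL1 : L₁ ≠ 0) (hL2 : L₂ ≠ 0) (hL3 : L₃ ≠ 0) (hL4 : L₄ ≠ 0)
    (h12 : IsCoprime L₁ L₂) (h13 : IsCoprime L₁ L₃) (h14 : IsCoprime L₁ L₄) (h23 : IsCoprime L₂ L₃)
    (h24 : IsCoprime L₂ L₄) (h34 : IsCoprime L₃ L₄) :
    ∃ l₁ l₂ l₃ l₄ G' H' : ℂ[X],
      L₁ = EuclideanDomain.gcd G L₁ * l₁ ∧ L₂ = EuclideanDomain.gcd G L₂ * l₂ ∧
      L₃ = EuclideanDomain.gcd H L₃ * l₃ ∧ L₄ = EuclideanDomain.gcd H L₄ * l₄ ∧
      G = EuclideanDomain.gcd G L₁ * EuclideanDomain.gcd G L₂ * G' ∧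
      H = EuclideanDomain.gcd H L₃ * EuclideanDomain.gcd H L₄ * H' ∧
      IsCoprime (G' * l₃ * l₄) (H' * l₁ * l₂) := by
  obtain ⟨l₁, l₂, G', e1, e2, e5, c1, c2⟩ := half hG h12
  obtain ⟨l₃, l₄, H', e3, e4, e6, c3, c4⟩ := half hH h34
  refine ⟨l₁, l₂, l₃, l₄, G', H', e1, e2, e3, e4, e5, e6, ?_⟩
  have d1 : l₁ ∣ L₁ := Dvd.intro_left _ e1.symm
  have d2 : l₂ ∣ L₂ := Dvd.intro_left _ e2.symm
  have d3 : l₃ ∣ L₃ := Dvd.intro_left _ e3.symm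
  have d4 : l₄ ∣ L₄ := Dvd.intro_left _ e4.symm
  have d5 : G' ∣ G := Dvd.intro_left _ e5.symm
  have d6 : H' ∣ H := Dvd.intro_left _ e6.symm
  have f : ∀ {a b x y : ℂ[X]}, IsCoprime x y → a ∣ x → b ∣ y → IsCoprime a b := by
    intro a b x y h ha hb
    exact (h.of_isCoprime_of_dvd_left ha).of_isCoprime_of_dvd_right hb
  have k1 : IsCoprime G' (H' * l₁ * l₂) :=
    ((f hGH d5 d6).mul_right c1).mul_right c2
  have k2 : IsCoprime l₃ (H' * l₁ * l₂) :=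
    (c3.symm.mul_right (f h13 d1 d3).symm).mul_right (f h23 d2 d3).symm
  have k3 : IsCoprime l₄ (H' * l₁ * l₂) :=
    (c4.symm.mul_right (f h14 d1 d4).symm).mul_right (f h24 d2 d4).symm
  exact (k1.mul_left k2).mul_left k3

end J_split2

alias split2 := J_split2.main

end H26E
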