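import Mathlib
import Pool.Agent.Helper26.EC.KDefs
import Pool.Agent.Helper26.EC.KPar
import Pool.Agent.Helper26.EC.J_split1
import Pool.Agent.Helper26.EC.J_split2

set_option autoImplicit false

open Polynomial

namespace H26E


namespace J_exists_tra

theorem cop_lin {P Q : ℂ[X]} (h : IsCoprime P Q) (a b c d : ℂ) (hD : a * d - b * c ≠ 0) :
    IsCoprime (C a * P + C b * Q) (C c * P + C d * Q) := by
  obtain ⟨u, v, huv⟩ := h
  have hC1 : C (d / (a * d - b * c)) * C a - C (b / (a * d - b * c)) * C c = (1 : ℂ[X]) := by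
    rw [← C_mul, ← C_mul, ← C_sub, ← C_1]
    congr 1; rw [div_mul_eq_mul_div, div_mul_eq_mul_div, ← sub_div, div_eq_one_iff_eq hD]; ring
  have hC2 : C (d / (a * d - b * c)) * C b - C (b / (a * d - b * c)) * C d = (0 : ℂ[X]) := by
    rw [← C_mul, ← C_mul, ← C_sub, ← C_0]
    congr 1; ring
  have hC3 : C (a / (a * d - b * c)) * C c - C (c / (a * d - b * c)) * C a = (0 : ℂ[X]) := by
    rw [← C_mul, ← C_mul, ← C_sub, ← C_0]
    congr 1; ring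
  have hC4 : C (a / (a * d - b * c)) * C d - C (c / (a * d - b * c)) * C b = (1 : ℂ[X]) := by
    rw [← C_mul, ← C_mul, ← C_sub, ← C_1]
    congr 1; rw [div_mul_eq_mul_div, div_mul_eq_mul_div, ← sub_div, div_eq_one_iff_eq hD]; ring
  refine ⟨u * C (d / (a * d - b * c)) - v * C (c / (a * d - b * c)),
    v * C (a / (a * d - b * c)) - u * C (b / (a * d - b * c)), ?_⟩
  linear_combination u * P * hC1 + u * Q * hC2 + v * P * hC3 + v * Q * hC4 + huv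

theorem cop_sub {P Q : ℂ[X]} (h : IsCoprime P Q) (x y : ℂ) (hxy : x ≠ y) :
    IsCoprime (P - C x * Q) (P - C y * Q) := by
  have := cop_lin h 1 (-x) 1 (-y) (by
    intro h0; apply hxy; linear_combination h0)
  simpa [sub_eq_add_neg] using this

theorem nd_mul {p q : ℂ[X]} (h : p * q ≠ 0) : (p * q).natDegree = p.natDegree + q.natDegree :=
  natDegree_mul (left_ne_zero_of_mul h) (right_ne_zero_of_mul h)

theorem L_facts {p q : ℂ[X]} (hd : q.natDegree = p.natDegree) (hq : q ≠ 0) (k ρ : ℂ)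
    (hk : p.leadingCoeff = k * q.leadingCoeff) (hρ : ρ ≠ k) :
    p - C ρ * q ≠ 0 ∧ (p - C ρ * q).natDegree = p.natDegree := by
  have hc : (p - C ρ * q).coeff p.natDegree ≠ 0 := by
    rw [coeff_sub, coeff_C_mul]
    have e1 : p.coeff p.natDegree = p.leadingCoeff := rfl
    have e2 : q.coeff p.natDegree = q.leadingCoeff := by rw [← hd]; rfl
    rw [e1, e2, hk]
    have : k * q.leadingCoeff - ρ * q.leadingCoeff = (k - ρ) * q.leadingCoeff := by ring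
    rw [this]
    exact mul_ne_zero (sub_ne_zero.2 hρ.symm) (leadingCoeff_ne_zero.2 hq)
  have hne : p - C ρ * q ≠ 0 := by
    intro h0; rw [h0, coeff_zero] at hc; exact hc rfl
  refine ⟨hne, le_antisymm ?_ (le_natDegree_of_ne_zero hc)⟩
  refine (natDegree_sub_le _ _).trans (max_le le_rfl ?_)
  exact (natDegree_C_mul_le _ _).trans hd.le

theorem main {e₁ e₂ e₃ : ℂ} {S : Finset (ℂ × ℂ)} {x₁ x₂ r₁ r₂ ρ₁ ρ₂ ρ₃ ρ₄ : ℂ}
    (hp : Par e₁ e₂ e₃ S x₁ x₂ r₁ r₂ ρ₁ ρ₂ ρ₃ ρ₄) {A B G H : ℂ[X]} (hc : Cur A B G H) :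
    ∃ g₁ g₂ u₀ u₁ v₀ v₁ L₁ L₂ L₃ L₄ l₁ l₂ l₃ l₄ G' H' : ℂ[X],
      Tra A B G H x₁ x₂ r₁ r₂ ρ₁ ρ₂ ρ₃ ρ₄ g₁ g₂ u₀ u₁ v₀ v₁ L₁ L₂ L₃ L₄ l₁ l₂ l₃ l₄ G' H' := by
  have hA : A ≠ 0 := by
    rintro rfl
    have := hc.dAB
    simp at this
  have hH : H ≠ 0 := by
    rintro rfl
    have := hc.dGH
    simp at this
  -- first factors
  have ndX : ∀ x : ℂ, (A - C x * B).natDegree = A.natDegree ∧
      (A - C x * B).leadingCoeff = A.leadingCoeff ∧ A - C x * B ≠ 0 := by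
    intro x
    have h1 : (C x * B).natDegree < A.natDegree := (natDegree_C_mul_le _ _).trans_lt hc.dAB
    have h2 : (A - C x * B).natDegree = A.natDegree :=
      natDegree_sub_eq_left_of_natDegree_lt h1
    have h3 : (A - C x * B).leadingCoeff = A.leadingCoeff := by
      unfold leadingCoeff
      rw [h2, coeff_sub, coeff_eq_zero_of_natDegree_lt h1, sub_zero]
    refine ⟨h2, h3, ?_⟩
    rw [← leadingCoeff_ne_zero, h3]
    exact leadingCoeff_ne_zero.2 hA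
  have ndR : ∀ r : ℂ, r ≠ 0 → (G - C r * H).natDegree = H.natDegree ∧
      (G - C r * H).leadingCoeff = -(r * H.leadingCoeff) ∧ G - C r * H ≠ 0 := by
    intro r hr
    have h0 : (C r * H).natDegree = H.natDegree := natDegree_C_mul hr
    have h1 : G.natDegree < (C r * H).natDegree := by rw [h0]; exact hc.dGH
    have h2 : (G - C r * H).natDegree = H.natDegree := by
      rw [natDegree_sub_eq_right_of_natDegree_lt h1, h0]
    have h3 : (G - C r * H).leadingCoeff = -(r * H.leadingCoeff) := by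
      unfold leadingCoeff
      rw [h2, coeff_sub, coeff_eq_zero_of_natDegree_lt hc.dGH, coeff_C_mul, zero_sub]
    refine ⟨h2, h3, ?_⟩
    rw [← leadingCoeff_ne_zero, h3]
    exact neg_ne_zero.2 (mul_ne_zero hr (leadingCoeff_ne_zero.2 hH))
  obtain ⟨dX0, lX0, nX0⟩ := ndX x₁
  obtain ⟨dX1, lX1, nX1⟩ := ndX x₂
  obtain ⟨dR0, lR0, nR0⟩ := ndR r₂ hp.hr2
  obtain ⟨dR1, lR1, nR1⟩ := ndR r₁ hp.hr1
  obtain ⟨g₁, g₂, u₀, u₁, v₀, v₁, a0, a1, a2, a3, cop1⟩ := split1 (cop_sub hc.hAB x₁ x₂ hp.hx)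
    (cop_sub hc.hGH r₂ r₁ hp.hr.symm) nX0 nX1 nR0 nR1
  have f0 : g₁ * u₀ ≠ 0 := a0 ▸ nX0
  have f1 : g₁ * v₁ ≠ 0 := a1 ▸ nR1
  have f2 : g₂ * u₁ ≠ 0 := a2 ▸ nX1
  have f3 : g₂ * v₀ ≠ 0 := a3 ▸ nR0
  have hg1 : g₁ ≠ 0 := left_ne_zero_of_mul f0
  have hg2 : g₂ ≠ 0 := left_ne_zero_of_mul f2
  have hu0 : u₀ ≠ 0 := right_ne_zero_of_mul f0
  have hv1 : v₁ ≠ 0 := right_ne_zero_of_mul f1
  have hu1 : u₁ ≠ 0 := right_ne_zero_of_mul f2
  have hv0 : v₀ ≠ 0 := right_ne_zero_of_mul f3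
  have e0 : g₁.natDegree + u₀.natDegree = A.natDegree := by
    rw [← nd_mul f0, ← a0, dX0]
  have e1 : g₁.natDegree + v₁.natDegree = H.natDegree := by
    rw [← nd_mul f1, ← a1, dR1]
  have e2 : g₂.natDegree + u₁.natDegree = A.natDegree := by
    rw [← nd_mul f2, ← a2, dX1]
  have e3 : g₂.natDegree + v₀.natDegree = H.natDegree := by
    rw [← nd_mul f3, ← a3, dR0]
  have k0 : g₁.leadingCoeff * u₀.leadingCoeff = A.leadingCoeff := by
    rw [← leadingCoeff_mul, ← a0, lX0]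
  have k1 : g₁.leadingCoeff * v₁.leadingCoeff = -(r₁ * H.leadingCoeff) := by
    rw [← leadingCoeff_mul, ← a1, lR1]
  have k2 : g₂.leadingCoeff * u₁.leadingCoeff = A.leadingCoeff := by
    rw [← leadingCoeff_mul, ← a2, lX1]
  have k3 : g₂.leadingCoeff * v₀.leadingCoeff = -(r₂ * H.leadingCoeff) := by
    rw [← leadingCoeff_mul, ← a3, lR0]
  have hpn : u₀ * v₀ ≠ 0 := mul_ne_zero hu0 hv0
  have hqn : u₁ * v₁ ≠ 0 := mul_ne_zero hu1 hv1
  have np : (u₀ * v₀).natDegree = u₀.natDegree + v₀.natDegree := nd_mul hpn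
  have nq : (u₁ * v₁).natDegree = u₁.natDegree + v₁.natDegree := nd_mul hqn
  have hdpq : (u₁ * v₁).natDegree = (u₀ * v₀).natDegree := by omega
  have hlc : (u₀ * v₀).leadingCoeff = (r₂ / r₁) * (u₁ * v₁).leadingCoeff := by
    rw [leadingCoeff_mul, leadingCoeff_mul]
    have hgg : g₁.leadingCoeff * g₂.leadingCoeff ≠ 0 :=
      mul_ne_zero (leadingCoeff_ne_zero.2 hg1) (leadingCoeff_ne_zero.2 hg2)
    have hr1 := hp.hr1
    apply mul_left_cancel₀ hgg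
    apply mul_left_cancel₀ hr1
    have t1 : r₁ * (g₁.leadingCoeff * g₂.leadingCoeff * (u₀.leadingCoeff * v₀.leadingCoeff)) =
        r₁ * (A.leadingCoeff * -(r₂ * H.leadingCoeff)) := by rw [← k0, ← k3]; ring
    have t2 : r₁ * (g₁.leadingCoeff * g₂.leadingCoeff *
        (r₂ / r₁ * (u₁.leadingCoeff * v₁.leadingCoeff))) =
        r₂ * (A.leadingCoeff * -(r₁ * H.leadingCoeff)) := by
      rw [← k2, ← k1]; field_simp
    rw [t1, t2]; ring
  obtain ⟨hL1, dL1⟩ := L_facts hdpq hqn (r₂ / r₁) ρ₁ hlc hp.hφ.1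
  obtain ⟨hL2, dL2⟩ := L_facts hdpq hqn (r₂ / r₁) ρ₂ hlc hp.hφ.2.1
  obtain ⟨hL3, dL3⟩ := L_facts hdpq hqn (r₂ / r₁) ρ₃ hlc hp.hφ.2.2.1
  obtain ⟨hL4, dL4⟩ := L_facts hdpq hqn (r₂ / r₁) ρ₄ hlc hp.hφ.2.2.2
  have c12 := cop_sub cop1 ρ₁ ρ₂ hp.h12
  have c13 := cop_sub cop1 ρ₁ ρ₃ hp.h13
  have c14 := cop_sub cop1 ρ₁ ρ₄ hp.h14
  have c23 := cop_sub cop1 ρ₂ ρ₃ hp.h23
  have c24 := cop_sub cop1 ρ₂ ρ₄ hp.h24
  have c34 := cop_sub cop1 ρ₃ ρ₄ hp.h34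
  obtain ⟨l₁, l₂, l₃, l₄, G', H', m1, m2, m3, m4, mG, mH, cop2⟩ :=
    split2 hc.hGH hc.hG hH hL1 hL2 hL3 hL4 c12 c13 c14 c23 c24 c34
  have n1 := congrArg natDegree m1
  have n2 := congrArg natDegree m2
  have n3 := congrArg natDegree m3
  have n4 := congrArg natDegree m4
  have nG := congrArg natDegree mG
  have nH := congrArg natDegree mH
  have z1 := m1 ▸ hL1
  have z2 := m2 ▸ hL2
  have z3 := m3 ▸ hL3
  have z4 := m4 ▸ hL4
  have q1 : EuclideanDomain.gcd G (u₀ * v₀ - C ρ₁ * (u₁ * v₁)) * l₁ ≠ 0 := by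
    rw [← m1]; exact hL1
  have q2 : EuclideanDomain.gcd G (u₀ * v₀ - C ρ₂ * (u₁ * v₁)) * l₂ ≠ 0 := by
    rw [← m2]; exact hL2
  have q3 : EuclideanDomain.gcd H (u₀ * v₀ - C ρ₃ * (u₁ * v₁)) * l₃ ≠ 0 := by
    rw [← m3]; exact hL3
  have q4 : EuclideanDomain.gcd H (u₀ * v₀ - C ρ₄ * (u₁ * v₁)) * l₄ ≠ 0 := by
    rw [← m4]; exact hL4
  have qG : EuclideanDomain.gcd G (u₀ * v₀ - C ρ₁ * (u₁ * v₁)) *
      EuclideanDomain.gcd G (u₀ * v₀ - C ρ₂ * (u₁ * v₁)) * G' ≠ 0 := by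
    rw [← mG]; exact hc.hG
  have qH : EuclideanDomain.gcd H (u₀ * v₀ - C ρ₃ * (u₁ * v₁)) *
      EuclideanDomain.gcd H (u₀ * v₀ - C ρ₄ * (u₁ * v₁)) * H' ≠ 0 := by
    rw [← mH]; exact hH
  rw [nd_mul q1, dL1] at n1
  rw [nd_mul q2, dL2] at n2
  rw [nd_mul q3, dL3] at n3
  rw [nd_mul q4, dL4] at n4
  rw [nd_mul qG, nd_mul (left_ne_zero_of_mul qG)] at nG
  rw [nd_mul qH, nd_mul (left_ne_zero_of_mul qH)] at nH
  have hl1 := right_ne_zero_of_mul q1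
  have hl2 := right_ne_zero_of_mul q2
  have hl3 := right_ne_zero_of_mul q3
  have hl4 := right_ne_zero_of_mul q4
  have hG' := right_ne_zero_of_mul qG
  have hH' := right_ne_zero_of_mul qH
  have s1 : (G' * l₃ * l₄).natDegree = G'.natDegree + l₃.natDegree + l₄.natDegree := by
    rw [natDegree_mul (mul_ne_zero hG' hl3) hl4, natDegree_mul hG' hl3]
  have s2 : (H' * l₁ * l₂).natDegree = H'.natDegree + l₁.natDegree + l₂.natDegree := by
    rw [natDegree_mul (mul_ne_zero hH' hl1) hl2, natDegree_mul hH' hl1]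
  have dGH := hc.dGH
  exact ⟨g₁, g₂, u₀, u₁, v₀, v₁, _, _, _, _, l₁, l₂, l₃, l₄, G', H',
    { a0 := a0, a1 := a1, a2 := a2, a3 := a3, cop1 := cop1, l1 := rfl, l2 := rfl, l3 := rfl,
      l4 := rfl, c12 := c12, c13 := c13, c14 := c14, c23 := c23, c24 := c24, c34 := c34,
      m1 := m1, m2 := m2, m3 := m3, m4 := m4, mG := mG, mH := mH, cop2 := cop2,
      dg1 := by omega, dg1' := hdpq, dL1 := dL1, dL2 := dL2, dL3 := dL3, dL4 := dL4,
      hL := ⟨hL1, hL2, hL3, hL4⟩, dN := by omega, dD := by omega,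
      dv1 := by omega, dv0 := by omega }⟩

end J_exists_tra

alias exists_tra := J_exists_tra.main

end H26E
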