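import Mathlib
import Pool.Agent.Helper26.EC.KDefs
import Pool.Agent.Helper26.EC.KPar

set_option autoImplicit false

open Polynomial

namespace H26E


namespace J_genInj_tra

theorem main_aux (a b g h a' b' g' h' x₁ x₂ r₁ r₂ ρ₁ ρ₂ ρ₃ ρ₄ : ℂ)
    (p q p' q' c c' e e' N M N' M' : ℂ)
    (hx : x₁ ≠ x₂)
    (hp : p * c = (a - x₁ * b) * (g - r₂ * h)) (hq : q * c = (a - x₂ * b) * (g - r₁ * h))
    (hp' : p' * c' = (a' - x₁ * b') * (g' - r₂ * h'))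
    (hq' : q' * c' = (a' - x₂ * b') * (g' - r₁ * h'))
    (hN : N * e = g * ((p - ρ₃ * q) * (p - ρ₄ * q)))
    (hM : M * e = h * ((p - ρ₁ * q) * (p - ρ₂ * q)))
    (hN' : N' * e' = g' * ((p' - ρ₃ * q') * (p' - ρ₄ * q')))
    (hM' : M' * e' = h' * ((p' - ρ₁ * q') * (p' - ρ₂ * q')))
    (q0 : q ≠ 0)
    (w1 : g - r₁ * h ≠ 0) (w2 : g - r₂ * h ≠ 0)
    (w1' : g' - r₁ * h' ≠ 0) (w2' : g' - r₂ * h' ≠ 0)
    (z1 : p' - ρ₁ * q' ≠ 0) (z2 : p' - ρ₂ * q' ≠ 0) (z3 : p' - ρ₃ * q' ≠ 0)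
    (z4 : p' - ρ₄ * q' ≠ 0) (hh : h ≠ 0) (hh' : h' ≠ 0)
    (E1 : p * q' = p' * q) (E2 : N * M' = N' * M) :
    a * b' = a' * b ∧ g * h' = g' * h := by
  have k1 : (p - ρ₁ * q) * q' = (p' - ρ₁ * q') * q := by linear_combination E1
  have k2 : (p - ρ₂ * q) * q' = (p' - ρ₂ * q') * q := by linear_combination E1
  have k3 : (p - ρ₃ * q) * q' = (p' - ρ₃ * q') * q := by linear_combination E1
  have k4 : (p - ρ₄ * q) * q' = (p' - ρ₄ * q') * q := by linear_combination E1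
  have E3 : (g * ((p - ρ₃ * q) * (p - ρ₄ * q))) * (h' * ((p' - ρ₁ * q') * (p' - ρ₂ * q'))) =
      (g' * ((p' - ρ₃ * q') * (p' - ρ₄ * q'))) * (h * ((p - ρ₁ * q) * (p - ρ₂ * q))) := by
    rw [← hN, ← hM', ← hN', ← hM]
    linear_combination (e * e') * E2
  have k34 : ((p - ρ₃ * q) * (p - ρ₄ * q)) * q' ^ 2 =
      ((p' - ρ₃ * q') * (p' - ρ₄ * q')) * q ^ 2 := by
    linear_combination ((p - ρ₄ * q) * q') * k3 + ((p' - ρ₃ * q') * q) * k4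
  have k12 : ((p - ρ₁ * q) * (p - ρ₂ * q)) * q' ^ 2 =
      ((p' - ρ₁ * q') * (p' - ρ₂ * q')) * q ^ 2 := by
    linear_combination ((p - ρ₂ * q) * q') * k1 + ((p' - ρ₁ * q') * q) * k2
  have E4 : (g * h') * (((p' - ρ₃ * q') * (p' - ρ₄ * q')) * ((p' - ρ₁ * q') * (p' - ρ₂ * q')) *
      q ^ 2) = (g' * h) * (((p' - ρ₃ * q') * (p' - ρ₄ * q')) * ((p' - ρ₁ * q') * (p' - ρ₂ * q')) *
      q ^ 2) := by
    linear_combination q' ^ 2 * E3 - (g * h' * ((p' - ρ₁ * q') * (p' - ρ₂ * q'))) * k34 +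
      (g' * h * ((p' - ρ₃ * q') * (p' - ρ₄ * q'))) * k12
  have E5 : g * h' = g' * h :=
    mul_right_cancel₀ (mul_ne_zero (mul_ne_zero (mul_ne_zero z3 z4) (mul_ne_zero z1 z2))
      (pow_ne_zero 2 q0)) E4
  refine ⟨?_, E5⟩
  have E6 : ((a - x₁ * b) * (g - r₂ * h)) * ((a' - x₂ * b') * (g' - r₁ * h')) =
      ((a' - x₁ * b') * (g' - r₂ * h')) * ((a - x₂ * b) * (g - r₁ * h)) := by
    rw [← hp, ← hq', ← hp', ← hq]
    linear_combination (c * c') * E1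
  have E7 : ((g - r₂ * h) * (g' - r₁ * h')) * (h * h') =
      ((g' - r₂ * h') * (g - r₁ * h)) * (h * h') := by
    linear_combination (h * (g' - r₁ * h') - (g' - r₂ * h') * h) * E5 +
      (0 : ℂ) * E5
  have E8 : (g - r₂ * h) * (g' - r₁ * h') = (g' - r₂ * h') * (g - r₁ * h) :=
    mul_right_cancel₀ (mul_ne_zero hh hh') E7
  have E9 : ((a - x₁ * b) * (a' - x₂ * b')) * ((g - r₂ * h) * (g' - r₁ * h')) =
      ((a' - x₁ * b') * (a - x₂ * b)) * ((g - r₂ * h) * (g' - r₁ * h')) := by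
    linear_combination E6 - ((a' - x₁ * b') * (a - x₂ * b)) * E8
  have E10 := mul_right_cancel₀ (mul_ne_zero w2 w1') E9
  have E11 : (a * b' - a' * b) * (x₁ - x₂) = 0 := by linear_combination E10
  rcases mul_eq_zero.1 E11 with h0 | h0
  · exact sub_eq_zero.1 h0
  · exact absurd (sub_eq_zero.1 h0) hx

theorem main {e₁ e₂ e₃ : ℂ} {S : Finset (ℂ × ℂ)} {x₁ x₂ r₁ r₂ ρ₁ ρ₂ ρ₃ ρ₄ : ℂ}
    (hp : Par e₁ e₂ e₃ S x₁ x₂ r₁ r₂ ρ₁ ρ₂ ρ₃ ρ₄) {A B G H : ℂ[X]} (hc : Cur A B G H)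
    {g₁ g₂ u₀ u₁ v₀ v₁ L₁ L₂ L₃ L₄ l₁ l₂ l₃ l₄ G' H' : ℂ[X]}
    (ht : Tra A B G H x₁ x₂ r₁ r₂ ρ₁ ρ₂ ρ₃ ρ₄ g₁ g₂ u₀ u₁ v₀ v₁ L₁ L₂ L₃ L₄ l₁ l₂ l₃ l₄ G' H')
    (hi : GenInj A B G H) :
    GenInj (u₀ * v₀) (u₁ * v₁) (G' * l₃ * l₄) (H' * l₁ * l₂) := by
  classical
  obtain ⟨T, hT⟩ := hi
  have hH : H ≠ 0 := by
    intro h0
    have h1 := hc.dGH
    rw [h0, natDegree_zero] at h1
    exact absurd h1 (Nat.not_lt_zero _)
  have hA2 : A - C x₂ * B ≠ 0 := by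
    intro h0
    have h1 : A = C x₂ * B := sub_eq_zero.1 h0
    have h2 := hc.dAB
    have h3 : A.natDegree ≤ B.natDegree := by
      rw [h1]
      exact natDegree_C_mul_le _ _
    omega
  have hGr : ∀ r : ℂ, r ≠ 0 → G - C r * H ≠ 0 := by
    intro r hr h0
    have h1 : G = C r * H := sub_eq_zero.1 h0
    have h2 := hc.dGH
    rw [h1, natDegree_C_mul hr] at h2
    exact absurd h2 (lt_irrefl _)
  obtain ⟨hL1, hL2, hL3, hL4⟩ := ht.hL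
  obtain ⟨W, hW⟩ : ∃ W : ℂ[X], W = H * (A - C x₂ * B) * (G - C r₁ * H) * (G - C r₂ * H) *
    L₁ * L₂ * L₃ * L₄ := ⟨_, rfl⟩
  have hW0 : W ≠ 0 := by
    rw [hW]
    exact mul_ne_zero (mul_ne_zero (mul_ne_zero (mul_ne_zero (mul_ne_zero (mul_ne_zero
      (mul_ne_zero hH hA2) (hGr r₁ hp.hr1)) (hGr r₂ hp.hr2)) hL1) hL2) hL3) hL4
  have hev : ∀ t, t ∉ T ∪ W.roots.toFinset → t ∉ T ∧ H.eval t ≠ 0 ∧
      A.eval t - x₂ * B.eval t ≠ 0 ∧ G.eval t - r₁ * H.eval t ≠ 0 ∧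
      G.eval t - r₂ * H.eval t ≠ 0 ∧ L₁.eval t ≠ 0 ∧ L₂.eval t ≠ 0 ∧ L₃.eval t ≠ 0 ∧
      L₄.eval t ≠ 0 := by
    intro t ht'
    rw [Finset.mem_union, not_or, Multiset.mem_toFinset, mem_roots hW0, IsRoot.def, hW,
      eval_mul, eval_mul, eval_mul, eval_mul, eval_mul, eval_mul, eval_mul, eval_sub, eval_sub,
      eval_sub, eval_C_mul, eval_C_mul, eval_C_mul] at ht'
    obtain ⟨h1, h2⟩ := ht'
    have h3 := left_ne_zero_of_mul h2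
    have h4 := left_ne_zero_of_mul h3
    have h5 := left_ne_zero_of_mul h4
    have h6 := left_ne_zero_of_mul h5
    have h7 := left_ne_zero_of_mul h6
    have h8 := left_ne_zero_of_mul h7
    exact ⟨h1, left_ne_zero_of_mul h8, right_ne_zero_of_mul h8, right_ne_zero_of_mul h7,
      right_ne_zero_of_mul h6, right_ne_zero_of_mul h5, right_ne_zero_of_mul h4,
      right_ne_zero_of_mul h3, right_ne_zero_of_mul h2⟩
  -- polynomial identities evaluated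
  have i1 : ∀ t, (u₀ * v₀).eval t * (g₁ * g₂).eval t =
      (A.eval t - x₁ * B.eval t) * (G.eval t - r₂ * H.eval t) := by
    intro t
    have h1 : (u₀ * v₀) * (g₁ * g₂) = (A - C x₁ * B) * (G - C r₂ * H) := by
      rw [ht.a0, ht.a3]
      ring
    have h2 := congrArg (eval t) h1
    rw [eval_mul, eval_mul (p := A - C x₁ * B), eval_sub, eval_sub, eval_C_mul, eval_C_mul] at h2
    exact h2
  have i2 : ∀ t, (u₁ * v₁).eval t * (g₁ * g₂).eval t =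
      (A.eval t - x₂ * B.eval t) * (G.eval t - r₁ * H.eval t) := by
    intro t
    have h1 : (u₁ * v₁) * (g₁ * g₂) = (A - C x₂ * B) * (G - C r₁ * H) := by
      rw [ht.a1, ht.a2]
      ring
    have h2 := congrArg (eval t) h1
    rw [eval_mul, eval_mul (p := A - C x₂ * B), eval_sub, eval_sub, eval_C_mul, eval_C_mul] at h2
    exact h2
  have j1 : ∀ t, L₁.eval t = (u₀ * v₀).eval t - ρ₁ * (u₁ * v₁).eval t := by
    intro t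
    rw [ht.l1, eval_sub, eval_C_mul]
  have j2 : ∀ t, L₂.eval t = (u₀ * v₀).eval t - ρ₂ * (u₁ * v₁).eval t := by
    intro t
    rw [ht.l2, eval_sub, eval_C_mul]
  have j3 : ∀ t, L₃.eval t = (u₀ * v₀).eval t - ρ₃ * (u₁ * v₁).eval t := by
    intro t
    rw [ht.l3, eval_sub, eval_C_mul]
  have j4 : ∀ t, L₄.eval t = (u₀ * v₀).eval t - ρ₄ * (u₁ * v₁).eval t := by
    intro t
    rw [ht.l4, eval_sub, eval_C_mul]
  obtain ⟨d₁, hd₁⟩ : ∃ d, d = EuclideanDomain.gcd G L₁ := ⟨_, rfl⟩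
  obtain ⟨d₂, hd₂⟩ : ∃ d, d = EuclideanDomain.gcd G L₂ := ⟨_, rfl⟩
  obtain ⟨d₃, hd₃⟩ : ∃ d, d = EuclideanDomain.gcd H L₃ := ⟨_, rfl⟩
  obtain ⟨d₄, hd₄⟩ : ∃ d, d = EuclideanDomain.gcd H L₄ := ⟨_, rfl⟩
  have m1 := ht.m1
  have m2 := ht.m2
  have m3 := ht.m3
  have m4 := ht.m4
  have mG := ht.mG
  have mH := ht.mH
  rw [← hd₁] at m1
  rw [← hd₂] at m2
  rw [← hd₃] at m3
  rw [← hd₄] at m4
  rw [← hd₁, ← hd₂] at mG
  rw [← hd₃, ← hd₄] at mH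
  have n1 : ∀ t, (G' * l₃ * l₄).eval t * (d₁ * d₂ * d₃ * d₄).eval t =
      G.eval t * (((u₀ * v₀).eval t - ρ₃ * (u₁ * v₁).eval t) *
        ((u₀ * v₀).eval t - ρ₄ * (u₁ * v₁).eval t)) := by
    intro t
    rw [← j3, ← j4, ← eval_mul, ← eval_mul, ← eval_mul]
    congr 1
    calc G' * l₃ * l₄ * (d₁ * d₂ * d₃ * d₄) = (d₁ * d₂ * G') * ((d₃ * l₃) * (d₄ * l₄)) := by ring
      _ = G * (L₃ * L₄) := by rw [← mG, ← m3, ← m4]
  have n2 : ∀ t, (H' * l₁ * l₂).eval t * (d₁ * d₂ * d₃ * d₄).eval t =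
      H.eval t * (((u₀ * v₀).eval t - ρ₁ * (u₁ * v₁).eval t) *
        ((u₀ * v₀).eval t - ρ₂ * (u₁ * v₁).eval t)) := by
    intro t
    rw [← j1, ← j2, ← eval_mul, ← eval_mul, ← eval_mul]
    congr 1
    calc H' * l₁ * l₂ * (d₁ * d₂ * d₃ * d₄) = (d₃ * d₄ * H') * ((d₁ * l₁) * (d₂ * l₂)) := by ring
      _ = H * (L₁ * L₂) := by rw [← mH, ← m1, ← m2]
  refine ⟨T ∪ W.roots.toFinset, ?_⟩
  intro t htT t' htT' E1 E2
  obtain ⟨a1, a2, a3, a4, a5, a6, a7, a8, a9⟩ := hev t htT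
  obtain ⟨b1, b2, b3, b4, b5, b6, b7, b8, b9⟩ := hev t' htT'
  have q0 : (u₁ * v₁).eval t ≠ 0 := by
    intro h0
    have h1 := i2 t
    rw [h0, zero_mul] at h1
    exact mul_ne_zero a3 a4 h1.symm
  rw [j1] at b6
  rw [j2] at b7
  rw [j3] at b8
  rw [j4] at b9
  obtain ⟨f1, f2⟩ := main_aux (A.eval t) (B.eval t) (G.eval t) (H.eval t) (A.eval t') (B.eval t')
    (G.eval t') (H.eval t') x₁ x₂ r₁ r₂ ρ₁ ρ₂ ρ₃ ρ₄ ((u₀ * v₀).eval t) ((u₁ * v₁).eval t)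
    ((u₀ * v₀).eval t') ((u₁ * v₁).eval t') ((g₁ * g₂).eval t) ((g₁ * g₂).eval t')
    ((d₁ * d₂ * d₃ * d₄).eval t) ((d₁ * d₂ * d₃ * d₄).eval t') ((G' * l₃ * l₄).eval t)
    ((H' * l₁ * l₂).eval t) ((G' * l₃ * l₄).eval t') ((H' * l₁ * l₂).eval t') hp.hx
    (i1 t) (i2 t) (i1 t') (i2 t') (n1 t) (n2 t) (n1 t') (n2 t') q0 a4 a5 b4 b5 b6 b7 b8 b9 a2 b2
    E1 E2
  exact hT t a1 t' b1 f1 f2

end J_genInj_tra

alias genInj_tra := J_genInj_tra.main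

end H26E
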