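import Mathlib
import Pool.Agent.Helper26.EC.KDefs
import Pool.Agent.Helper26.EC.KPar

set_option autoImplicit false

open Polynomial

namespace H26E


namespace J_im_inj

theorem main {e₁ e₂ e₃ : ℂ} {S : Finset (ℂ × ℂ)} {x₁ x₂ r₁ r₂ ρ₁ ρ₂ ρ₃ ρ₄ : ℂ}
    (hp : Par e₁ e₂ e₃ S x₁ x₂ r₁ r₂ ρ₁ ρ₂ ρ₃ ρ₄) :
    Set.InjOn (im x₁ x₂ r₁ r₂ ρ₁ ρ₂ ρ₃ ρ₄) (S : Set (ℂ × ℂ)) := by
  rintro ⟨x, r⟩ hx ⟨y, s⟩ hy h
  obtain ⟨_, _, _, hx1, hx2, hr1, hr2, hn1, hn2, hn3, hn4⟩ := hp.hS _ (Finset.mem_coe.mp hx)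
  obtain ⟨_, _, _, hy1, hy2, hs1, hs2, _, _, _, _⟩ := hp.hS _ (Finset.mem_coe.mp hy)
  simp only at hx1 hx2 hr1 hr2 hn1 hn2 hn3 hn4 hy1 hy2 hs1 hs2
  unfold im at h
  have h1 := congrArg Prod.fst h
  have h2 := congrArg Prod.snd h
  simp only at h1 h2
  have e1 : (x - x₁) / (x - x₂) * ((r - r₂) / (r - r₁)) =
      (y - x₁) / (y - x₂) * ((s - r₂) / (s - r₁)) := Option.some_injective _ h1
  rw [← e1] at h2
  have e2 := Option.some_injective _ h2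
  set ρ : ℂ := (x - x₁) / (x - x₂) * ((r - r₂) / (r - r₁)) with hρ
  have k1 : ρ - ρ₁ ≠ 0 := sub_ne_zero.mpr hn1
  have k2 : ρ - ρ₂ ≠ 0 := sub_ne_zero.mpr hn2
  have k3 : ρ - ρ₃ ≠ 0 := sub_ne_zero.mpr hn3
  have k4 : ρ - ρ₄ ≠ 0 := sub_ne_zero.mpr hn4
  have hD : (ρ - ρ₁) * (ρ - ρ₂) ≠ 0 := mul_ne_zero k1 k2
  have hrs : r = s := by
    rw [div_left_inj' hD] at e2
    exact mul_right_cancel₀ k3 (mul_right_cancel₀ k4 e2)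
  subst hrs
  have kr : (r - r₂) / (r - r₁) ≠ 0 := div_ne_zero (sub_ne_zero.mpr hr2) (sub_ne_zero.mpr hr1)
  have e3 : (x - x₁) / (x - x₂) = (y - x₁) / (y - x₂) := mul_right_cancel₀ kr e1
  rw [div_eq_div_iff (sub_ne_zero.mpr hx2) (sub_ne_zero.mpr hy2)] at e3
  have e4 : (x - y) * (x₁ - x₂) = 0 := by linear_combination e3
  have hxy : x = y := by
    rcases mul_eq_zero.mp e4 with h | h
    · exact sub_eq_zero.mp h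
    · exact absurd (sub_eq_zero.mp h) hp.hx
  rw [hxy]

end J_im_inj

alias im_inj := J_im_inj.main

end H26E
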