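import Mathlib
import Pool.Agent.Helper26.EC.KDefs
import Pool.Agent.Helper26.EC.KPar

set_option autoImplicit false

open Polynomial

namespace H26E


namespace J_mult_im

theorem main {e₁ e₂ e₃ : ℂ} {S : Finset (ℂ × ℂ)} {x₁ x₂ r₁ r₂ ρ₁ ρ₂ ρ₃ ρ₄ : ℂ}
    (hp : Par e₁ e₂ e₃ S x₁ x₂ r₁ r₂ ρ₁ ρ₂ ρ₃ ρ₄) {A B G H : ℂ[X]} (hc : Cur A B G H)
    {g₁ g₂ u₀ u₁ v₀ v₁ L₁ L₂ L₃ L₄ l₁ l₂ l₃ l₄ G' H' : ℂ[X]}
    (ht : Tra A B G H x₁ x₂ r₁ r₂ ρ₁ ρ₂ ρ₃ ρ₄ g₁ g₂ u₀ u₁ v₀ v₁ L₁ L₂ L₃ L₄ l₁ l₂ l₃ l₄ G' H')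
    {p : ℂ × ℂ} (hpS : p ∈ S) (T : Finset ℂ)
    (hT : ∀ t ∈ T, B.eval t ≠ 0 ∧ H.eval t ≠ 0 ∧ (A.eval t / B.eval t, G.eval t / H.eval t) = p) :
    T.card ≤ mlt (u₀ * v₀) (u₁ * v₁) (G' * l₃ * l₄) (H' * l₁ * l₂)
      (im x₁ x₂ r₁ r₂ ρ₁ ρ₂ ρ₃ ρ₄ p) := by
  obtain ⟨p1, p2⟩ := p
  set ρ : ℂ := (p1 - x₁) / (p1 - x₂) * ((p2 - r₂) / (p2 - r₁)) with hρ
  set c : ℂ := p2 * (ρ - ρ₃) * (ρ - ρ₄) / ((ρ - ρ₁) * (ρ - ρ₂)) with hcc
  obtain ⟨-, -, -, hs1, hs2, hs3, hs4, hr1, hr2, hr3, hr4⟩ := hp.hS _ hpS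
  simp only [] at hs1 hs2 hs3 hs4 hr1 hr2 hr3 hr4
  rw [← hρ] at hr1 hr2 hr3 hr4
  obtain ⟨hL1, hL2, hL3, hL4⟩ := ht.hL
  have hG' : G' ≠ 0 := by
    intro h
    apply hc.hG
    rw [ht.mG, h, mul_zero]
  have hl3 : l₃ ≠ 0 := by
    intro h
    apply hL3
    rw [ht.m3, h, mul_zero]
  have hl4 : l₄ ≠ 0 := by
    intro h
    apply hL4
    rw [ht.m4, h, mul_zero]
  have hf2 : (G' * l₃ * l₄) - C c * (H' * l₁ * l₂) ≠ 0 := by
    intro h
    have h' := sub_eq_zero.1 h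
    by_cases hc0 : c = 0
    · rw [hc0, C_0, zero_mul] at h'
      exact mul_ne_zero (mul_ne_zero hG' hl3) hl4 h'
    · have h2 := congrArg natDegree h'
      rw [natDegree_C_mul hc0] at h2
      exact absurd ht.dN (by rw [h2]; exact lt_irrefl _)
  have hg0 : EuclideanDomain.gcd (u₀ * v₀ - C ρ * (u₁ * v₁)) ((G' * l₃ * l₄) - C c * (H' * l₁ * l₂)) ≠ 0 := by
    intro h
    exact hf2 (EuclideanDomain.gcd_eq_zero_iff.1 h).2
  show T.card ≤ (EuclideanDomain.gcd (u₀ * v₀ - C ρ * (u₁ * v₁))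
    ((G' * l₃ * l₄) - C c * (H' * l₁ * l₂))).natDegree
  have hsub : T ⊆ (EuclideanDomain.gcd (u₀ * v₀ - C ρ * (u₁ * v₁))
      ((G' * l₃ * l₄) - C c * (H' * l₁ * l₂))).roots.toFinset := by
    intro t htT
    obtain ⟨hB, hH, hAG⟩ := hT t htT
    rw [Prod.mk.injEq] at hAG
    obtain ⟨hA, hG⟩ := hAG
    have hA' : A.eval t = p1 * B.eval t := by rw [← hA]; field_simp
    have hG'' : G.eval t = p2 * H.eval t := by rw [← hG]; field_simp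
    have e0 := congrArg (eval t) ht.a0
    have e1 := congrArg (eval t) ht.a1
    have e2 := congrArg (eval t) ht.a2
    have e3 := congrArg (eval t) ht.a3
    simp only [eval_sub, eval_mul, eval_C] at e0 e1 e2 e3
    rw [hA'] at e0 e2
    rw [hG''] at e1 e3
    have n0 : g₁.eval t * u₀.eval t ≠ 0 := by
      rw [← e0, ← sub_mul]
      exact mul_ne_zero (sub_ne_zero.2 hs1) hB
    have n1 : g₁.eval t * v₁.eval t ≠ 0 := by
      rw [← e1, ← sub_mul]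
      exact mul_ne_zero (sub_ne_zero.2 hs3) hH
    have n2 : g₂.eval t * u₁.eval t ≠ 0 := by
      rw [← e2, ← sub_mul]
      exact mul_ne_zero (sub_ne_zero.2 hs2) hB
    have n3 : g₂.eval t * v₀.eval t ≠ 0 := by
      rw [← e3, ← sub_mul]
      exact mul_ne_zero (sub_ne_zero.2 hs4) hH
    have hg1 := left_ne_zero_of_mul n0
    have hg2 := left_ne_zero_of_mul n2
    have hu1 := right_ne_zero_of_mul n2
    have hv1 := right_ne_zero_of_mul n1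
    have hV : u₁.eval t * v₁.eval t ≠ 0 := mul_ne_zero hu1 hv1
    have hd2 : p1 - x₂ ≠ 0 := sub_ne_zero.2 hs2
    have hd3 : p2 - r₁ ≠ 0 := sub_ne_zero.2 hs3
    have hUV : u₀.eval t * v₀.eval t = ρ * (u₁.eval t * v₁.eval t) := by
      have h1 : (g₁.eval t * g₂.eval t) * ((p1 - x₂) * (p2 - r₁) * (u₀.eval t * v₀.eval t) -
          (p1 - x₁) * (p2 - r₂) * (u₁.eval t * v₁.eval t)) = 0 := by
        linear_combination (-(p1 - x₂) * (p2 - r₁) * g₂.eval t * v₀.eval t) * e0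
          - ((p1 - x₂) * (p2 - r₁) * (p1 - x₁) * B.eval t) * e3
          + ((p1 - x₁) * (p2 - r₂) * g₁.eval t * v₁.eval t) * e2
          + ((p1 - x₁) * (p2 - r₂) * (p1 - x₂) * B.eval t) * e1
      have h2 := (mul_eq_zero.1 h1).resolve_left (mul_ne_zero hg1 hg2)
      rw [hρ]
      field_simp
      linear_combination h2
    have E1 : L₁.eval t = (ρ - ρ₁) * (u₁.eval t * v₁.eval t) := by
      rw [ht.l1]; simp only [eval_sub, eval_mul, eval_C]; rw [hUV]; ring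
    have E2 : L₂.eval t = (ρ - ρ₂) * (u₁.eval t * v₁.eval t) := by
      rw [ht.l2]; simp only [eval_sub, eval_mul, eval_C]; rw [hUV]; ring
    have E3 : L₃.eval t = (ρ - ρ₃) * (u₁.eval t * v₁.eval t) := by
      rw [ht.l3]; simp only [eval_sub, eval_mul, eval_C]; rw [hUV]; ring
    have E4 : L₄.eval t = (ρ - ρ₄) * (u₁.eval t * v₁.eval t) := by
      rw [ht.l4]; simp only [eval_sub, eval_mul, eval_C]; rw [hUV]; ring
    have M1 := congrArg (eval t) ht.m1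
    have M2 := congrArg (eval t) ht.m2
    have M3 := congrArg (eval t) ht.m3
    have M4 := congrArg (eval t) ht.m4
    have MG := congrArg (eval t) ht.mG
    have MH := congrArg (eval t) ht.mH
    rw [eval_mul] at M1 M2 M3 M4
    rw [eval_mul, eval_mul] at MG MH
    rw [E1] at M1
    rw [E2] at M2
    rw [E3] at M3
    rw [E4] at M4
    rw [hG''] at MG
    generalize (EuclideanDomain.gcd G L₁).eval t = γ1 at *
    generalize (EuclideanDomain.gcd G L₂).eval t = γ2 at *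
    generalize (EuclideanDomain.gcd H L₃).eval t = γ3 at *
    generalize (EuclideanDomain.gcd H L₄).eval t = γ4 at *
    have d1 : ρ - ρ₁ ≠ 0 := sub_ne_zero.2 hr1
    have d2 : ρ - ρ₂ ≠ 0 := sub_ne_zero.2 hr2
    have d3 : ρ - ρ₃ ≠ 0 := sub_ne_zero.2 hr3
    have d4 : ρ - ρ₄ ≠ 0 := sub_ne_zero.2 hr4
    have hγ1 : γ1 ≠ 0 := left_ne_zero_of_mul (M1 ▸ mul_ne_zero d1 hV)
    have hγ2 : γ2 ≠ 0 := left_ne_zero_of_mul (M2 ▸ mul_ne_zero d2 hV)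
    have hγ3 : γ3 ≠ 0 := left_ne_zero_of_mul (M3 ▸ mul_ne_zero d3 hV)
    have hγ4 : γ4 ≠ 0 := left_ne_zero_of_mul (M4 ▸ mul_ne_zero d4 hV)
    have key : G'.eval t * l₃.eval t * l₄.eval t = c * (H'.eval t * l₁.eval t * l₂.eval t) := by
      have h1 : (γ1 * γ2 * γ3 * γ4) * ((ρ - ρ₁) * (ρ - ρ₂) * (G'.eval t * l₃.eval t * l₄.eval t)
          - p2 * (ρ - ρ₃) * (ρ - ρ₄) * (H'.eval t * l₁.eval t * l₂.eval t)) = 0 := by
        linear_combination (-(ρ - ρ₁) * (ρ - ρ₂) * γ3 * l₃.eval t * γ4 * l₄.eval t) * MG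
          - ((ρ - ρ₁) * (ρ - ρ₂) * p2 * H.eval t * γ4 * l₄.eval t) * M3
          - ((ρ - ρ₁) * (ρ - ρ₂) * p2 * H.eval t * (ρ - ρ₃) * (u₁.eval t * v₁.eval t)) * M4
          + (p2 * (ρ - ρ₃) * (ρ - ρ₄) * γ1 * l₁.eval t * γ2 * l₂.eval t) * MH
          + (p2 * (ρ - ρ₃) * (ρ - ρ₄) * H.eval t * γ2 * l₂.eval t) * M1
          + (p2 * (ρ - ρ₃) * (ρ - ρ₄) * H.eval t * (ρ - ρ₁) * (u₁.eval t * v₁.eval t)) * M2
      have hne : γ1 * γ2 * γ3 * γ4 ≠ 0 := mul_ne_zero (mul_ne_zero (mul_ne_zero hγ1 hγ2) hγ3) hγ4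
      have h2 := (mul_eq_zero.1 h1).resolve_left hne
      rw [hcc]
      field_simp
      linear_combination h2
    rw [Multiset.mem_toFinset, mem_roots hg0, ← dvd_iff_isRoot]
    apply EuclideanDomain.dvd_gcd
    · rw [dvd_iff_isRoot, IsRoot.def]
      simp only [eval_sub, eval_mul, eval_C]
      rw [hUV]; ring
    · rw [dvd_iff_isRoot, IsRoot.def]
      simp only [eval_sub, eval_mul, eval_C]
      rw [key]; ring
  calc T.card ≤ _ := Finset.card_le_card hsub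
    _ ≤ _ := Multiset.toFinset_card_le _
    _ ≤ _ := card_roots' _

end J_mult_im

alias mult_im := J_mult_im.main

end H26E
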