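import Mathlib
import Pool.Agent.Helper26.EC.KDefs
import Pool.Agent.Helper26.EC.KPar
import Pool.Agent.Helper26.EC.J_natDegree_gcd
import Pool.Agent.Helper26.EC.J_rootMultiplicity_gcd

set_option autoImplicit false

open Polynomial

namespace H26E


namespace J_lemmaM

theorem zz_deg (p q : ℂ[X]) (hp : p ≠ 0) (hq : q ≠ 0) (S : Finset ℂ)
    (hS : p.roots.toFinset ⊆ S) :
    (EuclideanDomain.gcd p q).natDegree =
      ∑ t ∈ S, min (p.rootMultiplicity t) (q.rootMultiplicity t) := by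
  rw [natDegree_gcd p q hp hq]
  apply Finset.sum_subset hS
  intro t _ ht
  have : p.rootMultiplicity t = 0 := by
    by_contra hne
    apply ht
    rw [Multiset.mem_toFinset, mem_roots hp]
    exact (rootMultiplicity_pos hp).1 (Nat.pos_of_ne_zero hne)
  rw [this, Nat.zero_min]

theorem main {E V V' L F g Γ Z Y₁ Y₂ : ℂ[X]} {κ : ℂ} (hE : E ≠ 0) (hV : V ≠ 0) (hL : L ≠ 0) (hF : F ≠ 0)
    (hκ : κ ≠ 0) (hVV : IsCoprime V V')
    (h1 : g * L = V * Z + C κ * (V' * E))
    (h2 : Γ * F = V * Y₁ - V' * L * Y₂)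
    (h3 : ∀ d : ℂ[X], d ∣ E → d ∣ V → d ∣ g * (g * Y₁ - V' * Z * Y₂))
    (h4 : ∀ t, V.eval t = 0 → g.eval t ≠ 0)
    (h5 : ∀ t, V.eval t = 0 → E.eval t = 0 → Z.eval t ≠ 0)
    (hΓ : Γ ≠ 0)
    (h6 : ∀ t, V.eval t = 0 → L.eval t = 0 →
      Γ.rootMultiplicity t = min (V.rootMultiplicity t) (L.rootMultiplicity t)) :
    (EuclideanDomain.gcd E (V ^ 2)).natDegree ≤
      (EuclideanDomain.gcd L F).natDegree + (EuclideanDomain.gcd V L).natDegree := by
  classical
  have hV2 : V ^ 2 ≠ 0 := pow_ne_zero 2 hV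
  rw [zz_deg E (V ^ 2) hE hV2 (E.roots.toFinset ∪ V.roots.toFinset ∪ L.roots.toFinset)
      (fun x hx => Finset.mem_union_left _ (Finset.mem_union_left _ hx)),
    zz_deg L F hL hF (E.roots.toFinset ∪ V.roots.toFinset ∪ L.roots.toFinset)
      (fun x hx => Finset.mem_union_right _ hx),
    zz_deg V L hV hL (E.roots.toFinset ∪ V.roots.toFinset ∪ L.roots.toFinset)
      (fun x hx => Finset.mem_union_left _ (Finset.mem_union_right _ hx)),
    ← Finset.sum_add_distrib]
  apply Finset.sum_le_sum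
  intro t _
  have hm2 : (V ^ 2).rootMultiplicity t = V.rootMultiplicity t + V.rootMultiplicity t := by
    rw [pow_two, rootMultiplicity_mul (by rwa [← pow_two])]
  rw [hm2]
  obtain ⟨a, ha⟩ : ∃ a, a = E.rootMultiplicity t := ⟨_, rfl⟩
  obtain ⟨b, hb⟩ : ∃ b, b = V.rootMultiplicity t := ⟨_, rfl⟩
  obtain ⟨l, hl⟩ : ∃ l, l = L.rootMultiplicity t := ⟨_, rfl⟩
  obtain ⟨f, hf⟩ : ∃ f, f = F.rootMultiplicity t := ⟨_, rfl⟩
  rw [← ha, ← hb, ← hl, ← hf]
  rcases Nat.eq_zero_or_pos a with ha0 | ha0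
  · rw [ha0, Nat.zero_min]; exact Nat.zero_le _
  rcases Nat.eq_zero_or_pos b with hb0 | hb0
  · rw [hb0]; simp
  have hEt : E.eval t = 0 := (rootMultiplicity_pos hE).1 (ha ▸ ha0)
  have hVt : V.eval t = 0 := (rootMultiplicity_pos hV).1 (hb ▸ hb0)
  have hgt := h4 t hVt
  have hZt := h5 t hVt hEt
  have hV't : V'.eval t ≠ 0 := by
    intro h
    obtain ⟨u, v, huv⟩ := hVV
    have := congrArg (eval t) huv
    rw [eval_add, eval_mul, eval_mul, hVt, h] at this
    simp at this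
  have hg0 : g ≠ 0 := by rintro rfl; simp at hgt
  have hV'0 : V' ≠ 0 := by rintro rfl; simp at hV't
  have hgm : g.rootMultiplicity t = 0 := rootMultiplicity_eq_zero hgt
  have hV'm : V'.rootMultiplicity t = 0 := rootMultiplicity_eq_zero hV't
  have hgL : (g * L).rootMultiplicity t = l := by
    rw [rootMultiplicity_mul (mul_ne_zero hg0 hL), hgm, zero_add, hl]
  have hCκ : (C κ : ℂ[X]) ≠ 0 := C_ne_zero.2 hκ
  have hkm : (C κ * (V' * E)).rootMultiplicity t = a := by
    rw [rootMultiplicity_mul (mul_ne_zero hCκ (mul_ne_zero hV'0 hE)),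
      rootMultiplicity_mul (mul_ne_zero hV'0 hE), hV'm, rootMultiplicity_C, ha]
    simp
  have hgL0 : g * L ≠ 0 := mul_ne_zero hg0 hL
  have hdE : ∀ n, n ≤ a → (X - C t) ^ n ∣ E := fun n hn =>
    (le_rootMultiplicity_iff hE).1 (ha ▸ hn)
  have hdV : ∀ n, n ≤ b → (X - C t) ^ n ∣ V := fun n hn =>
    (le_rootMultiplicity_iff hV).1 (hb ▸ hn)
  have hlk : min a b ≤ l := by
    rw [← hgL]
    apply (le_rootMultiplicity_iff hgL0).2
    rw [h1]
    exact dvd_add (Dvd.dvd.mul_right (hdV _ (min_le_right _ _)) _)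
      (Dvd.dvd.mul_left (Dvd.dvd.mul_left (hdE _ (min_le_left _ _)) _) _)
  have hla : a < b → l ≤ a := by
    intro hab
    by_contra hcon
    have h7 : (X - C t) ^ (a + 1) ∣ g * L :=
      (le_rootMultiplicity_iff hgL0).1 (by rw [hgL]; omega)
    rw [h1] at h7
    have h8 : (X - C t) ^ (a + 1) ∣ C κ * (V' * E) :=
      (dvd_add_right (Dvd.dvd.mul_right (hdV (a + 1) hab) Z)).1 h7
    have h9 := (le_rootMultiplicity_iff (mul_ne_zero hCκ (mul_ne_zero hV'0 hE))).2 h8
    rw [hkm] at h9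
    omega
  have hbl : min b l = min a b := by
    rcases lt_or_ge a b with h | h
    · have := hla h; omega
    · omega
  have hLt : L.eval t = 0 := by
    apply (rootMultiplicity_pos hL).1
    rw [← hl]
    omega
  have hΓm : Γ.rootMultiplicity t = min a b := by
    rw [h6 t hVt hLt, ← hb, ← hl, hbl]
  have hid : g * (g * (Γ * F)) = V * (g * (g * Y₁ - V' * Z * Y₂)) -
      C κ * V' ^ 2 * g * Y₂ * E := by
    have : g * (g * (Γ * F)) = g * g * V * Y₁ - V' * g * Y₂ * (g * L) := by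
      rw [h2]; ring
    rw [this, h1]
    ring
  have hne : g * (g * (Γ * F)) ≠ 0 := mul_ne_zero hg0 (mul_ne_zero hg0 (mul_ne_zero hΓ hF))
  have hfm : (g * (g * (Γ * F))).rootMultiplicity t = min a b + f := by
    rw [rootMultiplicity_mul hne, rootMultiplicity_mul (mul_ne_zero hg0 (mul_ne_zero hΓ hF)),
      rootMultiplicity_mul (mul_ne_zero hΓ hF), hgm, hΓm, hf]
    simp
  have hdiv : min (b + min a b) a ≤ min a b + f := by
    rw [← hfm]
    apply (le_rootMultiplicity_iff hne).2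
    rw [hid]
    apply dvd_sub
    · have h10 : (X - C t) ^ (b + min a b) ∣ V * (g * (g * Y₁ - V' * Z * Y₂)) := by
        rw [pow_add]
        exact mul_dvd_mul (hdV b le_rfl) (h3 _ (hdE _ (min_le_left _ _)) (hdV _ (min_le_right _ _)))
      exact (pow_dvd_pow _ (min_le_left _ _)).trans h10
    · exact Dvd.dvd.mul_left (hdE _ (min_le_right _ _)) _
  omega

end J_lemmaM

alias lemmaM := J_lemmaM.main

end H26E
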