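import Mathlib
import Pool.Agent.Helper26.EC.KDefs
import Pool.Agent.Helper26.EC.KPar
import Pool.Agent.Helper26.EC.J_natDegree_gcd
import Pool.Agent.Helper26.EC.J_rootMultiplicity_gcd
import Pool.Agent.Helper26.EC.J_lemmaM

set_option autoImplicit false

open Polynomial

namespace H26E


namespace J_mult_near1

theorem ev_ne_of_coprime {P Q : ℂ[X]} (h : IsCoprime P Q) {t : ℂ} (hP : P.eval t = 0) :
    Q.eval t ≠ 0 := by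
  intro hQ
  obtain ⟨a, b, hab⟩ := h
  have := congrArg (eval t) hab
  rw [eval_add, eval_mul, eval_mul, hP, hQ, mul_zero, mul_zero, add_zero, eval_one] at this
  exact zero_ne_one this

theorem gcd_ne {P Q : ℂ[X]} (h : P ≠ 0) : EuclideanDomain.gcd P Q ≠ 0 := by
  intro h0
  exact h (EuclideanDomain.gcd_eq_zero_iff.1 h0).1

/-- the divisibility -/
theorem dvd_aux {A B G H X₀ X₁ R₀ R₁ g M₂ M₃ M₄ d : ℂ[X]} {e x₁ x₂ r₁ r₂ ρ₁ ρ₂ ρ₃ ρ₄ c : ℂ}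
    (hX0 : X₀ = A - C x₁ * B) (hX1 : X₁ = A - C x₂ * B) (hR0 : R₀ = G - C r₂ * H)
    (hR1 : R₁ = G - C r₁ * H) (hM2 : g * M₂ = X₀ * R₀ - C ρ₂ * (X₁ * R₁))
    (hM3 : g * M₃ = X₀ * R₀ - C ρ₃ * (X₁ * R₁)) (hM4 : g * M₄ = X₀ * R₀ - C ρ₄ * (X₁ * R₁))
    (hc : ((e - x₁) * r₂ - ρ₃ * ((e - x₂) * r₁)) * ((e - x₁) * r₂ - ρ₄ * ((e - x₂) * r₁)) +
      c * ((e - x₁) - ρ₁ * (e - x₂)) * ((e - x₁) * r₂ - ρ₂ * ((e - x₂) * r₁)) = 0)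
    (hE : d ∣ A - C e * B) (hG : d ∣ G) :
    d ∣ g * (g * (M₃ * M₄) - H * (X₀ - C ρ₁ * X₁) * (C c * M₂)) := by
  have key : ∀ (ρ : ℂ) (M : ℂ[X]), g * M = X₀ * R₀ - C ρ * (X₁ * R₁) →
      d ∣ g * M + B * H * C ((e - x₁) * r₂ - ρ * ((e - x₂) * r₁)) := by
    intro ρ M hM
    have h1 : g * M + B * H * C ((e - x₁) * r₂ - ρ * ((e - x₂) * r₁)) =
        (A - C e * B) * (R₀ - C ρ * R₁) + G * (B * C ((e - x₁) - ρ * (e - x₂))) := by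
      rw [hM, hX0, hX1, hR0, hR1]
      simp only [C_sub, C_mul]
      ring
    rw [h1]
    exact dvd_add (hE.mul_right _) (hG.mul_right _)
  have k2 := key ρ₂ M₂ hM2
  have k3 := key ρ₃ M₃ hM3
  have k4 := key ρ₄ M₄ hM4
  have kZ : d ∣ (X₀ - C ρ₁ * X₁) - B * C ((e - x₁) - ρ₁ * (e - x₂)) := by
    have h1 : (X₀ - C ρ₁ * X₁) - B * C ((e - x₁) - ρ₁ * (e - x₂)) =
        (A - C e * B) * (1 - C ρ₁) := by
      rw [hX0, hX1]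
      simp only [C_sub, C_mul]
      ring
    rw [h1]
    exact hE.mul_right _
  obtain ⟨s₂, hs2⟩ : ∃ s₂, s₂ = (e - x₁) * r₂ - ρ₂ * ((e - x₂) * r₁) := ⟨_, rfl⟩
  obtain ⟨s₃, hs3⟩ : ∃ s₃, s₃ = (e - x₁) * r₂ - ρ₃ * ((e - x₂) * r₁) := ⟨_, rfl⟩
  obtain ⟨s₄, hs4⟩ : ∃ s₄, s₄ = (e - x₁) * r₂ - ρ₄ * ((e - x₂) * r₁) := ⟨_, rfl⟩
  obtain ⟨z, hz⟩ : ∃ z, z = (e - x₁) - ρ₁ * (e - x₂) := ⟨_, rfl⟩
  obtain ⟨Z, hZ⟩ : ∃ Z, Z = X₀ - C ρ₁ * X₁ := ⟨_, rfl⟩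
  rw [← hs2] at k2 hc
  rw [← hs3] at k3 hc
  rw [← hs4] at k4 hc
  rw [← hz] at kZ hc
  rw [← hZ] at kZ ⊢
  have hc' : C s₃ * C s₄ + C c * C z * C s₂ = (0 : ℂ[X]) := by
    rw [← C_mul, ← C_mul, ← C_mul, ← C_add, hc, C_0]
  have h2 : g * (g * (M₃ * M₄) - H * Z * (C c * M₂)) =
      (g * M₃ + B * H * C s₃) * (g * M₄) - (g * M₄ + B * H * C s₄) * (B * H * C s₃) -
      (Z - B * C z) * (C c * H * (g * M₂)) - (g * M₂ + B * H * C s₂) * (C c * H * (B * C z)) := by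
    linear_combination (B * H * (B * H)) * hc'
  rw [h2]
  exact dvd_sub (dvd_sub (dvd_sub (k3.mul_right _) (k4.mul_right _)) (kZ.mul_right _))
    (k2.mul_right _)

/-- multiplicities at the four points which replace the infinitely near points -/
theorem main {e₁ e₂ e₃ : ℂ} {S : Finset (ℂ × ℂ)} {x₁ x₂ r₁ r₂ ρ₁ ρ₂ ρ₃ ρ₄ : ℂ}
    (hp : Par e₁ e₂ e₃ S x₁ x₂ r₁ r₂ ρ₁ ρ₂ ρ₃ ρ₄) {A B G H : ℂ[X]} (hc : Cur A B G H)
    {g₁ g₂ u₀ u₁ v₀ v₁ L₁ L₂ L₃ L₄ l₁ l₂ l₃ l₄ G' H' : ℂ[X]}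
    (ht : Tra A B G H x₁ x₂ r₁ r₂ ρ₁ ρ₂ ρ₃ ρ₄ g₁ g₂ u₀ u₁ v₀ v₁ L₁ L₂ L₃ L₄ l₁ l₂ l₃ l₄ G' H') :
    (EuclideanDomain.gcd (A - C e₂ * B) (G ^ 2)).natDegree ≤
      mlt (u₀ * v₀) (u₁ * v₁) (G' * l₃ * l₄) (H' * l₁ * l₂) (some ρ₁, some
        (-(r₁ * (ρ₁ - ρ₃) * (ρ₁ - ρ₄)) / (((e₂ - x₁) / (e₂ - x₂) - ρ₁) * (ρ₁ - ρ₂)))) +
      (EuclideanDomain.gcd G L₁).natDegree := by
  have hr1 := hp.hr1
  have hr2 := hp.hr2
  have hex1 : e₂ - x₁ ≠ 0 := sub_ne_zero.2 hp.hx1.2.1.symm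
  have hex2 : e₂ - x₂ ≠ 0 := sub_ne_zero.2 hp.hx2.2.1.symm
  obtain ⟨ee, hee⟩ : ∃ ee, ee = (e₂ - x₁) / (e₂ - x₂) := ⟨_, rfl⟩
  have hee1 : ee * (e₂ - x₂) = e₂ - x₁ := by rw [hee]; field_simp
  have hee0 : ee ≠ 0 := by
    intro h
    rw [h, zero_mul] at hee1
    exact hex1 hee1.symm
  have hρ1 : ρ₁ * r₁ = ee * r₂ := by
    rw [hp.e1, ← hee]
    field_simp
  have heρ : ee - ρ₁ ≠ 0 := by
    intro h
    have h1 : ee = ρ₁ := sub_eq_zero.1 h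
    rw [← h1] at hρ1
    exact hp.hr (mul_left_cancel₀ hee0 hρ1)
  have h12 : ρ₁ - ρ₂ ≠ 0 := sub_ne_zero.2 hp.h12
  have h13 : ρ₁ - ρ₃ ≠ 0 := sub_ne_zero.2 hp.h13
  have h14 : ρ₁ - ρ₄ ≠ 0 := sub_ne_zero.2 hp.h14
  rw [← hee]
  obtain ⟨c, hcdef⟩ : ∃ c, c = -(r₁ * (ρ₁ - ρ₃) * (ρ₁ - ρ₄)) / ((ee - ρ₁) * (ρ₁ - ρ₂)) := ⟨_, rfl⟩
  rw [← hcdef]
  have hc0 : c ≠ 0 := by
    rw [hcdef]
    exact div_ne_zero (neg_ne_zero.2 (mul_ne_zero (mul_ne_zero hr1 h13) h14))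
      (mul_ne_zero heρ h12)
  have hceq : c * ((ee - ρ₁) * (ρ₁ - ρ₂)) = -(r₁ * (ρ₁ - ρ₃) * (ρ₁ - ρ₄)) := by
    rw [hcdef, div_mul_cancel₀]
    exact mul_ne_zero heρ h12
  have hH0 : H ≠ 0 := by
    intro h
    have := hc.dGH
    rw [h, natDegree_zero] at this
    exact Nat.not_lt_zero _ this
  have hE0 : A - C e₂ * B ≠ 0 := by
    intro h
    have h1 : A = C e₂ * B := sub_eq_zero.1 h
    have h2 := hc.dAB
    have h3 := natDegree_C_mul_le e₂ B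
    rw [← h1] at h3
    omega
  have hF0 : G' * l₃ * l₄ - C c * (H' * l₁ * l₂) ≠ 0 := by
    intro h
    have h1 := sub_eq_zero.1 h
    have h2 := ht.dN
    rw [h1, natDegree_C_mul hc0] at h2
    exact lt_irrefl _ h2
  have hκ : -(r₂ * (1 - ee)) ≠ 0 := by
    apply neg_ne_zero.2
    apply mul_ne_zero hr2
    intro h
    have h1 : ee = 1 := (sub_eq_zero.1 h).symm
    rw [h1, one_mul] at hee1
    apply hp.hx
    linear_combination hee1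
  have hgL : ∀ (ρ : ℂ) (M : ℂ[X]), M = u₀ * v₀ - C ρ * (u₁ * v₁) →
      g₁ * g₂ * M = (A - C x₁ * B) * (G - C r₂ * H) - C ρ * ((A - C x₂ * B) * (G - C r₁ * H)) := by
    intro ρ M hM
    rw [hM, ht.a0, ht.a1, ht.a2, ht.a3]
    ring
  have hd1 : EuclideanDomain.gcd G L₁ ≠ 0 := gcd_ne hc.hG
  have hd2 : EuclideanDomain.gcd G L₂ ≠ 0 := gcd_ne hc.hG
  have hd3 : EuclideanDomain.gcd H L₃ ≠ 0 := gcd_ne hH0
  have hd4 : EuclideanDomain.gcd H L₄ ≠ 0 := gcd_ne hH0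
  have hΓ0 : EuclideanDomain.gcd G L₁ * EuclideanDomain.gcd G L₂ * EuclideanDomain.gcd H L₃ *
      EuclideanDomain.gcd H L₄ ≠ 0 := mul_ne_zero (mul_ne_zero (mul_ne_zero hd1 hd2) hd3) hd4
  have hfin := lemmaM (E := A - C e₂ * B) (V := G) (V' := H) (L := L₁)
    (F := G' * l₃ * l₄ - C c * (H' * l₁ * l₂)) (g := g₁ * g₂)
    (Γ := EuclideanDomain.gcd G L₁ * EuclideanDomain.gcd G L₂ * EuclideanDomain.gcd H L₃ *
      EuclideanDomain.gcd H L₄)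
    (Z := (A - C x₁ * B) - C ρ₁ * (A - C x₂ * B)) (Y₁ := L₃ * L₄) (Y₂ := C c * L₂)
    (κ := -(r₂ * (1 - ee))) hE0 hc.hG ht.hL.1 hF0 hκ hc.hGH ?_ ?_ ?_ ?_ ?_ hΓ0 ?_
  · have h1 : mlt (u₀ * v₀) (u₁ * v₁) (G' * l₃ * l₄) (H' * l₁ * l₂) (some ρ₁, some c) =
        (EuclideanDomain.gcd L₁ (G' * l₃ * l₄ - C c * (H' * l₁ * l₂))).natDegree := by
      rw [ht.l1]
      rfl
    rw [h1]
    exact hfin
  · -- h1
    rw [hgL ρ₁ L₁ ht.l1]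
    have k1 : C ρ₁ * C r₁ = C ee * C r₂ := by rw [← C_mul, ← C_mul, hρ1]
    have k2 : C ee * (C e₂ - C x₂) = C e₂ - C x₁ := by
      rw [← C_sub, ← C_mul, hee1, C_sub]
    simp only [C_neg, C_mul, C_sub, C_1]
    linear_combination (H * (A - C x₂ * B)) * k1 + (C r₂ * H * B) * k2
  · -- h2
    have m1 := ht.m1
    have m2 := ht.m2
    have m3 := ht.m3
    have m4 := ht.m4
    have mG := ht.mG
    have mH := ht.mH
    obtain ⟨d1, hd1'⟩ : ∃ d1, d1 = EuclideanDomain.gcd G L₁ := ⟨_, rfl⟩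
    obtain ⟨d2, hd2'⟩ : ∃ d2, d2 = EuclideanDomain.gcd G L₂ := ⟨_, rfl⟩
    obtain ⟨d3, hd3'⟩ : ∃ d3, d3 = EuclideanDomain.gcd H L₃ := ⟨_, rfl⟩
    obtain ⟨d4, hd4'⟩ : ∃ d4, d4 = EuclideanDomain.gcd H L₄ := ⟨_, rfl⟩
    rw [← hd1', ← hd2'] at mG
    rw [← hd3', ← hd4'] at mH
    rw [← hd1'] at m1
    rw [← hd2'] at m2
    rw [← hd3'] at m3
    rw [← hd4'] at m4
    rw [← hd1', ← hd2', ← hd3', ← hd4']
    have e1 : G * (L₃ * L₄) = (d1 * d2 * G') * ((d3 * l₃) * (d4 * l₄)) := by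
      rw [← mG, ← m3, ← m4]
    have e2 : H * L₁ * (C c * L₂) = (d3 * d4 * H') * (d1 * l₁) * (C c * (d2 * l₂)) := by
      rw [← mH, ← m1, ← m2]
    rw [e1, e2]
    ring
  · -- h3
    intro d hdE hdG
    refine dvd_aux (r₁ := r₁) (r₂ := r₂) (ρ₂ := ρ₂) (ρ₃ := ρ₃) (ρ₄ := ρ₄) (e := e₂) rfl rfl
      (R₀ := G - C r₂ * H) (R₁ := G - C r₁ * H) rfl rfl
      (hgL ρ₂ L₂ ht.l2) (hgL ρ₃ L₃ ht.l3) (hgL ρ₄ L₄ ht.l4) ?_ hdE hdG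
    have s : ∀ ρ, (e₂ - x₁) * r₂ - ρ * ((e₂ - x₂) * r₁) = (e₂ - x₂) * r₁ * (ρ₁ - ρ) := by
      intro ρ
      linear_combination (-r₂) * hee1 - (e₂ - x₂) * hρ1
    have sz : (e₂ - x₁) - ρ₁ * (e₂ - x₂) = (e₂ - x₂) * (ee - ρ₁) := by
      linear_combination -hee1
    rw [s, s, s, sz]
    linear_combination ((e₂ - x₂) ^ 2 * r₁) * hceq
  · -- h4
    intro t hG
    have hH : H.eval t ≠ 0 := ev_ne_of_coprime hc.hGH hG
    rw [eval_mul]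
    apply mul_ne_zero
    · intro h
      have h1 := congrArg (eval t) ht.a1
      rw [eval_sub, eval_mul, eval_C, eval_mul, hG, h, zero_mul, zero_sub, neg_eq_zero] at h1
      rcases mul_eq_zero.1 h1 with h2 | h2
      · exact hr1 h2
      · exact hH h2
    · intro h
      have h1 := congrArg (eval t) ht.a3
      rw [eval_sub, eval_mul, eval_C, eval_mul, hG, h, zero_mul, zero_sub, neg_eq_zero] at h1
      rcases mul_eq_zero.1 h1 with h2 | h2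
      · exact hr2 h2
      · exact hH h2
  · -- h5
    intro t hG hE
    rw [eval_sub, eval_mul, eval_C, sub_eq_zero] at hE
    have hB : B.eval t ≠ 0 := by
      intro hB
      rw [hB, mul_zero] at hE
      exact ev_ne_of_coprime hc.hAB hE hB
    have h1 : eval t ((A - C x₁ * B) - C ρ₁ * (A - C x₂ * B)) =
        B.eval t * ((e₂ - x₂) * (ee - ρ₁)) := by
      simp only [eval_sub, eval_mul, eval_C]
      rw [hE]
      linear_combination (-(B.eval t)) * hee1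
    rw [h1]
    exact mul_ne_zero hB (mul_ne_zero hex2 heρ)
  · -- h6
    intro t hG hL
    have hH : H.eval t ≠ 0 := ev_ne_of_coprime hc.hGH hG
    have hL2 : L₂.eval t ≠ 0 := ev_ne_of_coprime ht.c12 hL
    have z2 : L₂.rootMultiplicity t = 0 := rootMultiplicity_eq_zero hL2
    have zH : H.rootMultiplicity t = 0 := rootMultiplicity_eq_zero hH
    rw [rootMultiplicity_mul hΓ0, rootMultiplicity_mul (mul_ne_zero (mul_ne_zero hd1 hd2) hd3),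
      rootMultiplicity_mul (mul_ne_zero hd1 hd2), rootMultiplicity_gcd G L₁ hc.hG ht.hL.1,
      rootMultiplicity_gcd G L₂ hc.hG ht.hL.2.1, rootMultiplicity_gcd H L₃ hH0 ht.hL.2.2.1,
      rootMultiplicity_gcd H L₄ hH0 ht.hL.2.2.2, z2, zH]
    simp

end J_mult_near1

alias mult_near1 := J_mult_near1.main

end H26E
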