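import Mathlib
import Pool.Agent.Helper26.EC.KDefs
import Pool.Agent.Helper26.EC.KPar
import Pool.Agent.Helper26.EC.J_natDegree_gcd
import Pool.Agent.Helper26.EC.J_rootMultiplicity_gcd
import Pool.Agent.Helper26.EC.J_lemmaM

set_option autoImplicit false

open Polynomial

namespace H26E


namespace J_mult_near2

theorem key3 {R : Type} [CommRing R] (A B G H g L₁ L₃ L₄ e x₁ x₂ r₁ r₂ ρ₁ ρ₂ ρ₃ ρ₄ c d : R)
    (h1 : g * L₁ = (A - x₁ * B) * (G - r₂ * H) - ρ₁ * ((A - x₂ * B) * (G - r₁ * H)))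
    (h3 : g * L₃ = (A - x₁ * B) * (G - r₂ * H) - ρ₃ * ((A - x₂ * B) * (G - r₁ * H)))
    (h4 : g * L₄ = (A - x₁ * B) * (G - r₂ * H) - ρ₄ * ((A - x₂ * B) * (G - r₁ * H)))
    (K1 : (e - x₁) * r₂ = (e - x₂) * r₁ * ρ₂)
    (K2 : r₁ * (ρ₂ - ρ₃) * (ρ₂ - ρ₄) * (e - x₂) + c * ((e - x₁) - ρ₂ * (e - x₂)) * (ρ₂ - ρ₁) = 0)
    (hE : d ∣ A - e * B) (hG : d ∣ G) :
    d ∣ g * (g * (L₃ * L₄) - H * ((A - x₁ * B) - ρ₂ * (A - x₂ * B)) * (c * L₁)) := by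
  obtain ⟨s, hs⟩ := hE
  obtain ⟨t, ht⟩ := hG
  have hA : A = e * B + d * s := by rw [← hs]; ring
  have e1 : ∀ ρ : R, (A - x₁ * B) * (G - r₂ * H) - ρ * ((A - x₂ * B) * (G - r₁ * H)) =
      -(B * H * (e - x₂) * r₁ * (ρ₂ - ρ)) + d * (s * (G - r₂ * H) + (e - x₁) * B * t
        - ρ * (s * (G - r₁ * H) + (e - x₂) * B * t)) := by
    intro ρ
    rw [hA, ht]
    linear_combination (-B * H) * K1
  have e2 : (A - x₁ * B) - ρ₂ * (A - x₂ * B) = B * ((e - x₁) - ρ₂ * (e - x₂)) + d * (s * (1 - ρ₂)) := by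
    rw [hA]; ring
  have e3 : g * (g * (L₃ * L₄) - H * ((A - x₁ * B) - ρ₂ * (A - x₂ * B)) * (c * L₁)) =
      (g * L₃) * (g * L₄) - H * c * ((A - x₁ * B) - ρ₂ * (A - x₂ * B)) * (g * L₁) := by ring
  rw [e3, h1, h3, h4, e1 ρ₁, e1 ρ₃, e1 ρ₄, e2]
  generalize (s * (G - r₂ * H) + (e - x₁) * B * t
        - ρ₁ * (s * (G - r₁ * H) + (e - x₂) * B * t)) = k₁
  generalize (s * (G - r₂ * H) + (e - x₁) * B * t
        - ρ₃ * (s * (G - r₁ * H) + (e - x₂) * B * t)) = k₃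
  generalize (s * (G - r₂ * H) + (e - x₁) * B * t
        - ρ₄ * (s * (G - r₁ * H) + (e - x₂) * B * t)) = k₄
  generalize s * (1 - ρ₂) = kz
  refine ⟨(-(B * H * (e - x₂) * r₁ * (ρ₂ - ρ₃))) * k₄ + k₃ * (-(B * H * (e - x₂) * r₁ * (ρ₂ - ρ₄)))
      + d * k₃ * k₄ - H * c * (B * ((e - x₁) - ρ₂ * (e - x₂)) * k₁ + kz * (-(B * H * (e - x₂) * r₁ * (ρ₂ - ρ₁)))
      + d * kz * k₁), ?_⟩
  linear_combination (B ^ 2 * H ^ 2 * (e - x₂) * r₁) * K2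

theorem main {e₁ e₂ e₃ : ℂ} {S : Finset (ℂ × ℂ)} {x₁ x₂ r₁ r₂ ρ₁ ρ₂ ρ₃ ρ₄ : ℂ}
    (hp : Par e₁ e₂ e₃ S x₁ x₂ r₁ r₂ ρ₁ ρ₂ ρ₃ ρ₄) {A B G H : ℂ[X]} (hc : Cur A B G H)
    {g₁ g₂ u₀ u₁ v₀ v₁ L₁ L₂ L₃ L₄ l₁ l₂ l₃ l₄ G' H' : ℂ[X]}
    (ht : Tra A B G H x₁ x₂ r₁ r₂ ρ₁ ρ₂ ρ₃ ρ₄ g₁ g₂ u₀ u₁ v₀ v₁ L₁ L₂ L₃ L₄ l₁ l₂ l₃ l₄ G' H') :
    (EuclideanDomain.gcd (A - C e₃ * B) (G ^ 2)).natDegree ≤
      mlt (u₀ * v₀) (u₁ * v₁) (G' * l₃ * l₄) (H' * l₁ * l₂) (some ρ₂, some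
        (-(r₁ * (ρ₂ - ρ₃) * (ρ₂ - ρ₄)) / (((e₃ - x₁) / (e₃ - x₂) - ρ₂) * (ρ₂ - ρ₁)))) +
      (EuclideanDomain.gcd G L₂).natDegree := by
  have hex : e₃ - x₂ ≠ 0 := sub_ne_zero.2 (fun h => hp.hx2.2.2 h.symm)
  have hex1 : e₃ - x₁ ≠ 0 := sub_ne_zero.2 (fun h => hp.hx1.2.2 h.symm)
  have hr1 := hp.hr1
  have hr2 := hp.hr2
  have K1 : (e₃ - x₁) * r₂ = (e₃ - x₂) * r₁ * ρ₂ := by
    rw [hp.e2]; field_simp
  have hne : (e₃ - x₁) / (e₃ - x₂) - ρ₂ ≠ 0 := by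
    intro h0
    have h1 : (e₃ - x₁) / (e₃ - x₂) = ρ₂ := sub_eq_zero.1 h0
    have h2 : (e₃ - x₁) = ρ₂ * (e₃ - x₂) := (div_eq_iff hex).1 h1
    have h3 : ρ₂ * (e₃ - x₂) * (r₂ - r₁) = 0 := by
      linear_combination K1 - h2 * r₂
    rcases mul_eq_zero.1 h3 with h4 | h4
    · rcases mul_eq_zero.1 h4 with h5 | h5
      · exact hp.h0.2.1 h5
      · exact hex h5
    · exact hp.hr (sub_eq_zero.1 h4).symm
  have h21 : ρ₂ - ρ₁ ≠ 0 := sub_ne_zero.2 hp.h12.symm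
  have h23 : ρ₂ - ρ₃ ≠ 0 := sub_ne_zero.2 hp.h23
  have h24 : ρ₂ - ρ₄ ≠ 0 := sub_ne_zero.2 hp.h24
  set c : ℂ := -(r₁ * (ρ₂ - ρ₃) * (ρ₂ - ρ₄)) / (((e₃ - x₁) / (e₃ - x₂) - ρ₂) * (ρ₂ - ρ₁)) with hcdef
  have hc0 : c ≠ 0 := by
    rw [hcdef]
    exact div_ne_zero (neg_ne_zero.2 (mul_ne_zero (mul_ne_zero hr1 h23) h24)) (mul_ne_zero hne h21)
  have K2 : r₁ * (ρ₂ - ρ₃) * (ρ₂ - ρ₄) * (e₃ - x₂) + c * ((e₃ - x₁) - ρ₂ * (e₃ - x₂)) * (ρ₂ - ρ₁) = 0 := by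
    have h1 : c * (((e₃ - x₁) / (e₃ - x₂) - ρ₂) * (ρ₂ - ρ₁)) = -(r₁ * (ρ₂ - ρ₃) * (ρ₂ - ρ₄)) := by
      rw [hcdef]; exact div_mul_cancel₀ _ (mul_ne_zero hne h21)
    have h2 : (e₃ - x₁) / (e₃ - x₂) * (e₃ - x₂) = (e₃ - x₁) := div_mul_cancel₀ _ hex
    linear_combination (e₃ - x₂) * h1 - c * (ρ₂ - ρ₁) * h2
  have cK1 : (C e₃ - C x₁) * C r₂ = (C e₃ - C x₂) * C r₁ * C ρ₂ := by
    simp only [← C_sub, ← C_mul]; rw [K1]
  have cK2 : C r₁ * (C ρ₂ - C ρ₃) * (C ρ₂ - C ρ₄) * (C e₃ - C x₂) +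
      C c * ((C e₃ - C x₁) - C ρ₂ * (C e₃ - C x₂)) * (C ρ₂ - C ρ₁) = 0 := by
    simp only [← C_sub, ← C_mul, ← C_add]; rw [K2, C_0]
  have gX : ∀ (L : ℂ[X]) (ρ : ℂ), L = u₀ * v₀ - C ρ * (u₁ * v₁) →
      (g₁ * g₂) * L = (A - C x₁ * B) * (G - C r₂ * H) - C ρ * ((A - C x₂ * B) * (G - C r₁ * H)) := by
    intro L ρ hL
    rw [ht.a0, ht.a1, ht.a2, ht.a3, hL]; ring
  have gL1 := gX L₁ ρ₁ ht.l1
  have gL2 := gX L₂ ρ₂ ht.l2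
  have gL3 := gX L₃ ρ₃ ht.l3
  have gL4 := gX L₄ ρ₄ ht.l4
  have hGH0 : ∀ t, G.eval t = 0 → H.eval t ≠ 0 := by
    intro t h1 h2
    obtain ⟨a, b, hab⟩ := hc.hGH
    have := congrArg (eval t) hab
    simp [h1, h2] at this
  have hAB0 : ∀ t, A.eval t = 0 → B.eval t ≠ 0 := by
    intro t h1 h2
    obtain ⟨a, b, hab⟩ := hc.hAB
    have := congrArg (eval t) hab
    simp [h1, h2] at this
  have hcop : ∀ (P Q : ℂ[X]), IsCoprime P Q → ∀ t, Q.eval t = 0 → P.eval t ≠ 0 := by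
    intro P Q hPQ t h1 h2
    obtain ⟨a, b, hab⟩ := hPQ
    have := congrArg (eval t) hab
    simp [h1, h2] at this
  have hE : A - C e₃ * B ≠ 0 := by
    intro h0
    have h1 : A = C e₃ * B := sub_eq_zero.1 h0
    have h2 : A.natDegree ≤ B.natDegree := by
      rw [h1]; exact natDegree_C_mul_le _ _
    have := hc.dAB
    omega
  have hF : G' * l₃ * l₄ - C c * (H' * l₁ * l₂) ≠ 0 := by
    intro h0
    have h1 : G' * l₃ * l₄ = C c * (H' * l₁ * l₂) := sub_eq_zero.1 h0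
    have h2 : (G' * l₃ * l₄).natDegree = (H' * l₁ * l₂).natDegree := by
      rw [h1]; exact natDegree_C_mul hc0
    have := ht.dN
    omega
  have hγ1 : EuclideanDomain.gcd G L₁ ≠ 0 := fun h => hc.hG (EuclideanDomain.gcd_eq_zero_iff.1 h).1
  have hγ2 : EuclideanDomain.gcd G L₂ ≠ 0 := fun h => hc.hG (EuclideanDomain.gcd_eq_zero_iff.1 h).1
  have hγ3 : EuclideanDomain.gcd H L₃ ≠ 0 := fun h => ht.hL.2.2.1 (EuclideanDomain.gcd_eq_zero_iff.1 h).2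
  have hγ4 : EuclideanDomain.gcd H L₄ ≠ 0 := fun h => ht.hL.2.2.2 (EuclideanDomain.gcd_eq_zero_iff.1 h).2
  have hH0 : H ≠ 0 := by
    intro h0
    have := hc.dGH
    rw [h0] at this
    simp at this
  have hM := lemmaM (E := A - C e₃ * B) (V := G) (V' := H) (L := L₂)
    (F := G' * l₃ * l₄ - C c * (H' * l₁ * l₂)) (g := g₁ * g₂)
    (Γ := EuclideanDomain.gcd G L₁ * EuclideanDomain.gcd G L₂ * EuclideanDomain.gcd H L₃ *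
      EuclideanDomain.gcd H L₄)
    (Z := (A - C x₁ * B) - C ρ₂ * (A - C x₂ * B)) (Y₁ := L₃ * L₄) (Y₂ := C c * L₁)
    (κ := ρ₂ * r₁ - r₂) hE hc.hG ht.hL.2.1 hF ?_ hc.hGH ?_ ?_ ?_ ?_ ?_ ?_ ?_
  · refine hM.trans (le_of_eq ?_)
    congr 1
    unfold mlt
    show _ = (EuclideanDomain.gcd (u₀ * v₀ - C ρ₂ * (u₁ * v₁)) (G' * l₃ * l₄ - C c * (H' * l₁ * l₂))).natDegree
    rw [← ht.l2]
  · intro h0
    apply hp.hφ.2.1
    rw [eq_div_iff hr1]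
    exact sub_eq_zero.1 h0
  · rw [gL2]
    simp only [C_sub, C_mul]
    linear_combination (-(H * B)) * cK1
  · have hm1 := ht.m1
    have hm2 := ht.m2
    have hm3 := ht.m3
    have hm4 := ht.m4
    have hmG := ht.mG
    have hmH := ht.mH
    have i1 : EuclideanDomain.gcd G L₁ * EuclideanDomain.gcd G L₂ * EuclideanDomain.gcd H L₃ *
      EuclideanDomain.gcd H L₄ * (G' * l₃ * l₄) = G * (L₃ * L₄) := by
      calc _ = (EuclideanDomain.gcd G L₁ * EuclideanDomain.gcd G L₂ * G') *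
            ((EuclideanDomain.gcd H L₃ * l₃) * (EuclideanDomain.gcd H L₄ * l₄)) := by ring
        _ = _ := by rw [← hm3, ← hm4, ← hmG]
    have i2 : EuclideanDomain.gcd G L₁ * EuclideanDomain.gcd G L₂ * EuclideanDomain.gcd H L₃ *
      EuclideanDomain.gcd H L₄ * (H' * l₁ * l₂) = H * (L₁ * L₂) := by
      calc _ = (EuclideanDomain.gcd H L₃ * EuclideanDomain.gcd H L₄ * H') *
            ((EuclideanDomain.gcd G L₁ * l₁) * (EuclideanDomain.gcd G L₂ * l₂)) := by ring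
        _ = _ := by rw [← hm1, ← hm2, ← hmH]
    linear_combination i1 - C c * i2
  · intro d hd1 hd2
    exact key3 A B G H (g₁ * g₂) L₁ L₃ L₄ (C e₃) (C x₁) (C x₂) (C r₁) (C r₂) (C ρ₁) (C ρ₂) (C ρ₃) (C ρ₄)
      (C c) d gL1 gL3 gL4 cK1 cK2 hd1 hd2
  · intro t hGt
    have hHt := hGH0 t hGt
    rw [eval_mul]
    apply mul_ne_zero
    · intro h0
      have := congrArg (eval t) ht.a1
      simp only [eval_sub, eval_mul, eval_C, h0, hGt, zero_mul, zero_sub, neg_eq_zero] at this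
      exact mul_ne_zero hr1 hHt this
    · intro h0
      have := congrArg (eval t) ht.a3
      simp only [eval_sub, eval_mul, eval_C, h0, hGt, zero_mul, zero_sub, neg_eq_zero] at this
      exact mul_ne_zero hr2 hHt this
  · intro t _ hEt
    simp only [eval_sub, eval_mul, eval_C] at hEt ⊢
    have hA : A.eval t = e₃ * B.eval t := sub_eq_zero.1 hEt
    have hBt : B.eval t ≠ 0 := by
      intro h0
      apply hAB0 t _ h0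
      rw [hA, h0, mul_zero]
    have e1 : A.eval t - x₁ * B.eval t - ρ₂ * (A.eval t - x₂ * B.eval t) =
        B.eval t * ((e₃ - x₂) * ((e₃ - x₁) / (e₃ - x₂) - ρ₂)) := by
      rw [hA]; field_simp
    rw [e1]
    exact mul_ne_zero hBt (mul_ne_zero hex hne)
  · exact mul_ne_zero (mul_ne_zero (mul_ne_zero hγ1 hγ2) hγ3) hγ4
  · intro t hGt hLt
    have z : ∀ P : ℂ[X], P.eval t ≠ 0 → P.rootMultiplicity t = 0 := fun P h =>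
      rootMultiplicity_eq_zero h
    rw [rootMultiplicity_mul (mul_ne_zero (mul_ne_zero (mul_ne_zero hγ1 hγ2) hγ3) hγ4),
      rootMultiplicity_mul (mul_ne_zero (mul_ne_zero hγ1 hγ2) hγ3),
      rootMultiplicity_mul (mul_ne_zero hγ1 hγ2),
      rootMultiplicity_gcd G L₁ hc.hG ht.hL.1 t, rootMultiplicity_gcd G L₂ hc.hG ht.hL.2.1 t,
      rootMultiplicity_gcd H L₃ hH0 ht.hL.2.2.1 t, rootMultiplicity_gcd H L₄ hH0 ht.hL.2.2.2 t,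
      z L₁ (hcop L₁ L₂ ht.c12 t hLt), z L₃ (hcop L₃ L₂ ht.c23.symm t hLt),
      z L₄ (hcop L₄ L₂ ht.c24.symm t hLt)]
    simp

end J_mult_near2

alias mult_near2 := J_mult_near2.main

end H26E
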