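import Mathlib
import Pool.Agent.Helper26.EC.KDefs
import Pool.Agent.Helper26.EC.KPar
import Pool.Agent.Helper26.EC.J_natDegree_gcd
import Pool.Agent.Helper26.EC.J_rootMultiplicity_gcd
import Pool.Agent.Helper26.EC.J_lemmaM

set_option autoImplicit false

open Polynomial

namespace H26E


namespace J_mult_near4

theorem rm_zero_aux {p q : ℂ[X]} {t : ℂ} (hpq : p ∣ q) (hq : q.eval t ≠ 0) :
    p.rootMultiplicity t = 0 := by
  apply rootMultiplicity_eq_zero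
  intro h
  apply hq
  obtain ⟨r, rfl⟩ := hpq
  rw [eval_mul, IsRoot.def.1 h, zero_mul]

theorem cop_eval_aux {p q : ℂ[X]} (h : IsCoprime p q) {t : ℂ} (hq : q.eval t = 0) :
    p.eval t ≠ 0 := by
  intro hp
  obtain ⟨a, b, hab⟩ := h
  have := congrArg (eval t) hab
  rw [eval_add, eval_mul, eval_mul, hp, hq, mul_zero, mul_zero, add_zero, eval_one] at this
  exact zero_ne_one this

theorem main {e₁ e₂ e₃ : ℂ} {S : Finset (ℂ × ℂ)} {x₁ x₂ r₁ r₂ ρ₁ ρ₂ ρ₃ ρ₄ : ℂ}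
    (hp : Par e₁ e₂ e₃ S x₁ x₂ r₁ r₂ ρ₁ ρ₂ ρ₃ ρ₄) {A B G H : ℂ[X]} (hc : Cur A B G H)
    {g₁ g₂ u₀ u₁ v₀ v₁ L₁ L₂ L₃ L₄ l₁ l₂ l₃ l₄ G' H' : ℂ[X]}
    (ht : Tra A B G H x₁ x₂ r₁ r₂ ρ₁ ρ₂ ρ₃ ρ₄ g₁ g₂ u₀ u₁ v₀ v₁ L₁ L₂ L₃ L₄ l₁ l₂ l₃ l₄ G' H') :
    (EuclideanDomain.gcd B (H ^ 2)).natDegree ≤
      mlt (u₀ * v₀) (u₁ * v₁) (G' * l₃ * l₄) (H' * l₁ * l₂) (some ρ₄, some
        (-((r₂ - r₁) * (ρ₄ - ρ₃)) / ((ρ₄ - ρ₁) * (ρ₄ - ρ₂)))) +
      (EuclideanDomain.gcd H L₄).natDegree := by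
  set c : ℂ := -((r₂ - r₁) * (ρ₄ - ρ₃)) / ((ρ₄ - ρ₁) * (ρ₄ - ρ₂)) with hcdef
  have hH : H ≠ 0 := by
    rintro rfl
    have := hc.dGH
    rw [natDegree_zero] at this
    exact absurd this (Nat.not_lt_zero _)
  have hG : G ≠ 0 := hc.hG
  have h41 : ρ₄ - ρ₁ ≠ 0 := sub_ne_zero.2 hp.h14.symm
  have h42 : ρ₄ - ρ₂ ≠ 0 := sub_ne_zero.2 hp.h24.symm
  have h43 : ρ₄ - ρ₃ ≠ 0 := sub_ne_zero.2 hp.h34.symm
  have hr21 : r₂ - r₁ ≠ 0 := sub_ne_zero.2 hp.hr.symm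
  have hc0 : c ≠ 0 := div_ne_zero (neg_ne_zero.2 (mul_ne_zero hr21 h43)) (mul_ne_zero h41 h42)
  have hρ4 : ρ₄ = 1 := hp.e4
  have hceq : -c * ((1 - ρ₁) * (1 - ρ₂)) + (r₁ - r₂) * (1 - ρ₃) = 0 := by
    rw [hcdef, ← hρ4]
    field_simp
    ring
  have hmlt : mlt (u₀ * v₀) (u₁ * v₁) (G' * l₃ * l₄) (H' * l₁ * l₂) (some ρ₄, some c)
      = (EuclideanDomain.gcd L₄ (G' * l₃ * l₄ - C c * (H' * l₁ * l₂))).natDegree := by
    rw [ht.l4]
    rfl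
  rw [hmlt]
  have hF : G' * l₃ * l₄ - C c * (H' * l₁ * l₂) ≠ 0 := by
    intro h
    have h1 : G' * l₃ * l₄ = C c * (H' * l₁ * l₂) := sub_eq_zero.1 h
    have h2 := ht.dN
    rw [h1, natDegree_C_mul hc0] at h2
    exact lt_irrefl _ h2
  -- products g * L_i
  have hgL : ∀ ρ : ℂ, g₁ * g₂ * (u₀ * v₀ - C ρ * (u₁ * v₁)) =
      (A - C x₁ * B) * (G - C r₂ * H) - C ρ * ((A - C x₂ * B) * (G - C r₁ * H)) := by
    intro ρ
    rw [ht.a0, ht.a1, ht.a2, ht.a3]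
    ring
  refine lemmaM (E := B) (V := H) (V' := G) (L := L₄) (g := g₁ * g₂)
    (Γ := EuclideanDomain.gcd G L₁ * EuclideanDomain.gcd G L₂ * EuclideanDomain.gcd H L₃ *
      EuclideanDomain.gcd H L₄)
    (Z := -C r₂ * (A - C x₁ * B) + C r₁ * (A - C x₂ * B))
    (Y₁ := -C c * (L₁ * L₂)) (Y₂ := -L₃) (κ := x₂ - x₁) hc.hB hH ht.hL.2.2.2 hF
    (sub_ne_zero.2 hp.hx.symm) hc.hGH.symm ?_ ?_ ?_ ?_ ?_ ?_ ?_
  · rw [ht.l4, hgL, hρ4, C_1, C_sub]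
    ring
  · have e1 : G * L₃ * L₄ = (EuclideanDomain.gcd G L₁ * EuclideanDomain.gcd G L₂ * G') *
        (EuclideanDomain.gcd H L₃ * l₃) * (EuclideanDomain.gcd H L₄ * l₄) := by
      rw [← ht.mG, ← ht.m3, ← ht.m4]
    have e2 : H * L₁ * L₂ = (EuclideanDomain.gcd H L₃ * EuclideanDomain.gcd H L₄ * H') *
        (EuclideanDomain.gcd G L₁ * l₁) * (EuclideanDomain.gcd G L₂ * l₂) := by
      rw [← ht.mH, ← ht.m1, ← ht.m2]
    calc _ = (EuclideanDomain.gcd G L₁ * EuclideanDomain.gcd G L₂ * G') *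
        (EuclideanDomain.gcd H L₃ * l₃) * (EuclideanDomain.gcd H L₄ * l₄) - C c *
        ((EuclideanDomain.gcd H L₃ * EuclideanDomain.gcd H L₄ * H') *
        (EuclideanDomain.gcd G L₁ * l₁) * (EuclideanDomain.gcd G L₂ * l₂)) := by ring
      _ = G * L₃ * L₄ - C c * (H * L₁ * L₂) := by rw [← e1, ← e2]
      _ = _ := by ring
  · intro d hdB hdH
    have e1 : g₁ * g₂ * (g₁ * g₂ * (-C c * (L₁ * L₂)) -
        G * (-C r₂ * (A - C x₁ * B) + C r₁ * (A - C x₂ * B)) * -L₃) =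
        -C c * ((g₁ * g₂ * L₁) * (g₁ * g₂ * L₂)) +
        G * (-C r₂ * (A - C x₁ * B) + C r₁ * (A - C x₂ * B)) * (g₁ * g₂ * L₃) := by ring
    rw [e1, ht.l1, ht.l2, ht.l3, hgL, hgL, hgL]
    rw [← Ideal.mem_span_singleton] at hdB hdH ⊢
    rw [← Ideal.Quotient.eq_zero_iff_mem] at hdB hdH ⊢
    simp only [map_add, map_mul, map_sub, map_neg, hdB, hdH, mul_zero, sub_zero]
    have e2 := congrArg (fun z : ℂ => (Ideal.Quotient.mk (Ideal.span {d}) (C z))) hceq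
    simp only [map_add, map_mul, map_sub, map_neg, map_one, map_zero] at e2
    linear_combination (((Ideal.Quotient.mk (Ideal.span {d})) A) ^ 2 *
      ((Ideal.Quotient.mk (Ideal.span {d})) G) ^ 2) * e2
  · intro t hHt
    have hGt := cop_eval_aux hc.hGH hHt
    have e1 := congrArg (eval t) ht.a1
    have e3 := congrArg (eval t) ht.a3
    rw [eval_sub, eval_mul, hHt, mul_zero, sub_zero, eval_mul] at e1 e3
    rw [eval_mul]
    apply mul_ne_zero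
    · intro h
      rw [h, zero_mul] at e1
      exact hGt e1
    · intro h
      rw [h, zero_mul] at e3
      exact hGt e3
  · intro t hHt hBt
    have hAt := cop_eval_aux hc.hAB hBt
    simp only [eval_add, eval_mul, eval_neg, eval_C, eval_sub, hBt, mul_zero, sub_zero]
    have : -r₂ * eval t A + r₁ * eval t A = -(r₂ - r₁) * eval t A := by ring
    rw [this]
    exact mul_ne_zero (neg_ne_zero.2 hr21) hAt
  · refine mul_ne_zero (mul_ne_zero (mul_ne_zero ?_ ?_) ?_) ?_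
    · intro h
      exact hG (EuclideanDomain.gcd_eq_zero_iff.1 h).1
    · intro h
      exact hG (EuclideanDomain.gcd_eq_zero_iff.1 h).1
    · intro h
      exact hH (EuclideanDomain.gcd_eq_zero_iff.1 h).1
    · intro h
      exact hH (EuclideanDomain.gcd_eq_zero_iff.1 h).1
  · intro t hHt hLt
    have hGt := cop_eval_aux hc.hGH hHt
    have hL3t := cop_eval_aux ht.c34 hLt
    have n1 : EuclideanDomain.gcd G L₁ ≠ 0 := fun h => hG (EuclideanDomain.gcd_eq_zero_iff.1 h).1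
    have n2 : EuclideanDomain.gcd G L₂ ≠ 0 := fun h => hG (EuclideanDomain.gcd_eq_zero_iff.1 h).1
    have n3 : EuclideanDomain.gcd H L₃ ≠ 0 := fun h => hH (EuclideanDomain.gcd_eq_zero_iff.1 h).1
    have n4 : EuclideanDomain.gcd H L₄ ≠ 0 := fun h => hH (EuclideanDomain.gcd_eq_zero_iff.1 h).1
    rw [rootMultiplicity_mul (mul_ne_zero (mul_ne_zero (mul_ne_zero n1 n2) n3) n4),
      rootMultiplicity_mul (mul_ne_zero (mul_ne_zero n1 n2) n3),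
      rootMultiplicity_mul (mul_ne_zero n1 n2),
      rm_zero_aux (EuclideanDomain.gcd_dvd_left G L₁) hGt,
      rm_zero_aux (EuclideanDomain.gcd_dvd_left G L₂) hGt,
      rm_zero_aux (EuclideanDomain.gcd_dvd_right H L₃) hL3t,
      rootMultiplicity_gcd H L₄ hH ht.hL.2.2.2]
    simp

end J_mult_near4

alias mult_near4 := J_mult_near4.main

end H26E
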