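import Mathlib
import Pool.Agent.Helper26.EC.KDefs
import Pool.Agent.Helper26.EC.KPar

set_option autoImplicit false

open Polynomial

namespace H26E


namespace J_mult_simple

theorem mlt_le {P Q d : ℂ[X]} (hP : d ∣ P) (hQ : d ∣ Q) (h0 : P ≠ 0) :
    d.natDegree ≤ (EuclideanDomain.gcd P Q).natDegree := by
  refine natDegree_le_of_dvd (EuclideanDomain.dvd_gcd hP hQ) ?_
  intro h
  rw [EuclideanDomain.gcd_eq_zero_iff] at h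
  exact h0 h.1

theorem key_id {G H G' H' L₁ L₂ L₃ L₄ l₁ l₂ l₃ l₄ γ₁ γ₂ γ₃ γ₄ : ℂ[X]} (c : ℂ[X])
    (m1 : L₁ = γ₁ * l₁) (m2 : L₂ = γ₂ * l₂) (m3 : L₃ = γ₃ * l₃) (m4 : L₄ = γ₄ * l₄)
    (mG : G = γ₁ * γ₂ * G') (mH : H = γ₃ * γ₄ * H') :
    (γ₁ * γ₂ * γ₃ * γ₄) * (G' * l₃ * l₄ - c * (H' * l₁ * l₂))
      = G * L₃ * L₄ - c * H * L₁ * L₂ := by
  subst m1 m2 m3 m4 mG mH
  ring

theorem dvd_key {G H G' H' L₁ L₂ L₃ L₄ l₁ l₂ l₃ l₄ v : ℂ[X]} (c : ℂ[X])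
    (m1 : L₁ = EuclideanDomain.gcd G L₁ * l₁)
    (m2 : L₂ = EuclideanDomain.gcd G L₂ * l₂)
    (m3 : L₃ = EuclideanDomain.gcd H L₃ * l₃)
    (m4 : L₄ = EuclideanDomain.gcd H L₄ * l₄)
    (mG : G = EuclideanDomain.gcd G L₁ * EuclideanDomain.gcd G L₂ * G')
    (mH : H = EuclideanDomain.gcd H L₃ * EuclideanDomain.gcd H L₄ * H')
    (h1 : IsCoprime v L₁) (h2 : IsCoprime v L₂) (h3 : IsCoprime v L₃) (h4 : IsCoprime v L₄)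
    (hv : v ∣ G * L₃ * L₄ - c * H * L₁ * L₂) :
    v ∣ G' * l₃ * l₄ - c * (H' * l₁ * l₂) := by
  have e1 : IsCoprime v (EuclideanDomain.gcd G L₁) :=
    h1.of_isCoprime_of_dvd_right (EuclideanDomain.gcd_dvd_right _ _)
  have e2 : IsCoprime v (EuclideanDomain.gcd G L₂) :=
    h2.of_isCoprime_of_dvd_right (EuclideanDomain.gcd_dvd_right _ _)
  have e3 : IsCoprime v (EuclideanDomain.gcd H L₃) :=
    h3.of_isCoprime_of_dvd_right (EuclideanDomain.gcd_dvd_right _ _)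
  have e4 : IsCoprime v (EuclideanDomain.gcd H L₄) :=
    h4.of_isCoprime_of_dvd_right (EuclideanDomain.gcd_dvd_right _ _)
  have e := ((e1.mul_right e2).mul_right e3).mul_right e4
  have hk := key_id c m1 m2 m3 m4 mG mH
  rw [← hk] at hv
  exact e.dvd_of_dvd_mul_left hv

/-- multiplicities at the six simple fundamental points -/
theorem main {e₁ e₂ e₃ : ℂ} {S : Finset (ℂ × ℂ)} {x₁ x₂ r₁ r₂ ρ₁ ρ₂ ρ₃ ρ₄ : ℂ}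
    (hp : Par e₁ e₂ e₃ S x₁ x₂ r₁ r₂ ρ₁ ρ₂ ρ₃ ρ₄) {A B G H : ℂ[X]} (hc : Cur A B G H)
    {g₁ g₂ u₀ u₁ v₀ v₁ L₁ L₂ L₃ L₄ l₁ l₂ l₃ l₄ G' H' : ℂ[X]}
    (ht : Tra A B G H x₁ x₂ r₁ r₂ ρ₁ ρ₂ ρ₃ ρ₄ g₁ g₂ u₀ u₁ v₀ v₁ L₁ L₂ L₃ L₄ l₁ l₂ l₃ l₄ G' H') :
    l₁.natDegree ≤ mlt (u₀ * v₀) (u₁ * v₁) (G' * l₃ * l₄) (H' * l₁ * l₂) (some ρ₁, none) ∧
    l₂.natDegree ≤ mlt (u₀ * v₀) (u₁ * v₁) (G' * l₃ * l₄) (H' * l₁ * l₂) (some ρ₂, none) ∧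
    l₃.natDegree ≤ mlt (u₀ * v₀) (u₁ * v₁) (G' * l₃ * l₄) (H' * l₁ * l₂) (some ρ₃, some 0) ∧
    l₄.natDegree ≤ mlt (u₀ * v₀) (u₁ * v₁) (G' * l₃ * l₄) (H' * l₁ * l₂) (some ρ₄, some 0) ∧
    v₁.natDegree ≤ mlt (u₀ * v₀) (u₁ * v₁) (G' * l₃ * l₄) (H' * l₁ * l₂) (none, some r₁) ∧
    v₀.natDegree ≤ mlt (u₀ * v₀) (u₁ * v₁) (G' * l₃ * l₄) (H' * l₁ * l₂)
      (some 0, some (r₂ * ρ₃ * ρ₄ / (ρ₁ * ρ₂))) := by
  have hA : ∀ x : ℂ, A - C x * B ≠ 0 := by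
    intro x h
    have h1 : A = C x * B := sub_eq_zero.1 h
    have h2 : A.natDegree ≤ B.natDegree := by
      rw [h1]; exact natDegree_C_mul_le _ _
    have := hc.dAB
    omega
  have hGr : ∀ r : ℂ, r ≠ 0 → G - C r * H ≠ 0 := by
    intro r hr h
    have h1 : G = C r * H := sub_eq_zero.1 h
    have h2 : G.natDegree = H.natDegree := by
      rw [h1]; exact natDegree_C_mul hr
    have := hc.dGH
    omega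
  have hu0 : u₀ ≠ 0 := by
    intro h; apply hA x₁; rw [ht.a0, h, mul_zero]
  have hu1 : u₁ ≠ 0 := by
    intro h; apply hA x₂; rw [ht.a2, h, mul_zero]
  have hv1 : v₁ ≠ 0 := by
    intro h; apply hGr r₁ hp.hr1; rw [ht.a1, h, mul_zero]
  have hv0 : v₀ ≠ 0 := by
    intro h; apply hGr r₂ hp.hr2; rw [ht.a3, h, mul_zero]
  obtain ⟨hL1, hL2, hL3, hL4⟩ := ht.hL
  refine ⟨?_, ?_, ?_, ?_, ?_, ?_⟩
  · refine mlt_le ?_ ?_ ?_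
    · show l₁ ∣ u₀ * v₀ - C ρ₁ * (u₁ * v₁)
      rw [← ht.l1, ht.m1]; exact dvd_mul_left _ _
    · show l₁ ∣ H' * l₁ * l₂
      exact Dvd.intro_left (H' * l₂) (by ring)
    · show u₀ * v₀ - C ρ₁ * (u₁ * v₁) ≠ 0
      rw [← ht.l1]; exact hL1
  · refine mlt_le ?_ ?_ ?_
    · show l₂ ∣ u₀ * v₀ - C ρ₂ * (u₁ * v₁)
      rw [← ht.l2, ht.m2]; exact dvd_mul_left _ _
    · show l₂ ∣ H' * l₁ * l₂
      exact dvd_mul_left _ _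
    · show u₀ * v₀ - C ρ₂ * (u₁ * v₁) ≠ 0
      rw [← ht.l2]; exact hL2
  · refine mlt_le ?_ ?_ ?_
    · show l₃ ∣ u₀ * v₀ - C ρ₃ * (u₁ * v₁)
      rw [← ht.l3, ht.m3]; exact dvd_mul_left _ _
    · show l₃ ∣ G' * l₃ * l₄ - C 0 * (H' * l₁ * l₂)
      rw [C_0, zero_mul, sub_zero]
      exact Dvd.intro_left (G' * l₄) (by ring)
    · show u₀ * v₀ - C ρ₃ * (u₁ * v₁) ≠ 0
      rw [← ht.l3]; exact hL3
  · refine mlt_le ?_ ?_ ?_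
    · show l₄ ∣ u₀ * v₀ - C ρ₄ * (u₁ * v₁)
      rw [← ht.l4, ht.m4]; exact dvd_mul_left _ _
    · show l₄ ∣ G' * l₃ * l₄ - C 0 * (H' * l₁ * l₂)
      rw [C_0, zero_mul, sub_zero]
      exact dvd_mul_left _ _
    · show u₀ * v₀ - C ρ₄ * (u₁ * v₁) ≠ 0
      rw [← ht.l4]; exact hL4
  · refine mlt_le (dvd_mul_left _ _) ?_ (mul_ne_zero hu1 hv1)
    show v₁ ∣ G' * l₃ * l₄ - C r₁ * (H' * l₁ * l₂)
    have c0 : IsCoprime v₁ (u₀ * v₀) :=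
      (ht.cop1.of_isCoprime_of_dvd_right (dvd_mul_left _ _)).symm
    have cL : ∀ (L : ℂ[X]) (ρ : ℂ), L = u₀ * v₀ - C ρ * (u₁ * v₁) → IsCoprime v₁ L := by
      intro L ρ hL
      have : L = u₀ * v₀ + v₁ * (-(C ρ * u₁)) := by rw [hL]; ring
      rw [this]
      exact c0.add_mul_left_right _
    refine dvd_key (C r₁) ht.m1 ht.m2 ht.m3 ht.m4 ht.mG ht.mH (cL _ _ ht.l1) (cL _ _ ht.l2)
      (cL _ _ ht.l3) (cL _ _ ht.l4) ?_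
    have e : G * L₃ * L₄ - C r₁ * H * L₁ * L₂ = v₁ * (g₁ * (u₀ * v₀) ^ 2 +
        u₁ * (G * (-(C ρ₃ + C ρ₄) * (u₀ * v₀) + C ρ₃ * C ρ₄ * (u₁ * v₁)) -
          C r₁ * H * (-(C ρ₁ + C ρ₂) * (u₀ * v₀) + C ρ₁ * C ρ₂ * (u₁ * v₁)))) := by
      rw [ht.l1, ht.l2, ht.l3, ht.l4]
      linear_combination (u₀ * v₀) ^ 2 * ht.a1
    rw [e]
    exact dvd_mul_right _ _
  · refine mlt_le ?_ ?_ ?_
    · show v₀ ∣ u₀ * v₀ - C 0 * (u₁ * v₁)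
      rw [C_0, zero_mul, sub_zero]
      exact dvd_mul_left _ _
    · show v₀ ∣ G' * l₃ * l₄ - C (r₂ * ρ₃ * ρ₄ / (ρ₁ * ρ₂)) * (H' * l₁ * l₂)
      have c0 : IsCoprime v₀ (u₁ * v₁) :=
        (ht.cop1.symm.of_isCoprime_of_dvd_right (dvd_mul_left _ _)).symm
      have cL : ∀ (L : ℂ[X]) (ρ : ℂ), ρ ≠ 0 → L = u₀ * v₀ - C ρ * (u₁ * v₁) →
          IsCoprime v₀ L := by
        intro L ρ hρ hL
        have : L = -(C ρ * (u₁ * v₁)) + v₀ * u₀ := by rw [hL]; ring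
        rw [this]
        refine IsCoprime.add_mul_left_right ?_ _
        refine IsCoprime.neg_right ?_
        exact (isCoprime_mul_unit_left_right (isUnit_C.2 (isUnit_iff_ne_zero.2 hρ)) _ _).2 c0
      obtain ⟨h01, h02, h03, h04⟩ := hp.h0
      refine dvd_key _ ht.m1 ht.m2 ht.m3 ht.m4 ht.mG ht.mH (cL _ _ h01 ht.l1) (cL _ _ h02 ht.l2)
        (cL _ _ h03 ht.l3) (cL _ _ h04 ht.l4) ?_
      have hc0 : C (r₂ * ρ₃ * ρ₄ / (ρ₁ * ρ₂)) * C ρ₁ * C ρ₂ = C r₂ * C ρ₃ * C ρ₄ := by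
        rw [← C_mul, ← C_mul, ← C_mul, ← C_mul]
        congr 1
        field_simp
      have e : G * L₃ * L₄ - C (r₂ * ρ₃ * ρ₄ / (ρ₁ * ρ₂)) * H * L₁ * L₂ = v₀ * (u₀ *
          (G * (u₀ * v₀ - (C ρ₃ + C ρ₄) * (u₁ * v₁)) -
            C (r₂ * ρ₃ * ρ₄ / (ρ₁ * ρ₂)) * H * (u₀ * v₀ - (C ρ₁ + C ρ₂) * (u₁ * v₁))) +
          C ρ₃ * C ρ₄ * (u₁ * v₁) ^ 2 * g₂) := by
        rw [ht.l1, ht.l2, ht.l3, ht.l4]
        linear_combination (C ρ₃ * C ρ₄ * (u₁ * v₁) ^ 2) * ht.a3 - ((u₁ * v₁) ^ 2 * H) * hc0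
      rw [e]
      exact dvd_mul_right _ _
    · show u₀ * v₀ - C 0 * (u₁ * v₁) ≠ 0
      rw [C_0, zero_mul, sub_zero]
      exact mul_ne_zero hu0 hv0

end J_mult_simple

alias mult_simple := J_mult_simple.main

end H26E
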