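import Mathlib
import Pool.Agent.Helper26.EC.KDefs
import Pool.Agent.Helper26.EC.KPar
import Pool.Agent.Helper26.EC.J_natDegree_gcd
import Pool.Agent.Helper26.EC.J_deg_s
import Pool.Agent.Helper26.EC.J_exists_par
import Pool.Agent.Helper26.EC.J_exists_tra
import Pool.Agent.Helper26.EC.J_mult_simple
import Pool.Agent.Helper26.EC.J_mult_near1
import Pool.Agent.Helper26.EC.J_mult_near2
import Pool.Agent.Helper26.EC.J_mult_near3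
import Pool.Agent.Helper26.EC.J_mult_near4
import Pool.Agent.Helper26.EC.J_mult_im
import Pool.Agent.Helper26.EC.J_im_inj
import Pool.Agent.Helper26.EC.J_genInj_tra

set_option autoImplicit false

open Polynomial

namespace H26E


namespace J_lemmaK

theorem nodup_aux (ρ₁ ρ₂ ρ₃ ρ₄ r₁ c₀ c₁ c₂ c₃ c₄ : ℂ) (h12 : ρ₁ ≠ ρ₂) (h13 : ρ₁ ≠ ρ₃)
    (h14 : ρ₁ ≠ ρ₄) (h23 : ρ₂ ≠ ρ₃) (h24 : ρ₂ ≠ ρ₄) (h34 : ρ₃ ≠ ρ₄) (h1 : ρ₁ ≠ 0) (h2 : ρ₂ ≠ 0)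
    (h3 : ρ₃ ≠ 0) (h4 : ρ₄ ≠ 0) (hc3 : c₃ ≠ 0) (hc4 : c₄ ≠ 0) :
    ([(some ρ₁, none), (some ρ₂, none), (some ρ₃, some 0), (some ρ₄, some 0), (none, some r₁),
      (some 0, some c₀), (some ρ₁, some c₁), (some ρ₂, some c₂), (some ρ₃, some c₃),
      (some ρ₄, some c₄)] : List (Option ℂ × Option ℂ)).Nodup := by
  simp [h12, h13, h14, h23, h24, h34, h1, h2, h3, h4, hc3.symm, hc4.symm, h12.symm, h13.symm,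
    h14.symm, h23.symm, h24.symm, h34.symm, h1.symm, h2.symm, h3.symm, h4.symm]

theorem mem_aux {ρ₁ ρ₂ ρ₃ ρ₄ r₁ c₀ c₁ c₂ c₃ c₄ ρ : ℂ} {y : Option ℂ} (h1 : ρ ≠ ρ₁) (h2 : ρ ≠ ρ₂)
    (h3 : ρ ≠ ρ₃) (h4 : ρ ≠ ρ₄) (h0 : ρ ≠ 0) : ((some ρ, y) : Option ℂ × Option ℂ) ∉
    ([(some ρ₁, none), (some ρ₂, none), (some ρ₃, some 0), (some ρ₄, some 0), (none, some r₁),
      (some 0, some c₀), (some ρ₁, some c₁), (some ρ₂, some c₂), (some ρ₃, some c₃),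
      (some ρ₄, some c₄)] : List (Option ℂ × Option ℂ)) := by
  simp [h1, h2, h3, h4, h0]

/-- Lemma K: passage to distinct points of P^1 x P^1 -/
theorem main {e₁ e₂ e₃ : ℂ} (he12 : e₁ ≠ e₂) (he13 : e₁ ≠ e₃) (he23 : e₂ ≠ e₃) (S : Finset (ℂ × ℂ))
    (hS : ∀ p ∈ S, p.1 ≠ e₁ ∧ p.1 ≠ e₂ ∧ p.1 ≠ e₃) :
    ∃ S' : Finset (OnePoint ℂ × OnePoint ℂ), ∀ (A B G H M W : ℂ[X]) (T : Finset ℂ) (n : ℕ),
      Cur A B G H → IsCoprime M W →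
      M * (H ^ 2 * (A - C e₂ * B) * (A - C e₃ * B)) = W * (G ^ 2 * (A - C e₁ * B) * B) →
      GenInj A B G H →
      (∀ t ∈ T, B.eval t ≠ 0 ∧ H.eval t ≠ 0 ∧ (A.eval t / B.eval t, G.eval t / H.eval t) ∈ S) →
      W.natDegree + n ≤ T.card →
      ∃ A₁ B₁ A₂ B₂ : ℂ[X], IsCoprime A₁ B₁ ∧ IsCoprime A₂ B₂ ∧ GenInj A₁ B₁ A₂ B₂ ∧
        2 * dg A₁ B₁ + 2 * dg A₂ B₂ + n ≤ ∑ p ∈ S', mlt A₁ B₁ A₂ B₂ p := by
  classical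
  obtain ⟨x₁, x₂, r₁, r₂, ρ₁, ρ₂, ρ₃, ρ₄, hp⟩ := exists_par he12 he13 he23 S hS
  set c₀ : ℂ := r₂ * ρ₃ * ρ₄ / (ρ₁ * ρ₂) with hc0
  set c₁ : ℂ := -(r₁ * (ρ₁ - ρ₃) * (ρ₁ - ρ₄)) / (((e₂ - x₁) / (e₂ - x₂) - ρ₁) * (ρ₁ - ρ₂)) with hc1
  set c₂ : ℂ := -(r₁ * (ρ₂ - ρ₃) * (ρ₂ - ρ₄)) / (((e₃ - x₁) / (e₃ - x₂) - ρ₂) * (ρ₂ - ρ₁)) with hc2
  set c₃ : ℂ := -(ρ₃ * (r₂ - r₁) * (ρ₃ - ρ₄)) / ((ρ₃ - ρ₁) * (ρ₃ - ρ₂)) with hc3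
  set c₄ : ℂ := -((r₂ - r₁) * (ρ₄ - ρ₃)) / ((ρ₄ - ρ₁) * (ρ₄ - ρ₂)) with hc4
  obtain ⟨h1, h2, h3, h4⟩ := hp.h0
  have hc3' : c₃ ≠ 0 := by
    rw [hc3]
    refine div_ne_zero (neg_ne_zero.mpr (mul_ne_zero (mul_ne_zero h3 (sub_ne_zero.mpr hp.hr.symm))
      (sub_ne_zero.mpr hp.h34))) (mul_ne_zero (sub_ne_zero.mpr hp.h13.symm)
      (sub_ne_zero.mpr hp.h23.symm))
  have hc4' : c₄ ≠ 0 := by
    rw [hc4]
    refine div_ne_zero (neg_ne_zero.mpr (mul_ne_zero (sub_ne_zero.mpr hp.hr.symm)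
      (sub_ne_zero.mpr hp.h34.symm))) (mul_ne_zero (sub_ne_zero.mpr hp.h14.symm)
      (sub_ne_zero.mpr hp.h24.symm))
  set l : List (OnePoint ℂ × OnePoint ℂ) := [(some ρ₁, none), (some ρ₂, none), (some ρ₃, some 0),
    (some ρ₄, some 0), (none, some r₁), (some 0, some c₀), (some ρ₁, some c₁), (some ρ₂, some c₂),
    (some ρ₃, some c₃), (some ρ₄, some c₄)] with hl
  have hnd : l.Nodup := nodup_aux ρ₁ ρ₂ ρ₃ ρ₄ r₁ c₀ c₁ c₂ c₃ c₄ hp.h12 hp.h13 hp.h14 hp.h23 hp.h24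
    hp.h34 h1 h2 h3 h4 hc3' hc4'
  have hmem : ∀ p ∈ S, im x₁ x₂ r₁ r₂ ρ₁ ρ₂ ρ₃ ρ₄ p ∉ l := by
    intro p hpS
    obtain ⟨-, -, -, q1, q2, q3, q4, q5, q6, q7, q8⟩ := hp.hS p hpS
    have q0 : (p.1 - x₁) / (p.1 - x₂) * ((p.2 - r₂) / (p.2 - r₁)) ≠ 0 :=
      mul_ne_zero (div_ne_zero (sub_ne_zero.mpr q1) (sub_ne_zero.mpr q2))
        (div_ne_zero (sub_ne_zero.mpr q4) (sub_ne_zero.mpr q3))
    exact mem_aux q5 q6 q7 q8 q0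
  refine ⟨l.toFinset ∪ S.image (im x₁ x₂ r₁ r₂ ρ₁ ρ₂ ρ₃ ρ₄), ?_⟩
  intro A B G H M W T n hc hMW hs hi hT hcard
  obtain ⟨g₁, g₂, u₀, u₁, v₀, v₁, L₁, L₂, L₃, L₄, l₁, l₂, l₃, l₄, G', H', ht⟩ := exists_tra hp hc
  refine ⟨u₀ * v₀, u₁ * v₁, G' * l₃ * l₄, H' * l₁ * l₂, ht.cop1, ht.cop2,
    genInj_tra hp hc ht hi, ?_⟩
  set f : OnePoint ℂ × OnePoint ℂ → ℕ :=
    mlt (u₀ * v₀) (u₁ * v₁) (G' * l₃ * l₄) (H' * l₁ * l₂) with hf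
  have hdisj : Disjoint l.toFinset (S.image (im x₁ x₂ r₁ r₂ ρ₁ ρ₂ ρ₃ ρ₄)) := by
    rw [Finset.disjoint_right]
    intro q hq
    obtain ⟨p, hpS, rfl⟩ := Finset.mem_image.mp hq
    rw [List.mem_toFinset]
    exact hmem p hpS
  have hsum : ∑ p ∈ l.toFinset ∪ S.image (im x₁ x₂ r₁ r₂ ρ₁ ρ₂ ρ₃ ρ₄), f p =
      (l.map f).sum + ∑ p ∈ S, f (im x₁ x₂ r₁ r₂ ρ₁ ρ₂ ρ₃ ρ₄ p) := by
    rw [Finset.sum_union hdisj, List.sum_toFinset _ hnd, Finset.sum_image (im_inj hp)]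
  have hTsum : T.card ≤ ∑ p ∈ S, f (im x₁ x₂ r₁ r₂ ρ₁ ρ₂ ρ₃ ρ₄ p) := by
    rw [Finset.card_eq_sum_card_fiberwise
      (f := fun t => (A.eval t / B.eval t, G.eval t / H.eval t)) (t := S)
      (fun t htT => (hT t htT).2.2)]
    refine Finset.sum_le_sum fun p hpS => ?_
    refine mult_im hp hc ht hpS _ ?_
    intro t htT
    rw [Finset.mem_filter] at htT
    exact ⟨(hT t htT.1).1, (hT t htT.1).2.1, htT.2⟩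
  have hlsum : (l.map f).sum = f (some ρ₁, none) + f (some ρ₂, none) + f (some ρ₃, some 0) +
      f (some ρ₄, some 0) + f (none, some r₁) + f (some 0, some c₀) + f (some ρ₁, some c₁) +
      f (some ρ₂, some c₂) + f (some ρ₃, some c₃) + f (some ρ₄, some c₄) := by
    rw [hl]
    simp only [List.map_cons, List.map_nil, List.sum_cons, List.sum_nil]
    ring
  obtain ⟨s1, s2, s3, s4, s5, s6⟩ := mult_simple hp hc ht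
  have n1 := mult_near1 hp hc ht
  have n2 := mult_near2 hp hc ht
  have n3 := mult_near3 hp hc ht
  have n4 := mult_near4 hp hc ht
  rw [← hf] at s1 s2 s3 s4 s5 s6 n1 n2 n3 n4
  rw [← hc0] at s6
  rw [← hc1] at n1
  rw [← hc2] at n2
  rw [← hc3] at n3
  rw [← hc4] at n4
  have hds := deg_s he12 he13 he23 hc.hAB hc.hGH hMW hc.hB hc.hG hc.dAB hc.dGH hs
  have hdg1 : dg (u₀ * v₀) (u₁ * v₁) = (u₀ * v₀).natDegree := by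
    rw [dg, ht.dg1', max_self]
  have hdg2 : dg (G' * l₃ * l₄) (H' * l₁ * l₂) = (H' * l₁ * l₂).natDegree :=
    max_eq_right ht.dN.le
  have hLdeg : ∀ {L g m : ℂ[X]}, L ≠ 0 → L = g * m → L.natDegree = g.natDegree + m.natDegree := by
    intro L g m hL hLm
    rw [hLm] at hL
    rw [hLm, natDegree_mul (left_ne_zero_of_mul hL) (right_ne_zero_of_mul hL)]
  have d1 := hLdeg ht.hL.1 ht.m1
  have d2 := hLdeg ht.hL.2.1 ht.m2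
  have d3 := hLdeg ht.hL.2.2.1 ht.m3
  have d4 := hLdeg ht.hL.2.2.2 ht.m4
  have k1 := ht.dg1
  have k2 := ht.dL1
  have k3 := ht.dL2
  have k4 := ht.dL3
  have k5 := ht.dL4
  have k6 := ht.dD
  have k7 := ht.dv1
  have k8 := ht.dv0
  rw [hsum, hlsum, hdg1, hdg2]
  omega

end J_lemmaK

alias lemmaK := J_lemmaK.main

end H26E
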