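import Mathlib
import Pool.Agent.Helper26.EC.KDefs

set_option autoImplicit false

open Polynomial

namespace H26E

theorem lin_indep {A B : ℂ[X]} (h : IsCoprime A B) (hd : 0 < max A.natDegree B.natDegree) {a b : ℂ}
    (hab : a ≠ 0 ∨ b ≠ 0) : C a * A - C b * B ≠ 0 := by
  intro h0
  have key : ∀ {A B : ℂ[X]} {a b : ℂ}, IsCoprime A B → a ≠ 0 → C a * A - C b * B = 0 →
      max A.natDegree B.natDegree = 0 := by
    intro A B a b h ha h0
    have e : A = C (b / a) * B := by
      have : C a * A = C b * B := sub_eq_zero.1 h0
      have h1 : C (a⁻¹) * (C a * A) = C (a⁻¹) * (C b * B) := by rw [this]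
      rw [← mul_assoc, ← mul_assoc, ← C_mul, ← C_mul, inv_mul_cancel₀ ha, C_1, one_mul] at h1
      rw [h1]
      congr 2
      field_simp
    have hu : IsUnit B := h.isUnit_of_dvd' ⟨C (b / a), by rw [mul_comm]; exact e⟩ dvd_rfl
    have hB : B.natDegree = 0 := natDegree_eq_zero_of_isUnit hu
    have hA : A.natDegree = 0 := by
      have : A.natDegree ≤ 0 := by
        calc A.natDegree = (C (b / a) * B).natDegree := by rw [← e]
          _ ≤ B.natDegree := natDegree_C_mul_le _ _
          _ = 0 := hB
      omega
    simp [hA, hB]
  rcases hab with ha | hb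
  · have := key h ha h0
    omega
  · have h1 : C b * B - C a * A = 0 := by rw [← neg_sub, h0, neg_zero]
    have := key h.symm hb h1
    rw [max_comm] at this
    omega

theorem wron_ne {A B : ℂ[X]} (h : IsCoprime A B) (hd : 0 < max A.natDegree B.natDegree) :
    derivative A * B - A * derivative B ≠ 0 := by
  intro h0
  have e : derivative A * B = A * derivative B := sub_eq_zero.1 h0
  have key : ∀ {A B : ℂ[X]}, IsCoprime A B → derivative A * B = A * derivative B → A.natDegree = 0 := by
    intro A B h e
    have h1 : A ∣ derivative A := by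
      have : A ∣ derivative A * B := ⟨derivative B, e⟩
      exact h.dvd_of_dvd_mul_right this
    by_contra hA
    have hlt := natDegree_derivative_lt hA
    have h2 : derivative A ≠ 0 := by
      intro h2
      exact hA (derivative_eq_zero.1 h2)
    exact absurd (natDegree_le_of_dvd h1 h2) (by omega)
  have h1 := key h e
  have h2 := key h.symm (by linear_combination -e)
  omega

/-- a rational function which is injective outside a finite set has degree at most one -/
theorem deg_le_one {A B : ℂ[X]} (h : IsCoprime A B) (T : Finset ℂ)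
    (hT : ∀ t, t ∉ T → ∀ t', t' ∉ T → A.eval t * B.eval t' = A.eval t' * B.eval t → t = t') :
    max A.natDegree B.natDegree ≤ 1 := by
  classical
  by_contra hd2
  push Not at hd2
  set d := max A.natDegree B.natDegree with hd
  have hd0 : 0 < max A.natDegree B.natDegree := by omega
  set W := derivative A * B - A * derivative B with hW
  have hW0 : W ≠ 0 := wron_ne h hd0
  have hnz : ∀ s : ℂ, A.eval s ≠ 0 ∨ B.eval s ≠ 0 := by
    intro s
    by_contra hs
    push Not at hs
    obtain ⟨u, v, huv⟩ := h
    have := congrArg (eval s) huv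
    simp [hs.1, hs.2] at this
  have hB0 : B ≠ 0 := by
    rintro rfl
    have hu : IsUnit A := isCoprime_zero_right.1 h
    have := natDegree_eq_zero_of_isUnit hu
    simp [this] at hd0
  set E := C (A.coeff d) * B - C (B.coeff d) * A with hE
  have hE0 : E ≠ 0 := by
    have : A.coeff d ≠ 0 ∨ B.coeff d ≠ 0 := by
      rcases le_total A.natDegree B.natDegree with hle | hle
      · right
        have : d = B.natDegree := by rw [hd]; exact max_eq_right hle
        rw [this]
        exact leadingCoeff_ne_zero.2 hB0
      · left
        have e : d = A.natDegree := by rw [hd]; exact max_eq_left hle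
        rw [e]
        refine leadingCoeff_ne_zero.2 ?_
        rintro rfl
        simp at e
        omega
    exact lin_indep h.symm (by rw [max_comm]; exact hd0) this
  -- the bad set
  set bad : Finset ℂ := T ∪ W.roots.toFinset ∪ B.roots.toFinset ∪ E.roots.toFinset ∪
    (T ∪ W.roots.toFinset).biUnion (fun s => (C (B.eval s) * A - C (A.eval s) * B).roots.toFinset) with hbad
  obtain ⟨t₀, ht₀⟩ := Infinite.exists_notMem_finset bad
  simp only [hbad, Finset.mem_union, Finset.mem_biUnion, not_or, not_exists, not_and,
    Multiset.mem_toFinset] at ht₀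
  obtain ⟨⟨⟨⟨h1, h2⟩, h3⟩, h4⟩, h5⟩ := ht₀
  rw [mem_roots hW0] at h2
  rw [mem_roots hB0] at h3
  rw [mem_roots hE0] at h4
  have h5' : ∀ s, (s ∈ T ∨ s ∈ W.roots) → A.eval t₀ * B.eval s ≠ A.eval s * B.eval t₀ := by
    intro s hs e
    have := h5 s (by simpa [Finset.mem_union] using hs)
    rw [mem_roots (lin_indep h hd0 (hnz s).symm)] at this
    apply this
    simp only [IsRoot, eval_sub, eval_mul, eval_C]
    linear_combination e
  set G := C (B.eval t₀) * A - C (A.eval t₀) * B with hG
  have hGc : G.coeff d ≠ 0 := by
    intro hc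
    apply h4
    simp only [hG, coeff_sub, coeff_C_mul] at hc
    simp only [hE, IsRoot, eval_sub, eval_mul, eval_C]
    linear_combination hc
  have hG0 : G ≠ 0 := by
    rintro h0
    rw [h0] at hGc
    simp at hGc
  have hGd : G.natDegree = d := by
    refine le_antisymm ?_ (le_natDegree_of_ne_zero hGc)
    refine (natDegree_sub_le _ _).trans ?_
    refine max_le ?_ ?_
    · exact (natDegree_C_mul_le _ _).trans (le_max_left _ _)
    · exact (natDegree_C_mul_le _ _).trans (le_max_right _ _)
  have hroot : ∀ r, G.IsRoot r → r ∉ T ∧ ¬ (derivative G).IsRoot r := by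
    intro r hr
    have hr' : A.eval t₀ * B.eval r = A.eval r * B.eval t₀ := by
      simp only [hG, IsRoot, eval_sub, eval_mul, eval_C] at hr
      linear_combination -hr
    refine ⟨fun hrT => h5' r (Or.inl hrT) hr', fun hdr => ?_⟩
    have hWr : ¬ W.IsRoot r := by
      intro hw
      exact h5' r (Or.inr ((mem_roots hW0).2 hw)) hr'
    apply hWr
    simp only [hG, IsRoot, derivative_sub, derivative_mul, derivative_C, zero_mul, zero_add, eval_sub,
      eval_mul, eval_C] at hdr
    simp only [hW, IsRoot, eval_sub, eval_mul]
    have hb : B.eval t₀ ≠ 0 := h3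
    have : B.eval t₀ * (eval r (derivative A) * eval r B - eval r A * eval r (derivative B)) = 0 := by
      linear_combination (eval r B) * hdr + (eval r (derivative B)) * hr'
    exact (mul_eq_zero.1 this).resolve_left hb
  have hnodup : G.roots.Nodup := by
    rw [Multiset.nodup_iff_count_le_one]
    intro r
    rw [count_roots]
    by_contra hc
    push Not at hc
    have hr : G.IsRoot r := by
      by_contra hr
      rw [rootMultiplicity_eq_zero hr] at hc
      omega
    have := (one_lt_rootMultiplicity_iff_isRoot hG0).1 hc
    exact (hroot r hr).2 this.2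
  have hcard : G.roots.card = d := by
    rw [← hGd]
    exact (splits_iff_card_roots.1 (IsAlgClosed.splits G))
  have ht0 : t₀ ∈ G.roots.toFinset := by
    rw [Multiset.mem_toFinset, mem_roots hG0]
    simp only [hG, IsRoot, eval_sub, eval_mul, eval_C]
    ring
  have hc2 : 1 < G.roots.toFinset.card := by
    rw [Multiset.toFinset_card_of_nodup hnodup, hcard]
    omega
  obtain ⟨r, hr, hrne⟩ := Finset.exists_mem_ne hc2 t₀
  rw [Multiset.mem_toFinset, mem_roots hG0] at hr
  have hr' : A.eval t₀ * B.eval r = A.eval r * B.eval t₀ := by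
    simp only [hG, IsRoot, eval_sub, eval_mul, eval_C] at hr
    linear_combination -hr
  exact hrne (hT t₀ h1 r (hroot r (by
    simp only [hG, IsRoot, eval_sub, eval_mul, eval_C]
    linear_combination -hr')).1 hr').symm

end H26E
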