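import Mathlib
import Pool.Agent.Helper26.EC.Exist
import Pool.Agent.Helper26.EC.Luroth
import Pool.Agent.Helper26.EC.J_core
import Pool.Agent.Helper26.EC.J_lemmaK

set_option autoImplicit false

open Polynomial

namespace H26E

theorem fib_natDegree_le (A B : ℂ[X]) (a : OnePoint ℂ) : (fib A B a).natDegree ≤ dg A B := by
  cases a with
  | infty => exact le_max_right _ _
  | coe a =>
    refine (natDegree_sub_le _ _).trans (max_le (le_max_left _ _) ?_)
    exact (natDegree_C_mul_le _ _).trans (le_max_right _ _)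

theorem gcd_le_one {f g : ℂ[X]} (hf : f.natDegree = 0) (hg : g.natDegree ≤ 1) :
    (EuclideanDomain.gcd f g).natDegree ≤ 1 := by
  by_cases h : f = 0
  · rw [h, EuclideanDomain.gcd_zero_left]
    exact hg
  · have := natDegree_le_of_dvd (EuclideanDomain.gcd_dvd_left f g) h
    omega

theorem gcd_le_one' {f g : ℂ[X]} (hf : f.natDegree ≤ 1) (hg : g.natDegree = 0) :
    (EuclideanDomain.gcd f g).natDegree ≤ 1 := by
  by_cases h : g = 0
  · rw [h, EuclideanDomain.gcd_zero_right]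
    exact hf
  · have := natDegree_le_of_dvd (EuclideanDomain.gcd_dvd_right f g) h
    omega

theorem const_rel {A B : ℂ[X]} (h : dg A B = 0) (t t' : ℂ) :
    A.eval t * B.eval t' = A.eval t' * B.eval t := by
  have hA : A.natDegree = 0 := by
    have := le_max_left A.natDegree B.natDegree
    unfold dg at h
    omega
  have hB : B.natDegree = 0 := by
    have := le_max_right A.natDegree B.natDegree
    unfold dg at h
    omega
  rw [eq_C_of_natDegree_eq_zero hA, eq_C_of_natDegree_eq_zero hB]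
  simp

theorem nonconst {A B G H : ℂ[X]} {S : Finset (OnePoint ℂ × OnePoint ℂ)} {n : ℕ} (h1 : IsCoprime A B)
    (h2 : IsCoprime G H) (hi : GenInj A B G H) (hn : S.card < n)
    (h : 2 * dg A B + 2 * dg G H + n ≤ ∑ p ∈ S, mlt A B G H p) : 0 < dg A B ∧ 0 < dg G H := by
  obtain ⟨T, hT⟩ := hi
  constructor
  · by_contra h0
    have h0 : dg A B = 0 := by omega
    have hd : dg G H ≤ 1 := deg_le_one h2 T (fun t ht t' ht' e => hT t ht t' ht' (const_rel h0 t t') e)
    have hm : ∀ p ∈ S, mlt A B G H p ≤ 1 := by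
      intro p _
      refine gcd_le_one ?_ ((fib_natDegree_le G H p.2).trans hd)
      have := fib_natDegree_le A B p.1
      omega
    have h3 : ∑ p ∈ S, mlt A B G H p ≤ S.card := by
      simpa using Finset.sum_le_card_nsmul S _ 1 hm
    omega
  · by_contra h0
    have h0 : dg G H = 0 := by omega
    have hd : dg A B ≤ 1 := deg_le_one h1 T (fun t ht t' ht' e => hT t ht t' ht' e (const_rel h0 t t'))
    have hm : ∀ p ∈ S, mlt A B G H p ≤ 1 := by
      intro p _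
      refine gcd_le_one' ((fib_natDegree_le A B p.1).trans hd) ?_
      have := fib_natDegree_le G H p.2
      omega
    have h3 : ∑ p ∈ S, mlt A B G H p ≤ S.card := by
      simpa using Finset.sum_le_card_nsmul S _ 1 hm
    omega

theorem main (S₀ : Finset (OnePoint ℂ × OnePoint ℂ)) :
    ∃ S : Finset (OnePoint ℂ × OnePoint ℂ), S₀ ⊆ S ∧ ∀ n : ℕ, ∃ A₁ B₁ A₂ B₂ : ℂ[X],
      IsCoprime A₁ B₁ ∧ IsCoprime A₂ B₂ ∧ 0 < dg A₁ B₁ ∧ 0 < dg A₂ B₂ ∧ GenInj A₁ B₁ A₂ B₂ ∧
      2 * dg A₁ B₁ + 2 * dg A₂ B₂ + n ≤ ∑ p ∈ S, mlt A₁ B₁ A₂ B₂ p := by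
  classical
  obtain ⟨e₁, e₂, e₃, S, h12, h13, h23, hS, hn⟩ := exists_kit.core
  obtain ⟨S', hS'⟩ := lemmaK h12 h13 h23 S hS
  refine ⟨S' ∪ S₀, Finset.subset_union_right, fun n => ?_⟩
  obtain ⟨A, B, G, H, M, W, T, c1, c2, c3, c4, c5, c6⟩ := hn (n + ((S' ∪ S₀).card + 1))
  obtain ⟨A₁, B₁, A₂, B₂, a1, a2, a3, a4⟩ := hS' A B G H M W T _ c1 c2 c3 c4 c5 c6
  have hsum : ∑ p ∈ S', mlt A₁ B₁ A₂ B₂ p ≤ ∑ p ∈ S' ∪ S₀, mlt A₁ B₁ A₂ B₂ p :=
    Finset.sum_le_sum_of_subset Finset.subset_union_left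
  have h := a4.trans hsum
  obtain ⟨b1, b2⟩ := nonconst a1 a2 a3 (n := n + ((S' ∪ S₀).card + 1)) (by omega) h
  exact ⟨A₁, B₁, A₂, B₂, a1, a2, b1, b2, a3, by omega⟩

end H26E
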