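import Mathlib
import Pool.Agent.Helper26.EC.Base

set_option autoImplicit false

open Polynomial Filter Topology

namespace H26E

variable {P Q : ℂ → ℂ} {Λ : AddSubgroup ℂ} {ζ g : ℂ}

namespace J_X_top

theorem main (K : Kit P Q Λ ζ g) {m : ℕ} (hm : 1 ≤ m) :
    Tendsto (fun z => P (m * z)) (𝓝[≠] 0) (Bornology.cobounded ℂ) := by
  have hn0 : (m : ℂ) ≠ 0 := by exact_mod_cast (by omega : m ≠ 0)
  have ht : Tendsto (fun z : ℂ => (m : ℂ) * z) (𝓝[≠] 0) (𝓝[≠] 0) := by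
    refine tendsto_nhdsWithin_of_tendsto_nhds_of_eventually_within _ ?_ ?_
    · have h1 : Tendsto (fun z : ℂ => (m : ℂ) * z) (𝓝 0) (𝓝 ((m : ℂ) * 0)) :=
        (continuous_const.mul continuous_id).tendsto 0
      rw [mul_zero] at h1
      exact h1.mono_left nhdsWithin_le_nhds
    · filter_upwards [self_mem_nhdsWithin] with z hz
      exact mul_ne_zero hn0 hz
  have h1 : Tendsto (fun z : ℂ => ‖((m : ℂ) * z) ^ 2 * P (m * z)‖) (𝓝[≠] 0) (𝓝 1) := by
    have := (K.poleP.comp ht).norm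
    simpa using this
  have h2 : Tendsto (fun z : ℂ => ‖(((m : ℂ) * z) ^ 2)‖⁻¹) (𝓝[≠] 0) atTop := by
    apply Tendsto.inv_tendsto_nhdsGT_zero
    refine tendsto_nhdsWithin_of_tendsto_nhds_of_eventually_within _ ?_ ?_
    · have h3 : Tendsto (fun z : ℂ => ‖((m : ℂ) * z) ^ 2‖) (𝓝 0) (𝓝 ‖((m : ℂ) * 0) ^ 2‖) :=
        (by fun_prop : Continuous fun z : ℂ => ‖((m : ℂ) * z) ^ 2‖).tendsto 0
      have h4 : ‖((m : ℂ) * 0) ^ 2‖ = 0 := by simp
      rw [h4] at h3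
      exact h3.mono_left nhdsWithin_le_nhds
    · filter_upwards [self_mem_nhdsWithin] with z hz
      exact norm_pos_iff.mpr (pow_ne_zero 2 (mul_ne_zero hn0 hz))
  rw [← tendsto_norm_atTop_iff_cobounded]
  refine (h1.pos_mul_atTop one_pos h2).congr' ?_
  filter_upwards [self_mem_nhdsWithin] with z hz
  have h5 : ‖((m : ℂ) * z) ^ 2‖ ≠ 0 := norm_ne_zero_iff.mpr (pow_ne_zero 2 (mul_ne_zero hn0 hz))
  rw [norm_mul, mul_comm ‖((m : ℂ) * z) ^ 2‖, mul_assoc, mul_inv_cancel₀ h5, mul_one]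

end J_X_top

alias Kit.X_top := J_X_top.main

end H26E
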