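import Mathlib
import Pool.Agent.Helper26.EC.KDefs
import Pool.Agent.Helper26.EC.KPar
import Pool.Agent.Helper26.EC.J_natDegree_gcd
import Pool.Agent.Helper26.EC.J_rootMultiplicity_gcd
import Pool.Agent.Helper26.EC.J_lemmaM

set_option autoImplicit false

open Polynomial

namespace H26E


namespace J_mult_near3

theorem mn3_h3 {R : Type*} [CommRing R] {a b γ g₁ g₂ u₀ u₁ v₀ v₁ e x₁ x₂ r₁ r₂ ρ₁ ρ₂ ρ₃ ρ₄ c : R}
    (hA : a = e * b) (h0 : a - x₁ * b = g₁ * u₀) (h1 : γ = g₁ * v₁)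
    (h2 : a - x₂ * b = g₂ * u₁) (h3 : γ = g₂ * v₀)
    (hρ : ρ₃ * (e - x₂) = e - x₁)
    (hc : c * ((ρ₃ - ρ₁) * (ρ₃ - ρ₂)) = -(ρ₃ * (r₂ - r₁) * (ρ₃ - ρ₄))) :
    (g₁ * g₂) * ((g₁ * g₂) * (-(c * ((u₀ * v₀ - ρ₁ * (u₁ * v₁)) * (u₀ * v₀ - ρ₂ * (u₁ * v₁))))) -
      γ * (-(r₂ * (a - x₁ * b) - ρ₃ * r₁ * (a - x₂ * b))) *
        (-(u₀ * v₀ - ρ₄ * (u₁ * v₁)))) = 0 := by
  have hL : ∀ ρ, (g₁ * g₂) * (u₀ * v₀ - ρ * (u₁ * v₁)) = γ * b * (e - x₂) * (ρ₃ - ρ) := by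
    intro ρ
    have h4 : (g₁ * g₂) * (u₀ * v₀ - ρ * (u₁ * v₁)) =
        (g₁ * u₀) * (g₂ * v₀) - ρ * ((g₂ * u₁) * (g₁ * v₁)) := by ring
    rw [h4, ← h0, ← h3, ← h2, ← h1, hA]
    linear_combination -(γ * b) * hρ
  have hZ : -(r₂ * (a - x₁ * b) - ρ₃ * r₁ * (a - x₂ * b)) = -(b * ρ₃ * (e - x₂) * (r₂ - r₁)) := by
    rw [hA]
    linear_combination (b * r₂) * hρ
  rw [hZ]
  have h5 : (g₁ * g₂) * ((g₁ * g₂) * (-(c * ((u₀ * v₀ - ρ₁ * (u₁ * v₁)) *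
      (u₀ * v₀ - ρ₂ * (u₁ * v₁))))) -
      γ * (-(b * ρ₃ * (e - x₂) * (r₂ - r₁))) * (-(u₀ * v₀ - ρ₄ * (u₁ * v₁)))) =
      -(c * (((g₁ * g₂) * (u₀ * v₀ - ρ₁ * (u₁ * v₁))) *
        ((g₁ * g₂) * (u₀ * v₀ - ρ₂ * (u₁ * v₁))))) -
      γ * (b * ρ₃ * (e - x₂) * (r₂ - r₁)) * ((g₁ * g₂) * (u₀ * v₀ - ρ₄ * (u₁ * v₁))) := by ring
  rw [h5, hL, hL, hL]
  linear_combination -(γ ^ 2 * b ^ 2 * (e - x₂) ^ 2) * hc

theorem main {e₁ e₂ e₃ : ℂ} {S : Finset (ℂ × ℂ)} {x₁ x₂ r₁ r₂ ρ₁ ρ₂ ρ₃ ρ₄ : ℂ}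
    (hp : Par e₁ e₂ e₃ S x₁ x₂ r₁ r₂ ρ₁ ρ₂ ρ₃ ρ₄) {A B G H : ℂ[X]} (hc : Cur A B G H)
    {g₁ g₂ u₀ u₁ v₀ v₁ L₁ L₂ L₃ L₄ l₁ l₂ l₃ l₄ G' H' : ℂ[X]}
    (ht : Tra A B G H x₁ x₂ r₁ r₂ ρ₁ ρ₂ ρ₃ ρ₄ g₁ g₂ u₀ u₁ v₀ v₁ L₁ L₂ L₃ L₄ l₁ l₂ l₃ l₄ G' H') :
    (EuclideanDomain.gcd (A - C e₁ * B) (H ^ 2)).natDegree ≤
      mlt (u₀ * v₀) (u₁ * v₁) (G' * l₃ * l₄) (H' * l₁ * l₂) (some ρ₃, some
        (-(ρ₃ * (r₂ - r₁) * (ρ₃ - ρ₄)) / ((ρ₃ - ρ₁) * (ρ₃ - ρ₂)))) +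
      (EuclideanDomain.gcd H L₃).natDegree := by
  obtain ⟨c, hcdef⟩ : ∃ c : ℂ, c = -(ρ₃ * (r₂ - r₁) * (ρ₃ - ρ₄)) / ((ρ₃ - ρ₁) * (ρ₃ - ρ₂)) :=
    ⟨_, rfl⟩
  rw [← hcdef]
  have h31 : ρ₃ - ρ₁ ≠ 0 := sub_ne_zero.2 (Ne.symm hp.h13)
  have h32 : ρ₃ - ρ₂ ≠ 0 := sub_ne_zero.2 (Ne.symm hp.h23)
  have h34 : ρ₃ - ρ₄ ≠ 0 := sub_ne_zero.2 hp.h34
  have hr : r₂ - r₁ ≠ 0 := sub_ne_zero.2 (Ne.symm hp.hr)
  have hρ30 : ρ₃ ≠ 0 := hp.h0.2.2.1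
  have hex : e₁ - x₂ ≠ 0 := sub_ne_zero.2 (Ne.symm hp.hx2.1)
  have hceq : c * ((ρ₃ - ρ₁) * (ρ₃ - ρ₂)) = -(ρ₃ * (r₂ - r₁) * (ρ₃ - ρ₄)) := by
    rw [hcdef, div_mul_cancel₀ _ (mul_ne_zero h31 h32)]
  have hc0 : c ≠ 0 := by
    rw [hcdef]
    exact div_ne_zero (neg_ne_zero.2 (mul_ne_zero (mul_ne_zero hρ30 hr) h34))
      (mul_ne_zero h31 h32)
  have hρ : ρ₃ * (e₁ - x₂) = e₁ - x₁ := by
    rw [hp.e3, div_mul_cancel₀ _ hex]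
  have hκ : (1 - ρ₃ : ℂ) ≠ 0 := by
    rw [sub_ne_zero, ← hp.e4]
    exact Ne.symm hp.h34
  -- nonvanishing
  have hE0 : A - C e₁ * B ≠ 0 := by
    intro h
    have h1 : A = C e₁ * B := sub_eq_zero.1 h
    have h2 : A.natDegree ≤ B.natDegree := by
      rw [h1]; exact natDegree_C_mul_le _ _
    have := hc.dAB
    omega
  have hH0 : H ≠ 0 := by
    intro h
    have := hc.dGH
    rw [h, natDegree_zero] at this
    omega
  have hF0 : G' * l₃ * l₄ - C c * (H' * l₁ * l₂) ≠ 0 := by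
    intro h
    have h1 := sub_eq_zero.1 h
    have h2 := ht.dN
    rw [h1, natDegree_C_mul hc0] at h2
    exact lt_irrefl _ h2
  -- evaluation facts
  have hGt : ∀ t, H.eval t = 0 → G.eval t ≠ 0 := by
    intro t hHt hGt
    obtain ⟨a, b, hab⟩ := hc.hGH
    have := congrArg (Polynomial.eval t) hab
    rw [eval_add, eval_mul, eval_mul, hHt, hGt, eval_one] at this
    simp at this
  have hAB : ∀ t, A.eval t = 0 → B.eval t ≠ 0 := by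
    intro t hAt hBt
    obtain ⟨a, b, hab⟩ := hc.hAB
    have := congrArg (Polynomial.eval t) hab
    rw [eval_add, eval_mul, eval_mul, hAt, hBt, eval_one] at this
    simp at this
  have h34t : ∀ t, L₃.eval t = 0 → L₄.eval t ≠ 0 := by
    intro t h3t h4t
    obtain ⟨a, b, hab⟩ := ht.c34
    have := congrArg (Polynomial.eval t) hab
    rw [eval_add, eval_mul, eval_mul, h3t, h4t, eval_one] at this
    simp at this
  have hdvd : ∀ (P Q : ℂ[X]) (t : ℂ), P ∣ Q → Q.eval t ≠ 0 → P.eval t ≠ 0 := by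
    rintro P _ t ⟨R, rfl⟩ hQ hP
    rw [eval_mul, hP, zero_mul] at hQ
    exact hQ rfl
  have hgcd0 : ∀ P Q : ℂ[X], Q ≠ 0 → EuclideanDomain.gcd P Q ≠ 0 := by
    intro P Q hQ h
    exact hQ (EuclideanDomain.gcd_eq_zero_iff.1 h).2
  have hmain := lemmaM (E := A - C e₁ * B) (V := H) (V' := G) (L := L₃)
    (F := G' * l₃ * l₄ - C c * (H' * l₁ * l₂)) (g := g₁ * g₂)
    (Γ := EuclideanDomain.gcd G L₁ * EuclideanDomain.gcd G L₂ *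
      (EuclideanDomain.gcd H L₃ * EuclideanDomain.gcd H L₄))
    (Z := -(C r₂ * (A - C x₁ * B) - C ρ₃ * C r₁ * (A - C x₂ * B)))
    (Y₁ := -(C c * (L₁ * L₂))) (Y₂ := -L₄) (κ := 1 - ρ₃)
    hE0 hH0 ht.hL.2.2.1 hF0 hκ hc.hGH.symm ?_ ?_ ?_ ?_ ?_ ?_ ?_
  · have e0 : mlt (u₀ * v₀) (u₁ * v₁) (G' * l₃ * l₄) (H' * l₁ * l₂) (some ρ₃, some c) =
        (EuclideanDomain.gcd L₃ (G' * l₃ * l₄ - C c * (H' * l₁ * l₂))).natDegree := by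
      rw [ht.l3]; rfl
    rw [e0]
    exact hmain
  · -- h1
    have hCρ : C ρ₃ * (C e₁ - C x₂) = C e₁ - C x₁ := by
      rw [← C_sub, ← C_mul, hρ, C_sub]
    have h1 : g₁ * g₂ * L₃ = (A - C x₁ * B) * (G - C r₂ * H) -
        C ρ₃ * ((A - C x₂ * B) * (G - C r₁ * H)) := by
      rw [ht.a0, ht.a1, ht.a2, ht.a3, ht.l3]; ring
    rw [h1, C_sub, C_1]
    linear_combination -(G * B) * hCρ
  · -- h2
    have e1 : EuclideanDomain.gcd G L₁ * EuclideanDomain.gcd G L₂ *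
      (EuclideanDomain.gcd H L₃ * EuclideanDomain.gcd H L₄) *
        (G' * l₃ * l₄ - C c * (H' * l₁ * l₂)) =
        (EuclideanDomain.gcd G L₁ * EuclideanDomain.gcd G L₂ * G') *
          (EuclideanDomain.gcd H L₃ * l₃) * (EuclideanDomain.gcd H L₄ * l₄) -
        C c * ((EuclideanDomain.gcd H L₃ * EuclideanDomain.gcd H L₄ * H') *
          (EuclideanDomain.gcd G L₁ * l₁) * (EuclideanDomain.gcd G L₂ * l₂)) := by ring
    rw [e1, ← ht.m1, ← ht.m2, ← ht.m3, ← ht.m4, ← ht.mG, ← ht.mH]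
    ring
  · -- h3
    intro d hdE hdH
    rw [← Ideal.Quotient.eq_zero_iff_dvd] at hdE hdH ⊢
    obtain ⟨φ, hφ⟩ : ∃ φ : ℂ[X] →+* ℂ[X] ⧸ Ideal.span {d},
      φ = Ideal.Quotient.mk (Ideal.span {d}) := ⟨_, rfl⟩
    rw [← hφ] at hdE hdH ⊢
    have hA : φ A = φ (C e₁) * φ B := by
      rw [map_sub, map_mul] at hdE
      exact sub_eq_zero.1 hdE
    have k0 : φ A - φ (C x₁) * φ B = φ g₁ * φ u₀ := by
      rw [← map_mul, ← map_sub, ht.a0, map_mul]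
    have k1 : φ G = φ g₁ * φ v₁ := by
      rw [← map_mul, ← ht.a1, map_sub, map_mul, hdH, mul_zero, sub_zero]
    have k2 : φ A - φ (C x₂) * φ B = φ g₂ * φ u₁ := by
      rw [← map_mul, ← map_sub, ht.a2, map_mul]
    have k3 : φ G = φ g₂ * φ v₀ := by
      rw [← map_mul, ← ht.a3, map_sub, map_mul, hdH, mul_zero, sub_zero]
    have kρ : φ (C ρ₃) * (φ (C e₁) - φ (C x₂)) = φ (C e₁) - φ (C x₁) := by
      have := congrArg (fun z : ℂ => φ (C z)) hρ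
      simpa only [C_mul, C_sub, map_mul, map_sub] using this
    have kc : φ (C c) * ((φ (C ρ₃) - φ (C ρ₁)) * (φ (C ρ₃) - φ (C ρ₂))) =
        -(φ (C ρ₃) * (φ (C r₂) - φ (C r₁)) * (φ (C ρ₃) - φ (C ρ₄))) := by
      have := congrArg (fun z : ℂ => φ (C z)) hceq
      simpa only [C_mul, C_sub, C_neg, map_mul, map_sub, map_neg] using this
    have := mn3_h3 (r₁ := φ (C r₁)) (ρ₄ := φ (C ρ₄)) hA k0 k1 k2 k3 kρ kc
    rw [ht.l1, ht.l2, ht.l4]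
    simpa only [map_mul, map_sub, map_neg] using this
  · -- h4
    intro t hHt
    rw [eval_mul]
    refine mul_ne_zero ?_ ?_
    · intro h
      have h1 := congrArg (Polynomial.eval t) ht.a1
      rw [eval_sub, eval_mul, eval_mul, hHt, h, mul_zero, sub_zero, zero_mul] at h1
      exact hGt t hHt h1
    · intro h
      have h1 := congrArg (Polynomial.eval t) ht.a3
      rw [eval_sub, eval_mul, eval_mul, hHt, h, mul_zero, sub_zero, zero_mul] at h1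
      exact hGt t hHt h1
  · -- h5
    intro t hHt hEt hZt
    rw [eval_sub, eval_mul, eval_C, sub_eq_zero] at hEt
    have hBt : B.eval t ≠ 0 := by
      intro h
      rw [h, mul_zero] at hEt
      exact hAB t hEt h
    rw [eval_neg, eval_sub, eval_mul, eval_mul, eval_mul, eval_sub, eval_sub, eval_mul, eval_mul,
      eval_C, eval_C, eval_C, eval_C, eval_C, hEt] at hZt
    have h1 : B.eval t * ρ₃ * (e₁ - x₂) * (r₂ - r₁) = 0 := by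
      linear_combination -hZt + (B.eval t * r₂) * hρ
    rcases mul_eq_zero.1 h1 with h2 | h2
    · rcases mul_eq_zero.1 h2 with h3 | h3
      · rcases mul_eq_zero.1 h3 with h4 | h4
        · exact hBt h4
        · exact hρ30 h4
      · exact hex h3
    · exact hr h2
  · -- hΓ
    exact mul_ne_zero (mul_ne_zero (hgcd0 _ _ ht.hL.1) (hgcd0 _ _ ht.hL.2.1))
      (mul_ne_zero (hgcd0 _ _ ht.hL.2.2.1) (hgcd0 _ _ ht.hL.2.2.2))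
  · -- h6
    intro t hHt h3t
    have q1 := hgcd0 G _ ht.hL.1
    have q2 := hgcd0 G _ ht.hL.2.1
    have q3 := hgcd0 H _ ht.hL.2.2.1
    have q4 := hgcd0 H _ ht.hL.2.2.2
    rw [rootMultiplicity_mul (mul_ne_zero (mul_ne_zero q1 q2) (mul_ne_zero q3 q4)),
      rootMultiplicity_mul (mul_ne_zero q1 q2), rootMultiplicity_mul (mul_ne_zero q3 q4)]
    have z1 : (EuclideanDomain.gcd G L₁).rootMultiplicity t = 0 :=
      rootMultiplicity_eq_zero (hdvd _ _ t (EuclideanDomain.gcd_dvd_left _ _) (hGt t hHt))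
    have z2 : (EuclideanDomain.gcd G L₂).rootMultiplicity t = 0 :=
      rootMultiplicity_eq_zero (hdvd _ _ t (EuclideanDomain.gcd_dvd_left _ _) (hGt t hHt))
    have z4 : (EuclideanDomain.gcd H L₄).rootMultiplicity t = 0 :=
      rootMultiplicity_eq_zero (hdvd _ _ t (EuclideanDomain.gcd_dvd_right _ _) (h34t t h3t))
    rw [z1, z2, z4, rootMultiplicity_gcd H L₃ hH0 ht.hL.2.2.1]
    simp

end J_mult_near3

alias mult_near3 := J_mult_near3.main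

end H26E
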