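import Mathlib
import Pool.Agent.Helper26.EC.Base
import Pool.Agent.Helper26.EC.J_int_div
import Pool.Agent.Helper26.EC.J_indep
import Pool.Agent.Helper26.EC.J_fifth
import Pool.Agent.Helper26.EC.J_fifth_mul
import Pool.Agent.Helper26.EC.J_zeta_pow_mem

set_option autoImplicit false

open Polynomial Filter Topology

namespace H26E

variable {P Q : ℂ → ℂ} {Λ : AddSubgroup ℂ} {ζ g : ℂ}

namespace J_zeros

theorem int_mem (K : Kit P Q Λ ζ g) (n : ℤ) : ((n : ℤ) : ℂ) ∈ Λ :=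
  (K.mem _).2 ⟨n, 0, by simp⟩

theorem div_notMem (K : Kit P Q Λ ζ g) {m' : ℕ} (hm : 0 < m') (n : ℤ) (hn : ¬ (3 : ℤ) ∣ n) :
    (n : ℂ) / ((3 * m' : ℕ) : ℂ) ∉ Λ := by
  intro h
  have h1 : ((n : ℂ) + ((0 : ℤ) : ℂ) * ζ) / (((3 * m' : ℕ) : ℤ) : ℂ) ∈ Λ := by
    have : ((n : ℂ) + ((0 : ℤ) : ℂ) * ζ) / (((3 * m' : ℕ) : ℤ) : ℂ) = (n : ℂ) / ((3 * m' : ℕ) : ℂ) := by
      push_cast
      ring
    rw [this]; exact h
  have h2 := (K.int_div ((3 * m' : ℕ) : ℤ) n 0 (by positivity) h1).1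
  apply hn
  refine dvd_trans ?_ h2
  push_cast
  exact Dvd.intro _ rfl

/-- zeros of `U` at torsion points -/
theorem main (K : Kit P Q Λ ζ g) {N m' : ℕ} (hm : m' % 5 = 2) (hN : N = 3 * m' + 1) :
    (∀ i, i < m' → ((3 * i + 1 : ℕ) : ℂ) / ((3 * m' : ℕ) : ℂ) ∉ Λ ∧
      (N : ℂ) * (((3 * i + 1 : ℕ) : ℂ) / ((3 * m' : ℕ) : ℂ)) ∉ Λ ∧
      Q (1 / 5) ^ 2 - Q (N * (((3 * i + 1 : ℕ) : ℂ) / ((3 * m' : ℕ) : ℂ))) *
        Q (((3 * i + 1 : ℕ) : ℂ) / ((3 * m' : ℕ) : ℂ)) ≠ 0 ∧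
      Uf Q (Q (1 / 5)) N (((3 * i + 1 : ℕ) : ℂ) / ((3 * m' : ℕ) : ℂ)) = 0 ∧
      ((N * m' : ℕ) : ℂ) * (((3 * i + 1 : ℕ) : ℂ) / ((3 * m' : ℕ) : ℂ)) - 1 / 3 ∈ Λ) ∧
    ∀ i, i < m' → ∀ j, j < m' → P (((3 * i + 1 : ℕ) : ℂ) / ((3 * m' : ℕ) : ℂ)) =
      P (((3 * j + 1 : ℕ) : ℂ) / ((3 * m' : ℕ) : ℂ)) → i = j := by
  have hm0 : 0 < m' := by omega
  have hmC : (m' : ℂ) ≠ 0 := by exact_mod_cast hm0.ne'
  have hnot : ∀ i : ℕ, ((3 * i + 1 : ℕ) : ℂ) / ((3 * m' : ℕ) : ℂ) ∉ Λ := by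
    intro i
    have := div_notMem K hm0 ((3 * i + 1 : ℕ) : ℤ) (by omega)
    rwa [Int.cast_natCast] at this
  refine ⟨fun i hi => ?_, fun i hi j hj hP => ?_⟩
  · obtain ⟨z, hz⟩ : ∃ z : ℂ, z = ((3 * i + 1 : ℕ) : ℂ) / ((3 * m' : ℕ) : ℂ) := ⟨_, rfl⟩
    have hzn : z ∉ Λ := by rw [hz]; exact hnot i
    have hmul : ((3 * m' : ℕ) : ℂ) * z = ((3 * i + 1 : ℕ) : ℂ) := by
      rw [hz]
      push_cast
      field_simp
    have hNz : (N : ℂ) * z = z + (((3 * i + 1 : ℕ) : ℤ) : ℂ) := by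
      have : (N : ℂ) * z = ((3 * m' : ℕ) : ℂ) * z + z := by
        rw [hN]; push_cast; ring
      rw [this, hmul]
      push_cast
      ring
    have hQ : Q ((N : ℂ) * z) = Q z := by
      rw [hNz, K.perQ z _ (int_mem K _)]
    rw [← hz]
    have hne : Q (1 / 5) ^ 2 - Q ((N : ℂ) * z) * Q z ≠ 0 := by
      rw [hQ]
      intro h
      have h1 : Q z ^ 2 = Q (1 / 5) ^ 2 := by
        rw [sub_eq_zero] at h
        rw [h]; ring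
      obtain ⟨j, hj, s, hs, hjs⟩ := K.fifth hzn h1
      have h5 : ¬ (5 : ℤ) ∣ ((3 * m' : ℕ) : ℤ) := by omega
      have h2 := (K.fifth_mul hj hs hjs h5).1
      apply h2
      have h3 : ((((3 * m' : ℕ) : ℤ)) : ℂ) * z = (((3 * i + 1 : ℕ) : ℤ) : ℂ) := by
        exact_mod_cast hmul
      rw [h3]
      exact int_mem K _
    refine ⟨hzn, ?_, hne, ?_, ?_⟩
    · intro h
      apply hzn
      have h1 : z = (N : ℂ) * z - (((3 * i + 1 : ℕ) : ℤ) : ℂ) := by rw [hNz]; ring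
      rw [h1]
      exact Λ.sub_mem h (int_mem K _)
    · unfold Uf
      rw [hQ, sub_self, mul_zero, zero_div]
    · have h1 : ((N * m' : ℕ) : ℂ) * z - 1 / 3 = (((m' * (3 * i + 1) + i : ℕ) : ℤ) : ℂ) := by
        have h2 : ((N * m' : ℕ) : ℂ) * z = (N : ℂ) / 3 * (((3 * m' : ℕ) : ℂ) * z) := by
          push_cast; ring
        rw [h2, hmul, hN]
        push_cast
        ring
      rw [h1]
      exact int_mem K _
  · rcases K.inj _ _ (hnot i) (hnot j) hP with h | h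
    · have h1 : (((3 * ((i : ℤ) - j) : ℤ) : ℂ) + ((0 : ℤ) : ℂ) * ζ) / (((3 * m' : ℕ) : ℤ) : ℂ) ∈ Λ := by
        have h2 : (((3 * ((i : ℤ) - j) : ℤ) : ℂ) + ((0 : ℤ) : ℂ) * ζ) / (((3 * m' : ℕ) : ℤ) : ℂ) =
            ((3 * i + 1 : ℕ) : ℂ) / ((3 * m' : ℕ) : ℂ) - ((3 * j + 1 : ℕ) : ℂ) / ((3 * m' : ℕ) : ℂ) := by
          push_cast
          ring
        rw [h2]; exact h
      have h3 := (K.int_div ((3 * m' : ℕ) : ℤ) _ 0 (by positivity) h1).1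
      push_cast at h3
      have h4 : (m' : ℤ) ∣ (i : ℤ) - j := (mul_dvd_mul_iff_left (by norm_num)).1 h3
      have h5 : |(i : ℤ) - j| < m' := by
        rw [abs_lt]; constructor <;> omega
      have h6 := Int.eq_zero_of_abs_lt_dvd h4 h5
      omega
    · exfalso
      have h1 := div_notMem K hm0 ((3 * (i + j) + 2 : ℕ) : ℤ) (by omega)
      apply h1
      have h2 : ((((3 * (i + j) + 2 : ℕ) : ℤ)) : ℂ) / ((3 * m' : ℕ) : ℂ) =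
          ((3 * i + 1 : ℕ) : ℂ) / ((3 * m' : ℕ) : ℂ) + ((3 * j + 1 : ℕ) : ℂ) / ((3 * m' : ℕ) : ℂ) := by
        push_cast
        ring
      rw [h2]; exact h

end J_zeros

alias Kit.zeros := J_zeros.main

end H26E
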